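import Pool.Agent.H83.TK.SubD
import Pool.Agent.H83.TU.PC

/-!
# THEOREM K, chapter T1: the exact sequence of a prime divisor

`SPr X z S`: the closure of the point `z` is the effective Cartier divisor `S`: `S.eq x` generates the kernel of the
map from `O x` to `κ(z)` if `z ⤳ x`, and is a unit if not.
`ex_ker`: the kernel of `resS hX z D 1 : L(D) → L(resD D)` is `L(D - S)`.
`pdiv_spr`: prime divisors of factorial threefolds (`PDiv`, `Hyp` of `H83/TU`) satisfy this.
-/

set_option autoImplicit false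

namespace Pool.Agent.H83.TK

open Pool.Agent.H54.RV Pool.Agent.H83.TU

variable {k K : Type} [Field k] [Field K] [Algebra k K] {X : Mod k K}

/-- the closure of the point `z` is the effective Cartier divisor `S` -/
structure SPr (X : Mod k K) (z : X.P) (S : Cart X) : Prop where
  eff : Effective S
  un : ∀ x, ¬ z ⤳ x → Un (X.O x) (S.eq x)
  nun : ∀ x, z ⤳ x → ¬ Un (X.O z) (S.eq x)
  ker : ∀ x, z ⤳ x → ∀ a ∈ X.O x, ¬ Un (X.O z) a → a / S.eq x ∈ X.O x

theorem SPr.mem_iff {z : X.P} {S : Cart X} (h : SPr X z S) (hX : IsVar X) (x : X.P) {a : K} (ha : a ∈ X.O x) :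
    a / S.eq x ∈ X.O x ↔ (z ⤳ x → ¬ Un (X.O z) a) := by
  constructor
  · intro h1 hz h2
    have h3 : a = a / S.eq x * S.eq x := by
      have := S.ne x
      field_simp
    have hle := hX.spec _ _ hz
    rw [h3, un_mul_iff (hle h1) (hle (h.eff x))] at h2
    exact h.nun x hz h2.2
  · intro h1
    by_cases hz : z ⤳ x
    · exact h.ker x hz a ha (h1 hz)
    · have h2 := h.un x hz
      rw [div_eq_mul_inv]
      exact mul_mem ha h2.2.2

/-- the sections of `n D` which vanish at `z` are the sections of `n D - S` -/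
theorem ex_mem (hX : IsVar X) {z : X.P} {S : Cart X} (h : SPr X z S) (D : Cart X) (n : ℕ) (s : K) :
    s ∈ secL (D ^ n * S⁻¹) 1 ↔ s ∈ secL D n ∧ ¬ Un (X.O z) (s * D.eq z ^ n) := by
  have key : ∀ x, s * (D ^ n * S⁻¹).eq x ^ 1 = s * D.eq x ^ n / S.eq x := by
    intro x
    rw [pow_one, mul_eq, pow_eq, inv_eq, div_eq_mul_inv, mul_assoc]
  have hun : ∀ x, z ⤳ x → s * D.eq x ^ n ∈ X.O x → (Un (X.O z) (s * D.eq x ^ n) ↔ Un (X.O z) (s * D.eq z ^ n)) := by
    intro x hz hs
    have h1 := un_pow (quo_un D z x hz) n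
    have h2 : s * D.eq x ^ n = s * D.eq z ^ n * (D.eq x / D.eq z) ^ n := by
      have h3 := D.ne x
      have h4 := D.ne z
      rw [div_pow]
      field_simp
    rw [h2, un_mul_un h1]
  constructor
  · intro hs
    have h1 : ∀ x, s * D.eq x ^ n ∈ X.O x := by
      intro x
      have h2 := hs x
      rw [key] at h2
      have h3 : s * D.eq x ^ n = s * D.eq x ^ n / S.eq x * S.eq x := by
        have := S.ne x
        field_simp
      rw [h3]
      exact mul_mem h2 (h.eff x)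
    refine ⟨h1, ?_⟩
    have h2 := hs z
    rw [key, h.mem_iff hX z (h1 z)] at h2
    exact h2 specializes_rfl
  · rintro ⟨hs, h1⟩ x
    rw [key, h.mem_iff hX x (hs x)]
    intro hz
    rw [hun x hz (hs x)]
    exact h1

/-- the kernel of the restriction of sections -/
theorem ex_ker (hX : IsVar X) {z : X.P} {S : Cart X} (h : SPr X z S) (D : Cart X) (n : ℕ) (s : secL D n) :
    resS hX z D n s = 0 ↔ s.1 ∈ secL (D ^ n * S⁻¹) 1 := by
  rw [resS_zero, ex_mem hX h D n s.1]
  exact ⟨fun h1 => ⟨s.2, h1⟩, fun h1 => h1.2⟩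

/-- dimensions -/
theorem ex_dim (hX : IsVar X) {z : X.P} {S : Cart X} (h : SPr X z S) (D : Cart X) (n : ℕ)
    [FiniteDimensional k (secL D n)] :
    h0 D n = h0 (D ^ n * S⁻¹) 1 + Module.finrank k (LinearMap.range (resS hX z D n)) := by
  have h1 := LinearMap.finrank_range_add_finrank_ker (resS hX z D n)
  have h2 : Module.finrank k (LinearMap.ker (resS hX z D n)) = h0 (D ^ n * S⁻¹) 1 := by
    apply LinearEquiv.finrank_eq
    refine LinearEquiv.ofBijective
      ({ toFun := fun s => ⟨s.1.1, (ex_ker hX h D n s.1).1 s.2⟩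
         map_add' := fun _ _ => rfl
         map_smul' := fun _ _ => rfl } :
        LinearMap.ker (resS hX z D n) →ₗ[k] secL (D ^ n * S⁻¹) 1) ⟨?_, ?_⟩
    · intro a b hab
      have h4 : (a.1.1 : K) = b.1.1 := congrArg (fun t : secL (D ^ n * S⁻¹) 1 => (t : K)) hab
      exact Subtype.ext (Subtype.ext h4)
    · rintro ⟨s, hs⟩
      have h3 := ((ex_mem hX h D n s).1 hs).1
      exact ⟨⟨⟨s, h3⟩, (ex_ker hX h D n ⟨s, h3⟩).2 hs⟩, rfl⟩
  unfold h0 at h2 ⊢
  omega

theorem ex_le (hX : IsVar X) {z : X.P} {S : Cart X} (h : SPr X z S) (D : Cart X) (n : ℕ)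
    [FiniteDimensional k (secL D n)] [FiniteDimensional k (secL (resD hX z D) n)] :
    h0 D n ≤ h0 (D ^ n * S⁻¹) 1 + h0 (resD hX z D) n := by
  rw [ex_dim hX h D n]
  have := Submodule.finrank_le (LinearMap.range (resS hX z D n))
  unfold h0 at this ⊢
  omega

theorem pdiv_eq (h : Hyp X) (P : PDiv X) :
    ∃ S : Cart X, Effective S ∧ (∀ x, P.η ⤳ x → P.p.ord (S.eq x) = 1 ∧
      ∀ a ∈ X.O x, a ≠ 0 → (0 < P.p.ord a ↔ a / S.eq x ∈ X.O x)) ∧ ∀ x, ¬ P.η ⤳ x → S.eq x = 1 := by
  have hX := h.var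
  classical
  have hex : ∀ x, ∃ m : K, m ≠ 0 ∧ m ∈ X.O x ∧ (P.η ⤳ x → P.p.ord m = 1 ∧
      ∀ a ∈ X.O x, a ≠ 0 → (0 < P.p.ord a ↔ a / m ∈ X.O x)) ∧ (¬ P.η ⤳ x → m = 1) := by
    intro x
    by_cases hx : P.η ⤳ x
    · obtain ⟨q, hq, hq0, hq1, hq2⟩ := pdiv_uni h P x hx
      exact ⟨q, hq0, hq, fun _ => ⟨hq1, hq2⟩, fun hh => absurd hx hh⟩
    · exact ⟨1, one_ne_zero, (X.O x).one_mem, fun hh => absurd hh hx, fun _ => rfl⟩
  choose m hm0 hmO hm1 hm2 using hex
  have hgen : ∀ x a, a ∈ {a : K | a ∈ X.O x ∧ (P.η ⤳ x → a = 0 ∨ 0 < P.p.ord a)} ↔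
      a / m x ∈ X.O x := by
    intro x a
    rw [Set.mem_ofPred_eq]
    by_cases hx : P.η ⤳ x
    · obtain ⟨h1, h2⟩ := hm1 x hx
      by_cases ha : a = 0
      · rw [ha, zero_div]
        exact ⟨fun _ => (X.O x).zero_mem, fun _ => ⟨(X.O x).zero_mem, fun _ => Or.inl rfl⟩⟩
      · constructor
        · rintro ⟨h3, h4⟩
          rcases h4 hx with h5 | h5
          · exact absurd h5 ha
          · exact (h2 a h3 ha).1 h5
        · intro h3
          have h4 : a = a / m x * m x := by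
            have := hm0 x
            field_simp
          have h5 : a ∈ X.O x := by
            rw [h4]
            exact (X.O x).mul_mem h3 (hmO x)
          exact ⟨h5, fun _ => Or.inr ((h2 a h5 ha).2 h3)⟩
    · rw [hm2 x hx, div_one]
      exact ⟨fun h3 => h3.1, fun h3 => ⟨h3, fun h4 => absurd h4 hx⟩⟩
  obtain ⟨S, hS⟩ := cart_of hX (fun x => {a : K | a ∈ X.O x ∧ (P.η ⤳ x → a = 0 ∨ 0 < P.p.ord a)}) m
    (fun x => ⟨(X.O x).zero_mem, fun _ => Or.inl rfl⟩)
    (fun x a ha b hb => by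
      rw [hgen] at ha hb ⊢
      rw [add_div]
      exact (X.O x).add_mem ha hb)
    (fun x a ha c hc => by
      rw [hgen] at ha ⊢
      rw [mul_div_assoc]
      exact (X.O x).mul_mem hc ha)
    (fun x a ha => ha.1) hm0 hgen
    (fun x U hU hxU a ha => by
      obtain ⟨s₁, hs₁, hs₁u, has⟩ := hX.frac U x hU hxU a ha.1
      by_cases hx : P.η ⤳ x
      · refine ⟨s₁, hs₁, hs₁u, fun y hy => ⟨(mem_sec U _).1 has y hy, fun hPy => ?_⟩⟩
        rcases ha.2 hx with h1 | h1
        · left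
          rw [h1, zero_mul]
        · right
          have ha0 : a ≠ 0 := by
            rintro rfl
            have h2 : P.p.ord (0 : K) = 0 := by
              have h3 := ord_inv P.p (0 : K)
              rw [inv_zero] at h3
              omega
            omega
          rw [ord_mul P.p _ _ ha0 hs₁u.1]
          have h2 := pt_ord hX P y hPy s₁ ((mem_sec U _).1 hs₁ y hy) hs₁u.1
          omega
      · obtain ⟨V, hV, hxV, hPV⟩ := not_specializes_iff_exists_open.1 hx
        obtain ⟨c, hc, hcx, hcy⟩ := hX.bas U V x hU hV hxU hxV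
        have hcs : c ∈ X.sec U := (mem_sec U c).2 hc
        refine ⟨s₁ * c, (X.sec U).mul_mem hs₁ hcs, un_mul hs₁u hcx, fun y hy => ⟨?_, fun hPy => ?_⟩⟩
        · rw [← mul_assoc]
          exact (X.O y).mul_mem ((mem_sec U _).1 has y hy) (hc y hy)
        · by_cases ha0 : a = 0
          · left
            rw [ha0, zero_mul]
          · right
            have hPU : P.η ∈ U := hPy.mem_open (hX.op U hU) hy
            have hc0 : c ≠ 0 := hcx.1
            have h1 : ¬ Un (X.O P.η) c := fun hh => hPV (hcy P.η hPU hh)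
            have h2 : P.p.ord c ≠ 0 := by
              intro hh
              obtain ⟨h3, h4⟩ := (ord_eq_zero P.p c hc0).1 hh
              exact h1 ⟨hc0, (P.mem c).2 h3, (P.mem _).2 h4⟩
            have h3 := pt_ord hX P y hPy c (hc y hy) hc0
            have h4 := pt_ord hX P y hPy (a * s₁) ((mem_sec U _).1 has y hy)
              (mul_ne_zero ha0 hs₁u.1)
            rw [← mul_assoc, ord_mul P.p _ _ (mul_ne_zero ha0 hs₁u.1) hc0]
            omega)
  refine ⟨S, fun x => ?_, fun x hx => ?_, fun x hx => ?_⟩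
  · rw [hS]
    exact hmO x
  · rw [hS]
    exact hm1 x hx
  · rw [hS]
    exact hm2 x hx


theorem pdiv_spr (h : Hyp X) (P : PDiv X) : ∃ S : Cart X, SPr X P.η S := by
  obtain ⟨S, h1, h2, h3⟩ := pdiv_eq h P
  have hu : ∀ a, a ∈ X.O P.η → a ≠ 0 → (Un (X.O P.η) a ↔ P.p.ord a = 0) := by
    intro a ha ha0
    rw [ord_eq_zero P.p a ha0]
    exact ⟨fun h4 => ⟨(P.mem a).1 h4.2.1, (P.mem _).1 h4.2.2⟩, fun h4 => ⟨ha0, (P.mem a).2 h4.1, (P.mem _).2 h4.2⟩⟩
  refine ⟨S, h1, fun x hx => ?_, fun x hx h4 => ?_, fun x hx a ha h4 => ?_⟩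
  · rw [h3 x hx]
    exact un_one _
  · rw [hu _ (h.var.spec _ _ hx (h1 x)) (S.ne x), (h2 x hx).1] at h4
    exact one_ne_zero h4
  · by_cases ha0 : a = 0
    · rw [ha0, zero_div]
      exact zero_mem _
    · rw [← (h2 x hx).2 a ha ha0]
      have h5 := pt_ord h.var P x hx a ha ha0
      have h6 : P.p.ord a ≠ 0 := fun h7 => h4 ((hu a (h.var.spec _ _ hx ha) ha0).2 h7)
      omega

end Pool.Agent.H83.TK
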