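import Pool.Agent.H83.TK.SubV
import Pool.Agent.H54.RV.B7

/-!
# THEOREM K, chapter T1: restriction of divisors and sections to a closed subvariety

`resD hX z : Cart X →* Cart (subM hX z)`, local equations `rs z (D.eq x / D.eq z)`.
`resS hX z D n : secL D n →ₗ[k] secL (resD hX z D) n`, `s ↦ rs z (s * D.eq z ^ n)`; its kernel consists of the
sections which vanish at `z`.  The restriction of an ample divisor is ample.
-/

set_option autoImplicit false

namespace Pool.Agent.H83.TK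

open Pool.Agent.H54.RV Pool.Agent.H83.TU

variable {k K : Type} [Field k] [Field K] [Algebra k K] {X : Mod k K}

theorem rs_zero (z : X.P) : X.rs z 0 = 0 := by
  by_contra h
  exact ((rs_ne z (zero_mem (X.O z))).1 h).1 rfl

theorem rs_quo (D : Cart X) (z x y : X.P) (hx : z ⤳ x) (hy : z ⤳ y) :
    X.rs z (D.eq y / D.eq z) / X.rs z (D.eq x / D.eq z) = X.rs z (D.eq y / D.eq x) := by
  rw [← rs_div z (quo_un D z y hy).2.1 (quo_un D z x hx)]
  congr 1
  have h1 := D.ne x
  have h2 := D.ne y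
  have h3 := D.ne z
  field_simp

/-- the restriction of divisors -/
noncomputable def resD (hX : IsVar X) (z : X.P) : Cart X →* Cart (subM hX z) where
  toFun D :=
    { eq := fun x => X.rs z (D.eq x.1 / D.eq z)
      ne := fun x => (rs_ne z (quo_un D z x.1 x.2).2.1).2 (quo_un D z x.1 x.2)
      loc := fun x => by
        obtain ⟨U, hU, hx, h⟩ := D.loc x.1
        refine ⟨{y | y.1 ∈ U}, hU.preimage continuous_subtype_val, hx, fun y hy => ?_⟩
        rw [rs_quo D z x.1 y.1 x.2 y.2]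
        exact (un_subO hX y.2 (h y.1 hy).2.1).2 (h y.1 hy) }
  map_one' := Cart.ext' _ _ fun x => by
    change X.rs z (1 / 1) = 1
    rw [div_one, rs_one]
  map_mul' D E := Cart.ext' _ _ fun x => by
    change X.rs z (D.eq x.1 * E.eq x.1 / (D.eq z * E.eq z)) =
      X.rs z (D.eq x.1 / D.eq z) * X.rs z (E.eq x.1 / E.eq z)
    rw [← rs_mul z (quo_un D z x.1 x.2).2.1 (quo_un E z x.1 x.2).2.1, mul_div_mul_comm]

theorem resD_eq (hX : IsVar X) (z : X.P) (D : Cart X) (x : (subM hX z).P) :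
    (resD hX z D).eq x = X.rs z (D.eq x.1 / D.eq z) := rfl

/-- the values of the restricted section -/
theorem rs_sec (hX : IsVar X) (z : X.P) (D : Cart X) (n : ℕ) (s : K) (x : (subM hX z).P)
    (hs : s * D.eq x.1 ^ n ∈ X.O x.1) :
    X.rs z (s * D.eq z ^ n) * (resD hX z D).eq x ^ n = X.rs z (s * D.eq x.1 ^ n) := by
  have h1 := quo_un D z x.1 x.2
  have h3 := D.ne x.1
  have h4 := D.ne z
  have h2 : s * D.eq z ^ n = (s * D.eq x.1 ^ n) * ((D.eq x.1 / D.eq z)⁻¹) ^ n := by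
    rw [inv_div, div_pow]
    field_simp
  have h5 : s * D.eq z ^ n ∈ X.O z := by
    rw [h2]
    exact mul_mem (hX.spec _ _ x.2 hs) (pow_mem h1.2.2 n)
  rw [resD_eq, ← rs_pow z h1.2.1, ← rs_mul z h5 (pow_mem h1.2.1 n)]
  congr 1
  rw [div_pow]
  field_simp

/-- the restriction of sections -/
noncomputable def resS (hX : IsVar X) (z : X.P) (D : Cart X) (n : ℕ) :
    secL D n →ₗ[k] secL (resD hX z D) n where
  toFun s := ⟨X.rs z (s.1 * D.eq z ^ n), fun x => by
    rw [rs_sec hX z D n s.1 x (s.2 x.1)]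
    exact rs_mem_subO hX x.2 (s.2 x.1)⟩
  map_add' s t := Subtype.ext (by
    change X.rs z ((s.1 + t.1) * D.eq z ^ n) = X.rs z (s.1 * D.eq z ^ n) + X.rs z (t.1 * D.eq z ^ n)
    rw [add_mul, rs_add z (s.2 z) (t.2 z)])
  map_smul' c s := Subtype.ext (by
    change X.rs z ((c • s.1) * D.eq z ^ n) = c • X.rs z (s.1 * D.eq z ^ n)
    rw [Algebra.smul_def, mul_assoc, rs_mul z ((X.O z).algebraMap_mem c) (s.2 z), rs_alg, ← Algebra.smul_def])

theorem resS_coe (hX : IsVar X) (z : X.P) (D : Cart X) (n : ℕ) (s : secL D n) :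
    (resS hX z D n s : X.kap z) = X.rs z (s.1 * D.eq z ^ n) := rfl

theorem resS_zero (hX : IsVar X) (z : X.P) (D : Cart X) (n : ℕ) (s : secL D n) :
    resS hX z D n s = 0 ↔ ¬ Un (X.O z) (s.1 * D.eq z ^ n) := by
  rw [← rs_ne z (s.2 z), not_not, ← resS_coe hX]
  exact ⟨fun h => by rw [h]; rfl, fun h => Subtype.ext h⟩

/-- where the restricted section does not vanish -/
theorem nz_res (hX : IsVar X) (z : X.P) (D : Cart X) (n : ℕ) (s : secL D n) (x : (subM hX z).P) :
    x ∈ nz (resD hX z D) n (resS hX z D n s : X.kap z) ↔ x.1 ∈ nz D n s.1 := by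
  change Un ((subM hX z).O x) (X.rs z (s.1 * D.eq z ^ n) * (resD hX z D).eq x ^ n) ↔ _
  rw [rs_sec hX z D n s.1 x (s.2 x.1)]
  exact un_subO hX x.2 (s.2 x.1)

/-- an effective divisor which does not contain `z` restricts to a divisor linearly equivalent to an effective one -/
theorem res_eff (hX : IsVar X) (z : X.P) (D : Cart X) (hD : Effective D) (hz : Un (X.O z) (D.eq z)) :
    Effective (resD hX z D * prin (subM hX z) (X.rs z (D.eq z)) ((rs_ne z hz.2.1).2 hz)) := by
  intro x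
  change X.rs z (D.eq x.1 / D.eq z) * X.rs z (D.eq z) ∈ subO X z x.1
  rw [← rs_mul z (quo_un D z x.1 x.2).2.1 hz.2.1, div_mul_cancel₀ _ (D.ne z)]
  exact rs_mem_subO hX x.2 (hD x.1)

theorem res_ample (hX : IsVar X) (z : X.P) (D : Cart X) (hD : Ample D) : Ample (resD hX z D) := by
  intro x
  obtain ⟨n, hn, s, hs, h1, h2⟩ := hD x.1
  refine ⟨n, hn, (resS hX z D n ⟨s, hs⟩ : X.kap z), (resS hX z D n ⟨s, hs⟩).2, (nz_res hX z D n ⟨s, hs⟩ x).2 h1,
    nz D n s, h2, ?_⟩
  ext y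
  exact nz_res hX z D n ⟨s, hs⟩ y

end Pool.Agent.H83.TK
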