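import Pool.Agent.H83.TK.SubC

/-!
# THEOREM K, chapter T1: closed subvarieties are varieties

`isVar_sub : IsVar (subM hX z)`, `gen_sub`: the point `z` is the generic point, `t0_sub`.
-/

set_option autoImplicit false

namespace Pool.Agent.H83.TK

open Pool.Agent.H54.RV

variable {k K : Type} [Field k] [Field K] [Algebra k K] {X : Mod k K}

/-- the point `z` of its closure -/
def subG (hX : IsVar X) (z : X.P) : (subM hX z).P := ⟨z, specializes_rfl⟩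

theorem gen_sub (hX : IsVar X) (z : X.P) : H83.TU.Gen (subM hX z) (subG hX z) where
  top := by
    rw [eq_top_iff]
    intro c _
    obtain ⟨a, ha, rfl⟩ := rs_surj z c
    exact rs_mem_subO hX (specializes_rfl) ha
  spec x := (subM_spec hX z _ x).2 x.2

private theorem sub_aff (hX : IsVar X) (z : X.P) {V : Set X.P} (hV : X.aff V) :
    (subM hX z).aff {x | x.1 ∈ V} := ⟨V, hV, rfl⟩

private theorem sub_un (hX : IsVar X) {z : X.P} (x : (subM hX z).P) {a : K} (ha : a ∈ X.O x.1) :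
    Un ((subM hX z).O x) (X.rs z a) ↔ Un (X.O x.1) a := un_subO hX x.2 ha

theorem sub_mem (hX : IsVar X) (z : X.P) {V : Set X.P} (hV : X.aff V) (h : ({x | x.1 ∈ V} : Set (subM hX z).P).Nonempty) :
    z ∈ V := by
  obtain ⟨x, hx⟩ := h
  exact mem_of_sp x.2 (hX.op V hV) hx

/-- the functions on an affine open set, restricted to the closed subvariety -/
noncomputable def secP (hX : IsVar X) (z : X.P) {V : Set X.P} (hz : z ∈ V) :
    X.sec V →ₐ[k] (subM hX z).sec {x | x.1 ∈ V} where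
  toFun a := ⟨X.rs z a.1, (mem_sec _ _).2 fun x hx => rs_mem_subO hX x.2 ((mem_sec V a.1).1 a.2 x.1 hx)⟩
  map_one' := Subtype.ext (rs_one z)
  map_mul' a b := Subtype.ext (rs_mul z ((mem_sec V a.1).1 a.2 z hz) ((mem_sec V b.1).1 b.2 z hz))
  map_zero' := Subtype.ext (by
    by_contra h
    exact ((rs_ne z (zero_mem (X.O z))).1 h).1 rfl)
  map_add' a b := Subtype.ext (rs_add z ((mem_sec V a.1).1 a.2 z hz) ((mem_sec V b.1).1 b.2 z hz))
  commutes' c := Subtype.ext (rs_alg z c)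

theorem secP_surj (hX : IsVar X) (z : X.P) {V : Set X.P} (hV : X.aff V) (hz : z ∈ V) :
    Function.Surjective (secP hX z hz) := by
  rintro ⟨c, hc⟩
  obtain ⟨a, ha, h1⟩ := (sec_sub hX hV hz c).1 hc
  exact ⟨⟨a, ha⟩, Subtype.ext h1⟩

/-- the centre of a place -/
private theorem cen_sub (hX : IsVar X) (z : X.P) (ζ : (subM hX z).P) (p : Place k ((subM hX z).kap ζ))
    (x : (subM hX z).P) :
    Cen (subM hX z) ζ x p ↔ Cen X ζ.1 x.1 (place_map (kapE hX z ζ) p) := by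
  have hkey : ∀ a ∈ X.O x.1, ζ.1 ⤳ x.1 →
      ((subM hX z).rs ζ (X.rs z a) ∈ p.R ↔ X.rs ζ.1 a ∈ (place_map (kapE hX z ζ) p).R) ∧
      ((subM hX z).rs ζ (X.rs z a) ≠ 0 ↔ X.rs ζ.1 a ≠ 0) ∧
      (((subM hX z).rs ζ (X.rs z a))⁻¹ ∈ p.R ↔ (X.rs ζ.1 a)⁻¹ ∈ (place_map (kapE hX z ζ) p).R) := by
    intro a ha hs
    have h1 := kapE_rs hX z ζ (hX.spec _ _ hs ha)
    rw [← h1]
    refine ⟨(place_map_mem _ _ _).symm, ?_, ?_⟩
    · rw [Ne, Ne, EmbeddingLike.map_eq_zero_iff]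
    · rw [← map_inv₀, place_map_mem]
  have hun : ∀ a ∈ X.O x.1, ((X.rs z a)⁻¹ ∈ (subM hX z).O x ∧ X.rs z a ≠ 0 ↔ a⁻¹ ∈ X.O x.1 ∧ a ≠ 0) := by
    intro a ha
    have h := sub_un hX x ha
    constructor
    · rintro ⟨h1, h2⟩
      have h3 := h.1 ⟨h2, rs_mem_subO hX x.2 ha, h1⟩
      exact ⟨h3.2.2, h3.1⟩
    · rintro ⟨h1, h2⟩
      have h3 := h.2 ⟨h2, ha, h1⟩
      exact ⟨h3.2.2, h3.1⟩
  constructor
  · rintro ⟨h1, h2, h3⟩
    have hs : ζ.1 ⤳ x.1 := (subM_spec hX z ζ x).1 h1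
    refine ⟨hs, hX.spec _ _ hs, fun a ha => ?_⟩
    obtain ⟨k1, k2, k3⟩ := hkey a ha hs
    obtain ⟨h4, h5⟩ := h3 (X.rs z a) (rs_mem_subO hX x.2 ha)
    refine ⟨k1.1 h4, fun h6 h7 => ?_⟩
    have h8 := h5 (k2.2 h6) (k3.2 h7)
    have h9 : X.rs z a ≠ 0 := by
      intro h10
      apply k2.2 h6
      rw [h10]
      by_contra h11
      exact ((rs_ne (X := subM hX z) ζ (zero_mem _)).1 h11).1 rfl
    exact ((hun a ha).1 ⟨h8, h9⟩).1
  · rintro ⟨h1, h2, h3⟩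
    have hs : ζ ⤳ x := (subM_spec hX z ζ x).2 h1
    refine ⟨hs, ?_, fun c hc => ?_⟩
    · intro c hc
      obtain ⟨a, ha, rfl⟩ := (subO_iff hX x.2 c).1 hc
      exact rs_mem_subO hX ζ.2 (h2 ha)
    · obtain ⟨a, ha, rfl⟩ := (subO_iff hX x.2 c).1 hc
      obtain ⟨k1, k2, k3⟩ := hkey a ha h1
      obtain ⟨h4, h5⟩ := h3 a ha
      refine ⟨k1.2 h4, fun h6 h7 => ?_⟩
      have h8 := h5 (k2.1 h6) (k3.1 h7)
      by_cases h9 : a = 0
      · exfalso
        apply k2.1 h6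
        rw [h9]
        by_contra h11
        exact ((rs_ne ζ.1 (zero_mem _)).1 h11).1 rfl
      · exact ((hun a ha).2 ⟨h8, h9⟩).1

theorem isVar_sub (hX : IsVar X) (z : X.P) : IsVar (subM hX z) where
  comp := by
    have := hX.comp
    have h1 : IsClosed {x : X.P | z ⤳ x} := by
      have h2 : {x : X.P | z ⤳ x} = closure {z} := by
        ext x
        exact specializes_iff_mem_closure
      rw [h2]
      exact isClosed_closure
    exact isCompact_iff_compactSpace.1 h1.isCompact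
  ne := ⟨subG hX z⟩
  spec x y h := by
    rintro c hc
    obtain ⟨a, ha, rfl⟩ := (subO_iff hX y.2 c).1 hc
    exact rs_mem_subO hX x.2 (hX.spec _ _ ((subM_spec hX z x y).1 h) ha)
  op := by
    rintro U ⟨V, hV, rfl⟩
    exact (hX.op V hV).preimage continuous_subtype_val
  chart x := by
    obtain ⟨V, hV, hx⟩ := hX.chart x.1
    exact ⟨_, sub_aff hX z hV, hx⟩
  basic := by
    rintro U c ⟨V, hV, rfl⟩ hc
    by_cases hz : z ∈ V
    · obtain ⟨a, ha, rfl⟩ := (sec_sub hX hV hz c).1 ((mem_sec _ _).2 hc)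
      refine ⟨_, hX.basic V a hV fun x hx => (mem_sec V a).1 ha x hx, ?_⟩
      ext x
      constructor
      · rintro ⟨h1, h2⟩
        exact ⟨h1, (sub_un hX x ((mem_sec V a).1 ha x.1 h1)).1 h2⟩
      · rintro ⟨h1, h2⟩
        exact ⟨h1, (sub_un hX x ((mem_sec V a).1 ha x.1 h1)).2 h2⟩
    · refine ⟨V, hV, ?_⟩
      ext x
      constructor
      · exact fun h => h.1
      · intro h
        exact absurd (mem_of_sp x.2 (hX.op V hV) h) hz
  bas := by
    rintro U W x ⟨V, hV, rfl⟩ hW hx hxW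
    obtain ⟨W', hW', rfl⟩ := isOpen_induced_iff.1 hW
    obtain ⟨a, ha, h1, h2⟩ := hX.bas V W' x.1 hV hW' hx hxW
    exact ⟨X.rs z a, fun y hy => rs_mem_subO hX y.2 (ha y.1 hy), (sub_un hX x (ha x.1 hx)).2 h1,
      fun y hy h3 => h2 y.1 hy ((sub_un hX y (ha y.1 hy)).1 h3)⟩
  fg := by
    rintro U ⟨V, hV, rfl⟩ hne
    have hz := sub_mem hX z hV hne
    have h1 := hX.fg V hV ⟨z, hz⟩
    have h2 : Algebra.FiniteType k (X.sec V) := (Subalgebra.fg_iff_finiteType _).1 h1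
    exact (Subalgebra.fg_iff_finiteType _).2 (h2.of_surjective (secP hX z hz) (secP_surj hX z hV hz))
  frac := by
    rintro U x ⟨V, hV, rfl⟩ hx c hc
    obtain ⟨b, hb, rfl⟩ := (subO_iff hX x.2 c).1 hc
    obtain ⟨s, hs, h1, h2⟩ := hX.frac V x.1 hV hx b hb
    have hz : z ∈ V := mem_of_sp x.2 (hX.op V hV) hx
    refine ⟨X.rs z s, (sec_sub hX hV hz _).2 ⟨s, hs, rfl⟩, (sub_un hX x h1.2.1).2 h1, ?_⟩
    rw [← rs_mul z (hX.spec _ _ x.2 hb) (hX.spec _ _ x.2 h1.2.1)]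
    exact (sec_sub hX hV hz _).2 ⟨_, h2, rfl⟩
  prime := by
    rintro U ⟨V, hV, rfl⟩ hne I hI
    have hz := sub_mem hX z hV hne
    obtain ⟨x, hx, h1⟩ := hX.prime V hV ⟨z, hz⟩ (I.comap (secP hX z hz)) (Ideal.IsPrime.comap _)
    have hzx : z ⤳ x := by
      refine sp_of hX hV hz hx fun a ha h2 => ?_
      refine (h1 ⟨a, ha⟩).1 ?_
      have h3 : secP hX z hz ⟨a, ha⟩ = 0 := Subtype.ext h2
      exact (congrArg (· ∈ I) h3).mpr I.zero_mem
    refine ⟨⟨x, hzx⟩, hx, fun c => ?_⟩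
    obtain ⟨a, rfl⟩ := secP_surj hX z hV hz c
    exact (h1 a).trans (not_congr (sub_un hX ⟨x, hzx⟩ ((mem_sec V a.1).1 a.2 x hx)).symm)
  cen ζ p := by
    obtain ⟨x, hx, hu⟩ := hX.cen ζ.1 (place_map (kapE hX z ζ) p)
    have hzx : z ⤳ x := ζ.2.trans hx.1
    refine ⟨⟨x, hzx⟩, (cen_sub hX z ζ p _).2 hx, fun y hy => ?_⟩
    exact Subtype.ext (hu y.1 ((cen_sub hX z ζ p y).1 hy))

theorem t0_sub (hX : IsVar X) (z : X.P) [T0Space X.P] : T0Space (subM hX z).P :=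
  (inferInstance : T0Space {x : X.P // z ⤳ x})

end Pool.Agent.H83.TK
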