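import Pool.Agent.H83.TK.BcA

/-!
# [H83 TK BcX] THEOREM K, chapter T1a: existence of the fields `k(l)`, `K(l)`

`k' = FractionRing (MvPolynomial σ k)`, `K' = FractionRing (MvPolynomial σ K)`, the algebra structure of `K'` over `k'` from
`IsFractionRing.map` (or `IsLocalization.lift`) of the injective map `MvPolynomial.map (algebraMap k K)`; over `K`, `k` by
composition.  Everything can be packed in one existence statement.
-/

set_option autoImplicit false

namespace Pool.Agent.H83.TK

open MvPolynomial

theorem exists_bc (k K σ : Type) [Field k] [Field K] [Algebra k K] :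
    ∃ (k' K' : Type) (_ : Field k') (_ : Field K') (_ : Algebra k k') (_ : Algebra K K') (_ : Algebra k' K')
      (_ : Algebra k K') (_ : IsScalarTower k K K') (_ : IsScalarTower k k' K') (l : σ → k'), BC k K k' K' l := by
  obtain ⟨k', ik, ak, fk⟩ : ∃ (k' : Type) (_ : Field k') (_ : Algebra (MvPolynomial σ k) k'),
    IsFractionRing (MvPolynomial σ k) k' := ⟨FractionRing (MvPolynomial σ k), inferInstance,
    inferInstance, inferInstance⟩
  obtain ⟨K', iK, aK, fK⟩ : ∃ (K' : Type) (_ : Field K') (_ : Algebra (MvPolynomial σ K) K'),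
    IsFractionRing (MvPolynomial σ K) K' := ⟨FractionRing (MvPolynomial σ K), inferInstance,
    inferInstance, inferInstance⟩
  obtain ⟨φ, hφ⟩ : ∃ φ : k' →+* K', ∀ p : MvPolynomial σ k, φ (algebraMap (MvPolynomial σ k) k' p) =
        algebraMap (MvPolynomial σ K) K' (map (algebraMap k K) p) := by
    have hinj : Function.Injective (map (σ := σ) (algebraMap k K)) :=
      map_injective _ (algebraMap k K).injective
    exact ⟨IsFractionRing.map hinj, fun p => IsLocalization.map_eq _ p⟩
  letI i1 : Algebra k' K' := φ.toAlgebra
  letI i2 : Algebra k k' := ((algebraMap (MvPolynomial σ k) k').comp C).toAlgebra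
  letI i3 : Algebra K K' := ((algebraMap (MvPolynomial σ K) K').comp C).toAlgebra
  letI i4 : Algebra k K' := ((algebraMap K K').comp (algebraMap k K)).toAlgebra
  have t1 : IsScalarTower k K K' := IsScalarTower.of_algebraMap_eq fun _ => rfl
  have t2 : IsScalarTower k k' K' := IsScalarTower.of_algebraMap_eq fun x => by
    change algebraMap (MvPolynomial σ K) K' (C (algebraMap k K x)) =
        φ (algebraMap (MvPolynomial σ k) k' (C x))
    rw [hφ, map_C]
  have hl : ∀ i : σ, algebraMap k' K' (algebraMap (MvPolynomial σ k) k' (X i)) =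
      algebraMap (MvPolynomial σ K) K' (X i) := by
    intro i
    change φ _ = _
    rw [hφ, map_X]
  have ha : ∀ f : MvPolynomial σ k, aeval (fun i => algebraMap (MvPolynomial σ k) k' (X i)) f =
      algebraMap (MvPolynomial σ k) k' f := by
    intro f
    have h1 : (aeval (fun i => algebraMap (MvPolynomial σ k) k' (X i)) :
      MvPolynomial σ k →ₐ[k] k').toRingHom = algebraMap (MvPolynomial σ k) k' := by
      apply MvPolynomial.ringHom_ext
      · intro r
        change aeval _ (C r) = _
        rw [algHom_C]
        rfl
      · intro i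
        change aeval _ (X i) = _
        rw [aeval_X]
    exact congrArg (fun g : MvPolynomial σ k →+* k' => g f) h1
  have hA : ∀ f : MvPolynomial σ K, aeval (fun i =>
      algebraMap k' K' (algebraMap (MvPolynomial σ k) k' (X i))) f =
      algebraMap (MvPolynomial σ K) K' f := by
    intro f
    have h1 : (aeval (fun i => algebraMap k' K' (algebraMap (MvPolynomial σ k) k' (X i))) :
      MvPolynomial σ K →ₐ[K] K').toRingHom = algebraMap (MvPolynomial σ K) K' := by
      apply MvPolynomial.ringHom_ext
      · intro r
        change aeval _ (C r) = _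
        rw [algHom_C]
        rfl
      · intro i
        change aeval _ (X i) = _
        rw [aeval_X, hl]
    exact congrArg (fun g : MvPolynomial σ K →+* K' => g f) h1
  refine ⟨k', K', ik, iK, i2, i3, i1, i4, t1, t2,
    fun i => algebraMap (MvPolynomial σ k) k' (X i), ⟨?_, ?_, ?_⟩⟩
  · intro f g hfg
    rw [hA, hA] at hfg
    exact IsFractionRing.injective _ _ hfg
  · intro c
    obtain ⟨⟨f, g⟩, h1⟩ := IsLocalization.surj (nonZeroDivisors (MvPolynomial σ k)) c
    refine ⟨f, g, nonZeroDivisors.ne_zero g.2, ?_⟩
    rw [ha, ha]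
    exact h1
  · intro c
    obtain ⟨⟨f, g⟩, h1⟩ := IsLocalization.surj (nonZeroDivisors (MvPolynomial σ K)) c
    refine ⟨f, g, nonZeroDivisors.ne_zero g.2, ?_⟩
    rw [hA, hA]
    exact h1

end Pool.Agent.H83.TK
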