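import Pool.Agent.H83.TK.GsB

/-!
# [H83 TK GsC] THEOREM K, chapter T1d: the generic member is factorial; its dimension

`gs_ufd`: `w` in the generic member (`z ⤳ w`), `O w.x` factorial.  The local ring of `subM _ z` at `w` is the image of
`bcO h w` in `κ(z)`.  `A = (O w.x)[l] / (lin a)` is factorial (`lin_ufd`, some `a (some j)` is a unit), `f : A → (subM _ z).O w`
from `ev` and the residue map at `z` (well defined: `ev (lin a)` is a nonunit at `z`), injective by `gs_dvd`, every element of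
the local ring is a quotient `f a / f s`, `f s` a unit: `ufd_of_frac` (file `BcJ`).
`gs_trdeg`: `κ(z)` is over `k` of transcendence degree `trdeg K + #σ - 1`: it is generated over the image of `K` (the
residue map at `z` of `algebraMap K K'`; `z.x = g`) by the `l i`, with one linear relation: `κ(z) = K(l i, i ≠ j)`.
`trdeg_k κ(z) = trdeg_k k' + trdeg_k' κ(z)`, `trdeg_k k' = #σ`.  (`Algebra.trdeg_add_eq`.)  All finite.
-/

set_option autoImplicit false

namespace Pool.Agent.H83.TK

open Pool.Agent.H54.RV MvPolynomial Pool.Agent.H83.TU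

variable {k K k' K' : Type} [Field k] [Field K] [Field k'] [Field K'] [Algebra k K] [Algebra k k'] [Algebra K K']
  [Algebra k' K'] [Algebra k K'] [IsScalarTower k K K'] [IsScalarTower k k' K'] {σ : Type} [Fintype σ] {X : Mod k K}
  {l : σ → k'}

private theorem gsc_res {k K : Type} [Field k] [Field K] [Algebra k K] (M : Mod k K) (z : M.P) :
    ∃ res : M.O z →+* M.kap z, (∀ a : M.O z, res a = M.rs z a) ∧ Function.Surjective res ∧
      ∀ c, res (algebraMap k (M.O z) c) = algebraMap k (M.kap z) c := by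
  refine ⟨IsLocalRing.residue (M.O z), fun a => ?_, IsLocalRing.residue_surjective, fun c => rfl⟩
  unfold Mod.rs
  rw [dif_pos a.2]
  rfl

private theorem gsc_unit [T0Space X.P] (hX : IsVar X) {g : X.P} (hg : Gen X g) (h : BC k K k' K' l) {H : Cart X}
    {s : Option σ → K} (hs : LSys X H s) (z : BP X σ) (hz : z.x = g)
    (hq : ∀ f : MvPolynomial σ (X.O z.x), red X σ z.x f ∈ z.q ↔
      map ((X.O z.x).val : X.O z.x →+* K) (linO hs z.x) ∣ map ((X.O z.x).val : X.O z.x →+* K) f)
    (w : BP X σ) (hw : (bcP X h).sp z w) :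
    ∃ j : σ, IsUnit (⟨s (some j) * H.eq w.x, hs.mem w.x (some j)⟩ : X.O w.x) := by
  by_contra hcon
  push Not at hcon
  have h1 := (gs_sp hX hg h hs z hz hq w).1 hw
  obtain ⟨i, hi⟩ := hs.free w.x
  cases i with
  | some j => exact hcon j ((un_iff _).2 hi)
  | none =>
    have h2 : red X σ w.x (linO hs w.x) =
        C (IsLocalRing.residue (X.O w.x) ⟨s none * H.eq w.x, hs.mem w.x none⟩) := by
      unfold linO red
      rw [map_lin]
      unfold lin
      have h3 : ∀ i : σ, IsLocalRing.residue (X.O w.x) ⟨s (some i) * H.eq w.x, hs.mem w.x (some i)⟩ = 0 := by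
        intro i
        rw [IsLocalRing.residue_eq_zero_iff, IsLocalRing.mem_maximalIdeal, mem_nonunits_iff]
        exact hcon i
      have h5 : ∀ i : σ, (MvPolynomial.X i : MvPolynomial σ (X.kap w.x)) *
          C (IsLocalRing.residue (X.O w.x) ⟨s (some i) * H.eq w.x, hs.mem w.x (some i)⟩) = 0 := by
        intro i
        exact (congrArg (fun c : X.kap w.x => (MvPolynomial.X i : MvPolynomial σ (X.kap w.x)) * C c)
          (h3 i)).trans ((congrArg _ C_0).trans (mul_zero _))
      have h7 := Finset.sum_eq_zero (s := Finset.univ) (fun i _ => h5 i)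
      exact (congrArg (fun q => C (IsLocalRing.residue (X.O w.x) ⟨s none * H.eq w.x, hs.mem w.x none⟩) + q)
        h7).trans (add_zero _)
    rw [h2] at h1
    have h3 : IsUnit (C (IsLocalRing.residue (X.O w.x) ⟨s none * H.eq w.x, hs.mem w.x none⟩) :
        MvPolynomial σ (X.kap w.x)) := by
      have h4 : IsUnit (⟨s none * H.eq w.x, hs.mem w.x none⟩ : X.O w.x) := (un_iff _).2 hi
      exact (h4.map (IsLocalRing.residue (X.O w.x))).map (C : X.kap w.x →+* MvPolynomial σ (X.kap w.x))
    exact w.prime.ne_top (Ideal.eq_top_of_isUnit_mem _ h1 h3)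

/-- the equation is not a unit at the generic point -/
private theorem gsc_nun [T0Space X.P] (hX : IsVar X) {g : X.P} (hg : Gen X g) (h : BC k K k' K' l) {H : Cart X}
    {s : Option σ → K} (hs : LSys X H s) (z : BP X σ) (hz : z.x = g)
    (hq : ∀ f : MvPolynomial σ (X.O z.x), red X σ z.x f ∈ z.q ↔
      map ((X.O z.x).val : X.O z.x →+* K) (linO hs z.x) ∣ map ((X.O z.x).val : X.O z.x →+* K) f)
    (w : BP X σ) : ¬ Un (bcO h z) (ev K' l (X.O w.x) (linO hs w.x)) := by
  have h1 : red X σ z.x (linO hs z.x) ∈ z.q := (hq _).2 (dvd_refl _)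
  have h2 : ¬ Un (bcO h z) (ev K' l (X.O z.x) (linO hs z.x)) := by
    rw [un_ev h z]
    exact not_not.2 h1
  rw [ev_lin] at h2 ⊢
  have hsp : z.x ⤳ w.x := by
    rw [hz]
    exact hg.spec w.x
  have h3 := quo_un H z.x w.x hsp
  have h4 : Un (bcO h z) (algebraMap K K' (H.eq w.x / H.eq z.x)) := (un_alg h z h3.2.1).2 h3
  have h5 : gsec K' l s * algebraMap K K' (H.eq w.x) =
      gsec K' l s * algebraMap K K' (H.eq z.x) * algebraMap K K' (H.eq w.x / H.eq z.x) := by
    have h6 : algebraMap K K' (H.eq w.x) = algebraMap K K' (H.eq z.x) *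
        algebraMap K K' (H.eq w.x / H.eq z.x) := by
      rw [← map_mul]
      congr 1
      have := H.ne z.x
      field_simp
    rw [h6]
    ring
  rw [h5, un_mul_un h4]
  exact h2

theorem gs_ufd [T0Space X.P] (hX : IsVar X) {g : X.P} (hg : Gen X g) (h : BC k K k' K' l) {H : Cart X}
    {s : Option σ → K} (hs : LSys X H s) (z : BP X σ) (hz : z.x = g)
    (hq : ∀ f : MvPolynomial σ (X.O z.x), red X σ z.x f ∈ z.q ↔
      map ((X.O z.x).val : X.O z.x →+* K) (linO hs z.x) ∣ map ((X.O z.x).val : X.O z.x →+* K) f)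
    (hu : ∀ x, UniqueFactorizationMonoid (X.O x)) (w : (subM (isVar_bc hX ⟨g, hg⟩ h) z).P) :
    UniqueFactorizationMonoid ((subM (isVar_bc hX ⟨g, hg⟩ h) z).O w) := by
  obtain ⟨w, hzw⟩ := w
  have hM : IsVar (bcM X h) := isVar_bc hX ⟨g, hg⟩ h
  change UniqueFactorizationMonoid (subO (bcM X h) z w)
  have hle : bcO h w ≤ bcO h z := hM.spec _ _ hzw
  have hsp : (bcP X h).sp z w := (Pre.sp_iff (bc_ok hX ⟨g, hg⟩ h) z w).1 hzw
  obtain ⟨j, hj⟩ := gsc_unit hX hg h hs z hz hq w hsp
  have hredw : red X σ w.x (linO hs w.x) ∈ w.q := (gs_sp hX hg h hs z hz hq w).1 hsp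
  haveI := hu w.x
  obtain ⟨hdom, hufd⟩ := lin_ufd (fun i => (⟨s i * H.eq w.x, hs.mem w.x i⟩ : X.O w.x)) j hj
  change IsDomain (MvPolynomial σ (X.O w.x) ⧸ Ideal.span {linO hs w.x}) at hdom
  change UniqueFactorizationMonoid (MvPolynomial σ (X.O w.x) ⧸ Ideal.span {linO hs w.x}) at hufd
  haveI : IsLocalRing (bcO h z) := bcO_loc h z
  -- the map
  have hmem : ∀ p : MvPolynomial σ (X.O w.x), ev K' l (X.O w.x) p ∈ bcO h z := fun p => hle (ev_mem h w p)
  let φ₀ : MvPolynomial σ (X.O w.x) →+* bcO h z := (ev K' l (X.O w.x)).codRestrict (bcO h z) hmem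
  obtain ⟨res, hr1, hr2, hr3⟩ : ∃ res : bcO h z →+* (bcM X h).kap z,
    (∀ a : bcO h z, res a = (bcM X h).rs z a) ∧ Function.Surjective res ∧
      ∀ c, res (algebraMap k' (bcO h z) c) = algebraMap k' ((bcM X h).kap z) c := gsc_res (bcM X h) z
  let φ₁ : MvPolynomial σ (X.O w.x) →+* (bcM X h).kap z := res.comp φ₀
  have hφ₁ : ∀ p, φ₁ p = (bcM X h).rs z (ev K' l (X.O w.x) p) := fun p => hr1 (φ₀ p)
  have hφ₁m : ∀ p, φ₁ p ∈ subO (bcM X h) z w := by
    intro p
    rw [hφ₁]
    exact rs_mem_subO hM hzw (ev_mem h w p)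
  let φ₂ : MvPolynomial σ (X.O w.x) →+* subO (bcM X h) z w := φ₁.codRestrict (subO (bcM X h) z w) hφ₁m
  have hφ₂ : ∀ p, ((φ₂ p : subO (bcM X h) z w) : (bcM X h).kap z) = (bcM X h).rs z (ev K' l (X.O w.x) p) := hφ₁
  have hker : ∀ p, φ₂ p = 0 ↔ p ∈ Ideal.span {linO hs w.x} := by
    intro p
    rw [Ideal.mem_span_singleton]
    constructor
    · intro hp
      refine gs_dvd hX hg h hs z hz hq w hredw p ?_
      intro hun
      have h1 := (rs_ne (X := bcM X h) z (hmem p)).2 hun
      apply h1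
      rw [← hφ₂, hp]
      rfl
    · rintro ⟨q, rfl⟩
      rw [map_mul]
      have h1 : φ₂ (linO hs w.x) = 0 := by
        apply Subtype.ext
        rw [hφ₂]
        by_contra h2
        exact gsc_nun hX hg h hs z hz hq w ((rs_ne (X := bcM X h) z (hmem _)).1 h2)
      rw [h1, zero_mul]
  let φ : (MvPolynomial σ (X.O w.x) ⧸ Ideal.span {linO hs w.x}) →+* subO (bcM X h) z w :=
    Ideal.Quotient.lift _ φ₂ (fun a ha => (hker a).2 ha)
  refine ufd_of_frac (A := MvPolynomial σ (X.O w.x) ⧸ Ideal.span {linO hs w.x})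
    (B := subO (bcM X h) z w) φ ?_ ?_
  · rw [injective_iff_map_eq_zero]
    intro a ha
    obtain ⟨p, rfl⟩ := Ideal.Quotient.mk_surjective a
    rw [Ideal.Quotient.eq_zero_iff_mem]
    exact (hker p).1 ha
  · rintro ⟨c, hc⟩
    obtain ⟨a, ha, rfl⟩ := (subO_iff hM hzw c).1 hc
    obtain ⟨f, q, h1, h2⟩ := (mem_bcO h w a).1 ha
    refine ⟨Ideal.Quotient.mk _ f, Ideal.Quotient.mk _ q, ?_, ?_⟩
    · change IsUnit (φ₂ q)
      have h3 : Un (subO (bcM X h) z w) ((bcM X h).rs z (ev K' l (X.O w.x) q)) :=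
        (un_subO hM hzw (ev_mem h w q)).2 ((un_ev h w q).2 h1)
      have h4 : φ₂ q = ⟨_, h3.2.1⟩ := Subtype.ext (hφ₂ q)
      rw [h4]
      exact (un_iff _).2 h3
    · apply Subtype.ext
      change (bcM X h).rs z a * (φ₂ q : (bcM X h).kap z) = (φ₂ f : (bcM X h).kap z)
      rw [hφ₂, hφ₂, ← h2, rs_mul (X := bcM X h) z (hle ha) (hmem q)]

/-- a transcendence basis, from fractions -/
private theorem gsc_tb {R A ι : Type} [Field R] [Field A] [Algebra R A] (x : ι → A)
    (hx : AlgebraicIndependent R x) (hf : ∀ a : A, ∃ f g : MvPolynomial ι R, aeval x g ≠ 0 ∧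
      a * aeval x g = aeval x f) : Cardinal.mk ι = Algebra.trdeg R A := by
  have h1 : IsTranscendenceBasis R x := by
    rw [isTranscendenceBasis_iff_algebraicIndependent_isAlgebraic]
    refine ⟨hx, ⟨fun a => ?_⟩⟩
    obtain ⟨f, g, hg, h2⟩ := hf a
    have hmem : ∀ f : MvPolynomial ι R, aeval x f ∈ Algebra.adjoin R (Set.range x) := by
      intro f
      rw [Algebra.adjoin_range_eq_range_aeval]
      exact ⟨f, rfl⟩
    refine ⟨Polynomial.C ⟨aeval x g, hmem g⟩ * Polynomial.X - Polynomial.C ⟨aeval x f, hmem f⟩, ?_, ?_⟩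
    · intro h3
      have h4 := congrArg (fun P => Polynomial.coeff P 1) h3
      simp only [Polynomial.coeff_sub, Polynomial.coeff_C_mul, Polynomial.coeff_X_one, mul_one,
        Polynomial.coeff_C_succ, sub_zero, Polynomial.coeff_zero] at h4
      exact hg (congrArg Subtype.val h4)
    · rw [map_sub, map_mul, Polynomial.aeval_C, Polynomial.aeval_X, Polynomial.aeval_C]
      change aeval x g * a - aeval x f = 0
      rw [← h2]
      ring
  exact h1.cardinalMk_eq_trdeg

theorem gs_trdeg [T0Space X.P] (hX : IsVar X) {g : X.P} (hg : Gen X g) (h : BC k K k' K' l) {H : Cart X}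
    {s : Option σ → K} (hs : LSys X H s) (z : BP X σ) (hz : z.x = g)
    (hq : ∀ f : MvPolynomial σ (X.O z.x), red X σ z.x f ∈ z.q ↔
      map ((X.O z.x).val : X.O z.x →+* K) (linO hs z.x) ∣ map ((X.O z.x).val : X.O z.x →+* K) f) :
    Algebra.trdeg k' ((bcM X h).kap z) + 1 = Algebra.trdeg k K := by
  classical
  have hsp : (bcP X h).sp z z := (Pre.sp_iff (bc_ok hX ⟨g, hg⟩ h) z z).1 (@specializes_rfl _ (bcP X h).top z)
  obtain ⟨j, hj⟩ := gsc_unit hX hg h hs z hz hq z hsp
  have hm : ∀ a : K, a ∈ X.O z.x := by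
    intro a
    rw [hz, hg.top]
    exact Algebra.mem_top
  obtain ⟨res, hr1, hr2, hr3⟩ : ∃ res : bcO h z →+* (bcM X h).kap z,
    (∀ a : bcO h z, res a = (bcM X h).rs z a) ∧ Function.Surjective res ∧
      ∀ c, res (algebraMap k' (bcO h z) c) = algebraMap k' ((bcM X h).kap z) c := gsc_res (bcM X h) z
  have hr0 : ∀ a : bcO h z, res a = 0 ↔ ¬ Un (bcO h z) (a : K') := by
    intro a
    have h1 := rs_ne (X := bcM X h) z (a := (a : K')) a.2
    rw [hr1]
    exact not_iff_comm.1 h1 |>.symm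
  -- the residue map
  let ρ : X.O z.x →+* (bcM X h).kap z := res.comp
    (((ev K' l (X.O z.x)).codRestrict (bcO h z) (ev_mem h z)).comp C)
  let ιK : K →+* X.O z.x := (RingHom.id K).codRestrict (X.O z.x) hm
  letI algK : Algebra K ((bcM X h).kap z) := (ρ.comp ιK).toAlgebra
  letI algk : Algebra k ((bcM X h).kap z) := ((algebraMap k' ((bcM X h).kap z)).comp (algebraMap k k')).toAlgebra
  have t1 : IsScalarTower k k' ((bcM X h).kap z) := IsScalarTower.of_algebraMap_eq (fun _ => rfl)
  have hK : ∀ a : K, algebraMap K ((bcM X h).kap z) a =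
      res ⟨ev K' l (X.O z.x) (C ⟨a, hm a⟩), ev_mem h z _⟩ := fun _ => rfl
  have t2 : IsScalarTower k K ((bcM X h).kap z) := by
    refine IsScalarTower.of_algebraMap_eq (fun c => ?_)
    change algebraMap k' ((bcM X h).kap z) (algebraMap k k' c) = _
    rw [hK, ← hr3]
    congr 1
    apply Subtype.ext
    change algebraMap k' K' (algebraMap k k' c) = ev K' l (X.O z.x) (C ⟨algebraMap k K c, hm _⟩)
    rw [ev_C]
    change algebraMap k' K' (algebraMap k k' c) = algebraMap K K' (algebraMap k K c)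
    rw [← IsScalarTower.algebraMap_apply k k' K', ← IsScalarTower.algebraMap_apply k K K']
  obtain ⟨t, ht⟩ : ∃ t : σ → (bcM X h).kap z, t = fun i => algebraMap k' ((bcM X h).kap z) (l i) := ⟨_, rfl⟩
  -- evaluation
  have hev : ∀ f : MvPolynomial σ (X.O z.x), aeval t (map ((X.O z.x).val : X.O z.x →+* K) f) =
      res ⟨ev K' l (X.O z.x) f, ev_mem h z f⟩ := by
    intro f
    have h1 : (aeval t : MvPolynomial σ K →ₐ[K] (bcM X h).kap z).toRingHom.comp
        (map ((X.O z.x).val : X.O z.x →+* K)) = res.comp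
        ((ev K' l (X.O z.x)).codRestrict (bcO h z) (ev_mem h z)) := by
      refine MvPolynomial.ringHom_ext (fun r => ?_) (fun i => ?_)
      · rw [RingHom.comp_apply, map_C]
        change aeval t (C (r : K)) = _
        rw [aeval_C, hK]
        rfl
      · rw [RingHom.comp_apply, map_X]
        change aeval t (MvPolynomial.X i) = _
        rw [aeval_X, ht]
        change algebraMap k' ((bcM X h).kap z) (l i) = res _
        rw [← hr3]
        congr 1
        apply Subtype.ext
        change algebraMap k' K' (l i) = ev K' l (X.O z.x) (MvPolynomial.X i)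
        unfold ev
        rw [coe_eval₂Hom, eval₂_X]
    exact DFunLike.congr_fun h1 f
  have hsur : ∀ F : MvPolynomial σ K, ∃ f : MvPolynomial σ (X.O z.x),
      map ((X.O z.x).val : X.O z.x →+* K) f = F := by
    intro F
    refine ⟨map ιK F, ?_⟩
    rw [map_map]
    have h1 : ((X.O z.x).val : X.O z.x →+* K).comp ιK = RingHom.id K := rfl
    rw [h1, map_id]
  obtain ⟨u, hu⟩ : ∃ u : Option σ → K, u = fun i => s i * H.eq z.x := ⟨_, rfl⟩
  have hlin : map ((X.O z.x).val : X.O z.x →+* K) (linO hs z.x) = lin u := by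
    unfold linO
    rw [map_lin, hu]
    rfl
  have hzero : ∀ F : MvPolynomial σ K, aeval t F = 0 ↔ lin u ∣ F := by
    intro F
    obtain ⟨f, rfl⟩ := hsur F
    rw [← hlin, ← hq, hev, hr0, un_ev h z]
    exact not_not
  have huj : IsUnit (u (some j)) := by
    have h1 := hj.map ((X.O z.x).val : X.O z.x →+* K)
    rw [hu]
    exact h1
  -- the transcendence basis of the residue field over `K`
  have hB : Cardinal.mk {i : σ // i ≠ j} = Algebra.trdeg K ((bcM X h).kap z) := by
    refine gsc_tb (fun i : {i : σ // i ≠ j} => t i.1) ?_ ?_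
    · rw [algebraicIndependent_iff]
      intro P hP
      have h1 : aeval t (rename Subtype.val P) = 0 := by
        rw [aeval_rename]
        exact hP
      exact lin_rename u j huj P ((hzero _).1 h1)
    · intro c
      obtain ⟨⟨a, ha⟩, rfl⟩ := hr2 c
      obtain ⟨f, q, h1, h2⟩ := (mem_bcO h z a).1 ha
      obtain ⟨P, hP⟩ := lin_elim u j huj (map ((X.O z.x).val : X.O z.x →+* K) f)
      obtain ⟨Q, hQ⟩ := lin_elim u j huj (map ((X.O z.x).val : X.O z.x →+* K) q)
      have h3 : aeval t (map ((X.O z.x).val : X.O z.x →+* K) f) =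
          aeval (fun i : {i : σ // i ≠ j} => t i.1) P := by
        have h4 := (hzero _).2 hP
        rw [map_sub, sub_eq_zero, aeval_rename] at h4
        exact h4
      have h4 : aeval t (map ((X.O z.x).val : X.O z.x →+* K) q) =
          aeval (fun i : {i : σ // i ≠ j} => t i.1) Q := by
        have h4 := (hzero _).2 hQ
        rw [map_sub, sub_eq_zero, aeval_rename] at h4
        exact h4
      refine ⟨P, Q, ?_, ?_⟩
      · rw [← h4, Ne, hzero, ← hlin, ← hq]
        exact h1
      · rw [← h3, ← h4, hev, hev]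
        rw [← map_mul]
        congr 1
        exact Subtype.ext h2
  have haev : ∀ c : MvPolynomial σ k, c ≠ 0 → aeval l c ≠ 0 := by
    intro c hc h1
    have h2 := ev_k (K' := K') (l := l) (X.O z.x) c
    rw [h1, map_zero] at h2
    have h3 : map (algebraMap k (X.O z.x)) c = 0 := ev_inj h _ (h2.trans (map_zero _).symm)
    apply hc
    apply map_injective (algebraMap k (X.O z.x)) (algebraMap k (X.O z.x)).injective
    rw [h3, map_zero]
  have hA : Cardinal.mk σ = Algebra.trdeg k k' := by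
    refine gsc_tb l ?_ ?_
    · rw [algebraicIndependent_iff]
      intro P hP
      by_contra h1
      exact haev P h1 hP
    · intro c
      obtain ⟨f, q, h1, h2⟩ := h.genk c
      exact ⟨f, q, haev q h1, h2⟩
  have e1 := trdeg_add_eq k K (A := (bcM X h).kap z)
  have e2 := trdeg_add_eq k k' (A := (bcM X h).kap z)
  rw [← hB] at e1
  rw [← hA, ← e1] at e2
  have hcard : Cardinal.mk σ = ((Fintype.card {i : σ // i ≠ j} : ℕ) : Cardinal) + 1 := by
    rw [Cardinal.mk_fintype]
    have h1 : Fintype.card σ = Fintype.card {i : σ // i ≠ j} + 1 := by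
      have h2 := Fintype.card_congr (Equiv.optionSubtypeNe j)
      rw [Fintype.card_option] at h2
      exact h2.symm
    rw [h1]
    push_cast
    rfl
  rw [hcard, Cardinal.mk_fintype] at e2
  have e3 : Algebra.trdeg k' ((bcM X h).kap z) + 1 + ((Fintype.card {i : σ // i ≠ j} : ℕ) : Cardinal) =
      Algebra.trdeg k K + ((Fintype.card {i : σ // i ≠ j} : ℕ) : Cardinal) := by
    rw [← e2]
    ring
  exact Cardinal.eq_of_add_eq_add_right e3 (Cardinal.natCast_lt_aleph0)

/-- everything together -/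
theorem gs_main [T0Space X.P] (hX : IsVar X) (hg : ∃ g, Gen X g) (h : BC k K k' K' l) {H : Cart X}
    {s : Option σ → K} (hs : LSys X H s) :
    ∃ (z : (bcM X h).P) (hsl : gsec K' l s ≠ 0), SPr (bcM X h) z (bcD hX hg h H * prin (bcM X h) (gsec K' l s) hsl) ∧
      Algebra.trdeg k' ((bcM X h).kap z) + 1 = Algebra.trdeg k K ∧
      ((∀ x, UniqueFactorizationMonoid (X.O x)) → ∀ w : (subM (isVar_bc hX hg h) z).P,
        UniqueFactorizationMonoid ((subM (isVar_bc hX hg h) z).O w)) := by
  obtain ⟨g, hg'⟩ := id hg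
  obtain ⟨z, hz, hq⟩ := gs_pt (σ := σ) hX hg' hs
  exact ⟨z, gsec_ne h hs g, gs_spr hX hg' h hs z hz hq, gs_trdeg hX hg' h hs z hz hq,
    fun hu w => gs_ufd hX hg' h hs z hz hq hu w⟩

end Pool.Agent.H83.TK
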