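import Pool.Agent.H83.TK.PicB
import Pool.Agent.H83.TU.CI

/-!
# [H83 TK PicD] THEOREM V+, chapter PIC: the least common multiple of principal divisors, and gluing

`lcm_cart`: `X` factorial, `b i ∈ K` finitely many elements, not all zero.  There is a Cartier divisor `E` such that
`E.eq x` generates `{c | ∀ i, c * b i ∈ O x}` for all `x`.
Proof.  `b i₀ ≠ 0`, `b' i = b i / b i₀`.  `e x` from `pic_den` for the `b'` and `R = O x`.  (`hR`: `frac_gen` below.)  `cart_of`
(`H83/TU/CI.lean`) with `J x = {c | ∀ i, c * b' i ∈ O x}` (contained in `O x` because of `b' i₀ = 1`), `m = e`: `hcoh`: for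
`a ∈ J x` and every `i` there is `s i ∈ sec U`, a unit at `x`, with `a * b' i * s i ∈ sec U` (`IsVar.frac`); `s = ∏ s i`.
So `E'` with `E'.eq = e`; `E = E' * prin X (b i₀)⁻¹` (`c * b i₀ / e x = c / (e x * (b i₀)⁻¹)`).

`frac_gen`: every element of `K` is a quotient of elements of `O x`: `IsVar.frac` at the generic point `g` for a chart
which contains `x` (and so `g`), `O g = ⊤`.

`glue`: `E j` Cartier divisors, `U j` open sets which cover `X`, `E i / E j` is a unit on `U i ∩ U j`: there is a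
Cartier divisor `E` with `E / E j` a unit on `U j`.
Proof.  `E.eq x = (E (j x)).eq x` for some `j x` with `x ∈ U (j x)`.  `loc`: for `y ∈ U (j x)` in the open set of `(E (j x)).loc x`,
`E.eq y / E.eq x = (E (j y)).eq y / (E (j x)).eq y * ((E (j x)).eq y / (E (j x)).eq x)`.
-/

set_option autoImplicit false

namespace Pool.Agent.H83.TK

open Pool.Agent.H54.RV Pool.Agent.H83.TU

variable {k K : Type} [Field k] [Field K] [Algebra k K] {X : Mod k K}

theorem frac_gen (hX : IsVar X) {g : X.P} (hg : Gen X g) (x : X.P) (c : K) :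
    ∃ a b : X.O x, b ≠ 0 ∧ c * b = a := by
  obtain ⟨U, hU, hxU⟩ := hX.chart x
  have hgU := gen_mem hg U (hX.op U hU) ⟨x, hxU⟩
  obtain ⟨s, hs, hsu, hcs⟩ := hX.frac U g hU hgU c (by
    rw [hg.top]
    exact Algebra.mem_top)
  refine ⟨⟨c * s, (mem_sec U _).1 hcs x hxU⟩, ⟨s, (mem_sec U _).1 hs x hxU⟩, ?_, rfl⟩
  intro h
  exact hsu.1 (congrArg (fun a : X.O x => (a : K)) h)

theorem lcm_cart (hX : IsVar X) {g : X.P} (hg : Gen X g) (hu : ∀ x, UniqueFactorizationMonoid (X.O x))
    {ι : Type} [Finite ι] (b : ι → K) (hb : ∃ i, b i ≠ 0) :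
    ∃ E : Cart X, ∀ x c, (∀ i, c * b i ∈ X.O x) ↔ c / E.eq x ∈ X.O x := by
  classical
  cases nonempty_fintype ι
  obtain ⟨i₀, hi₀⟩ := hb
  obtain ⟨b', hb'⟩ : ∃ b' : ι → K, ∀ i, b' i = b i / b i₀ := ⟨_, fun _ => rfl⟩
  have h1 : b' i₀ = 1 := by rw [hb', div_self hi₀]
  have hex : ∀ x, ∃ e : K, e ≠ 0 ∧ ∀ c : K, (∀ i, c * b' i ∈ X.O x) ↔ c / e ∈ X.O x := by
    intro x
    have := hu x
    exact pic_den (X.O x) (frac_gen hX hg x) b' ⟨i₀, by rw [h1]; exact one_ne_zero⟩
  choose e he0 he using hex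
  obtain ⟨D, hD⟩ := cart_of hX (fun x => {c : K | ∀ i, c * b' i ∈ X.O x}) e
    (fun x i => by
      rw [zero_mul]
      exact (X.O x).zero_mem)
    (fun x a ha c hc i => by
      rw [add_mul]
      exact (X.O x).add_mem (ha i) (hc i))
    (fun x a ha c hc i => by
      rw [mul_assoc]
      exact (X.O x).mul_mem hc (ha i))
    (fun x a ha => by
      have h2 := ha i₀
      rwa [h1, mul_one] at h2) he0 (fun x a => he x a)
    (fun x U hU hxU a ha => by
      choose s hs hsu has using fun i => hX.frac U x hU hxU (a * b' i) (ha i)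
      refine ⟨∏ i, s i, (X.sec U).prod_mem fun i _ => hs i, ?_, fun y hy i => ?_⟩
      · have h2 : ∀ T : Finset ι, Un (X.O x) (∏ i ∈ T, s i) := by
          intro T
          induction T using Finset.induction_on with
          | empty =>
            rw [Finset.prod_empty]
            exact un_one _
          | insert i T hi ih =>
            rw [Finset.prod_insert hi]
            exact un_mul (hsu i) ih
        exact h2 Finset.univ
      · have h2 : a * (∏ i, s i) * b' i = a * b' i * s i * ∏ j ∈ Finset.univ.erase i, s j := by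
          rw [← Finset.mul_prod_erase Finset.univ s (Finset.mem_univ i)]
          ring
        rw [h2]
        exact (X.O y).mul_mem ((mem_sec U _).1 (has i) y hy)
          ((X.O y).prod_mem fun j _ => (mem_sec U _).1 (hs j) y hy))
  refine ⟨D * prin X (b i₀)⁻¹ (inv_ne_zero hi₀), fun x c => ?_⟩
  have h2 : (D * prin X (b i₀)⁻¹ (inv_ne_zero hi₀)).eq x = e x * (b i₀)⁻¹ := by
    rw [mul_eq, hD]
    rfl
  have h3 : c / (e x * (b i₀)⁻¹) = c * b i₀ / e x := by
    have := he0 x
    field_simp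
  rw [h2, h3, ← he x]
  refine forall_congr' fun i => ?_
  have h4 : c * b i₀ * b' i = c * b i := by
    rw [hb']
    field_simp
  rw [h4]

theorem glue (X : Mod k K) {ι : Type} (E : ι → Cart X) (U : ι → Set X.P) (hU : ∀ i, IsOpen (U i)) (hc : ∀ x, ∃ i, x ∈ U i)
    (h : ∀ i j x, x ∈ U i → x ∈ U j → Un (X.O x) ((E i).eq x / (E j).eq x)) :
    ∃ D : Cart X, ∀ i x, x ∈ U i → Un (X.O x) (D.eq x / (E i).eq x) := by
  choose j hj using hc
  refine ⟨⟨fun x => (E (j x)).eq x, fun x => (E (j x)).ne x, fun x => ?_⟩, fun i x hx => h (j x) i x (hj x) hx⟩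
  obtain ⟨V, hV, hxV, hV'⟩ := (E (j x)).loc x
  refine ⟨U (j x) ∩ V, (hU (j x)).inter hV, ⟨hj x, hxV⟩, ?_⟩
  rintro y ⟨hy1, hy2⟩
  have h1 := un_mul (h (j y) (j x) y (hj y) hy1) (hV' y hy2)
  have h2 : (E (j y)).eq y / (E (j x)).eq y * ((E (j x)).eq y / (E (j x)).eq x) =
      (E (j y)).eq y / (E (j x)).eq x := by
    have := (E (j x)).ne y
    field_simp
  rwa [h2] at h1

end Pool.Agent.H83.TK
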