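import Pool.Agent.H83.TK.SubV
import Pool.Agent.H24.TU.TrD
import Pool.Agent.H20.TU.FA7

/-!
# THEOREM K, chapter T1: the transcendence degrees of the residue fields decrease

`trdeg_lt`: if `z ⤳ x` and not `x ⤳ z` then `trdeg κ(x) < trdeg κ(z)`.
-/

set_option autoImplicit false

namespace Pool.Agent.H83.TK

open Pool.Agent.H54.RV Algebra

variable {k K : Type} [Field k] [Field K] [Algebra k K] {X : Mod k K}

/-- evaluation at `z` of the functions on an affine open set -/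
noncomputable def evS (X : Mod k K) (z : X.P) {V : Set X.P} (hz : z ∈ V) : X.sec V →ₐ[k] X.kap z where
  toFun a := X.rs z a.1
  map_one' := rs_one z
  map_mul' a b := rs_mul z ((mem_sec V a.1).1 a.2 z hz) ((mem_sec V b.1).1 b.2 z hz)
  map_zero' := by
    by_contra h
    exact ((rs_ne z (zero_mem (X.O z))).1 h).1 rfl
  map_add' a b := rs_add z ((mem_sec V a.1).1 a.2 z hz) ((mem_sec V b.1).1 b.2 z hz)
  commutes' c := rs_alg z c

/-- the transcendence degree of the residue field -/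
theorem trdeg_ev (hX : IsVar X) {V : Set X.P} (hV : X.aff V) (z : X.P) (hz : z ∈ V) :
    Algebra.trdeg k (X.sec V ⧸ RingHom.ker (evS X z hz : X.sec V →+* X.kap z)) = Algebra.trdeg k (X.kap z) := by
  let g : (X.sec V ⧸ RingHom.ker (evS X z hz : X.sec V →+* X.kap z)) →ₐ[k] X.kap z :=
    Ideal.Quotient.liftₐ _ (evS X z hz) (fun a ha => ha)
  have hg : Function.Injective g := by
    rw [injective_iff_map_eq_zero]
    intro c hc
    obtain ⟨a, rfl⟩ := Ideal.Quotient.mk_surjective c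
    exact Ideal.Quotient.eq_zero_iff_mem.2 hc
  have hdom : IsDomain (X.sec V ⧸ RingHom.ker (evS X z hz : X.sec V →+* X.kap z)) :=
    hg.isDomain (g : _ →+* X.kap z)
  let _ : Algebra (X.sec V ⧸ RingHom.ker (evS X z hz : X.sec V →+* X.kap z)) (X.kap z) := g.toRingHom.toAlgebra
  have hst : IsScalarTower k (X.sec V ⧸ RingHom.ker (evS X z hz : X.sec V →+* X.kap z)) (X.kap z) :=
    IsScalarTower.of_algebraMap_eq fun c => (g.commutes c).symm
  have hfs : FaithfulSMul (X.sec V ⧸ RingHom.ker (evS X z hz : X.sec V →+* X.kap z)) (X.kap z) :=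
    (faithfulSMul_iff_algebraMap_injective _ _).2 hg
  have halg : Algebra.IsAlgebraic (X.sec V ⧸ RingHom.ker (evS X z hz : X.sec V →+* X.kap z)) (X.kap z) := by
    refine ⟨fun c => ?_⟩
    obtain ⟨b, hb, rfl⟩ := rs_surj z c
    obtain ⟨s, hs, h1, h2⟩ := hX.frac V z hV hz b hb
    have h3 : IsAlgebraic (X.sec V ⧸ RingHom.ker (evS X z hz : X.sec V →+* X.kap z)) (X.rs z s) :=
      isAlgebraic_algebraMap (Ideal.Quotient.mk _ (⟨s, hs⟩ : X.sec V))
    have h4 : IsAlgebraic (X.sec V ⧸ RingHom.ker (evS X z hz : X.sec V →+* X.kap z)) (X.rs z (b * s)) :=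
      isAlgebraic_algebraMap (Ideal.Quotient.mk _ (⟨b * s, h2⟩ : X.sec V))
    have h5 := h4.mul h3.inv
    rwa [rs_mul z hb h1.2.1, mul_assoc, mul_inv_cancel₀ ((rs_ne z h1.2.1).2 h1), mul_one] at h5
  have h1 := trdeg_add_eq k (X.sec V ⧸ RingHom.ker (evS X z hz : X.sec V →+* X.kap z)) (A := X.kap z)
  rwa [trdeg_eq_zero (R := X.sec V ⧸ RingHom.ker (evS X z hz : X.sec V →+* X.kap z)) (A := X.kap z),
    add_zero] at h1

theorem trdeg_lt (hX : IsVar X) {z x : X.P} (h : z ⤳ x) (hn : ¬ x ⤳ z) :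
    Algebra.trdeg k (X.kap x) < Algebra.trdeg k (X.kap z) := by
  obtain ⟨V, hV, hx⟩ := hX.chart x
  have hz := mem_of_sp h (hX.op V hV) hx
  have hsec : ∀ a ∈ X.sec V, ∀ y ∈ V, a ∈ X.O y := fun a ha => (mem_sec V a).1 ha
  rw [← trdeg_ev hX hV x hx, ← trdeg_ev hX hV z hz]
  have hft : Algebra.FiniteType k (X.sec V) := (Subalgebra.fg_iff_finiteType _).1 (hX.fg V hV ⟨x, hx⟩)
  have hlt : RingHom.ker (evS X z hz : X.sec V →+* X.kap z) < RingHom.ker (evS X x hx : X.sec V →+* X.kap x) := by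
    refine lt_of_le_of_ne ?_ ?_
    · intro a ha
      change X.rs x a.1 = 0
      by_contra h1
      have h2 := un_mono (hX.spec z x h) ((rs_ne x (hsec a.1 a.2 x hx)).1 h1)
      exact (rs_ne z h2.2.1).2 h2 ha
    · intro h1
      refine hn (sp_of hX hV hx hz fun a ha h2 h3 => ?_)
      have h4 : (⟨a, ha⟩ : X.sec V) ∈ RingHom.ker (evS X x hx : X.sec V →+* X.kap x) := h2
      rw [← h1] at h4
      exact (rs_ne z h3.2.1).2 h3 h4
  refine H24.TU.trdeg_quot_lt (RingHom.ker_isPrime _) (RingHom.ker_isPrime _) hlt ?_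
  have hp := RingHom.ker_isPrime (evS X z hz : X.sec V →+* X.kap z)
  exact trdeg_lt_aleph0_of_finiteType

end Pool.Agent.H83.TK
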