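import Pool.Agent.H83.TK.SubE
import Pool.Agent.H83.TK.SubT
import Pool.Agent.H83.TU.PA

/-!
# THEOREM K, chapter T1: dimensions

* `trdeg_gen`: the residue field of the generic point is `K`.
* `trdeg_sub`: the residue fields of the points of a closed subvariety.
* `trdeg_le_gen`, `trdeg_lt_gen`: a point where some local equation is not a unit has smaller transcendence degree.
* `spr_of_trdeg`: points with `trdeg κ = 2` on a factorial threefold are prime divisors.
* `h0_pt`: on a variety of dimension `0` over an algebraically closed field all divisors have one section.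
-/

set_option autoImplicit false

namespace Pool.Agent.H83.TK

open Pool.Agent.H54.RV Pool.Agent.H83.TU

variable {k K : Type} [Field k] [Field K] [Algebra k K] {X : Mod k K}

theorem trdeg_gen {g : X.P} (hg : Gen X g) : Algebra.trdeg k (X.kap g) = Algebra.trdeg k K := by
  obtain ⟨e, -⟩ := genE hg
  exact e.symm.trdeg_eq

/-- the residue fields of the points of a closed subvariety -/
theorem trdeg_sub (hX : IsVar X) (z : X.P) (x : (subM hX z).P) :
    Algebra.trdeg k ((subM hX z).kap x) = Algebra.trdeg k (X.kap x.1) :=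
  (kapE hX z x).trdeg_eq

theorem not_gen_of (hX : IsVar X) {g : X.P} (hg : Gen X g) {x : X.P} {a : K} (ha : a ≠ 0) (hn : ¬ Un (X.O x) a) :
    ¬ x ⤳ g := by
  intro h
  have h1 := hX.spec _ _ h
  rw [hg.top, top_le_iff] at h1
  exact hn ⟨ha, by rw [h1]; exact Algebra.mem_top, by rw [h1]; exact Algebra.mem_top⟩

theorem trdeg_le_gen (hX : IsVar X) {g : X.P} (hg : Gen X g) (x : X.P) :
    Algebra.trdeg k (X.kap x) ≤ Algebra.trdeg k K := by
  rw [← trdeg_gen hg]
  by_cases h : x ⤳ g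
  · obtain ⟨e1, -⟩ := genE hg
    have hx : X.O x = ⊤ := by
      have h1 := hX.spec _ _ h
      rwa [hg.top, top_le_iff] at h1
    have h2 : Gen X x := ⟨hx, fun y => h.trans (hg.spec y)⟩
    rw [trdeg_gen h2, trdeg_gen hg]
  · exact (trdeg_lt hX (hg.spec x) h).le

/-- a point where the local equation of a divisor is not a unit -/
theorem trdeg_lt_gen (hX : IsVar X) {g : X.P} (hg : Gen X g) {x : X.P} {a : K} (ha : a ≠ 0)
    (hn : ¬ Un (X.O x) a) : Algebra.trdeg k (X.kap x) < Algebra.trdeg k K := by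
  rw [← trdeg_gen hg]
  exact trdeg_lt hX (hg.spec x) (not_gen_of hX hg ha hn)

/-- dimension one -/
theorem trdeg_lt_eq (hX : IsVar X) {g : X.P} (hg : Gen X g) {x : X.P} (E : Cart X)
    (hn : ¬ Un (X.O x) (E.eq x)) : Algebra.trdeg k (X.kap x) < Algebra.trdeg k K :=
  trdeg_lt_gen hX hg (E.ne x) hn

/-- the local ring of a point with smaller transcendence degree is not a field -/
theorem ex_nonunit (hX : IsVar X) {g : X.P} (hg : Gen X g) {x : X.P}
    (hn : Algebra.trdeg k (X.kap x) ≠ Algebra.trdeg k K) : ∃ a ∈ X.O x, a ≠ 0 ∧ ¬ Un (X.O x) a := by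
  by_contra hcon
  push Not at hcon
  apply hn
  obtain ⟨U, hU, hxU⟩ := hX.chart x
  have htop : X.O x = ⊤ := by
    rw [eq_top_iff]
    intro b _
    obtain ⟨s, hs, hs0, hbs⟩ := gen_frac hX ⟨g, hg⟩ U hU ⟨x, hxU⟩ b
    have h1 := hcon s ((mem_sec U s).1 hs x hxU) hs0
    have h2 : b = b * s * s⁻¹ := by
      rw [mul_assoc, mul_inv_cancel₀ hs0, mul_one]
    rw [h2]
    exact (X.O x).mul_mem ((mem_sec U _).1 hbs x hxU) h1.2.2
  have hxg : x ⤳ g := by
    have hgU : g ∈ U := gen_mem hg U (hX.op U hU) ⟨x, hxU⟩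
    refine sp_of hX hU hxU hgU fun a ha h2 h3 => ?_
    have h5 : a ∈ X.O x := by rw [htop]; exact Algebra.mem_top
    have h6 : Un (X.O x) a := ⟨h3.1, h5, by rw [htop]; exact Algebra.mem_top⟩
    exact (rs_ne x h5).2 h6 h2
  exact trdeg_gen ⟨htop, fun y => hxg.trans (hg.spec y)⟩

theorem spr_congr {z z' : X.P} {S : Cart X} (hX : IsVar X) (h1 : z ⤳ z') (h2 : z' ⤳ z) (h : SPr X z S) :
    SPr X z' S := by
  have hO : X.O z = X.O z' := le_antisymm (hX.spec _ _ h2) (hX.spec _ _ h1)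
  refine ⟨h.eff, fun x hx => h.un x fun h3 => hx (h2.trans h3), fun x hx => ?_, fun x hx a ha h3 => ?_⟩
  · rw [← hO]
    exact h.nun x (h1.trans hx)
  · rw [← hO] at h3
    exact h.ker x (h1.trans hx) a ha h3

/-- points with `trdeg κ = 2` on a factorial threefold are prime divisors -/
theorem pdiv_of_trdeg (h : Hyp X) {z : X.P} (hz : Algebra.trdeg k (X.kap z) = 2) :
    ∃ P : PDiv X, P.η ⤳ z ∧ z ⤳ P.η := by
  obtain ⟨g, hg⟩ := h.gen
  have := h.ufd z
  obtain ⟨b, hb, hb0, hbu⟩ := ex_nonunit h.var hg (x := z) (by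
    rw [hz, h.tr]
    intro hh
    have h1 : ((2 : ℕ) : Cardinal.{0}) = ((3 : ℕ) : Cardinal.{0}) := by exact_mod_cast hh
    have h2 : (2 : ℕ) = 3 := by exact_mod_cast h1
    omega)
  obtain ⟨π, hπirr, -⟩ := WfDvdMonoid.exists_irreducible_factor (a := (⟨b, hb⟩ : X.O z))
    (fun hh => hbu ((un_iff hb).1 hh)) (fun hh => hb0 (congrArg Subtype.val hh))
  obtain ⟨q, hq⟩ := π
  obtain ⟨P, hPz, hPq, hP⟩ := pdiv_of_prime h z q hq hπirr.prime
  refine ⟨P, hPz, ?_⟩
  by_contra hn
  have h1 := trdeg_lt h.var hPz hn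
  have hq0 : q ≠ 0 := fun hh => hπirr.prime.ne_zero (Subtype.ext hh)
  have h2 : Algebra.trdeg k (X.kap P.η) < Algebra.trdeg k K := by
    refine trdeg_lt_gen h.var hg hq0 fun h3 => ?_
    have h4 := (ord_eq_zero P.p q h3.1).2 ⟨(P.mem _).1 h3.2.1, (P.mem _).1 h3.2.2⟩
    omega
  rw [hz] at h1
  rw [h.tr] at h2
  have h3 : Algebra.trdeg k (X.kap P.η) < Cardinal.aleph0 :=
    h2.trans (by exact_mod_cast Cardinal.natCast_lt_aleph0 (n := 3))
  obtain ⟨n, hn⟩ := Cardinal.lt_aleph0.1 h3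
  rw [hn] at h1 h2
  have h4 : (2 : ℕ) < n := by exact_mod_cast h1
  have h5 : n < 3 := by exact_mod_cast h2
  omega

theorem spr_of_trdeg (h : Hyp X) {z : X.P} (hz : Algebra.trdeg k (X.kap z) = 2) : ∃ S : Cart X, SPr X z S := by
  obtain ⟨P, h1, h2⟩ := pdiv_of_trdeg h hz
  obtain ⟨S, hS⟩ := pdiv_spr h P
  exact ⟨S, spr_congr h.var h1 h2 hS⟩

/-- the residue field of a prime divisor on a threefold has transcendence degree `2` -/
theorem trdeg_pdiv (h : Hyp X) (P : PDiv X) : Algebra.trdeg k (X.kap P.η) = 2 := by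
  obtain ⟨g, hg⟩ := h.gen
  have hX := h.var
  obtain ⟨U, hU, hPU⟩ := hX.chart P.η
  have hgU : g ∈ U := gen_mem hg U (hX.op U hU) ⟨_, hPU⟩
  have hft : Algebra.FiniteType k (X.sec U) := (Subalgebra.fg_iff_finiteType _).1 (hX.fg U hU ⟨_, hPU⟩)
  have hsec : ∀ a : X.sec U, ∀ y ∈ U, (a : K) ∈ X.O y := fun a => (mem_sec U a.1).1 a.2
  have hker : ∀ (y : X.P) (hy : y ∈ U) (a : X.sec U),
      a ∈ RingHom.ker (evS X y hy : X.sec U →+* X.kap y) ↔ ¬ Un (X.O y) (a : K) := by
    intro y hy a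
    rw [← rs_ne y (hsec a y hy), not_not]
    exact Iff.rfl
  -- the transcendence degree of the coordinate ring
  have h3 : Algebra.trdeg k (X.sec U) = 3 := by
    have h1 := trdeg_ev hX hU g hgU
    have h2 : RingHom.ker (evS X g hgU : X.sec U →+* X.kap g) = ⊥ := by
      rw [eq_bot_iff]
      intro a ha
      rw [hker] at ha
      rw [Ideal.mem_bot]
      by_contra h3
      exact ha ⟨fun h4 => h3 (Subtype.ext h4), hsec a g hgU, by rw [hg.top]; exact Algebra.mem_top⟩
    rw [h2, (AlgEquiv.quotientBot k (X.sec U)).trdeg_eq, trdeg_gen hg, h.tr] at h1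
    exact h1
  have hlt : Algebra.trdeg k (X.kap P.η) < 3 := by
    obtain ⟨t, ht0, ht⟩ := ord_unif P.p
    rw [← h.tr]
    refine trdeg_lt_gen hX hg ht0 fun h3 => ?_
    have h4 := (ord_eq_zero P.p t h3.1).2 ⟨(P.mem _).1 h3.2.1, (P.mem _).1 h3.2.2⟩
    omega
  have hge : 2 ≤ Algebra.trdeg k (X.kap P.η) := by
    rw [← trdeg_ev hX hU P.η hPU]
    have hprime := RingHom.ker_isPrime (evS X P.η hPU : X.sec U →+* X.kap P.η)
    refine H20.TU.trdeg_quot h3 _ ?_ ?_
    · intro hbot
      obtain ⟨t, ht0, ht⟩ := ord_unif P.p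
      have htO : t ∈ X.O P.η := (P.mem t).2 ((ord_nonneg P.p t ht0).1 (by omega))
      obtain ⟨s, hs, h4, h5⟩ := hX.frac U P.η hU hPU t htO
      have h6 : (⟨t * s, h5⟩ : X.sec U) ∈ RingHom.ker (evS X P.η hPU : X.sec U →+* X.kap P.η) := by
        rw [hker]
        intro h7
        have h8 := ((un_mul_iff htO h4.2.1).1 h7).1
        have h9 := (ord_eq_zero P.p t h8.1).2 ⟨(P.mem _).1 h8.2.1, (P.mem _).1 h8.2.2⟩
        omega
      rw [hbot, Ideal.mem_bot] at h6
      exact mul_ne_zero ht0 h4.1 (congrArg Subtype.val h6)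
    · intro Q hQ hQ0 hQle
      refine le_antisymm hQle ?_
      obtain ⟨y, hy, hQy⟩ := hX.prime U hU ⟨_, hPU⟩ Q hQ
      obtain ⟨b, hb, hb0⟩ := Submodule.exists_mem_ne_zero_of_ne_bot hQ0
      have hb0' : (b : K) ≠ 0 := fun hh => hb0 (Subtype.ext hh)
      have hyP : y ⤳ P.η := by
        refine sp_of hX hU hy hPU fun a ha h6 h7 => ?_
        have h8 : (⟨a, ha⟩ : X.sec U) ∈ Q := (hQy _).2 fun h9 => (rs_ne y h9.2.1).2 h9 h6
        exact (hker _ hPU _).1 (hQle h8) h7
      intro a ha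
      rw [hker] at ha
      by_cases ha0 : (a : K) = 0
      · have h6 : a = 0 := Subtype.ext ha0
        rw [h6]
        exact Q.zero_mem
      have haO := hsec a _ hPU
      have h6 : 0 < P.p.ord (a : K) := by
        have h7 : 0 ≤ P.p.ord (a : K) := (ord_nonneg P.p _ ha0).2 ((P.mem _).1 haO)
        refine lt_of_le_of_ne h7 fun h8 => ha ?_
        have h9 := (ord_eq_zero P.p _ ha0).1 h8.symm
        exact ⟨ha0, haO, (P.mem _).2 h9.2⟩
      have hpow : ∀ n : ℕ, P.p.ord ((a : K) ^ n) = n * P.p.ord (a : K) := by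
        intro n
        induction n with
        | zero => rw [pow_zero, ord_one]; simp
        | succ n ih =>
          rw [pow_succ, ord_mul P.p _ _ (pow_ne_zero n ha0) ha0, ih]
          push_cast
          ring
      let N : ℕ := (P.p.ord (b : K)).toNat
      have h7 : (a : K) ^ N / (b : K) ∈ X.O P.η := by
        refine (P.mem _).2 ((ord_nonneg P.p _ (div_ne_zero (pow_ne_zero _ ha0) hb0')).1 ?_)
        rw [div_eq_mul_inv, ord_mul P.p _ _ (pow_ne_zero _ ha0) (inv_ne_zero hb0'), ord_inv, hpow]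
        have h8 : P.p.ord (b : K) ≤ N := Int.self_le_toNat _
        nlinarith
      have h8 : (a : K) ^ N / (b : K) ∈ X.O y := hX.spec _ _ hyP h7
      rw [hQy] at hb ⊢
      intro h9
      apply hb
      have h10 : (b : K) * ((a : K) ^ N / (b : K)) = (a : K) ^ N := by field_simp
      have h11 := un_pow h9 N
      rw [← h10, un_mul_iff (hsec b y hy) h8] at h11
      exact h11.1
  have h4 : Algebra.trdeg k (X.kap P.η) < Cardinal.aleph0 :=
    hlt.trans (by exact_mod_cast Cardinal.natCast_lt_aleph0 (n := 3))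
  obtain ⟨n, hn⟩ := Cardinal.lt_aleph0.1 h4
  rw [hn] at hlt hge ⊢
  have h5 : n < 3 := by exact_mod_cast hlt
  have h6 : 2 ≤ n := by exact_mod_cast hge
  have h7 : n = 2 := by omega
  rw [h7]
  norm_num

/-- varieties of dimension `0` over an algebraically closed field -/
theorem algMap_surj [IsAlgClosed k] (h0 : Algebra.trdeg k K = 0) : Function.Bijective (algebraMap k K) := by
  have h1 : Algebra.IsAlgebraic k K := trdeg_eq_zero_iff.1 h0
  have h2 : Algebra.IsIntegral k K := inferInstance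
  exact IsAlgClosed.algebraMap_bijective_of_isIntegral

theorem h0_pt [IsAlgClosed k] (h : Algebra.trdeg k K = 0) (D : Cart X) (n : ℕ) : h0 D n = 1 := by
  have hs := algMap_surj (k := k) (K := K) h
  have h1 : secL D n = ⊤ := by
    rw [eq_top_iff]
    intro a _ x
    obtain ⟨c, hc⟩ := hs.2 (a * D.eq x ^ n)
    rw [← hc]
    exact (X.O x).algebraMap_mem c
  unfold h0
  rw [h1, finrank_top]
  have e : k ≃ₗ[k] K := LinearEquiv.ofBijective (Algebra.linearMap k K) hs
  rw [← e.finrank_eq, Module.finrank_self]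

end Pool.Agent.H83.TK
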