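import Pool.Agent.H83.TK.GsC
import Pool.Agent.H83.TK.Dim

/-!
# [H83 TK PicF] THEOREM V+, chapter PIC: the rings of the generic member

`Pic0 X H s S px ψ`: `S` a space of local rings in `L`, `px : S.P → X.P`, `ψ : K[l] → L`: the properties of the generic member
`S` of the linear system `s` which are used, in terms of polynomials with coefficients in `K`.
`pic0_of`: the generic member of file `GsC` satisfies them.
-/

set_option autoImplicit false

namespace Pool.Agent.H83.TK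

open Pool.Agent.H54.RV MvPolynomial Pool.Agent.H83.TU

/-- the polynomials with coefficients in a subalgebra -/
def CoR {k K τ : Type} [Field k] [Field K] [Algebra k K] (R : Subalgebra k K) (F : MvPolynomial τ K) : Prop :=
  ∀ m, F.coeff m ∈ R

theorem coR_map {k K τ : Type} [Field k] [Field K] [Algebra k K] (R : Subalgebra k K) (f : MvPolynomial τ R) :
    CoR R (map (R.val : R →+* K) f) := by
  intro m
  rw [coeff_map]
  exact (f.coeff m).2

theorem coR_iff {k K τ : Type} [Field k] [Field K] [Algebra k K] (R : Subalgebra k K) (F : MvPolynomial τ K) :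
    CoR R F ↔ ∃ f : MvPolynomial τ R, map (R.val : R →+* K) f = F := by
  constructor
  · intro h
    refine ⟨∑ m ∈ F.support, monomial m ⟨F.coeff m, h m⟩, ?_⟩
    rw [map_sum]
    conv_rhs => rw [F.as_sum]
    refine Finset.sum_congr rfl fun m _ => ?_
    rw [map_monomial]
    rfl
  · rintro ⟨f, rfl⟩
    exact coR_map R f

/-- the generic member of a linear system -/
structure Pic0 {k K k' L : Type} [Field k] [Field K] [Algebra k K] [Field k'] [Field L] [Algebra k' L] {σ : Type}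
    [Fintype σ] (X : Mod k K) (H : Cart X) (s : Option σ → K) (S : Mod k' L) (px : S.P → X.P)
    (ψ : MvPolynomial σ K →+* L) : Prop where
  ker : ∀ F, ψ F = 0 ↔ lin s ∣ F
  mem : ∀ (w : S.P) (F : MvPolynomial σ K), CoR (X.O (px w)) F → ψ F ∈ S.O w
  fr : ∀ (w : S.P), ∀ c ∈ S.O w, ∃ P Q : MvPolynomial σ K, CoR (X.O (px w)) P ∧ CoR (X.O (px w)) Q ∧
    Un (S.O w) (ψ Q) ∧ c * ψ Q = ψ P
  un : ∀ (w : S.P), ∀ a ∈ X.O (px w), Un (S.O w) (ψ (C a)) ↔ Un (X.O (px w)) a
  sp : ∀ y w : S.P, y ⤳ w ↔ px y ⤳ px w ∧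
    ∀ F : MvPolynomial σ K, CoR (X.O (px w)) F → Un (S.O w) (ψ F) → Un (S.O y) (ψ F)
  unit : ∀ w : S.P, ∃ j : σ, Un (X.O (px w)) (s (some j) * H.eq (px w))

variable {k K k' K' : Type} [Field k] [Field K] [Field k'] [Field K'] [Algebra k K] [Algebra k k'] [Algebra K K']
  [Algebra k' K'] [Algebra k K'] [IsScalarTower k K K'] [IsScalarTower k k' K'] {σ : Type} [Fintype σ] {X : Mod k K}
  {l : σ → k'}

private theorem picf_res {k K : Type} [Field k] [Field K] [Algebra k K] (M : Mod k K) (z : M.P) :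
    ∃ res : M.O z →+* M.kap z, (∀ a : M.O z, res a = M.rs z a) ∧
      ∀ c, res (algebraMap k (M.O z) c) = algebraMap k (M.kap z) c := by
  refine ⟨IsLocalRing.residue (M.O z), fun a => ?_, fun c => rfl⟩
  unfold Mod.rs
  rw [dif_pos a.2]
  rfl

private theorem picf_lin {R : Type} [CommRing R] (u : Option σ → R) (c : R) :
    lin (fun i => u i * c) = lin u * C c := by
  unfold lin
  rw [add_mul, Finset.sum_mul, C_mul]
  congr 1
  refine Finset.sum_congr rfl fun i _ => ?_
  rw [C_mul, mul_assoc]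

private theorem picf_dvd {H : Cart X} {s : Option σ → K} (hs : LSys X H s) (x : X.P) (f : MvPolynomial σ K) :
    map ((X.O x).val : X.O x →+* K) (linO hs x) ∣ f ↔ lin s ∣ f := by
  have h0 : map ((X.O x).val : X.O x →+* K) (linO hs x) = lin s * C (H.eq x) := by
    unfold linO
    rw [map_lin, ← picf_lin]
    rfl
  rw [h0]
  have h1 : IsUnit (C (H.eq x) : MvPolynomial σ K) := (isUnit_iff_ne_zero.2 (H.ne x)).map C
  exact h1.mul_right_dvd

/-- some coefficient is a unit -/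
private theorem picf_unit [T0Space X.P] (hX : IsVar X) {g : X.P} (hg : Gen X g) (h : BC k K k' K' l) {H : Cart X}
    {s : Option σ → K} (hs : LSys X H s) (z : BP X σ) (hz : z.x = g)
    (hq : ∀ f : MvPolynomial σ (X.O z.x), red X σ z.x f ∈ z.q ↔
      map ((X.O z.x).val : X.O z.x →+* K) (linO hs z.x) ∣ map ((X.O z.x).val : X.O z.x →+* K) f)
    (w : BP X σ) (hw : (bcP X h).sp z w) :
    ∃ j : σ, Un (X.O w.x) (s (some j) * H.eq w.x) := by
  by_contra hcon
  push Not at hcon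
  have h1 := (gs_sp hX hg h hs z hz hq w).1 hw
  obtain ⟨i, hi⟩ := hs.free w.x
  cases i with
  | some j => exact hcon j hi
  | none =>
    have h2 : red X σ w.x (linO hs w.x) =
        C (IsLocalRing.residue (X.O w.x) ⟨s none * H.eq w.x, hs.mem w.x none⟩) := by
      unfold linO red
      rw [map_lin]
      unfold lin
      have h3 : ∀ i : σ, IsLocalRing.residue (X.O w.x) ⟨s (some i) * H.eq w.x, hs.mem w.x (some i)⟩ = 0 := by
        intro i
        rw [IsLocalRing.residue_eq_zero_iff, IsLocalRing.mem_maximalIdeal, mem_nonunits_iff, un_iff]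
        exact hcon i
      have h5 : ∀ i : σ, (MvPolynomial.X i : MvPolynomial σ (X.kap w.x)) *
          C (IsLocalRing.residue (X.O w.x) ⟨s (some i) * H.eq w.x, hs.mem w.x (some i)⟩) = 0 := by
        intro i
        exact (congrArg (fun c : X.kap w.x => (MvPolynomial.X i : MvPolynomial σ (X.kap w.x)) * C c)
          (h3 i)).trans ((congrArg _ C_0).trans (mul_zero _))
      have h7 := Finset.sum_eq_zero (s := Finset.univ) (fun i _ => h5 i)
      exact (congrArg (fun q => C (IsLocalRing.residue (X.O w.x) ⟨s none * H.eq w.x, hs.mem w.x none⟩) + q)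
        h7).trans (add_zero _)
    rw [h2] at h1
    have h3 : IsUnit (C (IsLocalRing.residue (X.O w.x) ⟨s none * H.eq w.x, hs.mem w.x none⟩) :
        MvPolynomial σ (X.kap w.x)) := by
      have h4 : IsUnit (⟨s none * H.eq w.x, hs.mem w.x none⟩ : X.O w.x) := (un_iff _).2 hi
      exact (h4.map (IsLocalRing.residue (X.O w.x))).map (C : X.kap w.x →+* MvPolynomial σ (X.kap w.x))
    exact w.prime.ne_top (Ideal.eq_top_of_isUnit_mem _ h1 h3)

/-- the equation of the closure determines the closure -/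
theorem spr_sp {k K : Type} [Field k] [Field K] [Algebra k K] {X : Mod k K} (hX : IsVar X) {z : X.P} {S : Cart X}
    (h : SPr X z S) (w : X.P) : z ⤳ w ↔ ¬ Un (X.O w) (S.eq w) := by
  constructor
  · intro h1 h2
    exact h.nun w h1 (un_mono (hX.spec _ _ h1) h2)
  · intro h1
    by_contra h2
    exact h1 (h.un w h2)

theorem spr_unique {k K : Type} [Field k] [Field K] [Algebra k K] {X : Mod k K} [T0Space X.P] (hX : IsVar X)
    {z z' : X.P} {S : Cart X} (h : SPr X z S) (h' : SPr X z' S) : z = z' := by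
  have h1 : z ⤳ z' := (spr_sp hX h z').2 ((spr_sp hX h' z').1 specializes_rfl)
  have h2 : z' ⤳ z := (spr_sp hX h' z).2 ((spr_sp hX h z).1 specializes_rfl)
  exact (h1.antisymm h2).eq

private theorem picf_ev {x y : X.P} (hxy : X.O x ≤ X.O y) (f : MvPolynomial σ (X.O x)) :
    ev K' l (X.O y) (map (Subalgebra.inclusion hxy : X.O x →+* X.O y) f) = ev K' l (X.O x) f := by
  unfold ev
  rw [coe_eval₂Hom, eval₂_map]
  rfl

theorem pic0_pt [T0Space X.P] (hX : IsVar X) {g : X.P} (hg : Gen X g) (h : BC k K k' K' l) {H : Cart X}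
    {s : Option σ → K} (hs : LSys X H s) (z : BP X σ) (hz : z.x = g)
    (hq : ∀ f : MvPolynomial σ (X.O z.x), red X σ z.x f ∈ z.q ↔
      map ((X.O z.x).val : X.O z.x →+* K) (linO hs z.x) ∣ map ((X.O z.x).val : X.O z.x →+* K) f) :
    ∃ ψ : MvPolynomial σ K →+* (bcM X h).kap z,
      Pic0 X H s (subM (isVar_bc hX ⟨g, hg⟩ h) z) (fun w => BP.x (X := X) (σ := σ) w.1) ψ ∧
      ∀ a : K, ψ (C a) = (bcM X h).rs z (algebraMap K K' a) := by
  have hM : IsVar (bcM X h) := isVar_bc hX ⟨g, hg⟩ h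
  have hok := bc_ok (σ := σ) hX ⟨g, hg⟩ h
  have hm : ∀ a : K, a ∈ X.O z.x := by
    intro a
    rw [hz, hg.top]
    exact Algebra.mem_top
  have hco : ∀ F : MvPolynomial σ K, CoR (X.O z.x) F := fun F m => hm _
  obtain ⟨res, hr1, hr3⟩ : ∃ res : bcO h z →+* (bcM X h).kap z,
    (∀ a : bcO h z, res a = (bcM X h).rs z a) ∧
      ∀ c, res (algebraMap k' (bcO h z) c) = algebraMap k' ((bcM X h).kap z) c := picf_res (bcM X h) z
  have hmem : ∀ F : MvPolynomial σ K, (aeval (fun i => algebraMap k' K' (l i)) : MvPolynomial σ K →ₐ[K] K') F ∈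
      bcO h z := by
    intro F
    obtain ⟨f, rfl⟩ := (coR_iff _ _).1 (hco F)
    rw [← ev_eq]
    exact ev_mem h z f
  let ψ : MvPolynomial σ K →+* (bcM X h).kap z := res.comp
    (((aeval (fun i => algebraMap k' K' (l i)) : MvPolynomial σ K →ₐ[K] K') : MvPolynomial σ K →+* K').codRestrict
      (bcO h z) hmem)
  have hψ : ∀ F, ψ F = (bcM X h).rs z ((aeval (fun i => algebraMap k' K' (l i)) : MvPolynomial σ K →ₐ[K] K') F) :=
    fun F => hr1 ⟨_, hmem F⟩
  have hψe : ∀ (x : X.P) (f : MvPolynomial σ (X.O x)), ψ (map ((X.O x).val : X.O x →+* K) f) =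
      (bcM X h).rs z (ev K' l (X.O x) f) := by
    intro x f
    rw [hψ, ev_eq]
  have hψC : ∀ a : K, ψ (C a) = (bcM X h).rs z (algebraMap K K' a) := by
    intro a
    rw [hψ, algHom_C]
  refine ⟨ψ, ⟨?_, ?_, ?_, ?_, ?_, ?_⟩, hψC⟩
  · intro F
    obtain ⟨f, rfl⟩ := (coR_iff _ _).1 (hco F)
    rw [hψe, ← picf_dvd hs z.x, ← hq]
    have h1 := rs_ne (X := bcM X h) z (ev_mem h z f)
    have h2 := un_ev h z f
    change ((bcM X h).rs z (ev K' l (X.O z.x) f) ≠ 0 ↔ Un (bcO h z) (ev K' l (X.O z.x) f)) at h1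
    rw [h2] at h1
    exact not_iff_not.1 h1
  · rintro ⟨w, hzw⟩ F hF
    obtain ⟨f, rfl⟩ := (coR_iff _ _).1 hF
    rw [hψe]
    exact rs_mem_subO hM hzw (ev_mem h w f)
  · rintro ⟨w, hzw⟩ c hc
    obtain ⟨a, ha, rfl⟩ := (subO_iff hM hzw c).1 hc
    obtain ⟨f, q, h1, h2⟩ := (mem_bcO h w a).1 ha
    have hle : bcO h w ≤ bcO h z := hM.spec _ _ hzw
    refine ⟨map ((X.O (BP.x w)).val : X.O (BP.x w) →+* K) f, map ((X.O (BP.x w)).val : X.O (BP.x w) →+* K) q,
      coR_map _ _, coR_map _ _, ?_, ?_⟩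
    · rw [hψe]
      exact (un_subO hM hzw (ev_mem h w q)).2 ((un_ev h w q).2 h1)
    · rw [hψe, hψe, ← h2, rs_mul (X := bcM X h) z (hle ha) (hle (ev_mem h w q))]
  · rintro ⟨w, hzw⟩ a ha
    rw [hψC]
    exact (un_subO hM hzw (alg_mem h w ha)).trans (un_alg h w ha)
  · rintro ⟨y, hzy⟩ ⟨w, hzw⟩
    rw [subM_spec]
    have h0 : (@Specializes (bcM X h).P (bcM X h).top y w) ↔ (bcP X h).sp y w := Pre.sp_iff hok y w
    refine h0.trans ?_
    rw [bc_sp hX h y w]
    refine and_congr_right fun hyw => ?_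
    have hle := hX.spec _ _ hyw
    constructor
    · intro h1 F hF hu
      obtain ⟨f, rfl⟩ := (coR_iff _ _).1 hF
      rw [hψe] at hu ⊢
      have h2 := h1 f ((un_ev h w f).1 ((un_subO hM hzw (ev_mem h w f)).1 hu))
      exact (un_subO hM hzy h2.2.1).2 h2
    · intro h1 f hf
      have h2 := h1 (map ((X.O (BP.x w)).val : X.O (BP.x w) →+* K) f) (coR_map _ _) (by
        rw [hψe]
        exact (un_subO hM hzw (ev_mem h w f)).2 ((un_ev h w f).2 hf))
      rw [hψe] at h2
      refine (un_subO hM hzy ?_).1 h2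
      rw [← picf_ev hle]
      exact ev_mem h y _
  · rintro ⟨w, hzw⟩
    exact picf_unit hX hg h hs z hz hq w ((Pre.sp_iff hok z w).1 hzw)

theorem pic0_of [T0Space X.P] (hX : IsVar X) (hg : ∃ g, Gen X g) (h : BC k K k' K' l) {H : Cart X}
    {s : Option σ → K} (hs : LSys X H s) (hsl : gsec K' l s ≠ 0) (z : (bcM X h).P)
    (hz : SPr (bcM X h) z (bcD hX hg h H * prin (bcM X h) (gsec K' l s) hsl)) :
    ∃ ψ : MvPolynomial σ K →+* (bcM X h).kap z,
      Pic0 X H s (subM (isVar_bc hX hg h) z) (fun w => BP.x (X := X) (σ := σ) w.1) ψ ∧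
      ∃ g : X.P, Gen X g ∧ ∀ (E : Cart X) (w : (subM (isVar_bc hX hg h) z).P),
        (resD (isVar_bc hX hg h) z (bcD hX hg h E)).eq w = ψ (C (E.eq (BP.x (X := X) (σ := σ) w.1) / E.eq g)) := by
  obtain ⟨g, hg'⟩ := id hg
  obtain ⟨z', hz1, hz2⟩ := gs_pt (σ := σ) hX hg' hs
  have hM : IsVar (bcM X h) := isVar_bc hX hg h
  haveI := bc_t0 (σ := σ) hX hg h
  have h1 : z = z' := spr_unique hM hz (gs_spr hX hg' h hs z' hz1 hz2)
  subst h1
  obtain ⟨ψ, h2, h3⟩ := pic0_pt hX hg' h hs z hz1 hz2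
  refine ⟨ψ, h2, g, hg', fun E w => ?_⟩
  rw [resD_eq, h3, map_div₀]
  subst hz1
  rfl

end Pool.Agent.H83.TK
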