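import Pool.Agent.H83.TK.PicA
import Pool.Agent.H83.TK.PicF

/-!
# [H83 TK PicG] THEOREM V+, chapter PIC: charts and assembly

`phi ψ j`: the restriction of `ψ : K[l] → L` to the polynomials in the variables `l i`, `i ≠ j`; it is injective if
`s (some j) ≠ 0` (`phi_inj`) and every `ψ F` with `F` with coefficients in `O x` is the image of a polynomial with
coefficients in `O x` if the section `s (some j)` does not vanish at `x` (`phi_elim`).
`pic_gen`: if the point `y` of `S` is a prime divisor then its prime ideal is generated by a prime polynomial.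
`pic_asm`: the assembly.
-/

set_option autoImplicit false

namespace Pool.Agent.H83.TK

open Pool.Agent.H54.RV MvPolynomial Pool.Agent.H83.TU

variable {k K k' L : Type} [Field k] [Field K] [Algebra k K] [Field k'] [Field L] [Algebra k' L] {σ : Type}
    [Fintype σ] {X : Mod k K} {H : Cart X} {s : Option σ → K} {S : Mod k' L} {px : S.P → X.P}
    {ψ : MvPolynomial σ K →+* L}

/-- the polynomials without the variable `j` -/
noncomputable def phi (ψ : MvPolynomial σ K →+* L) (j : σ) : MvPolynomial {i : σ // i ≠ j} K →+* L :=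
  ψ.comp ((rename Subtype.val : MvPolynomial {i : σ // i ≠ j} K →ₐ[K] MvPolynomial σ K) : _ →+* _)

omit [Fintype σ] in
theorem phi_eq (j : σ) (F : MvPolynomial {i : σ // i ≠ j} K) : phi ψ j F = ψ (rename Subtype.val F) := rfl

omit [Fintype σ] in
theorem phi_C (j : σ) (c : K) : phi ψ j (C c) = ψ (C c) := by
  rw [phi_eq, rename_C]

omit [Fintype σ] in
theorem coR_rename (R : Subalgebra k K) {j : σ} {F : MvPolynomial {i : σ // i ≠ j} K} (hF : CoR R F) :
    CoR R (rename Subtype.val F : MvPolynomial σ K) := by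
  obtain ⟨f, rfl⟩ := (coR_iff _ _).1 hF
  rw [← map_rename]
  exact coR_map _ _

omit [Fintype σ] in
theorem coR_top {R : Subalgebra k K} (hR : R = ⊤) {τ : Type} (F : MvPolynomial τ K) : CoR R F := by
  intro m
  rw [hR]
  exact Algebra.mem_top

theorem phi_inj (P : Pic0 X H s S px ψ) (j : σ) (hj : s (some j) ≠ 0) : Function.Injective (phi ψ j) := by
  rw [injective_iff_map_eq_zero]
  intro F hF
  rw [phi_eq, P.ker] at hF
  exact lin_rename s j (isUnit_iff_ne_zero.2 hj) F hF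

private theorem picg_lin {R : Type} [CommRing R] (u : Option σ → R) (c : R) :
    lin (fun i => u i * c) = lin u * C c := by
  unfold lin
  rw [add_mul, Finset.sum_mul, C_mul]
  congr 1
  refine Finset.sum_congr rfl fun i _ => ?_
  rw [C_mul, mul_assoc]

theorem phi_elim (P : Pic0 X H s S px ψ) (hs : ∀ x i, s i * H.eq x ∈ X.O x) (x : X.P) (j : σ)
    (hj : Un (X.O x) (s (some j) * H.eq x)) {F : MvPolynomial σ K} (hF : CoR (X.O x) F) :
    ∃ F' : MvPolynomial {i : σ // i ≠ j} K, CoR (X.O x) F' ∧ phi ψ j F' = ψ F := by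
  obtain ⟨f, rfl⟩ := (coR_iff _ _).1 hF
  obtain ⟨p, hp⟩ := lin_elim (fun i => (⟨s i * H.eq x, hs x i⟩ : X.O x)) j ((un_iff _).2 hj) f
  refine ⟨map ((X.O x).val : X.O x →+* K) p, coR_map _ _, ?_⟩
  have h1 := _root_.map_dvd (map ((X.O x).val : X.O x →+* K)) hp
  rw [map_lin, map_sub, map_rename] at h1
  have h2 : (fun i => ((X.O x).val : X.O x →+* K) (⟨s i * H.eq x, hs x i⟩ : X.O x)) = fun i => s i * H.eq x := rfl
  rw [h2, picg_lin] at h1
  have h3 : ψ (map ((X.O x).val : X.O x →+* K) f - rename Subtype.val (map ((X.O x).val : X.O x →+* K) p)) = 0 :=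
    (P.ker _).2 (dvd_of_mul_right_dvd h1)
  rw [map_sub, sub_eq_zero] at h3
  rw [phi_eq]
  exact h3.symm

theorem pic0_ne (P : Pic0 X H s S px ψ) (y : S.P) {c : K} (hc : c ≠ 0) : ψ (C c) ≠ 0 := by
  have h1 : ψ (C c) * ψ (C c⁻¹) = 1 := by
    rw [← map_mul, ← C_mul, mul_inv_cancel₀ hc, C_1, map_one]
  exact left_ne_zero_of_mul_eq_one h1

/-- the prime ideal of a prime divisor of `S` -/
theorem pic_gen (P : Pic0 X H s S px ψ) (hs : ∀ x i, s i * H.eq x ∈ X.O x)
    (hu : ∀ x, UniqueFactorizationMonoid (X.O x)) {y : S.P} {D : Cart S} (hD : SPr S y D) (j : σ)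
    (hj : Un (X.O (px y)) (s (some j) * H.eq (px y))) :
    ∃ G : MvPolynomial {i : σ // i ≠ j} (X.O (px y)), Prime G ∧
      ¬ Un (S.O y) (phi ψ j (map ((X.O (px y)).val : X.O (px y) →+* K) G)) ∧
      ∀ F : MvPolynomial {i : σ // i ≠ j} (X.O (px y)),
        ¬ Un (S.O y) (phi ψ j (map ((X.O (px y)).val : X.O (px y) →+* K) F)) → G ∣ F := by
  haveI := hu (px y)
  have hsj : s (some j) ≠ 0 := by
    intro h0
    rw [h0, zero_mul] at hj
    exact hj.1 rfl
  refine pic_prime ((phi ψ j).comp (map ((X.O (px y)).val : X.O (px y) →+* K))) ?_ (S.O y) ?_ ?_ (D.eq y)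
    (hD.eff y) (D.ne y) ?_ ?_
  · exact (phi_inj P j hsj).comp (map_injective _ Subtype.val_injective)
  · intro b
    exact P.mem y _ (coR_rename _ (coR_map _ _))
  · intro a ha
    obtain ⟨p, q, hp, hq, h1, h2⟩ := P.fr y a ha
    obtain ⟨p', hp', h3⟩ := phi_elim P hs (px y) j hj hp
    obtain ⟨q', hq', h4⟩ := phi_elim P hs (px y) j hj hq
    obtain ⟨p'', rfl⟩ := (coR_iff _ _).1 hp'
    obtain ⟨q'', rfl⟩ := (coR_iff _ _).1 hq'
    refine ⟨p'', q'', ?_, ?_⟩
    · rw [RingHom.comp_apply, h4]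
      exact h1
    · rw [RingHom.comp_apply, RingHom.comp_apply, h3, h4]
      exact h2
  · exact fun h1 => hD.nun y specializes_rfl h1
  · exact fun a ha h1 => hD.ker y specializes_rfl a ha h1

/-- the assembly -/
theorem pic_asm (hS : IsVar S) (P : Pic0 X H s S px ψ) {y : S.P} {D : Cart S} (hD : SPr S y D) (E : Cart X) (f : L)
    (hf : f ≠ 0) (h1 : ∀ w, ¬ px y ⤳ px w → Un (S.O w) (ψ (C (E.eq (px w))) * f))
    (h2 : ∀ w, px y ⤳ px w → ∃ G : MvPolynomial σ K, CoR (X.O (px w)) G ∧ ψ G = ψ (C (E.eq (px w))) * f ∧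
      ¬ Un (S.O y) (ψ G) ∧ ∀ F, CoR (X.O (px w)) F → ¬ Un (S.O y) (ψ F) →
        ∃ F', CoR (X.O (px w)) F' ∧ ψ F = ψ G * ψ F') (w : S.P) :
    Un (S.O w) (D.eq w / (ψ (C (E.eq (px w))) * f)) := by
  by_cases hyw : px y ⤳ px w
  · obtain ⟨G, hG, h3, h4, h5⟩ := h2 w hyw
    rw [← h3]
    have hG0 : ψ G ≠ 0 := by
      rw [h3]
      exact mul_ne_zero (pic0_ne P y (E.ne _)) hf
    have hGm : ψ G ∈ S.O w := P.mem w G hG
    by_cases hy : y ⤳ w
    · have hle := hS.spec _ _ hy
      obtain ⟨p, q, hp, hq, h6, h7⟩ := P.fr w _ (hD.eff w)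
      have h8 : ¬ Un (S.O y) (ψ p) := by
        rw [← h7, un_mul_un (un_mono hle h6)]
        exact hD.nun w hy
      obtain ⟨F', hF', h9⟩ := h5 p hp h8
      refine ⟨div_ne_zero (D.ne w) hG0, ?_, ?_⟩
      · have h10 : D.eq w / ψ G = ψ F' * (ψ q)⁻¹ := by
          have := h6.1
          field_simp
          rw [h7, h9]
        rw [h10]
        exact mul_mem (P.mem w F' hF') h6.2.2
      · rw [inv_div]
        exact hD.ker w hy _ hGm h4
    · refine un_div (hD.un w hy) ?_
      have h6 := (not_iff_not.2 (P.sp y w)).1 hy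
      push Not at h6
      obtain ⟨F, hF, h7, h8⟩ := h6 hyw
      obtain ⟨F', hF', h9⟩ := h5 F hF h8
      rw [h9, un_mul_iff hGm (P.mem w F' hF')] at h7
      exact h7.1
  · have hy : ¬ y ⤳ w := fun h3 => hyw ((P.sp y w).1 h3).1
    exact un_div (hD.un w hy) (h1 w hyw)

end Pool.Agent.H83.TK
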