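import Pool.Agent.H83.TK.PicC
import Pool.Agent.H83.TK.PicD
import Pool.Agent.H83.TK.PicG

/-!
# [H83 TK PicJ] THEOREM V+, chapter PIC: the prime divisors in the generic fibre

`y` a prime divisor of `S` whose image `px y` in `X` is a generic point.  The prime ideal of `y` in `K[l] / (lin s)` is
generated by `f = ψ G`.  `E.eq x` generates the `c ∈ K` with `c * f ∈ ψ (O x [l])` (locally, in the chart `j`: the `c` for which
`c * G'` has coefficients in `O x`, `f = phi ψ j G'`: `lcm_cart`, `glue`); the key property is the lemma of Gauss.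
-/

set_option autoImplicit false

namespace Pool.Agent.H83.TK

open Pool.Agent.H54.RV MvPolynomial Pool.Agent.H83.TU

variable {k K k' L : Type} [Field k] [Field K] [Algebra k K] [Field k'] [Field L] [Algebra k' L] {σ : Type}
    [Fintype σ] {X : Mod k K} {H : Cart X} {s : Option σ → K} {S : Mod k' L} {px : S.P → X.P}
    {ψ : MvPolynomial σ K →+* L}

/-- the generator of the prime ideal -/
private theorem picj_f (P : Pic0 X H s S px ψ) (hs : ∀ x i, s i * H.eq x ∈ X.O x)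
    (hu : ∀ x, UniqueFactorizationMonoid (X.O x)) {y : S.P} {D : Cart S} (hD : SPr S y D)
    (hy : Gen X (px y)) :
    ∃ f : L, f ≠ 0 ∧ (∃ G, ψ G = f) ∧ ¬ Un (S.O y) f ∧ ∀ F, ¬ Un (S.O y) (ψ F) → ∃ F', ψ F = f * ψ F' := by
  obtain ⟨j, hj⟩ := P.unit y
  obtain ⟨G, hG1, hG2, hG3⟩ := pic_gen P hs hu hD j hj
  have hsj : s (some j) ≠ 0 := by
    intro h0
    rw [h0, zero_mul] at hj
    exact hj.1 rfl
  refine ⟨_, ?_, ⟨_, rfl⟩, hG2, fun F hF => ?_⟩
  · intro h0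
    have h1 := phi_inj P j hsj (h0.trans (map_zero _).symm)
    have h2 := map_injective _ Subtype.val_injective (h1.trans (map_zero _).symm)
    exact hG1.ne_zero h2
  · obtain ⟨F₁, hF₁, h1⟩ := phi_elim P hs (px y) j hj (coR_top hy.top F)
    obtain ⟨F₂, rfl⟩ := (coR_iff (X.O (px y)) F₁).1 hF₁
    obtain ⟨F₃, rfl⟩ := hG3 F₂ (by rw [h1]; exact hF)
    refine ⟨rename Subtype.val (map ((X.O (px y)).val : X.O (px y) →+* K) F₃), ?_⟩
    rw [← h1, map_mul, map_mul]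
    rfl

/-- the open sets of the charts -/
private theorem picj_open (hX : IsVar X) (hs : ∀ x i, s i * H.eq x ∈ X.O x) (i : Option σ) :
    IsOpen {x | Un (X.O x) (s i * H.eq x)} := by
  rw [isOpen_iff_forall_mem_open]
  intro x hx
  have hx' : Un (X.O x) (s i * H.eq x) := hx
  obtain ⟨U, hU, hxU, h1⟩ := H.loc x
  obtain ⟨V, hV, hxV⟩ := hX.chart x
  obtain ⟨t, ht, htu, h2⟩ := hX.frac V x hV hxV _ (hs x i)
  have h3 : ∀ a ∈ X.sec V, IsOpen {y | y ∈ V ∧ Un (X.O y) a} := fun a ha =>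
    hX.op _ (hX.basic V a hV ((mem_sec V a).1 ha))
  refine ⟨U ∩ ({y | y ∈ V ∧ Un (X.O y) t} ∩ {y | y ∈ V ∧ Un (X.O y) (s i * H.eq x * t)}), ?_,
    hU.inter ((h3 t ht).inter (h3 _ h2)), hxU, ⟨hxV, htu⟩, hxV, un_mul hx' htu⟩
  rintro y ⟨hyU, ⟨_, h4⟩, _, h5⟩
  rw [un_mul_un h4] at h5
  have h6 : s i * H.eq y = s i * H.eq x * (H.eq y / H.eq x) := by
    have := H.ne x
    field_simp
  change Un (X.O y) (s i * H.eq y)
  rw [h6]
  exact un_mul h5 (h1 y hyU)

private theorem picj_claim (P : Pic0 X H s S px ψ) (hs : ∀ x i, s i * H.eq x ∈ X.O x) (j : σ) (hsj : s (some j) ≠ 0)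
    (G : MvPolynomial {i : σ // i ≠ j} K) (x : X.P) (hx : Un (X.O x) (s (some j) * H.eq x)) (c : K) :
    CoR (X.O x) (C c * G) ↔ ∃ F : MvPolynomial σ K, CoR (X.O x) F ∧ ψ F = ψ (C c) * phi ψ j G := by
  constructor
  · intro h1
    refine ⟨_, coR_rename _ h1, ?_⟩
    rw [← phi_eq, map_mul, phi_C]
  · rintro ⟨F, hF, h1⟩
    obtain ⟨F', hF', h2⟩ := phi_elim P hs x j hx hF
    have h3 : F' = C c * G := by
      apply phi_inj P j hsj
      rw [h2, h1, map_mul, phi_C]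
    rw [← h3]
    exact hF'

private theorem picj_un {R : Subalgebra k K} {a b : K} (ha : a ≠ 0) (hb : b ≠ 0)
    (h : ∀ c, c / a ∈ R ↔ c / b ∈ R) : Un R (a / b) := by
  refine ⟨div_ne_zero ha hb, (h a).1 ?_, ?_⟩
  · rw [div_self ha]
    exact one_mem R
  · rw [inv_div]
    exact (h b).2 (by rw [div_self hb]; exact one_mem R)

theorem pic_caseB (hX : IsVar X) (P : Pic0 X H s S px ψ) (hs : ∀ x i, s i * H.eq x ∈ X.O x)
    (hf : ∀ x, ∃ j : σ, Un (X.O x) (s (some j) * H.eq x))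
    (hu : ∀ x, UniqueFactorizationMonoid (X.O x)) {y : S.P} {D : Cart S} (hD : SPr S y D)
    (hy : Gen X (px y)) :
    ∃ (E : Cart X) (f : L), f ≠ 0 ∧
      ∀ w, ∃ G : MvPolynomial σ K, CoR (X.O (px w)) G ∧ ψ G = ψ (C (E.eq (px w))) * f ∧
        ¬ Un (S.O y) (ψ G) ∧ ∀ F, CoR (X.O (px w)) F → ¬ Un (S.O y) (ψ F) →
          ∃ F', CoR (X.O (px w)) F' ∧ ψ F = ψ G * ψ F' := by
  classical
  obtain ⟨f, hf0, ⟨G, hG⟩, hfn, hfd⟩ := picj_f P hs hu hD hy
  -- units at the generic point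
  have htop : ∀ a : K, a ∈ X.O (px y) := by
    intro a
    rw [hy.top]
    exact Algebra.mem_top
  have hun : ∀ a : K, a ≠ 0 → Un (X.O (px y)) a := fun a ha => ⟨ha, htop a, htop _⟩
  have hex : ∀ j : {j : σ // s (some j) ≠ 0}, ∃ G' : MvPolynomial {i : σ // i ≠ j.1} K, phi ψ j.1 G' = f := by
    intro j
    obtain ⟨G', -, h1⟩ := phi_elim P hs (px y) j.1 (hun _ (mul_ne_zero j.2 (H.ne _))) (coR_top hy.top G)
    exact ⟨G', by rw [h1, hG]⟩
  choose G' hG' using hex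
  have hG0 : ∀ j, G' j ≠ 0 := by
    intro j h0
    apply hf0
    rw [← hG' j, h0, map_zero]
  have hE : ∀ j : {j : σ // s (some j) ≠ 0}, ∃ E : Cart X, ∀ x c, CoR (X.O x) (C c * G' j) ↔ c / E.eq x ∈ X.O x := by
    intro j
    obtain ⟨E, hE⟩ := lcm_cart hX hy hu (ι := (G' j).support) (fun m => (G' j).coeff m.1) (by
      obtain ⟨m, hm⟩ := ne_zero_iff.1 (hG0 j)
      exact ⟨⟨m, mem_support_iff.2 hm⟩, hm⟩)
    refine ⟨E, fun x c => ?_⟩
    rw [← hE]
    constructor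
    · intro h1 m
      have h2 := h1 m.1
      rwa [coeff_C_mul] at h2
    · intro h1 m
      rw [coeff_C_mul]
      by_cases hm : m ∈ (G' j).support
      · exact h1 ⟨m, hm⟩
      · rw [notMem_support_iff.1 hm, mul_zero]
        exact zero_mem _
  choose E hE using hE
  obtain ⟨D', hD'⟩ := glue X E (fun j => {x | Un (X.O x) (s (some j.1) * H.eq x)})
    (fun j => picj_open hX hs _) (fun x => by
      obtain ⟨j, hj⟩ := hf x
      exact ⟨⟨j, fun h0 => hj.1 (by rw [h0, zero_mul])⟩, hj⟩) (fun i j x hi hj => by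
      refine picj_un ((E i).ne x) ((E j).ne x) fun c => ?_
      rw [← hE i, ← hE j, picj_claim P hs i.1 i.2 (G' i) x hi c, picj_claim P hs j.1 j.2 (G' j) x hj c,
        hG', hG'])
  refine ⟨D', f, hf0, fun w => ?_⟩
  obtain ⟨j₀, hj⟩ := P.unit w
  have hsj : s (some j₀) ≠ 0 := fun h0 => hj.1 (by rw [h0, zero_mul])
  obtain ⟨j, hjj⟩ : ∃ j : {j : σ // s (some j) ≠ 0}, j.1 = j₀ := ⟨⟨j₀, hsj⟩, rfl⟩
  subst hjj
  have h1 := hD' j (px w) hj
  have h2 : ∀ c, (∀ m, c * (G' j).coeff m ∈ X.O (px w)) ↔ c / D'.eq (px w) ∈ X.O (px w) := by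
    intro c
    have h3 : (∀ m, c * (G' j).coeff m ∈ X.O (px w)) ↔ CoR (X.O (px w)) (C c * G' j) := by
      refine forall_congr' fun m => ?_
      rw [coeff_C_mul]
    rw [h3, hE j]
    have h4 := D'.ne (px w)
    have h5 := (E j).ne (px w)
    constructor
    · intro h6
      have h7 : c / D'.eq (px w) = c / (E j).eq (px w) * (D'.eq (px w) / (E j).eq (px w))⁻¹ := by
        field_simp
      rw [h7]
      exact mul_mem h6 h1.2.2
    · intro h6
      have h7 : c / (E j).eq (px w) = c / D'.eq (px w) * (D'.eq (px w) / (E j).eq (px w)) := by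
        field_simp
      rw [h7]
      exact mul_mem h6 h1.2.1
  have h3 : CoR (X.O (px w)) (C (D'.eq (px w)) * G' j) := by
    intro m
    rw [coeff_C_mul]
    refine (h2 _).2 ?_ m
    rw [div_self (D'.ne _)]
    exact one_mem _
  have h4 : ψ (rename Subtype.val (C (D'.eq (px w)) * G' j)) = ψ (C (D'.eq (px w))) * f := by
    rw [← phi_eq, map_mul, phi_C, hG']
  refine ⟨rename Subtype.val (C (D'.eq (px w)) * G' j), coR_rename _ h3, h4, ?_, fun F hF hFn => ?_⟩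
  · rw [h4, mul_comm, un_mul_un ((P.un y _ (htop _)).2 (hun _ (D'.ne _)))]
    exact hfn
  · obtain ⟨F₀, hF₀⟩ := hfd F hFn
    obtain ⟨F₁, hF₁, h5⟩ := phi_elim P hs (px w) j.1 hj hF
    obtain ⟨F₂, -, h6⟩ := phi_elim P hs (px y) j.1 (hun _ (mul_ne_zero j.2 (H.ne _))) (coR_top hy.top F₀)
    have h7 : F₁ = G' j * F₂ := by
      apply phi_inj P j.1 j.2
      rw [h5, map_mul, hG', h6, hF₀]
    haveI := hu (px w)
    obtain ⟨F₃, hF₃, h8⟩ := pic_gauss (X.O (px w)) (frac_gen hX hy (px w)) (G' j) (D'.eq (px w)) (D'.ne _) h2 F₁ F₂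
      hF₁ h7
    refine ⟨rename Subtype.val F₃, coR_rename _ hF₃, ?_⟩
    rw [← phi_eq, ← phi_eq, ← map_mul, ← h8, h5]

end Pool.Agent.H83.TK
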