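import Pool.Agent.H83.TK.PicI
import Pool.Agent.H83.TK.PicJ

/-!
# [H83 TK PicM] THEOREM V+, chapter PIC: the divisors of the generic member

`pic_main`: a prime divisor of the generic member of a linear system without common zeros (of the sections with
variable coefficients, `hf`) of a factorial variety is linearly equivalent to the restriction of a divisor of `X`.
`lsys_dup`: the hypothesis `hf` can be satisfied by a repetition of the first section.
-/

set_option autoImplicit false

namespace Pool.Agent.H83.TK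

open Pool.Agent.H54.RV MvPolynomial Pool.Agent.H83.TU

variable {k K k' K' : Type} [Field k] [Field K] [Field k'] [Field K'] [Algebra k K] [Algebra k k'] [Algebra K K']
  [Algebra k' K'] [Algebra k K'] [IsScalarTower k K K'] [IsScalarTower k k' K'] {σ : Type} [Fintype σ] {X : Mod k K}
  {l : σ → k'}

/-- the sections with the first one repeated -/
def dupS (s : Option σ → K) : Option (Option σ) → K
  | none => s none
  | some i => s i

theorem lsys_dup {H : Cart X} {s : Option σ → K} (hs : LSys X H s) : LSys X H (dupS s) where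
  sec i := by
    cases i with
    | none => exact hs.sec none
    | some i => exact hs.sec i
  free x := by
    obtain ⟨i, hi⟩ := hs.free x
    exact ⟨some i, hi⟩
  tr := by
    obtain ⟨i, j, h1, h2⟩ := hs.tr
    exact ⟨some i, some j, h1, h2⟩

theorem dup_free {H : Cart X} {s : Option σ → K} (hs : LSys X H s) (x : X.P) :
    ∃ j : Option σ, Un (X.O x) (dupS s (some j) * H.eq x) := hs.free x

theorem dup_ind {s : Option σ → K}
    (ind : ∃ i₀ j, s (some j) ≠ 0 ∧ AlgebraicIndependent k ![s none / s (some j), s (some i₀) / s (some j)]) :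
    ∃ i₀ j, dupS s (some j) ≠ 0 ∧
      AlgebraicIndependent k ![dupS s none / dupS s (some j), dupS s (some i₀) / dupS s (some j)] := by
  obtain ⟨i₀, j, h1, h2⟩ := ind
  exact ⟨some i₀, some j, h1, h2⟩

/-- a point whose local ring is the function field is a generic point -/
theorem gen_of_top (hX : IsVar X) {g : X.P} (hg : Gen X g) {x : X.P} (hx : X.O x = ⊤) : Gen X x where
  top := hx
  spec w := by
    refine Specializes.trans ?_ (hg.spec w)
    obtain ⟨U, hU, hxU⟩ := hX.chart x
    have hgU : g ∈ U := (hg.spec x).mem_open (hX.op U hU) hxU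
    refine sp_of hX hU hxU hgU fun a ha h0 h1 => ?_
    have h2 : a ∈ X.O x := by
      rw [hx]
      exact Algebra.mem_top
    refine (rs_ne x h2).2 ⟨h1.1, h2, ?_⟩ h0
    rw [hx]
    exact Algebra.mem_top

theorem gen_of_units (hX : IsVar X) {g : X.P} (hg : Gen X g) {x : X.P} (hx : ∀ a ∈ X.O x, a ≠ 0 → Un (X.O x) a) :
    Gen X x := by
  refine gen_of_top hX hg ?_
  rw [eq_top_iff]
  intro c _
  obtain ⟨a, b, hb, h1⟩ := frac_gen hX hg x c
  have hb' : (b : K) ≠ 0 := fun h2 => hb (Subtype.ext h2)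
  have h2 : c = a * (b : K)⁻¹ := by
    rw [← h1]
    field_simp
  rw [h2]
  exact mul_mem a.2 (hx b b.2 hb').2.2

theorem pic_main [T0Space X.P] (hX : IsVar X) (hg : ∃ g, Gen X g) (h : BC k K k' K' l) {H : Cart X}
    {s : Option σ → K} (hs : LSys X H s) (hf : ∀ x, ∃ j : σ, Un (X.O x) (s (some j) * H.eq x))
    (hu : ∀ x, UniqueFactorizationMonoid (X.O x)) (hsl : gsec K' l s ≠ 0) (z : (bcM X h).P)
    (hz : SPr (bcM X h) z (bcD hX hg h H * prin (bcM X h) (gsec K' l s) hsl))
    (y : (subM (isVar_bc hX hg h) z).P) (C : Cart (subM (isVar_bc hX hg h) z)) (hC : SPr _ y C) :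
    ∃ (E : Cart X) (f : (bcM X h).kap z), f ≠ 0 ∧ ∀ w : (subM (isVar_bc hX hg h) z).P,
      Un ((subM (isVar_bc hX hg h) z).O w) (C.eq w / ((resD (isVar_bc hX hg h) z (bcD hX hg h E)).eq w * f)) := by
  obtain ⟨ψ, P, g, hg', hres⟩ := pic0_of hX hg h hs hsl z hz
  have hS : IsVar (subM (isVar_bc hX hg h) z) := isVar_sub _ z
  have hs' : ∀ x i, s i * H.eq x ∈ X.O x := fun x i => hs.mem x i
  obtain ⟨E, f, hf0, h1⟩ : ∃ (E : Cart X) (f : (bcM X h).kap z), f ≠ 0 ∧
      ∀ w, Un ((subM (isVar_bc hX hg h) z).O w) (C.eq w / (ψ (MvPolynomial.C (E.eq (BP.x (X := X) (σ := σ) w.1))) * f)) := by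
    by_cases hn : ∃ a ∈ X.O (BP.x (X := X) (σ := σ) y.1), a ≠ 0 ∧ ¬ Un (X.O (BP.x (X := X) (σ := σ) y.1)) a
    · obtain ⟨E, h1, h2⟩ := pic_caseA hX P hs' hu hC hn
      refine ⟨E, 1, one_ne_zero, pic_asm hS P hC E 1 one_ne_zero (fun w hw => ?_) (fun w hw => ?_)⟩
      · rw [mul_one]
        exact h1 w hw
      · rw [mul_one]
        exact h2 w hw
    · push Not at hn
      have hy := gen_of_units hX hg' hn
      obtain ⟨E, f, hf0, h2⟩ := pic_caseB hX P hs' hf hu hC hy
      exact ⟨E, f, hf0, pic_asm hS P hC E f hf0 (fun w hw => absurd (hy.spec _) hw) fun w _ => h2 w⟩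
  refine ⟨E, f * ψ (MvPolynomial.C (E.eq g)), mul_ne_zero hf0 (pic0_ne P y (E.ne g)), fun w => ?_⟩
  have h2 : (resD (isVar_bc hX hg h) z (bcD hX hg h E)).eq w * (f * ψ (MvPolynomial.C (E.eq g))) =
      ψ (MvPolynomial.C (E.eq (BP.x (X := X) (σ := σ) w.1))) * f := by
    rw [hres, mul_comm f, ← mul_assoc, ← map_mul, ← MvPolynomial.C_mul, div_mul_cancel₀ _ (E.ne g)]
  rw [h2]
  exact h1 w

end Pool.Agent.H83.TK
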