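import Pool.Agent.H83.TK.BcA

/-!
# [H83 TK BcJ] THEOREM K, chapter T1a: the local rings of the base change are factorial

`ufd_of_frac`: if `A` is a factorial domain, `B` a subalgebra of a field, `f : A →+* B` injective, and every element of
`B` is `f a / f s` with `f s` a unit of `B`, then `B` is factorial: `B` is the localisation of `A` at the submonoid
`{s | IsUnit (f s)}` (`IsLocalization`: `mk'`..), and localisations of factorial rings are factorial (Mathlib:
`Mathlib/GroupTheory/MonoidLocalization/UniqueFactorization.lean`, instance for `Localization S`; transport along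
`IsLocalization.algEquiv` with `MulEquiv.uniqueFactorizationMonoid`).
`bc_ufd`: `A = (O x)[l]` (`MvPolynomial.uniqueFactorizationMonoid` or the instance), `f = ev`.
-/

set_option autoImplicit false

namespace Pool.Agent.H83.TK

open Pool.Agent.H54.RV MvPolynomial

theorem ufd_of_frac {A B : Type} [CommRing A] [IsDomain A] [UniqueFactorizationMonoid A] [CommRing B] [IsDomain B]
    (f : A →+* B) (hf : Function.Injective f) (hs : ∀ b : B, ∃ a s : A, IsUnit (f s) ∧ b * f s = f a) :
    UniqueFactorizationMonoid B := by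
  let : Algebra A B := f.toAlgebra
  obtain ⟨S, hS⟩ : ∃ S : Submonoid A, S = (IsUnit.submonoid B).comap f := ⟨_, rfl⟩
  have hmem : ∀ s, s ∈ S ↔ IsUnit (f s) := by
    intro s
    rw [hS]
    exact Iff.rfl
  have hloc : IsLocalization S B := by
    refine ⟨fun y => (hmem _).1 y.2, fun b => ?_, fun {x y} hxy => ⟨1, ?_⟩⟩
    · obtain ⟨a, s, h1, h2⟩ := hs b
      exact ⟨(a, ⟨s, (hmem s).2 h1⟩), h2⟩
    · rw [hf hxy]
  exact UniqueFactorizationMonoid.of_isLocalization (S := S) B

variable {k K k' K' : Type} [Field k] [Field K] [Field k'] [Field K'] [Algebra k K] [Algebra k k'] [Algebra K K']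
  [Algebra k' K'] [Algebra k K'] [IsScalarTower k K K'] [IsScalarTower k k' K'] {σ : Type} {X : Mod k K} {l : σ → k'}

theorem bc_ufd [Finite σ] (h : BC k K k' K' l) (z : BP X σ) (hu : UniqueFactorizationMonoid (X.O z.x)) :
    UniqueFactorizationMonoid (bcO h z) := by
  refine ufd_of_frac ((ev K' l (X.O z.x)).codRestrict (bcO h z) (ev_mem h z)) ?_ ?_
  · intro a b hab
    exact ev_inj h (X.O z.x) (congrArg Subtype.val hab)
  · rintro ⟨b, hb⟩
    obtain ⟨f, g, h1, h2⟩ := (mem_bcO h z b).1 hb
    refine ⟨f, g, (un_iff (ev_mem h z g)).2 ((un_ev h z g).2 h1), Subtype.ext h2⟩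

end Pool.Agent.H83.TK
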