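import Mathlib

/-!
# [H83 TK GsA] THEOREM K, chapter T1d: linear forms with a unit coefficient

`lin u = C (u none) + ∑ i, X i * C (u (some i))` in `R[l]`, `l` indexed by the finite type `σ`; suppose that `u (some j)` is
a unit.  The `R`-automorphism of `R[l]` with `X i ↦ X i` for `i ≠ j` and `X j ↦ v * (X j - C (u none) - ∑_(i ≠ j) X i * C (u (some i)))`,
`v` the inverse of `u (some j)`, maps `lin u` to `X j` (`MvPolynomial.aeval`; the inverse is given by `X j ↦ lin u`).
* `lin_prime`: `X j` is prime in `R[l]` (`MvPolynomial.prime_X` or `X_dvd`..; domain `R`).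
* `lin_ufd`: `R[l] / (X j)` is isomorphic to the polynomial ring in the other variables
  (`ψ : X j ↦ 0`, surjective to `MvPolynomial {i // i ≠ j} R`, kernel `(X j)`: `f` without terms divisible by `X j` ..), which
  is factorial.
* `lin_div`: `R` a subring of a field `K` (injective `f : R →+* K`): if `map f (lin u)` divides `map f p` in `K[l]` then
  `lin u` divides `p`: by the automorphism (it commutes with `map f`) this is the statement for `X j`: `X j ∣ p` iff the
  coefficients of `p` at the monomials without `X j` vanish (`MvPolynomial.X_dvd_iff...` or directly).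
-/

set_option autoImplicit false

namespace Pool.Agent.H83.TK

open MvPolynomial

variable {R σ : Type} [CommRing R] [Fintype σ]

/-- the linear polynomial -/
noncomputable def lin (u : Option σ → R) : MvPolynomial σ R := C (u none) + ∑ i, X i * C (u (some i))

theorem map_lin {S : Type} [CommRing S] (f : R →+* S) (u : Option σ → R) :
    map f (lin u) = lin (fun i => f (u i)) := by
  unfold lin
  simp

open Classical in
/-- the rest of the linear form, without the variable `j` -/
private noncomputable def gsa_r (u : Option σ → R) (j : σ) : MvPolynomial {i : σ // i ≠ j} R :=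
  C (u none) + ∑ i : {i : σ // i ≠ j}, X i * C (u (some i.1))

open Classical in
/-- elimination of the variable `j` -/
private noncomputable def gsa_pi (u : Option σ → R) (v : R) (j : σ) :
    MvPolynomial σ R →ₐ[R] MvPolynomial {i : σ // i ≠ j} R :=
  aeval (fun i => if h : i ≠ j then X ⟨i, h⟩ else -(C v) * gsa_r u j)

private theorem gsa_pi_ne (u : Option σ → R) (v : R) (j : σ) (i : {i : σ // i ≠ j}) :
    gsa_pi u v j (X i.1) = X i := by
  unfold gsa_pi
  rw [aeval_X, dif_pos i.2]

private theorem gsa_pi_j (u : Option σ → R) (v : R) (j : σ) :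
    gsa_pi u v j (X j) = -(C v) * gsa_r u j := by
  unfold gsa_pi
  rw [aeval_X, dif_neg (by simp)]

private theorem gsa_lin_eq (u : Option σ → R) (j : σ) :
    lin u = X j * C (u (some j)) + rename Subtype.val (gsa_r u j) := by
  classical
  unfold lin gsa_r
  rw [Fintype.sum_eq_add_sum_subtype_ne _ j]
  simp only [map_add, map_sum, map_mul, rename_C, rename_X]
  rw [add_left_comm]

private theorem gsa_pi_rename (u : Option σ → R) (v : R) (j : σ)
    (q : MvPolynomial {i : σ // i ≠ j} R) : gsa_pi u v j (rename Subtype.val q) = q := by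
  have h : (gsa_pi u v j).comp (rename Subtype.val) = AlgHom.id R _ := by
    refine MvPolynomial.algHom_ext (fun i => ?_)
    rw [AlgHom.comp_apply, rename_X, gsa_pi_ne]
    rfl
  exact DFunLike.congr_fun h q

private theorem gsa_pi_lin (u : Option σ → R) (v : R) (j : σ) (hv : u (some j) * v = 1) :
    gsa_pi u v j (lin u) = 0 := by
  rw [gsa_lin_eq u j, map_add, map_mul, gsa_pi_rename, gsa_pi_j]
  have h1 : gsa_pi u v j (C (u (some j))) = C (u (some j)) := AlgHom.commutes _ _
  have h2 : (C (u (some j)) : MvPolynomial {i : σ // i ≠ j} R) * C v = 1 := by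
    rw [← C_mul, hv, C_1]
  rw [h1]
  linear_combination (-(gsa_r u j)) * h2

private theorem gsa_dvd_iff (u : Option σ → R) (v : R) (j : σ) (hv : u (some j) * v = 1)
    (p : MvPolynomial σ R) : lin u ∣ p ↔ gsa_pi u v j p = 0 := by
  constructor
  · rintro ⟨q, rfl⟩
    rw [map_mul, gsa_pi_lin u v j hv, zero_mul]
  · intro h
    rw [← Ideal.mem_span_singleton, ← Ideal.Quotient.eq_zero_iff_mem]
    have h2 : ((Ideal.Quotient.mkₐ R (Ideal.span {lin u})).comp (rename Subtype.val)).comp
        (gsa_pi u v j) = Ideal.Quotient.mkₐ R (Ideal.span {lin u}) := by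
      refine MvPolynomial.algHom_ext (fun i => ?_)
      by_cases hi : i = j
      · subst hi
        rw [AlgHom.comp_apply, AlgHom.comp_apply, gsa_pi_j, Ideal.Quotient.mkₐ_eq_mk]
        rw [Ideal.Quotient.eq, Ideal.mem_span_singleton]
        refine ⟨-(C v), ?_⟩
        have h3 : (C (u (some i)) : MvPolynomial σ R) * C v = 1 := by
          rw [← C_mul, hv, C_1]
        rw [gsa_lin_eq u i]
        simp only [map_mul, map_neg, rename_C]
        linear_combination (X i) * h3
      · have := gsa_pi_ne u v j ⟨i, hi⟩
        rw [AlgHom.comp_apply, AlgHom.comp_apply]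
        rw [show (X i : MvPolynomial σ R) = X (⟨i, hi⟩ : {i : σ // i ≠ j}).1 from rfl, this,
          rename_X]
    have h3 := DFunLike.congr_fun h2 p
    rw [AlgHom.comp_apply, h, map_zero] at h3
    exact h3.symm

theorem lin_prime [IsDomain R] (u : Option σ → R) (j : σ) (hj : IsUnit (u (some j))) : Prime (lin u) := by
  classical
  obtain ⟨v, hv⟩ := hj.exists_right_inv
  refine ⟨?_, ?_, ?_⟩
  · intro h0
    have h1 : eval (fun _ => (0 : R)) (lin u) = u none := by
      unfold lin
      simp
    have h2 : eval (fun i => if i = j then (1 : R) else 0) (lin u) = u none + u (some j) := by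
      unfold lin
      simp
    rw [h0, map_zero] at h1 h2
    rw [← h1, zero_add] at h2
    rw [← h2, zero_mul] at hv
    exact zero_ne_one hv
  · intro hu
    have h1 := hu.map (gsa_pi u v j)
    rw [gsa_pi_lin u v j hv] at h1
    exact not_isUnit_zero h1
  · intro a b hab
    rw [gsa_dvd_iff u v j hv, map_mul, mul_eq_zero] at hab
    rw [gsa_dvd_iff u v j hv, gsa_dvd_iff u v j hv]
    exact hab

theorem lin_ufd [IsDomain R] [UniqueFactorizationMonoid R] (u : Option σ → R) (j : σ) (hj : IsUnit (u (some j))) :
    IsDomain (MvPolynomial σ R ⧸ Ideal.span {lin u}) ∧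
      UniqueFactorizationMonoid (MvPolynomial σ R ⧸ Ideal.span {lin u}) := by
  obtain ⟨v, hv⟩ := hj.exists_right_inv
  have hk : RingHom.ker (gsa_pi u v j).toRingHom = Ideal.span {lin u} := by
    ext p
    rw [RingHom.mem_ker, Ideal.mem_span_singleton, gsa_dvd_iff u v j hv]
    rfl
  have hs : Function.Surjective (gsa_pi u v j).toRingHom :=
    fun q => ⟨rename Subtype.val q, gsa_pi_rename u v j q⟩
  let e : (MvPolynomial σ R ⧸ Ideal.span {lin u}) ≃+* MvPolynomial {i : σ // i ≠ j} R :=
    (Ideal.quotEquivOfEq hk.symm).trans (RingHom.quotientKerEquivOfSurjective hs)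
  haveI : IsDomain (MvPolynomial σ R ⧸ Ideal.span {lin u}) := e.toMulEquiv.isDomain _
  exact ⟨this, e.symm.toMulEquiv.uniqueFactorizationMonoid inferInstance⟩

theorem lin_div {K : Type} [Field K] (f : R →+* K) (hf : Function.Injective f) (u : Option σ → R) (j : σ)
    (hj : IsUnit (u (some j))) (p : MvPolynomial σ R) (hp : map f (lin u) ∣ map f p) : lin u ∣ p := by
  obtain ⟨v, hv⟩ := hj.exists_right_inv
  rw [gsa_dvd_iff u v j hv]
  have hv2 : f (u (some j)) * f v = 1 := by rw [← map_mul, hv, map_one]
  rw [map_lin, gsa_dvd_iff (fun i => f (u i)) (f v) j hv2] at hp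
  have h : ((gsa_pi (fun i => f (u i)) (f v) j : MvPolynomial σ K →+* _).comp (map f)) =
      (map f).comp (gsa_pi u v j : MvPolynomial σ R →+* MvPolynomial {i : σ // i ≠ j} R) := by
    refine MvPolynomial.ringHom_ext (fun r => ?_) (fun i => ?_)
    · simp only [RingHom.comp_apply, map_C, RingHom.coe_coe]
      have h1 : gsa_pi u v j (C r) = C r := AlgHom.commutes _ _
      have h2 : gsa_pi (fun i => f (u i)) (f v) j (C (f r)) = C (f r) := AlgHom.commutes _ _
      rw [h1, h2, map_C]
    · simp only [RingHom.comp_apply, map_X, RingHom.coe_coe]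
      by_cases hi : i = j
      · subst hi
        rw [gsa_pi_j, gsa_pi_j]
        unfold gsa_r
        simp
      · have h1 := gsa_pi_ne u v j ⟨i, hi⟩
        have h2 := gsa_pi_ne (fun i => f (u i)) (f v) j ⟨i, hi⟩
        simp only at h1 h2
        rw [h1, h2, map_X]
  have h2 := DFunLike.congr_fun h p
  simp only [RingHom.comp_apply, RingHom.coe_coe] at h2
  rw [hp] at h2
  apply map_injective f hf
  rw [← h2, map_zero]

/-- the polynomials in the other variables are not divisible by the linear form -/
theorem lin_rename (u : Option σ → R) (j : σ) (hj : IsUnit (u (some j))) (P : MvPolynomial {i : σ // i ≠ j} R)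
    (hP : lin u ∣ rename Subtype.val P) : P = 0 := by
  obtain ⟨v, hv⟩ := hj.exists_right_inv
  rw [gsa_dvd_iff u v j hv, gsa_pi_rename] at hP
  exact hP

/-- modulo the linear form the variable `j` can be eliminated -/
theorem lin_elim (u : Option σ → R) (j : σ) (hj : IsUnit (u (some j))) (f : MvPolynomial σ R) :
    ∃ P : MvPolynomial {i : σ // i ≠ j} R, lin u ∣ f - rename Subtype.val P := by
  obtain ⟨v, hv⟩ := hj.exists_right_inv
  refine ⟨gsa_pi u v j f, ?_⟩
  rw [gsa_dvd_iff u v j hv, map_sub, gsa_pi_rename, sub_self]

attribute [local instance] MvPolynomial.algebraMvPolynomial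

private theorem gsa_C {k K τ : Type} [Field k] [Field K] [Algebra k K] (r : k) :
    algebraMap (MvPolynomial τ k) (MvPolynomial τ K) (C r) = C (algebraMap k K r) := map_C _ _

private theorem gsa_X {k K τ : Type} [Field k] [Field K] [Algebra k K] (i : τ) :
    algebraMap (MvPolynomial τ k) (MvPolynomial τ K) (X i) = X i := map_X _ _

private theorem gsa_alg {k K τ : Type} [Field k] [Field K] [Algebra k K] (b : K)
    (hb : IsAlgebraic (MvPolynomial τ k) (C b : MvPolynomial τ K)) : IsAlgebraic k b := by
  obtain ⟨q, hq, h0⟩ := hb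
  obtain ⟨n, hn⟩ : ∃ n, q.coeff n ≠ 0 := by
    by_contra hcon
    push Not at hcon
    exact hq (Polynomial.ext (by simpa using hcon))
  obtain ⟨m, hm⟩ := MvPolynomial.ne_zero_iff.1 hn
  refine ⟨∑ l ∈ q.support, Polynomial.monomial l (coeff m (q.coeff l)), ?_, ?_⟩
  · intro h1
    have h2 := congrArg (fun P => Polynomial.coeff P n) h1
    simp only [Polynomial.finsetSum_coeff, Polynomial.coeff_monomial, Polynomial.coeff_zero,
      Finset.sum_ite_eq'] at h2
    rw [if_pos (Polynomial.mem_support_iff.2 hn)] at h2
    exact hm h2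
  · rw [Polynomial.aeval_eq_sum_range] at h0
    rw [Polynomial.aeval_def, Polynomial.eval₂_finsetSum]
    have h3 := congrArg (coeff m) h0
    rw [coeff_zero, coeff_sum] at h3
    rw [← h3, ← Finset.sum_subset (Polynomial.supp_subset_range_natDegree_succ)]
    · refine Finset.sum_congr rfl (fun l _ => ?_)
      rw [Polynomial.eval₂_monomial, Algebra.smul_def, MvPolynomial.algebraMap_def,
        ← C_pow, mul_comm (map (algebraMap k K) (q.coeff l)), coeff_C_mul, coeff_map, mul_comm]
    · intro l _ hl
      rw [Polynomial.notMem_support_iff.1 hl, zero_smul, coeff_zero]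

/-- a polynomial over `k` divisible by a linear polynomial over `K`, two coefficients of which have a quotient
transcendental over `k`, is zero.
Proof.  Suppose `c ≠ 0`.  Some `u (some j) ≠ 0` (otherwise the quotient is `0` or `1`).  `E = K[l i, i ≠ j]`,
`A = k[l i, i ≠ j] ⊆ E`, `w = -(u none + ∑_(i ≠ j) X i * C (u (some i))) / u (some j) ∈ E`.  Evaluating `X j ↦ w` kills `lin u`,
so `c(l, w) = 0` and `w` is algebraic over `A` (`c ≠ 0` as a polynomial in `X j` over `A`).
(i) `i ≠ j`: the automorphism `τ` of `E` over `K` with `X i ↦ X i + 1` maps `A` to `A`, so `τ w` is algebraic over `A`, and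
so is `τ w - w = -C (u (some i) / u (some j))`.
(ii) an element `b ∈ K` with `C b` algebraic over `A` is algebraic over `k`: `q(l, C b) = 0`, `q ≠ 0` a polynomial over
`A`; the coefficients of the monomials in `l` are `q_m(b) = 0`, `q_m ∈ k[X]`, not all `0`.
So all `u (some i) / u (some j)` are algebraic over `k`; then `C (u none / u (some j)) = -w - ∑ ..` is algebraic over `A`,
so `u none / u (some j)` is algebraic over `k` too, and all quotients `u i₀ / u i₁` are: contradiction.
(With `MvPolynomial` in the variables `{i // i ≠ j}` and `MvPolynomial.optionEquivLeft`, or with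
`MvPolynomial.finSuccEquiv` after a reindexing.) -/
theorem lin_tr {k K : Type} [Field k] [Field K] [Algebra k K] (u : Option σ → K) (i₀ i₁ : Option σ)
    (h1 : u i₁ ≠ 0) (ht : Transcendental k (u i₀ / u i₁)) (c : MvPolynomial σ k)
    (hc : lin u ∣ map (algebraMap k K) c) : c = 0 := by
  classical
  by_contra hc0
  obtain ⟨j, hj⟩ : ∃ j, u (some j) ≠ 0 := by
    by_contra hcon
    push Not at hcon
    apply ht
    cases i₁ with
    | some i => exact absurd (hcon i) h1
    | none =>
      cases i₀ with
      | some i => rw [hcon i, zero_div]; exact isAlgebraic_zero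
      | none => rw [div_self h1]; exact isAlgebraic_one
  have hv : u (some j) * (u (some j))⁻¹ = 1 := mul_inv_cancel₀ hj
  rw [gsa_dvd_iff u _ j hv] at hc
  set w : MvPolynomial {i : σ // i ≠ j} K := -(C (u (some j))⁻¹) * gsa_r u j with hw
  -- the element `w` is algebraic
  have hwa : IsAlgebraic (MvPolynomial {i : σ // i ≠ j} k) w := by
    let P : Polynomial (MvPolynomial {i : σ // i ≠ j} k) :=
      optionEquivLeft k {i : σ // i ≠ j} (rename (Equiv.optionSubtypeNe j).symm c)
    refine ⟨P, ?_, ?_⟩
    · intro hP
      have h2 : rename (Equiv.optionSubtypeNe j).symm c = 0 := by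
        have h3 : optionEquivLeft k {i : σ // i ≠ j} (rename (Equiv.optionSubtypeNe j).symm c) =
          optionEquivLeft k {i : σ // i ≠ j} 0 := by rw [map_zero]; exact hP
        exact (optionEquivLeft k {i : σ // i ≠ j}).injective h3
      apply hc0
      apply rename_injective _ (Equiv.optionSubtypeNe j).symm.injective
      rw [h2, map_zero]
    · have h2 : ((Polynomial.aeval (R := MvPolynomial {i : σ // i ≠ j} k) w : _ →ₐ[_] _) : _ →+* _).comp
          ((optionEquivLeft k {i : σ // i ≠ j}).toRingEquiv.toRingHom.comp
            (rename (Equiv.optionSubtypeNe j).symm : MvPolynomial σ k →ₐ[k] _).toRingHom) =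
          (gsa_pi u (u (some j))⁻¹ j).toRingHom.comp (map (algebraMap k K)) := by
        refine MvPolynomial.ringHom_ext (fun r => ?_) (fun i => ?_)
        · have h4 : gsa_pi u (u (some j))⁻¹ j (C (algebraMap k K r)) = C (algebraMap k K r) :=
            AlgHom.commutes _ _
          change Polynomial.aeval w (optionEquivLeft k {i : σ // i ≠ j}
            (rename (Equiv.optionSubtypeNe j).symm (C r))) =
            gsa_pi u (u (some j))⁻¹ j (map (algebraMap k K) (C r))
          rw [map_C, h4, rename_C, optionEquivLeft_C, Polynomial.aeval_C, gsa_C]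
        · change Polynomial.aeval w (optionEquivLeft k {i : σ // i ≠ j}
            (rename (Equiv.optionSubtypeNe j).symm (X i))) =
            gsa_pi u (u (some j))⁻¹ j (map (algebraMap k K) (X i))
          by_cases hi : i = j
          · subst hi
            rw [map_X, gsa_pi_j u (u (some i))⁻¹ i, rename_X, Equiv.optionSubtypeNe_symm_self,
              optionEquivLeft_X_none, Polynomial.aeval_X]
          · have h4 := gsa_pi_ne u (u (some j))⁻¹ j ⟨i, hi⟩
            simp only at h4
            rw [map_X, h4, rename_X, Equiv.optionSubtypeNe_symm_of_ne hi,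
              optionEquivLeft_X_some, Polynomial.aeval_C, gsa_X]
      have h3 := DFunLike.congr_fun h2 c
      exact h3.trans hc
  have halg : ∀ i : {i : σ // i ≠ j}, IsAlgebraic (MvPolynomial {i : σ // i ≠ j} k)
      (C ((u (some j))⁻¹ * u (some i.1)) : MvPolynomial {i : σ // i ≠ j} K) := by
    intro i
    let τk : MvPolynomial {i : σ // i ≠ j} k →+* MvPolynomial {i : σ // i ≠ j} k :=
      (aeval (fun l => if l = i then X l + 1 else X l) :
        MvPolynomial {i : σ // i ≠ j} k →ₐ[k] MvPolynomial {i : σ // i ≠ j} k).toRingHom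
    let τk' : MvPolynomial {i : σ // i ≠ j} k →+* MvPolynomial {i : σ // i ≠ j} k :=
      (aeval (fun l => if l = i then X l - 1 else X l) :
        MvPolynomial {i : σ // i ≠ j} k →ₐ[k] MvPolynomial {i : σ // i ≠ j} k).toRingHom
    let τK : MvPolynomial {i : σ // i ≠ j} K →+* MvPolynomial {i : σ // i ≠ j} K :=
      (aeval (fun l => if l = i then X l + 1 else X l) :
        MvPolynomial {i : σ // i ≠ j} K →ₐ[K] MvPolynomial {i : σ // i ≠ j} K).toRingHom
    have hinj : Function.Injective τk := by
      have h5 : τk'.comp τk = RingHom.id _ := by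
        refine MvPolynomial.ringHom_ext (fun r => ?_) (fun l => ?_)
        · simp [τk, τk']
        · by_cases hl : l = i
          · simp [τk, τk', hl]
          · simp [τk, τk', hl]
      exact Function.LeftInverse.injective (g := τk') (fun x => DFunLike.congr_fun h5 x)
    have hcomp : RingHom.comp (algebraMap (MvPolynomial {i : σ // i ≠ j} k)
        (MvPolynomial {i : σ // i ≠ j} K)) τk = RingHom.comp τK (algebraMap _ _) := by
      refine MvPolynomial.ringHom_ext (fun r => ?_) (fun l => ?_)
      · rw [RingHom.comp_apply, RingHom.comp_apply, gsa_C]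
        have e1 : τk (C r) = C r := by simp [τk]
        have e2 : τK (C (algebraMap k K r)) = C (algebraMap k K r) := by simp [τK]
        rw [e1, e2, gsa_C]
      · rw [RingHom.comp_apply, RingHom.comp_apply, gsa_X]
        by_cases hl : l = i
        · subst hl
          have e1 : τk (X l) = X l + 1 := by simp [τk]
          have e2 : τK (X l) = X l + 1 := by simp [τK]
          rw [e1, e2, map_add, map_one, gsa_X]
        · have e1 : τk (X l) = X l := by simp [τk, hl]
          have e2 : τK (X l) = X l := by simp [τK, hl]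
          rw [e1, e2, gsa_X]
    have h6 : IsAlgebraic (MvPolynomial {i : σ // i ≠ j} k) (τK w) :=
      hwa.ringHom_of_comp_eq τk τK hinj hcomp
    have h7 : (C ((u (some j))⁻¹ * u (some i.1)) : MvPolynomial {i : σ // i ≠ j} K) =
        w - τK w := by
      have h8 : τK (gsa_r u j) = gsa_r u j + C (u (some i.1)) := by
        simp only [τK, gsa_r]
        have h9 : ∀ l : {i : σ // i ≠ j}, (aeval (fun l => if l = i then X l + 1 else X l) :
            MvPolynomial {i : σ // i ≠ j} K →ₐ[K] MvPolynomial {i : σ // i ≠ j} K)
            (X l * C (u (some l.1))) = X l * C (u (some l.1)) +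
              (if l = i then C (u (some l.1)) else 0) := by
          intro l
          by_cases hl : l = i
          · simp [hl]; ring
          · simp [hl]
        change (aeval (fun l => if l = i then X l + 1 else X l) :
            MvPolynomial {i : σ // i ≠ j} K →ₐ[K] MvPolynomial {i : σ // i ≠ j} K) _ = _
        rw [map_add, map_sum, Finset.sum_congr rfl (fun l _ => h9 l), Finset.sum_add_distrib,
          Finset.sum_ite_eq' Finset.univ i (fun l => (C (u (some l.1)) : MvPolynomial {i : σ // i ≠ j} K)),
          if_pos (Finset.mem_univ i)]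
        simp [add_assoc]
      have h10 : τK (C (u (some j))⁻¹) = C (u (some j))⁻¹ := by simp [τK]
      rw [hw, map_mul τK, map_neg τK, h8, h10, C_mul]
      ring
    rw [h7]
    exact hwa.sub h6
  have halg0 : IsAlgebraic (MvPolynomial {i : σ // i ≠ j} k)
      (C ((u (some j))⁻¹ * u none) : MvPolynomial {i : σ // i ≠ j} K) := by
    have h7 : (C ((u (some j))⁻¹ * u none) : MvPolynomial {i : σ // i ≠ j} K) =
        -w - ∑ i : {i : σ // i ≠ j}, X i * C ((u (some j))⁻¹ * u (some i.1)) := by
      rw [hw]
      unfold gsa_r
      have h8 : (∑ i : {i : σ // i ≠ j}, (X i : MvPolynomial {i : σ // i ≠ j} K) *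
          C ((u (some j))⁻¹ * u (some i.1))) =
          C (u (some j))⁻¹ * ∑ i : {i : σ // i ≠ j}, X i * C (u (some i.1)) := by
        rw [Finset.mul_sum]
        refine Finset.sum_congr rfl (fun l _ => ?_)
        rw [C_mul]
        ring
      rw [h8, C_mul]
      ring
    rw [h7]
    refine hwa.neg.sub ?_
    refine Finset.sum_induction _ (fun x => IsAlgebraic (MvPolynomial {i : σ // i ≠ j} k) x)
      (fun a b ha hb => ha.add hb) isAlgebraic_zero (fun i _ => ?_)
    refine IsAlgebraic.mul ?_ (halg i)
    have h9 : (X i : MvPolynomial {i : σ // i ≠ j} K) =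
      algebraMap (MvPolynomial {i : σ // i ≠ j} k) _ (X i) := (gsa_X i).symm
    rw [h9]
    exact isAlgebraic_algebraMap _
  have hall : ∀ i : Option σ, IsAlgebraic k ((u (some j))⁻¹ * u i) := by
    intro i
    cases i with
    | none => exact gsa_alg _ halg0
    | some i =>
      by_cases hi : i = j
      · subst hi
        rw [inv_mul_cancel₀ hj]
        exact isAlgebraic_one
      · exact gsa_alg _ (halg ⟨i, hi⟩)
  apply ht
  have h2 : u i₀ / u i₁ = ((u (some j))⁻¹ * u i₀) * ((u (some j))⁻¹ * u i₁)⁻¹ := by
    field_simp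
  rw [h2]
  exact (hall i₀).mul (hall i₁).inv

end Pool.Agent.H83.TK
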