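import Pool.Agent.H83.TK.BcH
import Pool.Agent.H83.TK.BcJ
import Pool.Agent.H83.TK.GsA
import Pool.Agent.H83.TK.SubE
import Pool.Agent.H83.TK.SubT

/-!
# [H83 TK GsB] THEOREM K, chapter T1d: the generic member of a linear system

`X` with generic point `g`, `H` a Cartier divisor, `s : Option σ → K` sections of `L(H)` without common zeros, two of them
with a quotient transcendental over `k`.  `k' = k(l)`, `K' = K(l)`, `l : σ → k'`, `bcM X h` the base change.
`sl = s none + ∑ i, l i * s (some i) ∈ K'`: the generic section of `bcD H`.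
For `x : X.P`, `a i = s i * H.eq x ∈ O x`, `lin a ∈ (O x)[l]` with `ev (lin a) = sl * H.eq x` (`ev_lin`).

`gs_pt`: the point `z = (g, (lin a))`, `a` at `g`: prime (`lin_prime`: some `s (some j) ≠ 0`, else no quotient is
transcendental; `κ(g)` is a field, `H83/TU/Cen.lean`: `genE` identifies it with `K`), `tr` from `lin_tr`.
`gs_sp`: `z ⤳ w` iff `red (lin a) ∈ w.q` iff `sl * H.eq w.x` is not a unit at `w`.
Proof.  `→`: the nonunits at `z` are nonunits at `w` (`IsVar.spec`), `sl * H.eq g` is a nonunit at `z` and `H.eq w.x / H.eq g` a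
unit at `g`.  `←`: `Pre.sp_iff`, `bc_sp`: `g ⤳ w.x`; let `f ∈ (O w.x)[l]`, `red f ∉ w.q`; if `ev f` were a nonunit at `z` then
`lin a` (over `K`) would divide `f` in `K[l]`.  Some `a i` is a unit of `O w.x` (no common zeros), `i = some j`, because if
only `a none` is a unit then `red (lin a)` is a nonzero constant, not in `w.q`.  `lin_div` (`R = O w.x`): `lin a ∣ f` in
`(O w.x)[l]`, so `red f ∈ w.q`.
`gs_spr`: `S = bcD H * prin sl` satisfies `SPr`: `eff`, `un`, `nun` clear; `ker`: `b ∈ bcO w`, `b * ev q = ev f`, `b` a nonunit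
at `z`: `lin a ∣ f` as above, `f = lin a * f'`, `b / (sl * H.eq w.x) = ev f' / ev q ∈ bcO w`.
-/

set_option autoImplicit false

namespace Pool.Agent.H83.TK

open Pool.Agent.H54.RV MvPolynomial Pool.Agent.H83.TU

variable {k K k' K' : Type} [Field k] [Field K] [Field k'] [Field K'] [Algebra k K] [Algebra k k'] [Algebra K K']
  [Algebra k' K'] [Algebra k K'] [IsScalarTower k K K'] [IsScalarTower k k' K'] {σ : Type} [Fintype σ] {X : Mod k K}
  {l : σ → k'}

/-- the generic section -/
noncomputable def gsec (K' : Type) [Field K'] [Algebra K K'] [Algebra k' K'] (l : σ → k') (s : Option σ → K) : K' :=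
  algebraMap K K' (s none) + ∑ i, algebraMap k' K' (l i) * algebraMap K K' (s (some i))

/-- a linear system without common zeros, not constant -/
structure LSys (X : Mod k K) (H : Cart X) {σ : Type} (s : Option σ → K) : Prop where
  sec : ∀ i, s i ∈ secL H 1
  free : ∀ x, ∃ i, Un (X.O x) (s i * H.eq x)
  tr : ∃ i j, s j ≠ 0 ∧ Transcendental k (s i / s j)

theorem LSys.mem {H : Cart X} {s : Option σ → K} (hs : LSys X H s) (x : X.P) (i : Option σ) : s i * H.eq x ∈ X.O x := by
  have h := hs.sec i x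
  rwa [pow_one] at h

/-- the local equation of the generic member as a polynomial -/
noncomputable def linO {H : Cart X} {s : Option σ → K} (hs : LSys X H s) (x : X.P) : MvPolynomial σ (X.O x) :=
  lin (fun i => ⟨s i * H.eq x, hs.mem x i⟩)

private theorem coeff_lin_none {R : Type} [CommRing R] (u : Option σ → R) : (lin u).coeff 0 = u none := by
  unfold lin
  rw [coeff_add, coeff_sum, coeff_zero_C]
  have h1 : ∀ i ∈ Finset.univ, coeff 0 (X i * C (u (some i)) : MvPolynomial σ R) = 0 := by
    intro i _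
    rw [mul_comm, coeff_C_mul]
    have h2 : coeff 0 (X i : MvPolynomial σ R) = 0 := by
      classical
      rw [coeff_X, if_neg]
      exact Finsupp.single_ne_zero.2 one_ne_zero
    rw [h2, mul_zero]
  rw [Finset.sum_eq_zero h1, add_zero]

private theorem coeff_lin_some {R : Type} [CommRing R] (u : Option σ → R) (j : σ) :
    (lin u).coeff (Finsupp.single j 1) = u (some j) := by
  classical
  unfold lin
  rw [coeff_add, coeff_sum, coeff_C, if_neg (Finsupp.single_ne_zero.2 one_ne_zero).symm, zero_add,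
    Finset.sum_eq_single j]
  · rw [mul_comm, coeff_C_mul, coeff_X, if_pos rfl, mul_one]
  · intro i _ hij
    rw [mul_comm, coeff_C_mul, coeff_X, if_neg, mul_zero]
    intro h
    exact hij (Finsupp.single_left_injective one_ne_zero h)
  · intro h
    exact absurd (Finset.mem_univ j) h

private theorem lin_ne {R : Type} [CommRing R] (u : Option σ → R) (i : Option σ) (hi : u i ≠ 0) : lin u ≠ 0 := by
  intro h
  apply hi
  cases i with
  | none => rw [← coeff_lin_none u, h, coeff_zero]
  | some j => rw [← coeff_lin_some u j, h, coeff_zero]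

private theorem aeval_lin (s : Option σ → K) :
    aeval (fun i => algebraMap k' K' (l i)) (lin s) = gsec K' l s := by
  unfold lin gsec
  simp only [map_add, map_sum, map_mul, algHom_C, aeval_X]

private theorem lin_smul {R : Type} [CommRing R] (u : Option σ → R) (c : R) :
    lin (fun i => u i * c) = lin u * C c := by
  unfold lin
  rw [add_mul, Finset.sum_mul, C_mul]
  congr 1
  refine Finset.sum_congr rfl fun i _ => ?_
  rw [C_mul, mul_assoc]

private theorem map_linO {H : Cart X} {s : Option σ → K} (hs : LSys X H s) (x : X.P) :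
    map ((X.O x).val : X.O x →+* K) (linO hs x) = lin s * C (H.eq x) := by
  unfold linO
  rw [map_lin, ← lin_smul]
  rfl

private theorem linO_dvd {H : Cart X} {s : Option σ → K} (hs : LSys X H s) (x : X.P) (f : MvPolynomial σ K) :
    map ((X.O x).val : X.O x →+* K) (linO hs x) ∣ f ↔ lin s ∣ f := by
  rw [map_linO]
  have h1 : IsUnit (C (H.eq x) : MvPolynomial σ K) := (isUnit_iff_ne_zero.2 (H.ne x)).map C
  exact h1.mul_right_dvd

private theorem some_ne {s : Option σ → K} (h : ∃ i j, s j ≠ 0 ∧ Transcendental k (s i / s j)) :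
    ∃ j, s (some j) ≠ 0 := by
  obtain ⟨i, j, h1, h2⟩ := h
  by_contra h3
  push Not at h3
  cases j with
  | some j => exact h1 (h3 j)
  | none =>
    cases i with
    | none =>
      rw [div_self h1] at h2
      exact h2 isAlgebraic_one
    | some i =>
      rw [h3 i, zero_div] at h2
      exact h2 isAlgebraic_zero

/-- the residue map, with values in `κ(x)` -/
private noncomputable def rsH (X : Mod k K) (x : X.P) : X.O x →+* X.kap x := IsLocalRing.residue (X.O x)

private theorem rsH_eq (x : X.P) (a : X.O x) : rsH X x a = X.rs x (a : K) := by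
  unfold Mod.rs
  rw [dif_pos a.2]
  rfl

private theorem red_eq (x : X.P) (f : MvPolynomial σ (X.O x)) : red X σ x f = map (rsH X x) f := rfl

theorem ev_lin {H : Cart X} {s : Option σ → K} (hs : LSys X H s) (x : X.P) :
    ev K' l (X.O x) (linO hs x) = gsec K' l s * algebraMap K K' (H.eq x) := by
  rw [ev_eq, map_linO, map_mul, aeval_lin, algHom_C]

theorem gsec_ne (h : BC k K k' K' l) {H : Cart X} {s : Option σ → K} (hs : LSys X H s) (x : X.P) :
    gsec K' l s ≠ 0 := by
  obtain ⟨j, hj⟩ := some_ne hs.tr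
  rw [← aeval_lin]
  intro h1
  exact lin_ne s (some j) hj (h.ind (h1.trans (map_zero _).symm))

/-- the generic point of the generic member -/
theorem gs_pt (hX : IsVar X) {g : X.P} (hg : Gen X g) {H : Cart X} {s : Option σ → K} (hs : LSys X H s) :
    ∃ z : BP X σ, z.x = g ∧ ∀ f : MvPolynomial σ (X.O z.x), red X σ z.x f ∈ z.q ↔
      map ((X.O z.x).val : X.O z.x →+* K) (linO hs z.x) ∣ map ((X.O z.x).val : X.O z.x →+* K) f := by
  obtain ⟨e, he⟩ := genE hg
  have hred : ∀ f : MvPolynomial σ (X.O g), red X σ g f =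
      mapEquiv σ (e : K ≃+* X.kap g) (map ((X.O g).val : X.O g →+* K) f) := by
    intro f
    have h1 : (mapEquiv σ (e : K ≃+* X.kap g) (map ((X.O g).val : X.O g →+* K) f)) =
        map ((e : K ≃+* X.kap g) : K →+* X.kap g) (map ((X.O g).val : X.O g →+* K) f) := rfl
    rw [h1, map_map, red_eq]
    congr 2
    apply RingHom.ext
    intro a
    rw [rsH_eq]
    exact (he a).symm
  have hdvd : ∀ f : MvPolynomial σ (X.O g), red X σ g (linO hs g) ∣ red X σ g f ↔
      map ((X.O g).val : X.O g →+* K) (linO hs g) ∣ map ((X.O g).val : X.O g →+* K) f := by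
    intro f
    rw [hred, hred]
    exact map_dvd_iff (mapEquiv σ (e : K ≃+* X.kap g))
  have hlin : red X σ g (linO hs g) = lin (fun i => e (s i * H.eq g)) := by
    rw [red_eq]
    unfold linO
    rw [map_lin]
    congr 1
    funext i
    rw [he, rsH_eq]
  have he0 : ∀ a : K, a ≠ 0 → e (a * H.eq g) ≠ 0 := by
    intro a ha h1
    rw [map_eq_zero] at h1
    exact mul_ne_zero ha (H.ne g) h1
  obtain ⟨j, hj⟩ := some_ne hs.tr
  have hp : Prime (red X σ g (linO hs g)) := by
    rw [hlin]
    exact lin_prime _ j (isUnit_iff_ne_zero.2 (he0 _ hj))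
  refine ⟨⟨g, Ideal.span {red X σ g (linO hs g)}, (Ideal.span_singleton_prime hp.ne_zero).2 hp, ?_⟩, rfl, ?_⟩
  · intro c hc h1
    rw [Ideal.mem_span_singleton, hlin] at h1
    obtain ⟨i₀, i₁, h2, h3⟩ := hs.tr
    refine hc (lin_tr (fun i => e (s i * H.eq g)) i₀ i₁ (he0 _ h2) ?_ c h1)
    have h4 : e (s i₀ * H.eq g) / e (s i₁ * H.eq g) = e (s i₀ / s i₁) := by
      rw [← map_div₀, mul_div_mul_right _ _ (H.ne g)]
    rw [h4]
    intro h5
    exact h3 ((isAlgebraic_algHom_iff (e : K →ₐ[k] X.kap g) e.injective).1 h5)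
  · intro f
    rw [← hdvd f]
    exact Ideal.mem_span_singleton

/-- units at the generic point of the generic member -/
private theorem gs_key {g : X.P} (hg : Gen X g) (h : BC k K k' K' l) {H : Cart X}
    {s : Option σ → K} (hs : LSys X H s) (z : BP X σ) (hz : z.x = g)
    (hq : ∀ f : MvPolynomial σ (X.O z.x), red X σ z.x f ∈ z.q ↔
      map ((X.O z.x).val : X.O z.x →+* K) (linO hs z.x) ∣ map ((X.O z.x).val : X.O z.x →+* K) f)
    (x : X.P) (f : MvPolynomial σ (X.O x)) :
    Un (bcO h z) (ev K' l (X.O x) f) ↔ ¬ lin s ∣ map ((X.O x).val : X.O x →+* K) f := by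
  have hle : X.O x ≤ X.O z.x := by
    rw [hz, hg.top]
    exact le_top
  have h1 : ev K' l (X.O z.x) (map (Subalgebra.inclusion hle : X.O x →+* X.O z.x) f) = ev K' l (X.O x) f := by
    unfold ev
    rw [coe_eval₂Hom, eval₂_map]
    rfl
  have h2 : map ((X.O z.x).val : X.O z.x →+* K) (map (Subalgebra.inclusion hle : X.O x →+* X.O z.x) f) =
      map ((X.O x).val : X.O x →+* K) f := by
    rw [map_map]
    rfl
  rw [← h1, un_ev, hq, h2, linO_dvd]

private theorem red_unit {H : Cart X} {s : Option σ → K} (hs : LSys X H s) (w : BP X σ)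
    (hw : red X σ w.x (linO hs w.x) ∈ w.q) : ∃ j, IsUnit (⟨s (some j) * H.eq w.x, hs.mem w.x (some j)⟩ : X.O w.x) := by
  by_contra h1
  push Not at h1
  have h2 : ∀ j, rsH X w.x ⟨s (some j) * H.eq w.x, hs.mem w.x (some j)⟩ = 0 := by
    intro j
    rw [rsH_eq]
    by_contra h2
    exact h1 j ((un_iff (hs.mem w.x (some j))).2 ((rs_ne w.x (hs.mem w.x (some j))).1 h2))
  have h3 : red X σ w.x (linO hs w.x) =
      C (rsH X w.x ⟨s none * H.eq w.x, hs.mem w.x none⟩) := by
    rw [red_eq]
    unfold linO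
    rw [map_lin]
    unfold lin
    have h4 : ∀ j ∈ Finset.univ, (MvPolynomial.X j * C (rsH X w.x
        ⟨s (some j) * H.eq w.x, hs.mem w.x (some j)⟩) : MvPolynomial σ (X.kap w.x)) = 0 := by
      intro j _
      rw [h2 j, C_0, mul_zero]
    rw [Finset.sum_eq_zero h4, add_zero]
  obtain ⟨i, hi⟩ := hs.free w.x
  cases i with
  | some j => exact h1 j ((un_iff (hs.mem w.x (some j))).2 hi)
  | none =>
    have h4 := (un_iff (hs.mem w.x none)).2 hi
    have h5 : IsUnit (red X σ w.x (linO hs w.x)) := by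
      rw [h3]
      exact (h4.map (rsH X w.x)).map C
    exact w.prime.ne_top (Ideal.eq_top_of_isUnit_mem _ hw h5)

/-- nonunits at the generic point are divisible by the equation, in all local rings -/
private theorem gs_dvd' {g : X.P} (hg : Gen X g) (h : BC k K k' K' l) {H : Cart X}
    {s : Option σ → K} (hs : LSys X H s) (z : BP X σ) (hz : z.x = g)
    (hq : ∀ f : MvPolynomial σ (X.O z.x), red X σ z.x f ∈ z.q ↔
      map ((X.O z.x).val : X.O z.x →+* K) (linO hs z.x) ∣ map ((X.O z.x).val : X.O z.x →+* K) f) (w : BP X σ)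
    (hw : red X σ w.x (linO hs w.x) ∈ w.q) (f : MvPolynomial σ (X.O w.x))
    (hf : ¬ Un (bcO h z) (ev K' l (X.O w.x) f)) : linO hs w.x ∣ f := by
  rw [gs_key hg h hs z hz hq w.x f, not_not, ← linO_dvd hs w.x] at hf
  obtain ⟨j, hj⟩ := red_unit hs w hw
  exact lin_div ((X.O w.x).val : X.O w.x →+* K) Subtype.val_injective _ j hj f hf

theorem gs_sp [T0Space X.P] (hX : IsVar X) {g : X.P} (hg : Gen X g) (h : BC k K k' K' l) {H : Cart X}
    {s : Option σ → K} (hs : LSys X H s) (z : BP X σ) (hz : z.x = g)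
    (hq : ∀ f : MvPolynomial σ (X.O z.x), red X σ z.x f ∈ z.q ↔
      map ((X.O z.x).val : X.O z.x →+* K) (linO hs z.x) ∣ map ((X.O z.x).val : X.O z.x →+* K) f) (w : BP X σ) :
    (bcP X h).sp z w ↔ red X σ w.x (linO hs w.x) ∈ w.q := by
  rw [bc_sp hX h z w]
  constructor
  · rintro ⟨-, h1⟩
    by_contra h2
    have h3 := h1 _ h2
    rw [gs_key hg h hs z hz hq w.x, map_linO] at h3
    exact h3 (dvd_mul_right _ _)
  · intro hw
    refine ⟨by rw [hz]; exact hg.spec w.x, fun f hf => ?_⟩
    by_contra h1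
    obtain ⟨f', rfl⟩ := gs_dvd' hg h hs z hz hq w hw f h1
    rw [map_mul] at hf
    exact hf (Ideal.mul_mem_right _ _ hw)

/-- nonunits at the generic point are divisible by the equation, in all local rings -/
theorem gs_dvd [T0Space X.P] (hX : IsVar X) {g : X.P} (hg : Gen X g) (h : BC k K k' K' l) {H : Cart X}
    {s : Option σ → K} (hs : LSys X H s) (z : BP X σ) (hz : z.x = g)
    (hq : ∀ f : MvPolynomial σ (X.O z.x), red X σ z.x f ∈ z.q ↔
      map ((X.O z.x).val : X.O z.x →+* K) (linO hs z.x) ∣ map ((X.O z.x).val : X.O z.x →+* K) f) (w : BP X σ)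
    (hw : red X σ w.x (linO hs w.x) ∈ w.q) (f : MvPolynomial σ (X.O w.x))
    (hf : ¬ Un (bcO h z) (ev K' l (X.O w.x) f)) : linO hs w.x ∣ f :=
  gs_dvd' hg h hs z hz hq w hw f hf

/-- the generic member of the linear system: it is irreducible, the divisor of the generic section -/
theorem gs_spr [T0Space X.P] (hX : IsVar X) {g : X.P} (hg : Gen X g) (h : BC k K k' K' l) {H : Cart X}
    {s : Option σ → K} (hs : LSys X H s) (z : BP X σ) (hz : z.x = g)
    (hq : ∀ f : MvPolynomial σ (X.O z.x), red X σ z.x f ∈ z.q ↔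
      map ((X.O z.x).val : X.O z.x →+* K) (linO hs z.x) ∣ map ((X.O z.x).val : X.O z.x →+* K) f) :
    SPr (bcM X h) z (bcD hX ⟨g, hg⟩ h H * prin (bcM X h) (gsec K' l s) (gsec_ne h hs g)) := by
  have hok := bc_ok (σ := σ) hX ⟨g, hg⟩ h
  have hsp : ∀ w : BP X σ, @Specializes (bcM X h).P (bcM X h).top z w ↔ red X σ w.x (linO hs w.x) ∈ w.q := by
    intro w
    rw [← gs_sp hX hg h hs z hz hq w]
    exact Pre.sp_iff hok z w
  have heq : ∀ w : BP X σ, (bcD hX ⟨g, hg⟩ h H * prin (bcM X h) (gsec K' l s) (gsec_ne h hs g)).eq w =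
      ev K' l (X.O w.x) (linO hs w.x) := by
    intro w
    rw [ev_lin, mul_comm]
    rfl
  refine ⟨?_, ?_, ?_, ?_⟩
  · intro w
    rw [heq w]
    exact ev_mem h w _
  · intro w hw
    rw [heq w]
    refine (un_ev h w _).2 fun h1 => hw ((hsp w).2 h1)
  · intro w hw
    rw [heq w]
    intro h1
    have h2 := (gs_key hg h hs z hz hq (BP.x (X := X) (σ := σ) w) _).1 h1
    rw [map_linO] at h2
    exact h2 (dvd_mul_right _ _)
  · intro w hw a ha h1
    rw [heq w]
    have hw' := (hsp w).1 hw
    obtain ⟨f, q, h2, h3⟩ := id ha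
    have h4 : Un (bcO h z) (ev K' l (X.O (BP.x (X := X) (σ := σ) w)) q) := by
      have h5 := (gs_sp hX hg h hs z hz hq w).2 hw'
      rw [bc_sp hX h z w] at h5
      exact h5.2 q h2
    have h5 : ¬ Un (bcO h z) (ev K' l (X.O (BP.x (X := X) (σ := σ) w)) f) := by
      rw [← h3]
      intro h6
      exact h1 ((un_mul_un h4).1 h6)
    obtain ⟨f', hf'⟩ := gs_dvd' hg h hs z hz hq w hw' f h5
    refine ⟨f', q, h2, ?_⟩
    have h6 := heq w
    have h7 : ev K' l (X.O (BP.x (X := X) (σ := σ) w)) (linO hs (BP.x (X := X) (σ := σ) w)) ≠ 0 := by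
      rw [ev_lin]
      refine mul_ne_zero (gsec_ne h hs g) ?_
      rw [Ne, map_eq_zero]
      exact H.ne _
    rw [div_mul_eq_mul_div, h3, hf', map_mul, mul_div_cancel_left₀ _ h7]

end Pool.Agent.H83.TK
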