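import Pool.Agent.H83.TK.BcE

/-!
# [H83 TK BcF] THEOREM K, chapter T1a: centres of places on the base change

`z : BP X σ` with residue field `κ'` (`(bcP X h).mod.kap z`), `p` a place of `κ'` over `k'`,
`j : κ(z.x) →+* κ'` (`resH` of the constants).  `R₀ = p.R.comap j` is a valuation subring of `κ(z.x)` which contains `k`.

`bc_ctr`: there is a point `x` of `X`, `z.x ⤳ x`, such that for all `a ∈ O x`: `rs z.x a ∈ R₀` and if `rs z.x a ≠ 0` and
`(rs z.x a)⁻¹ ∈ R₀` then `a⁻¹ ∈ O x`; and it is unique (`T0Space X.P`).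
Proof.  If `R₀ ≠ ⊤` it is a discrete valuation ring (the restriction of the order of `p` to `κ(z.x)` is a nonzero
homomorphism to `ℤ`; a valuation ring whose valuation has values in `ℤ` is discrete; compare the places `down`,
`Place` in `H83/TU/Base.lean` and `H24/TU`, `H39/TU`, where the same is done), so it is a place of `κ(z.x)`, and `IsVar.cen`
gives the point and uniqueness.  If `R₀ = ⊤`: `x = z.x` works (`IsVar.spec`: `O x = O x`; if `rs a ≠ 0` then `Un a`,
`rs_ne`).  Uniqueness: if `x` has the property then all `a ∈ O x` with `Un (O z.x) a` are units in `O x`.  `x ⤳ z.x`: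
chart `U` with `x ∈ U` (so `z.x ∈ U`), `sp_of` (file `SubB`): if `a ∈ sec U` and `rs x a = 0` then `a` is not a unit at `x`,
so not at `z.x`.  `T0Space`: `x = z.x` (`Inseparable`, `specializes_antisymm`).

`bc_cen`: for the place `p` there is exactly one `w : BP X σ` with `sp z w` which is dominated.
Existence: `x` from `bc_ctr`.  `ψ : (O x)[l] →+* κ'`, `ψ f = resH (map (rs z.x ·) f)`; precisely the composition of
`map (residue)`..; simplest: `ψ f = rs z (ev f)` where `ev f ∈ bcO h z` because `O x ≤ O z.x`.  Its values are in `p.R` (the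
coefficients are in `R₀`, the `l i` in `k' ⊆ p.R`; `MvPolynomial.induction_on`).  `q~ = {f | ψ f` is a nonunit of `p.R}` is a
prime ideal, it contains the polynomials with coefficients in the maximal ideal of `O x`, so it is the preimage under
`red` of a prime ideal `q` of `κ(x)[l]`, and contains no `map c`, `c ≠ 0` (values in `k'`, `≠ 0` by the algebraic
independence, so units of `p.R`).  `w = (x, q)`.  `sp z w` (for the chart over `U` and `a ∈ sec`, `a ∈ D` at `w`: `z.x ∈ U`;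
`bc_sec`: `a * ev (map c) = ev f`, `f ∉ q~`, `ψ f` is a unit of `p.R`, so `≠ 0`, so `ev f` is a unit at `z`, `rs_ne`).
Dominated: `a ∈ bcO h w`, `a * ev g = ev f`, `g ∉ q~`: `rs z a = ψ f / ψ g ∈ p.R`; if `a⁻¹`.. then `ψ f` is a unit of `p.R`,
`f ∉ q~`, so `a` is a unit at `w` (`un_ev`).
Uniqueness: if `w` has the property, its point `w.x` has the property of `bc_ctr` (`z.x ⤳ w.x`: `specializes_iff`: every
open set which contains `w.x` contains a set `{y ∈ U | Un (O y) a}` with `w.x` in it, `IsVar.bas`; use `sp` for the chart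
over `U` and the function `algebraMap K K' a`), so `w.x = x`, and `f ∈ w.q` (for `f = red f'`) iff `ev f'` is a nonunit at `w`
iff `ψ f'` is a nonunit of `p.R`.
-/

set_option autoImplicit false

namespace Pool.Agent.H83.TK

open Pool.Agent.H54.RV MvPolynomial

section places

variable {L M : Type} [Field L] [Field M]

private theorem bcf_unit (V : ValuationSubring L) (a : V) : IsUnit a ↔ (a : L) ≠ 0 ∧ (a : L)⁻¹ ∈ V := by
  constructor
  · intro hu
    obtain ⟨b, hb⟩ := hu.exists_right_inv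
    have h1 : (a : L) * (b : L) = 1 := congrArg Subtype.val hb
    have h2 : (a : L)⁻¹ = (b : L) := inv_eq_of_mul_eq_one_right h1
    refine ⟨?_, h2 ▸ b.2⟩
    intro h0
    rw [h0, zero_mul] at h1
    exact zero_ne_one h1
  · rintro ⟨h1, h2⟩
    exact IsUnit.of_mul_eq_one ⟨(a : L)⁻¹, h2⟩ (Subtype.ext (mul_inv_cancel₀ h1))

/-- the restriction of a discrete valuation ring is everything or discrete -/
private theorem bcf_dvr (j : L →+* M) (W : ValuationSubring M) (hW : IsDiscreteValuationRing W)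
    (hne : ∃ a : L, j a ∉ W) : IsDiscreteValuationRing (W.comap j) := by
  obtain ⟨V, hV⟩ : ∃ V, V = W.comap j := ⟨_, rfl⟩
  rw [← hV]
  have hmem : ∀ a : L, a ∈ V ↔ j a ∈ W := by
    intro a
    rw [hV]
    exact Iff.rfl
  let g : V → W := fun a => ⟨j a, (hmem a).1 a.2⟩
  have hWwf : WfDvdMonoid W := inferInstance
  have hwf : WfDvdMonoid V := by
    refine ⟨Subrelation.wf (r := InvImage DvdNotUnit g) ?_ (InvImage.wf g hWwf.wf)⟩
    intro a b hab
    obtain ⟨ha, x, hx, rfl⟩ := hab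
    refine ⟨?_, g x, ?_, ?_⟩
    · intro h0
      have h1 : j (a : L) = 0 := congrArg Subtype.val h0
      exact ha (Subtype.ext ((map_eq_zero j).1 h1))
    · intro hu
      apply hx
      rw [bcf_unit] at hu ⊢
      obtain ⟨h1, h2⟩ := hu
      have h3 : (g x : M) = j (x : L) := rfl
      rw [h3] at h1 h2
      refine ⟨fun h0 => h1 (by rw [h0, map_zero]), (hmem _).2 ?_⟩
      rw [map_inv₀]
      exact h2
    · apply Subtype.ext
      show j ((a * x : V) : L) = j (a : L) * j (x : L)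
      rw [← map_mul]
      rfl
  have hpid : IsPrincipalIdealRing V := ((IsBezout.TFAE (R := V)).out 3 1).1 hwf
  refine { toIsPrincipalIdealRing := hpid, toIsLocalRing := inferInstance, not_a_field' := ?_ }
  obtain ⟨a, ha⟩ := hne
  have ha' : a ∉ V := fun h => ha ((hmem a).1 h)
  have ha0 : a ≠ 0 := by
    rintro rfl
    exact ha' V.zero_mem
  have hai : a⁻¹ ∈ V := (V.mem_or_inv_mem a).resolve_left ha'
  intro hbot
  have h1 : (⟨a⁻¹, hai⟩ : V) ∈ IsLocalRing.maximalIdeal V := by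
    rw [IsLocalRing.mem_maximalIdeal, mem_nonunits_iff, bcf_unit]
    rintro ⟨-, h2⟩
    rw [inv_inv] at h2
    exact ha' h2
  rw [hbot, Ideal.mem_bot] at h1
  exact inv_ne_zero ha0 (congrArg Subtype.val h1)

end places

variable {k K k' K' : Type} [Field k] [Field K] [Field k'] [Field K'] [Algebra k K] [Algebra k k'] [Algebra K K']
  [Algebra k' K'] [Algebra k K'] [IsScalarTower k K K'] [IsScalarTower k k' K'] {σ : Type} {X : Mod k K} {l : σ → k'}

theorem bc_ctr (hX : IsVar X) [T0Space X.P] (h : BC k K k' K' l) (z : BP X σ) (p : Place k' ((bcP X h).mod.kap z)) :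
    ∃! x : X.P, z.x ⤳ x ∧ ∀ a ∈ X.O x, resH h z (C (X.rs z.x a)) ∈ p.R ∧
      (resH h z (C (X.rs z.x a)) ≠ 0 → (resH h z (C (X.rs z.x a)))⁻¹ ∈ p.R → a⁻¹ ∈ X.O x) := by
  obtain ⟨j, hj⟩ : ∃ j : X.kap z.x →+* (bcP X h).mod.kap z, ∀ c, j c = resH h z (C c) :=
    ⟨(resH h z).comp C, fun _ => rfl⟩
  simp only [← hj]
  by_cases hne : ∃ a, j a ∉ p.R
  · obtain ⟨p₀, hp₀⟩ : ∃ p₀ : Place k (X.kap z.x), p₀.R = p.R.comap j := by
      refine ⟨⟨p.R.comap j, fun c => ?_, bcf_dvr j p.R p.dvr hne⟩, rfl⟩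
      show j (algebraMap k (X.kap z.x) c) ∈ p.R
      have h1 := resH_k h z (C c)
      rw [map_C] at h1
      rw [hj, h1]
      exact p.mem _
    have hmem : ∀ a, a ∈ p₀.R ↔ j a ∈ p.R := by
      intro a
      rw [hp₀]
      exact Iff.rfl
    have hiff : ∀ x, Cen X z.x x p₀ ↔ (z.x ⤳ x ∧ ∀ a ∈ X.O x, j (X.rs z.x a) ∈ p.R ∧
        (j (X.rs z.x a) ≠ 0 → (j (X.rs z.x a))⁻¹ ∈ p.R → a⁻¹ ∈ X.O x)) := by
      intro x
      constructor
      · rintro ⟨h1, -, h3⟩
        refine ⟨h1, fun a ha => ⟨(hmem _).1 (h3 a ha).1, fun h4 h5 => (h3 a ha).2 ?_ ((hmem _).2 ?_)⟩⟩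
        · intro h6
          exact h4 (by rw [h6, map_zero])
        · rw [map_inv₀]
          exact h5
      · rintro ⟨h1, h3⟩
        refine ⟨h1, hX.spec _ _ h1, fun a ha => ⟨(hmem _).2 (h3 a ha).1, fun h4 h5 => (h3 a ha).2 ?_ ?_⟩⟩
        · exact (map_ne_zero j).2 h4
        · rw [← map_inv₀]
          exact (hmem _).1 h5
    obtain ⟨x, hx, hu⟩ := hX.cen z.x p₀
    exact ⟨x, (hiff x).1 hx, fun y hy => hu y ((hiff y).2 hy)⟩
  · push Not at hne
    refine ⟨z.x, ⟨specializes_rfl, fun a ha => ⟨hne _, fun h1 _ => ?_⟩⟩, ?_⟩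
    · have h2 : X.rs z.x a ≠ 0 := fun h3 => h1 (by rw [h3, map_zero])
      exact ((rs_ne z.x ha).1 h2).2.2
    · rintro x ⟨h1, h2⟩
      refine (Specializes.antisymm ?_ h1).eq
      rw [specializes_iff_forall_open]
      intro W hW hzW
      obtain ⟨U, hU, hxU⟩ := hX.chart x
      have hzU : z.x ∈ U := h1.mem_open (hX.op U hU) hxU
      obtain ⟨a, ha, h3, h4⟩ := hX.bas U W z.x hU hW hzU hzW
      refine h4 x hxU ⟨h3.1, ha x hxU, ?_⟩
      refine (h2 a (ha x hxU)).2 ?_ ?_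
      · exact (map_ne_zero j).2 ((rs_ne z.x (ha _ hzU)).2 h3)
      · rw [← map_inv₀]
        exact hne _

/-- the residue map -/
private noncomputable def bcf_r (X : Mod k K) (x : X.P) : X.O x →+* X.kap x := IsLocalRing.residue (X.O x)

private theorem bcf_red (x : X.P) (f : MvPolynomial σ (X.O x)) : red X σ x f = map (bcf_r X x) f := rfl

private theorem bcf_r_rs (x : X.P) (a : X.O x) : bcf_r X x a = X.rs x a := by
  unfold Mod.rs
  rw [dif_pos a.2]
  rfl

private theorem bcf_r_ne (x : X.P) (a : X.O x) : bcf_r X x a ≠ 0 ↔ Un (X.O x) (a : K) := by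
  rw [bcf_r_rs, rs_ne x a.2]

private theorem bcf_redC (x : X.P) (a : X.O x) : red X σ x (C a) = C (bcf_r X x a) := by
  rw [bcf_red, map_C]

private theorem bcf_r_surj (x : X.P) : Function.Surjective (bcf_r X x) := IsLocalRing.residue_surjective

private theorem bcf_red_surj (x : X.P) : Function.Surjective (red X σ x) :=
  map_surjective (bcf_r X x) (bcf_r_surj x)

private theorem bcf_C (w : BP X σ) (a : X.O w.x) :
    red X σ w.x (C a) ∉ w.q ↔ Un (X.O w.x) (a : K) := by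
  rw [bcf_redC, ← bcf_r_ne]
  constructor
  · intro h2 h3
    rw [h3, map_zero] at h2
    exact h2 w.q.zero_mem
  · intro h2 h3
    have h5 : (C (bcf_r X w.x a)⁻¹ : MvPolynomial σ (X.kap w.x)) * C (bcf_r X w.x a) = 1 := by
      rw [← C_mul, inv_mul_cancel₀ h2, C_1]
    have h6 := Ideal.mul_mem_left w.q (C (bcf_r X w.x a)⁻¹) h3
    rw [h5] at h6
    exact w.one_notMem h6

private theorem bcf_uC (h : BC k K k' K' l) (w : BP X σ) {a : K} (ha : a ∈ X.O w.x) :
    Un (bcO h w) (algebraMap K K' a) ↔ Un (X.O w.x) a := by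
  have h1 := un_ev h w (C (⟨a, ha⟩ : X.O w.x))
  rw [ev_C, bcf_C] at h1
  exact h1

private theorem bcf_uk (h : BC k K k' K' l) (w : BP X σ) {A : Subalgebra k K} {c : MvPolynomial σ k}
    (hc : c ≠ 0) : Un (bcO h w) (ev K' l A (map (algebraMap k A) c)) := by
  have h1 := (un_ev h w (map (algebraMap k (X.O w.x)) c)).2 (by rw [red_k]; exact w.tr c hc)
  rwa [ev_k] at h1 ⊢

private theorem bcf_secev (hX : IsVar X) (h : BC k K k' K' l) {U : Set X.P} (hU : X.aff U)
    (hne : U.Nonempty) (f : MvPolynomial σ (X.sec U)) :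
    ev K' l (X.sec U) f ∈ (bcP X h).sec {z | z.x ∈ U} :=
  (bc_sec hX h hU hne _).2 ⟨f, 1, one_ne_zero, by rw [map_one, map_one, mul_one]⟩

/-- closures of points, in `X` and in the base change -/
theorem bc_sp (hX : IsVar X) (h : BC k K k' K' l) (z w : BP X σ) :
    (bcP X h).sp z w ↔ z.x ⤳ w.x ∧ ∀ f : MvPolynomial σ (X.O w.x), red X σ w.x f ∉ w.q →
      Un (bcO h z) (ev K' l (X.O w.x) f) := by
  constructor
  · intro hsp
    have key : ∀ (U : Set X.P), X.aff U → w.x ∈ U → ∀ a ∈ X.sec U, Un (X.O w.x) a →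
        z.x ∈ U ∧ Un (bcO h z) (algebraMap K K' a) := by
      intro U hU hwU a ha hu
      have h1 := bcf_secev hX h hU ⟨w.x, hwU⟩ (C (⟨a, ha⟩ : X.sec U))
      rw [ev_C] at h1
      exact hsp {z | z.x ∈ U} ⟨U, hU, rfl⟩ _ h1 ⟨hwU, (bcf_uC h w (sec_le X hwU ha)).2 hu⟩
    refine ⟨?_, ?_⟩
    · rw [specializes_iff_forall_open]
      intro V hV hwV
      obtain ⟨U, hU, hwU⟩ := hX.chart w.x
      obtain ⟨a, ha, h3, h4⟩ := hX.bas U V w.x hU hV hwU hwV
      obtain ⟨h5, h6⟩ := key U hU hwU a ((mem_sec U a).2 ha) h3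
      exact h4 z.x h5 ((bcf_uC h z (ha _ h5)).1 h6)
    · intro f hf
      obtain ⟨U, hU, hwU⟩ := hX.chart w.x
      obtain ⟨s, hs, f', hf'⟩ := clear_den hX hU hwU f
      obtain ⟨h5, h6⟩ := key U hU hwU s s.2 hs
      have h7 : ev K' l (X.sec U) f' = algebraMap K K' (s : K) * ev K' l (X.O w.x) f := by
        rw [← ev_sec hwU, hf', map_mul, ev_C]
        rfl
      have h8 : Un (bcO h w) (ev K' l (X.sec U) f') := by
        rw [h7]
        exact un_mul ((bcf_uC h w (sec_le X hwU s.2)).2 hs) ((un_ev h w f).2 hf)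
      have h9 : Un (bcO h z) (ev K' l (X.sec U) f') :=
        (hsp {z | z.x ∈ U} ⟨U, hU, rfl⟩ _ (bcf_secev hX h hU ⟨w.x, hwU⟩ f') ⟨hwU, h8⟩).2
      have h10 : ev K' l (X.O w.x) f = ev K' l (X.sec U) f' / algebraMap K K' (s : K) := by
        rw [h7, mul_div_cancel_left₀ _ h6.1]
      rw [h10]
      exact un_div h9 h6
  · rintro ⟨h1, h2⟩ W ⟨U, hU, rfl⟩ a ha ⟨hwU, hu⟩
    have hwU' : w.x ∈ U := hwU
    have hzU : z.x ∈ U := h1.mem_open (hX.op U hU) hwU'
    refine ⟨hzU, ?_⟩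
    obtain ⟨f, c, hc, hfc⟩ := (bc_sec hX h hU ⟨w.x, hwU'⟩ a).1 ha
    have h3 : Un (bcO h w) (ev K' l (X.sec U) f) := by
      rw [← hfc]
      exact un_mul hu (bcf_uk h w hc)
    have h4 : Un (bcO h z) (ev K' l (X.sec U) f) := by
      rw [← ev_sec hwU', un_ev] at h3
      have h5 := h2 _ h3
      rwa [ev_sec] at h5
    have h5 := bcf_uk h z (A := X.sec U) hc
    have h6 : a = ev K' l (X.sec U) f / ev K' l (X.sec U) (map (algebraMap k (X.sec U)) c) := by
      rw [← hfc, mul_div_cancel_right₀ _ h5.1]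
    show Un (bcO h z) a
    rw [h6]
    exact un_div h4 h5

private theorem bcf_rsne (h : BC k K k' K' l) (z : BP X σ) {a : K'} (ha : a ∈ bcO h z) :
    (bcP X h).mod.rs z a ≠ 0 ↔ Un (bcO h z) a := rs_ne (X := (bcP X h).mod) z ha

private theorem bcf_rsmul (h : BC k K k' K' l) (z : BP X σ) {a b : K'} (ha : a ∈ bcO h z)
    (hb : b ∈ bcO h z) : (bcP X h).mod.rs z (a * b) = (bcP X h).mod.rs z a * (bcP X h).mod.rs z b :=
  rs_mul (X := (bcP X h).mod) z ha hb

private theorem bcf_rsone (h : BC k K k' K' l) (z : BP X σ) : (bcP X h).mod.rs z 1 = 1 :=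
  rs_one (X := (bcP X h).mod) z

private theorem bcf_rsalg (h : BC k K k' K' l) (z : BP X σ) (c : k') :
    (bcP X h).mod.rs z (algebraMap k' K' c) = algebraMap k' ((bcP X h).mod.kap z) c :=
  rs_alg (X := (bcP X h).mod) z c

/-- the inclusion of the local rings -/
private noncomputable def bcf_i {x y : X.P} (hxy : X.O x ≤ X.O y) : X.O x →+* X.O y :=
  (Subalgebra.inclusion hxy : X.O x →+* X.O y)

private theorem bcf_evi {x y : X.P} (hxy : X.O x ≤ X.O y) (f : MvPolynomial σ (X.O x)) :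
    ev K' l (X.O y) (map (bcf_i hxy) f) = ev K' l (X.O x) f := by
  unfold ev
  rw [coe_eval₂Hom, eval₂_map]
  rfl

private theorem bcf_le (hX : IsVar X) (h : BC k K k' K' l) {z w : BP X σ} (hzw : z.x ⤳ w.x)
    (hsp : ∀ f : MvPolynomial σ (X.O w.x), red X σ w.x f ∉ w.q → Un (bcO h z) (ev K' l (X.O w.x) f)) :
    bcO h w ≤ bcO h z := by
  rintro a ⟨f, g, hg, ha⟩
  have h1 := hsp g hg
  have h2 : ev K' l (X.O w.x) f ∈ bcO h z := by
    rw [← bcf_evi (hX.spec _ _ hzw)]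
    exact ev_mem h z _
  have h3 : a = ev K' l (X.O w.x) f * (ev K' l (X.O w.x) g)⁻¹ := by
    rw [← ha, mul_assoc, mul_inv_cancel₀ h1.1, mul_one]
  rw [h3]
  exact mul_mem h2 h1.2.2

theorem bc_cen (hX : IsVar X) [T0Space X.P] (h : BC k K k' K' l) (z : BP X σ) (p : Place k' ((bcP X h).mod.kap z)) :
    ∃! w : BP X σ, (bcP X h).sp z w ∧ ∀ a ∈ bcO h w, (bcP X h).mod.rs z a ∈ p.R ∧
      ((bcP X h).mod.rs z a ≠ 0 → ((bcP X h).mod.rs z a)⁻¹ ∈ p.R → a⁻¹ ∈ bcO h w) := by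
  obtain ⟨x, ⟨hzx, hdom⟩, hux⟩ := bc_ctr hX h z p
  have hle := hX.spec _ _ hzx
  -- the homomorphism `ψ`
  obtain ⟨ψ, hψ⟩ : ∃ ψ : MvPolynomial σ (X.O x) →+* (bcP X h).mod.kap z,
      ∀ f, ψ f = resH h z (red X σ z.x (map (bcf_i hle) f)) :=
    ⟨(resH h z).comp ((red X σ z.x).comp (map (bcf_i hle))), fun _ => rfl⟩
  have hψev : ∀ f, ψ f = (bcP X h).mod.rs z (ev K' l (X.O x) f) := by
    intro f
    rw [hψ, resH_red, bcf_evi]
  have hψC : ∀ a : X.O x, ψ (C a) = resH h z (C (X.rs z.x a)) := by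
    intro a
    rw [hψ, map_C, bcf_redC, bcf_r_rs]
    rfl
  have hψR : ∀ f, ψ f ∈ p.R := by
    intro f
    induction f using MvPolynomial.induction_on with
    | C a =>
      rw [hψC]
      exact (hdom a a.2).1
    | add f g hf hg =>
      rw [map_add]
      exact add_mem hf hg
    | mul_X f i hf =>
      rw [map_mul]
      refine mul_mem hf ?_
      have h1 : ψ (MvPolynomial.X i) = algebraMap k' ((bcP X h).mod.kap z) (l i) := by
        rw [hψ, map_X, bcf_red, map_X, resH_X]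
      rw [h1]
      exact p.mem _
  obtain ⟨ψR, hψR2⟩ : ∃ ψR : MvPolynomial σ (X.O x) →+* p.R, ∀ f, (ψR f : (bcP X h).mod.kap z) = ψ f :=
    ⟨ψ.codRestrict p.R hψR, fun _ => rfl⟩
  obtain ⟨Q, hQ⟩ : ∃ Q : Ideal (MvPolynomial σ (X.O x)), Q = (IsLocalRing.maximalIdeal p.R).comap ψR :=
    ⟨_, rfl⟩
  have hQp : Q.IsPrime := by
    rw [hQ]
    exact Ideal.comap_isPrime ψR _
  have hQm : ∀ f, f ∉ Q ↔ ψ f ≠ 0 ∧ (ψ f)⁻¹ ∈ p.R := by
    intro f
    rw [hQ, Ideal.mem_comap, IsLocalRing.mem_maximalIdeal, mem_nonunits_iff, not_not, bcf_unit, hψR2]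
  have hQC : ∀ a : X.O x, ¬ Un (X.O x) (a : K) → C a ∈ Q := by
    intro a ha
    by_contra hc
    obtain ⟨h1, h2⟩ := (hQm _).1 hc
    rw [hψC] at h1 h2
    have h3 := (hdom a a.2).2 h1 h2
    refine ha ⟨?_, a.2, h3⟩
    intro h0
    apply h1
    have h4 : X.rs z.x (a : K) = 0 := by
      rw [h0]
      have h5 := (bcf_r_rs z.x (0 : X.O z.x)).symm
      rw [map_zero] at h5
      exact h5
    rw [h4, map_zero, map_zero]
  have hker : RingHom.ker (red X σ x) ≤ Q := by
    intro f hf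
    rw [RingHom.mem_ker, bcf_red] at hf
    rw [f.as_sum]
    refine sum_mem fun m _ => ?_
    rw [← mul_one (coeff m f), ← C_mul_monomial]
    refine Ideal.mul_mem_right _ _ (hQC _ ?_)
    rw [← bcf_r_ne, not_not, ← coeff_map, hf, coeff_zero]
  obtain ⟨q, hq⟩ : ∃ q : Ideal (MvPolynomial σ (X.kap x)), q = Ideal.map (red X σ x) Q := ⟨_, rfl⟩
  have hqp : q.IsPrime := by
    rw [hq]
    exact Ideal.map_isPrime_of_surjective (bcf_red_surj x) hker
  have hqm : ∀ f, red X σ x f ∈ q ↔ f ∈ Q := by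
    intro f
    rw [← Ideal.mem_comap, hq, Ideal.comap_map_of_surjective _ (bcf_red_surj x)]
    have h1 : Ideal.comap (red X σ x) ⊥ = RingHom.ker (red X σ x) := rfl
    rw [h1, sup_eq_left.2 hker]
  have htr : ∀ c : MvPolynomial σ k, c ≠ 0 → map (algebraMap k (X.kap x)) c ∉ q := by
    intro c hc
    rw [← red_k, hqm, hQm, hψev, ev_k, bcf_rsalg]
    have h1 : aeval l c ≠ 0 := by
      intro h0
      have h2 := bcf_uk h z (A := X.O x) hc
      rw [ev_k, h0, map_zero] at h2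
      exact h2.1 rfl
    refine ⟨(map_ne_zero _).2 h1, ?_⟩
    rw [← map_inv₀]
    exact p.mem _
  have hw1 : ∀ f, red X σ x f ∉ q → ψ f ≠ 0 ∧ (ψ f)⁻¹ ∈ p.R := by
    intro f hf
    rw [hqm] at hf
    exact (hQm f).1 hf
  obtain ⟨w, hwx, hwq⟩ : ∃ w : BP X σ, ∃ hwx : w.x = x, w = ⟨x, q, hqp, htr⟩ := ⟨⟨x, q, hqp, htr⟩, rfl, rfl⟩
  subst hwq
  have hun : ∀ f : MvPolynomial σ (X.O x), red X σ x f ∉ q → Un (bcO h z) (ev K' l (X.O x) f) := by
    intro f hf
    have h1 := (hw1 f hf).1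
    rw [hψev] at h1
    refine (bcf_rsne h z ?_).1 h1
    rw [← bcf_evi hle]
    exact ev_mem h z _
  refine ⟨⟨x, q, hqp, htr⟩, ⟨(bc_sp hX h z _).2 ⟨hzx, hun⟩, ?_⟩, ?_⟩
  · intro a ha
    have haz : a ∈ bcO h z := bcf_le hX h (w := ⟨x, q, hqp, htr⟩) hzx hun ha
    obtain ⟨f, g, hg, hfg⟩ := ha
    have hg' : red X σ x g ∉ q := hg
    have hgz := hun g hg'
    obtain ⟨h1, h2⟩ := hw1 g hg'
    have h3 : (bcP X h).mod.rs z a * ψ g = ψ f := by
      rw [hψev, hψev, ← bcf_rsmul h z haz hgz.2.1]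
      exact congrArg _ hfg
    have h4 : (bcP X h).mod.rs z a = ψ f * (ψ g)⁻¹ := by
      rw [← h3, mul_assoc, mul_inv_cancel₀ h1, mul_one]
    refine ⟨?_, fun h5 h6 => ?_⟩
    · rw [h4]
      exact mul_mem (hψR f) h2
    · have h7 : f ∉ Q := by
        rw [hQm, ← h3]
        refine ⟨mul_ne_zero h5 h1, ?_⟩
        rw [mul_inv]
        exact mul_mem h6 h2
      have h8 : Un (bcO h (⟨x, q, hqp, htr⟩ : BP X σ)) (ev K' l (X.O x) f) :=
        (un_ev h ⟨x, q, hqp, htr⟩ f).2 (fun h9 => h7 ((hqm f).1 h9))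
      have h9 : Un (bcO h (⟨x, q, hqp, htr⟩ : BP X σ)) (ev K' l (X.O x) g) :=
        (un_ev h ⟨x, q, hqp, htr⟩ g).2 hg
      have h10 : a = ev K' l (X.O x) f / ev K' l (X.O x) g := by
        rw [eq_div_iff h9.1]
        exact hfg
      rw [h10]
      exact (un_div h8 h9).2.2
  · rintro ⟨x', q', hqp', htr'⟩ ⟨hsp', hdom'⟩
    obtain ⟨hzx', hun'⟩ := (bc_sp hX h z _).1 hsp'
    have hzx'' : z.x ⤳ x' := hzx'
    have hle' := hX.spec _ _ hzx''
    have hlez : bcO h (⟨x', q', hqp', htr'⟩ : BP X σ) ≤ bcO h z := bcf_le hX h hzx' hun'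
    have hxx : x' = x := by
      refine hux x' ⟨hzx'', fun a ha => ?_⟩
      have h1 : algebraMap K K' a ∈ bcO h (⟨x', q', hqp', htr'⟩ : BP X σ) := by
        have h2 := ev_mem h (⟨x', q', hqp', htr'⟩ : BP X σ) (C (⟨a, ha⟩ : X.O x'))
        rw [ev_C] at h2
        exact h2
      have h3 : (bcP X h).mod.rs z (algebraMap K K' a) = resH h z (C (X.rs z.x a)) := by
        have h4 := resH_red h z (C (⟨a, hle' ha⟩ : X.O z.x))
        rw [ev_C, bcf_redC, bcf_r_rs] at h4
        exact h4.symm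
      have h5 := hdom' _ h1
      rw [h3] at h5
      refine ⟨h5.1, fun h6 h7 => ?_⟩
      have h8 := h5.2 h6 h7
      have h9 : a ≠ 0 := by
        rintro rfl
        apply h6
        rw [← h3, map_zero]
        have h10 := bcf_rsalg h z (0 : k')
        rw [map_zero, map_zero] at h10
        exact h10
      have h11 : Un (bcO h (⟨x', q', hqp', htr'⟩ : BP X σ)) (algebraMap K K' a) :=
        ⟨(map_ne_zero _).2 h9, h1, h8⟩
      exact ((bcf_uC h (⟨x', q', hqp', htr'⟩ : BP X σ) ha).1 h11).2.2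
    subst hxx
    have hqq : q' = q := by
      ext F
      obtain ⟨f, rfl⟩ := bcf_red_surj x' F
      rw [← not_iff_not]
      constructor
      · intro hf
        rw [hqm, hQm, hψev]
        have h1 : Un (bcO h (⟨x', q', hqp', htr'⟩ : BP X σ)) (ev K' l (X.O x') f) :=
          (un_ev h (⟨x', q', hqp', htr'⟩ : BP X σ) f).2 hf
        have h2 : Un (bcO h z) (ev K' l (X.O x') f) := un_mono hlez h1
        have h3 := (bcf_rsne h z h2.2.1).2 h2
        refine ⟨h3, ?_⟩
        have h4 := (hdom' _ h1.2.2).1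
        have h5 : (bcP X h).mod.rs z (ev K' l (X.O x') f) *
            (bcP X h).mod.rs z (ev K' l (X.O x') f)⁻¹ = 1 := by
          rw [← bcf_rsmul h z h2.2.1 h2.2.2, mul_inv_cancel₀ h2.1, bcf_rsone]
        rw [inv_eq_of_mul_eq_one_right h5]
        exact h4
      · intro hf
        obtain ⟨h1, h2⟩ := hw1 f hf
        rw [hψev] at h1 h2
        have h3 : ev K' l (X.O x') f ∈ bcO h (⟨x', q', hqp', htr'⟩ : BP X σ) :=
          ev_mem h (⟨x', q', hqp', htr'⟩ : BP X σ) f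
        have h4 := (hdom' _ h3).2 h1 h2
        have h5 : ev K' l (X.O x') f ≠ 0 := ((bcf_rsne h z (hlez h3)).1 h1).1
        exact (un_ev h (⟨x', q', hqp', htr'⟩ : BP X σ) f).1 ⟨h5, h3, h4⟩
    subst hqq
    rfl

end Pool.Agent.H83.TK
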