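import Pool.Agent.H83.TK.GsD
import Pool.Agent.H24.TK.Fin

/-!
# [H83 TK GsE] THEOREM K, chapter T1d: the generic member `C` of a linear system, `h0 (1 : Cart C) 1 = 1`

`gs_alg`: `k' = k(l)` is algebraically closed in `κ(z)`.  `gs_one`, `gs_main_one`.
-/

set_option autoImplicit false

namespace Pool.Agent.H83.TK

open Pool.Agent.H54.RV MvPolynomial Pool.Agent.H83.TU

variable {k K k' K' : Type} [Field k] [Field K] [Field k'] [Field K'] [Algebra k K] [Algebra k k'] [Algebra K K']
  [Algebra k' K'] [Algebra k K'] [IsScalarTower k K K'] [IsScalarTower k k' K'] {σ : Type} [Fintype σ] {X : Mod k K}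
  {l : σ → k'}

private theorem gse_res {k K : Type} [Field k] [Field K] [Algebra k K] (M : Mod k K) (z : M.P) :
    ∃ res : M.O z →+* M.kap z, (∀ a : M.O z, res a = M.rs z a) ∧ Function.Surjective res ∧
      ∀ c, res (algebraMap k (M.O z) c) = algebraMap k (M.kap z) c := by
  refine ⟨IsLocalRing.residue (M.O z), fun a => ?_, IsLocalRing.residue_surjective, fun c => rfl⟩
  unfold Mod.rs
  rw [dif_pos a.2]
  rfl

/-- `k(l)` is algebraically closed in the function field of the generic member -/
theorem gs_alg [IsAlgClosed k] [CharZero k] {g : X.P} (hg : Gen X g) (h : BC k K k' K' l) {H : Cart X}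
    {s : Option σ → K} (hs : LSys X H s) (z : BP X σ) (hz : z.x = g)
    (hq : ∀ f : MvPolynomial σ (X.O z.x), red X σ z.x f ∈ z.q ↔
      map ((X.O z.x).val : X.O z.x →+* K) (linO hs z.x) ∣ map ((X.O z.x).val : X.O z.x →+* K) f)
    (ind : ∃ i₀ j, s (some j) ≠ 0 ∧ AlgebraicIndependent k ![s none / s (some j), s (some i₀) / s (some j)])
    (c : (bcM X h).kap z) (hc : IsAlgebraic k' c) : ∃ b, algebraMap k' ((bcM X h).kap z) b = c := by
  classical
  obtain ⟨i₀, j, hsj, hind⟩ := ind
  have hm : ∀ a : K, a ∈ X.O z.x := by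
    intro a
    rw [hz, hg.top]
    exact Algebra.mem_top
  obtain ⟨res, hr1, hr2, hr3⟩ : ∃ res : bcO h z →+* (bcM X h).kap z,
    (∀ a : bcO h z, res a = (bcM X h).rs z a) ∧ Function.Surjective res ∧
      ∀ c, res (algebraMap k' (bcO h z) c) = algebraMap k' ((bcM X h).kap z) c := gse_res (bcM X h) z
  have hr0 : ∀ a : bcO h z, res a = 0 ↔ ¬ Un (bcO h z) (a : K') := by
    intro a
    have h1 := rs_ne (X := bcM X h) z (a := (a : K')) a.2
    rw [hr1]
    exact not_iff_comm.1 h1 |>.symm
  let ρ : X.O z.x →+* (bcM X h).kap z := res.comp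
    (((ev K' l (X.O z.x)).codRestrict (bcO h z) (ev_mem h z)).comp C)
  let ιK : K →+* X.O z.x := (RingHom.id K).codRestrict (X.O z.x) hm
  let φ : K →+* (bcM X h).kap z := ρ.comp ιK
  have hK : ∀ a : K, φ a = res ⟨ev K' l (X.O z.x) (C ⟨a, hm a⟩), ev_mem h z _⟩ := fun _ => rfl
  have hφ : ∀ a : k, φ (algebraMap k K a) = algebraMap k' ((bcM X h).kap z) (algebraMap k k' a) := by
    intro c
    rw [hK, ← hr3]
    congr 1
    apply Subtype.ext
    change ev K' l (X.O z.x) (C ⟨algebraMap k K c, hm _⟩) = algebraMap k' K' (algebraMap k k' c)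
    rw [ev_C]
    change algebraMap K K' (algebraMap k K c) = algebraMap k' K' (algebraMap k k' c)
    rw [← IsScalarTower.algebraMap_apply k k' K', ← IsScalarTower.algebraMap_apply k K K']
  obtain ⟨t, ht⟩ : ∃ t : σ → (bcM X h).kap z, t = fun i => algebraMap k' ((bcM X h).kap z) (l i) := ⟨_, rfl⟩
  -- evaluation
  have hev : ∀ f : MvPolynomial σ (X.O z.x), eval₂ φ t (map ((X.O z.x).val : X.O z.x →+* K) f) =
      res ⟨ev K' l (X.O z.x) f, ev_mem h z f⟩ := by
    intro f
    have h1 : (eval₂Hom φ t).comp (map ((X.O z.x).val : X.O z.x →+* K)) = res.comp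
        ((ev K' l (X.O z.x)).codRestrict (bcO h z) (ev_mem h z)) := by
      refine MvPolynomial.ringHom_ext (fun r => ?_) (fun i => ?_)
      · rw [RingHom.comp_apply, map_C]
        change eval₂ φ t (C (r : K)) = _
        rw [eval₂_C, hK]
        rfl
      · rw [RingHom.comp_apply, map_X]
        change eval₂ φ t (MvPolynomial.X i) = _
        rw [eval₂_X, ht]
        change algebraMap k' ((bcM X h).kap z) (l i) = res _
        rw [← hr3]
        congr 1
        apply Subtype.ext
        change algebraMap k' K' (l i) = ev K' l (X.O z.x) (MvPolynomial.X i)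
        unfold ev
        rw [coe_eval₂Hom, eval₂_X]
    exact DFunLike.congr_fun h1 f
  have hsur : ∀ F : MvPolynomial σ K, ∃ f : MvPolynomial σ (X.O z.x),
      map ((X.O z.x).val : X.O z.x →+* K) f = F := by
    intro F
    refine ⟨map ιK F, ?_⟩
    rw [map_map]
    have h1 : ((X.O z.x).val : X.O z.x →+* K).comp ιK = RingHom.id K := rfl
    rw [h1, map_id]
  obtain ⟨u, hu⟩ : ∃ u : Option σ → K, u = fun i => s i * H.eq z.x := ⟨_, rfl⟩
  have hlin : map ((X.O z.x).val : X.O z.x →+* K) (linO hs z.x) = lin u := by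
    unfold linO
    rw [map_lin, hu]
    rfl
  have hzero : ∀ F : MvPolynomial σ K, eval₂ φ t F = 0 ↔ lin u ∣ F := by
    intro F
    obtain ⟨f, rfl⟩ := hsur F
    rw [← hlin, ← hq, hev, hr0, un_ev h z]
    exact not_not
  have huj : u (some j) ≠ 0 := by
    rw [hu]
    exact mul_ne_zero hsj (H.ne z.x)
  have huj' : IsUnit (u (some j)) := isUnit_iff_ne_zero.2 huj
  have hren : ∀ P : MvPolynomial {i : σ // i ≠ j} K,
      eval₂ φ (fun i => algebraMap k' ((bcM X h).kap z) (l i.1)) P = eval₂ φ t (rename Subtype.val P) := by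
    intro P
    rw [eval₂_rename, ht]
    rfl
  have hchar : CharZero ((bcM X h).kap z) := by
    have h1 : CharZero k' := charZero_of_injective_algebraMap (algebraMap k k').injective
    exact charZero_of_injective_algebraMap (algebraMap k' ((bcM X h).kap z)).injective
  have hgen : ∀ c : k', ∃ f q : MvPolynomial σ k, aeval l q ≠ 0 ∧ c * aeval l q = aeval l f := by
    intro c
    obtain ⟨f, q, h1, h2⟩ := h.genk c
    refine ⟨f, q, fun h3 => h1 ?_, h2⟩
    have h4 := ev_k (K' := K') (l := l) (X.O z.x) q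
    rw [h3, map_zero] at h4
    have h5 : map (algebraMap k (X.O z.x)) q = 0 := ev_inj h _ (h4.trans (map_zero _).symm)
    apply map_injective (algebraMap k (X.O z.x)) (algebraMap k (X.O z.x)).injective
    rw [h5, map_zero]
  refine BZ.gen_alg φ hφ hgen u j i₀ huj ?_ ?_ ?_ ?_ c hc
  · have h1 := (hzero (lin u)).2 (dvd_refl _)
    unfold lin at h1
    rw [eval₂_add, eval₂_C, eval₂_sum] at h1
    rw [← h1]
    congr 1
    refine Finset.sum_congr rfl fun i _ => ?_
    rw [eval₂_mul, eval₂_X, eval₂_C, ht]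
  · intro P hP
    rw [hren] at hP
    exact lin_rename u j huj' P ((hzero _).1 hP)
  · intro c
    obtain ⟨⟨a, ha⟩, rfl⟩ := hr2 c
    obtain ⟨f, q, h1, h2⟩ := (mem_bcO h z a).1 ha
    obtain ⟨P, hP⟩ := lin_elim u j huj' (map ((X.O z.x).val : X.O z.x →+* K) f)
    obtain ⟨Q, hQ⟩ := lin_elim u j huj' (map ((X.O z.x).val : X.O z.x →+* K) q)
    have h3 : eval₂ φ t (map ((X.O z.x).val : X.O z.x →+* K) f) = eval₂ φ t (rename Subtype.val P) := by
      have h4 := (hzero _).2 hP
      rwa [eval₂_sub, sub_eq_zero] at h4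
    have h4 : eval₂ φ t (map ((X.O z.x).val : X.O z.x →+* K) q) = eval₂ φ t (rename Subtype.val Q) := by
      have h4 := (hzero _).2 hQ
      rwa [eval₂_sub, sub_eq_zero] at h4
    refine ⟨P, Q, ?_, ?_⟩
    · rw [hren, ← h4, Ne, hzero, ← hlin, ← hq]
      exact h1
    · rw [hren, hren, ← h3, ← h4, hev, hev, ← map_mul]
      congr 1
      exact Subtype.ext h2
  · have h1 : u none / u (some j) = s none / s (some j) := by
      rw [hu]
      exact mul_div_mul_right _ _ (H.ne z.x)
    have h2 : u (some i₀) / u (some j) = s (some i₀) / s (some j) := by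
      rw [hu]
      exact mul_div_mul_right _ _ (H.ne z.x)
    rw [h1, h2]
    exact hind

/-- a variety whose constants are algebraically closed in the function field has one constant section -/
theorem h0_one_of {k K : Type} [Field k] [Field K] [Algebra k K] {X : Mod k K} (hX : IsVar X)
    (hfd : FiniteDimensional k (secL (1 : Cart X) 1))
    (hc : ∀ c : K, IsAlgebraic k c → ∃ b, algebraMap k K b = c) : h0 (1 : Cart X) 1 = 1 := by
  have hmem : ∀ c : K, c ∈ secL (1 : Cart X) 1 ↔ ∀ x, c ∈ X.O x := by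
    intro c
    constructor
    · intro h x
      have h1 := h x
      rwa [pow_one, one_eq, mul_one] at h1
    · intro h x
      rw [pow_one, one_eq, mul_one]
      exact h x
  obtain ⟨x₀⟩ := hX.ne
  -- the ring of the constant sections
  let S : Subalgebra k K := ⨅ x, X.O x
  have hS : ∀ c, c ∈ S ↔ ∀ x, c ∈ X.O x := fun c => Algebra.mem_iInf
  have h1 : ∀ c ∈ secL (1 : Cart X) 1, ∃ b, algebraMap k K b = c := by
    intro c hcc
    apply hc
    have h2 : c ∈ S := (hS c).2 ((hmem c).1 hcc)
    have hfS : FiniteDimensional k S := by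
      let e : S →ₗ[k] secL (1 : Cart X) 1 :=
        { toFun := fun a => ⟨a, (hmem _).2 ((hS _).1 a.2)⟩
          map_add' := fun _ _ => rfl
          map_smul' := fun _ _ => rfl }
      exact FiniteDimensional.of_injective e fun a b hab => by
        have h3 := congrArg (fun v : secL (1 : Cart X) 1 => (v : K)) hab
        exact Subtype.ext h3
    have h3 : IsIntegral k (⟨c, h2⟩ : S) := IsIntegral.of_finite k _
    have h4 : IsIntegral k c := h3.map S.val
    exact h4.isAlgebraic
  have h2 : secL (1 : Cart X) 1 = k ∙ (1 : K) := by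
    ext c
    rw [Submodule.mem_span_singleton]
    constructor
    · intro hcc
      obtain ⟨b, hb⟩ := h1 c hcc
      exact ⟨b, by rw [← hb, Algebra.smul_def, mul_one]⟩
    · rintro ⟨b, rfl⟩
      rw [hmem]
      intro x
      rw [Algebra.smul_def, mul_one]
      exact (X.O x).algebraMap_mem b
  unfold h0
  rw [h2]
  exact finrank_span_singleton one_ne_zero

/-- everything together, with `h0 = 1` -/
theorem gs_main_one [IsAlgClosed k] [CharZero k] [T0Space X.P] (hX : IsVar X) (hg : ∃ g, Gen X g)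
    (h : BC k K k' K' l) {H : Cart X} {s : Option σ → K} (hs : LSys X H s) (hA : ∃ A : Cart X, Ample A)
    (ind : ∃ i₀ j, s (some j) ≠ 0 ∧ AlgebraicIndependent k ![s none / s (some j), s (some i₀) / s (some j)]) :
    ∃ (z : (bcM X h).P) (hsl : gsec K' l s ≠ 0), SPr (bcM X h) z (bcD hX hg h H * prin (bcM X h) (gsec K' l s) hsl) ∧
      Algebra.trdeg k' ((bcM X h).kap z) + 1 = Algebra.trdeg k K ∧
      ((∀ x, UniqueFactorizationMonoid (X.O x)) → ∀ w : (subM (isVar_bc hX hg h) z).P,
        UniqueFactorizationMonoid ((subM (isVar_bc hX hg h) z).O w)) ∧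
      (∀ c : (bcM X h).kap z, IsAlgebraic k' c → ∃ b, algebraMap k' ((bcM X h).kap z) b = c) ∧
      h0 (1 : Cart (subM (isVar_bc hX hg h) z)) 1 = 1 := by
  obtain ⟨g, hg'⟩ := id hg
  obtain ⟨z, hz, hq⟩ := gs_pt (σ := σ) hX hg' hs
  have halg := gs_alg hg' h hs z hz hq ind
  refine ⟨z, gsec_ne h hs g, gs_spr hX hg' h hs z hz hq, gs_trdeg hX hg' h hs z hz hq,
    fun hu w => gs_ufd hX hg' h hs z hz hq hu w, halg, ?_⟩
  obtain ⟨A, hA⟩ := hA
  have hchar : CharZero k' := charZero_of_injective_algebraMap (algebraMap k k').injective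
  have hV := isVar_bc hX hg h
  have hC := isVar_sub hV z
  have hAC := res_ample hV z _ (bc_ample hX hg h A hA)
  exact h0_one_of hC (H24.TK.fd hC ⟨_, gen_sub hV z⟩ hAC 1) halg

end Pool.Agent.H83.TK
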