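import Pool.Agent.H83.TK.Pre

/-!
# THEOREM K, chapter T1: the constructor, `Ok` implies `IsVar`

`den`: `a ∈ sec U`, `b ∈ O x` for all `x ∈ D U a`: then `a ^ n * b ∈ sec U` for some `n`.
-/

set_option autoImplicit false

namespace Pool.Agent.H83.TK

open Pool.Agent.H54.RV

variable {k K : Type} [Field k] [Field K] [Algebra k K]

namespace Pre

variable {M : Pre k K}

theorem mem_sec' (U : Set M.P) (a : K) : a ∈ M.sec U ↔ ∀ x ∈ U, a ∈ M.O x := by
  unfold Pre.sec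
  simp only [Algebra.mem_iInf]

theorem den (h : M.Ok) {U : Set M.P} (hU : U ∈ M.ch) {a b : K} (ha : a ∈ M.sec U) (hb : ∀ x ∈ M.D U a, b ∈ M.O x) :
    ∃ n : ℕ, a ^ n * b ∈ M.sec U := by
  rcases U.eq_empty_or_nonempty with he | hne
  · refine ⟨0, (mem_sec' _ _).2 fun x hx => ?_⟩
    rw [he] at hx
    exact absurd hx (Set.notMem_empty x)
  let J : Ideal (M.sec U) :=
    { carrier := {s | (s : K) * b ∈ M.sec U}
      zero_mem' := by
        change ((0 : M.sec U) : K) * b ∈ M.sec U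
        rw [ZeroMemClass.coe_zero, zero_mul]
        exact zero_mem _
      add_mem' := fun {s t} hs ht => by
        change ((s + t : M.sec U) : K) * b ∈ M.sec U
        rw [Subalgebra.coe_add, add_mul]
        exact add_mem hs ht
      smul_mem' := fun c s hs => by
        change ((c * s : M.sec U) : K) * b ∈ M.sec U
        rw [Subalgebra.coe_mul, mul_assoc]
        exact mul_mem c.2 hs }
  have h1 : (⟨a, ha⟩ : M.sec U) ∈ J.radical := by
    rw [Ideal.radical_eq_sInf, Ideal.mem_sInf]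
    rintro I ⟨hJI, hI⟩
    obtain ⟨x, hx, hIx⟩ := h.prime U hU hne I hI
    by_contra hcon
    have hun : Un (M.O x) a := by
      by_contra hh
      exact hcon ((hIx ⟨a, ha⟩).2 hh)
    obtain ⟨s, hs, hsu, hbs⟩ := h.frac U hU x hx b (hb x ⟨hx, hun⟩)
    have h2 : (⟨s, hs⟩ : M.sec U) ∈ J := by
      change s * b ∈ M.sec U
      rw [mul_comm]
      exact hbs
    exact (hIx ⟨s, hs⟩).1 (hJI h2) hsu
  obtain ⟨n, hn⟩ := h1
  exact ⟨n, hn⟩

theorem basic (h : M.Ok) {U : Set M.P} (hU : U ∈ M.ch) {a b : K} (ha : a ∈ M.sec U) (hb : ∀ x ∈ M.D U a, b ∈ M.O x) :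
    ∃ c ∈ M.sec U, M.D U c = {x | x ∈ M.D U a ∧ Un (M.O x) b} := by
  obtain ⟨n, hn⟩ := den h hU ha hb
  refine ⟨a * (a ^ n * b), mul_mem ha hn, ?_⟩
  ext x
  constructor
  · rintro ⟨hx, h1⟩
    have h2 := (un_mul_iff ((mem_sec' _ _).1 ha x hx) ((mem_sec' _ _).1 hn x hx)).1 h1
    have h3 : x ∈ M.D U a := ⟨hx, h2.1⟩
    have h4 := (un_mul_iff (pow_mem ((mem_sec' _ _).1 ha x hx) n) (hb x h3)).1 h2.2
    exact ⟨h3, h4.2⟩
  · rintro ⟨⟨hx, h1⟩, h2⟩
    exact ⟨hx, un_mul h1 (un_mul (un_pow h1 n) h2)⟩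

theorem inter (h : M.Ok) {U V : Set M.P} (hU : U ∈ M.ch) (hV : V ∈ M.ch) {a b : K} (ha : a ∈ M.sec U)
    (hb : b ∈ M.sec V) {x : M.P} (hx : x ∈ M.D U a) (hx' : x ∈ M.D V b) :
    ∃ c ∈ M.sec U, x ∈ M.D U c ∧ M.D U c ⊆ M.D U a ∩ M.D V b := by
  obtain ⟨c, hc, hcx, hcV⟩ := h.com U hU V hV x hx.1 hx'.1
  obtain ⟨d, hd, hD⟩ := basic h hU (a := c) (b := b) hc fun y hy => (mem_sec' _ _).1 hb y (hcV hy)
  refine ⟨a * d, mul_mem ha hd, ⟨hx.1, un_mul hx.2 ?_⟩, ?_⟩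
  · have h1 : x ∈ M.D U d := by
      rw [hD]
      exact ⟨⟨hx.1, hcx⟩, hx'.2⟩
    exact h1.2
  · rintro y ⟨hy, h1⟩
    have h2 := (un_mul_iff ((mem_sec' _ _).1 ha y hy) ((mem_sec' _ _).1 hd y hy)).1 h1
    have h3 : y ∈ M.D U d := ⟨hy, h2.2⟩
    rw [hD] at h3
    exact ⟨⟨hy, h2.1⟩, hcV h3.1, h3.2⟩

theorem D_one (U : Set M.P) : M.D U 1 = U := by
  ext x
  exact ⟨fun h => h.1, fun h => ⟨h, un_one _⟩⟩

theorem bas_ch {U : Set M.P} (hU : U ∈ M.ch) : M.bas U := ⟨U, hU, 1, one_mem _, (D_one U).symm⟩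

theorem isBasis (h : M.Ok) : @TopologicalSpace.IsTopologicalBasis M.P M.top {W | M.bas W} := by
  let _ := M.top
  refine
    { exists_subset_inter := ?_
      sUnion_eq := ?_
      eq_generateFrom := rfl }
  · rintro _ ⟨U, hU, a, ha, rfl⟩ _ ⟨V, hV, b, hb, rfl⟩ x ⟨hx, hx'⟩
    obtain ⟨c, hc, h1, h2⟩ := inter h hU hV ha hb hx hx'
    exact ⟨_, ⟨U, hU, c, hc, rfl⟩, h1, h2⟩
  · rw [Set.eq_univ_iff_forall]
    intro x
    obtain ⟨F, -, hF, hx⟩ := h.fin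
    obtain ⟨U, hUF, hxU⟩ := hx x
    exact ⟨U, bas_ch (hF hUF), hxU⟩

theorem sp_iff (h : M.Ok) (z x : M.P) : @Specializes M.P M.top z x ↔ M.sp z x := by
  let _ := M.top
  rw [specializes_iff_forall_open]
  constructor
  · intro h1 U hU a ha hx
    exact h1 _ ((isBasis h).isOpen ⟨U, hU, a, ha, rfl⟩) hx
  · intro h1 s hs hx
    obtain ⟨_, ⟨U, hU, a, ha, rfl⟩, h3, h4⟩ := (isBasis h).exists_subset_of_mem_open hx hs
    exact h4 (h1 U hU a ha h3)

theorem ch_compact (h : M.Ok) {U : Set M.P} (hU : U ∈ M.ch) : @IsCompact M.P M.top U := by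
  let _ := M.top
  classical
  rcases U.eq_empty_or_nonempty with he | hne
  · rw [he]
    exact isCompact_empty
  refine isCompact_of_finite_subcover fun {ι} W hW hUW => ?_
  let S : Set (M.sec U) := {c | ∃ i, M.D U (c : K) ⊆ W i}
  have htop : Ideal.span S = ⊤ := by
    by_contra hcon
    obtain ⟨I, hI, hSI⟩ := Ideal.exists_le_maximal _ hcon
    obtain ⟨x, hx, hIx⟩ := h.prime U hU hne I hI.isPrime
    obtain ⟨i, hi⟩ := Set.mem_iUnion.1 (hUW hx)
    obtain ⟨_, ⟨V, hV, b, hb, rfl⟩, h3, h4⟩ := (isBasis h).exists_subset_of_mem_open hi (hW i)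
    obtain ⟨c, hc, h5, h6⟩ := inter h hU hV (one_mem _) hb (x := x) ⟨hx, un_one _⟩ h3
    have h7 : (⟨c, hc⟩ : M.sec U) ∈ S := ⟨i, fun y hy => h4 (h6 hy).2⟩
    exact (hIx _).1 (hSI (Ideal.subset_span h7)) h5.2
  have h1 : (1 : M.sec U) ∈ Ideal.span S := by
    rw [htop]
    trivial
  obtain ⟨T, hTS, hT⟩ := Submodule.mem_span_finite_of_mem_span h1
  have hch : ∀ c : M.sec U, ∃ i, c ∈ T → M.D U (c : K) ⊆ W i := by
    intro c
    by_cases hc : c ∈ T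
    · obtain ⟨i, hi⟩ := hTS hc
      exact ⟨i, fun _ => hi⟩
    · obtain ⟨x, hx⟩ := hne
      obtain ⟨i, -⟩ := Set.mem_iUnion.1 (hUW hx)
      exact ⟨i, fun hh => absurd hh hc⟩
  choose f hf using hch
  refine ⟨T.image f, fun x hx => ?_⟩
  by_contra hcon
  have hno : ∀ c ∈ T, ¬ Un (M.O x) (c : K) := by
    intro c hc hh
    apply hcon
    rw [Set.mem_iUnion₂]
    exact ⟨f c, Finset.mem_image_of_mem f hc, hf c hc ⟨hx, hh⟩⟩
  let j : M.sec U →+* M.O x :=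
    { toFun := fun a => ⟨a, (mem_sec' _ _).1 a.2 x hx⟩
      map_one' := rfl
      map_mul' := fun _ _ => rfl
      map_zero' := rfl
      map_add' := fun _ _ => rfl }
  have h2 : Submodule.span (M.sec U) (T : Set (M.sec U)) ≤ (IsLocalRing.maximalIdeal (M.O x)).comap j := by
    rw [Submodule.span_le]
    intro c hc
    change j c ∈ IsLocalRing.maximalIdeal (M.O x)
    rw [IsLocalRing.mem_maximalIdeal, mem_nonunits_iff]
    exact fun hh => hno c hc ((un_iff _).1 hh)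
  have h3 := h2 hT
  rw [Ideal.mem_comap, map_one] at h3
  exact (IsLocalRing.maximalIdeal.isMaximal (M.O x)).ne_top ((Ideal.eq_top_iff_one _).2 h3)

theorem sec_mod (U : Set M.P) : M.mod.sec U = M.sec U := rfl

theorem spec' (h : M.Ok) {z x : M.P} (hs : M.sp z x) : M.O x ≤ M.O z := by
  intro b hb
  obtain ⟨F, -, hF, hx⟩ := h.fin
  obtain ⟨U, hUF, hxU⟩ := hx x
  obtain ⟨s, h1, h2, h3⟩ := h.frac U (hF hUF) x hxU b hb
  obtain ⟨h4, h5⟩ := hs U (hF hUF) s h1 ⟨hxU, h2⟩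
  have h6 : b = b * s * s⁻¹ := by
    rw [mul_assoc, mul_inv_cancel₀ h2.1, mul_one]
  rw [h6]
  exact (M.O z).mul_mem ((mem_sec' _ _).1 h3 z h4) h5.2.2

theorem isVar (h : M.Ok) : IsVar M.mod where
  comp := by
    let _ := M.top
    obtain ⟨F, hfin, hF, hx⟩ := h.fin
    refine isCompact_univ_iff.1 ?_
    have h1 : (Set.univ : Set M.P) = ⋃ U ∈ F, U := by
      symm
      rw [Set.eq_univ_iff_forall]
      intro x
      rw [Set.mem_iUnion₂]
      obtain ⟨U, hU, hxU⟩ := hx x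
      exact ⟨U, hU, hxU⟩
    change IsCompact (Set.univ : Set M.P)
    rw [h1]
    exact hfin.isCompact_biUnion fun U hU => ch_compact h (hF hU)
  ne := h.ne
  spec z x hs := spec' h ((sp_iff h z x).1 hs)
  op U hU := @TopologicalSpace.IsTopologicalBasis.isOpen M.P M.top _ _ (isBasis h) hU
  chart x := by
    obtain ⟨F, -, hF, hx⟩ := h.fin
    obtain ⟨U, hUF, hxU⟩ := hx x
    exact ⟨U, bas_ch (hF hUF), hxU⟩
  basic := by
    rintro _ b ⟨U, hU, a, ha, rfl⟩ hb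
    obtain ⟨c, hc, h1⟩ := basic h hU ha hb
    exact ⟨U, hU, c, hc, h1.symm⟩
  bas := by
    rintro _ W x ⟨U, hU, a, ha, rfl⟩ hW hx hxW
    obtain ⟨_, ⟨V, hV, b, hb, rfl⟩, h3, h4⟩ :=
      @TopologicalSpace.IsTopologicalBasis.exists_subset_of_mem_open M.P M.top _ (isBasis h) _ _ hxW hW
    obtain ⟨c, hc, h5, h6⟩ := inter h hU hV ha hb hx h3
    refine ⟨c, fun y hy => (mem_sec' _ _).1 hc y hy.1, h5.2, fun y hy hh => ?_⟩
    exact h4 (h6 ⟨hy.1, hh⟩).2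
  fg := by
    rintro _ ⟨U, hU, a, ha, rfl⟩ ⟨x, hx⟩
    have h1 : (M.sec U).FG := h.fg U hU ⟨x, hx.1⟩
    have h2 : (Algebra.adjoin k {a⁻¹} : Subalgebra k K).FG := by
      have h3 := Subalgebra.fg_adjoin_finset (R := k) ({a⁻¹} : Finset K)
      rwa [Finset.coe_singleton] at h3
    have h4 : M.mod.sec (M.D U a) = M.sec U ⊔ Algebra.adjoin k {a⁻¹} := by
      apply le_antisymm
      · intro b hb
        have hb' : ∀ y ∈ M.D U a, b ∈ M.O y := (mem_sec' _ _).1 hb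
        obtain ⟨n, hn⟩ := den h hU ha hb'
        have ha0 : a ≠ 0 := hx.2.1
        have h5 : b = a ^ n * b * (a⁻¹) ^ n := by
          rw [mul_assoc, mul_comm b, ← mul_assoc, ← mul_pow, mul_inv_cancel₀ ha0, one_pow, one_mul]
        rw [h5]
        refine mul_mem ((le_sup_left : M.sec U ≤ _) hn) (pow_mem ?_ n)
        exact (le_sup_right : Algebra.adjoin k {a⁻¹} ≤ _) (Algebra.subset_adjoin rfl)
      · refine sup_le ?_ (Algebra.adjoin_le ?_)
        · intro b hb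
          exact (mem_sec' _ _).2 fun y hy => (mem_sec' _ _).1 hb y hy.1
        · rintro b rfl
          exact (mem_sec' _ _).2 fun y hy => hy.2.2.2
    rw [h4]
    exact h1.sup h2
  frac := by
    rintro _ x ⟨U, hU, a, ha, rfl⟩ hx b hb
    obtain ⟨s, h1, h2, h3⟩ := h.frac U hU x hx.1 b hb
    exact ⟨s, (mem_sec' _ _).2 fun y hy => (mem_sec' _ _).1 h1 y hy.1, h2,
      (mem_sec' _ _).2 fun y hy => (mem_sec' _ _).1 h3 y hy.1⟩
  prime := by
    rintro _ ⟨U, hU, a, ha, rfl⟩ ⟨x₀, hx₀⟩ I hI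
    have hle : M.sec U ≤ M.mod.sec (M.D U a) := fun b hb =>
      (mem_sec' _ _).2 fun y hy => (mem_sec' _ _).1 hb y hy.1
    let j : M.sec U →+* M.mod.sec (M.D U a) := (Subalgebra.inclusion hle : M.sec U →+* _)
    obtain ⟨x, hx, hIx⟩ := h.prime U hU ⟨x₀, hx₀.1⟩ (I.comap j) (Ideal.IsPrime.comap j)
    have hinv : a⁻¹ ∈ M.mod.sec (M.D U a) := (mem_sec' _ _).2 fun y hy => hy.2.2.2
    have ha' : j ⟨a, ha⟩ ∉ I := by
      intro hh
      apply hI.ne_top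
      rw [Ideal.eq_top_iff_one]
      have h1 : j ⟨a, ha⟩ * ⟨a⁻¹, hinv⟩ = 1 := Subtype.ext (mul_inv_cancel₀ hx₀.2.1)
      rw [← h1]
      exact I.mul_mem_right _ hh
    have hxa : Un (M.O x) a := by
      by_contra hh
      exact ha' ((hIx ⟨a, ha⟩).2 hh)
    refine ⟨x, ⟨hx, hxa⟩, fun b => ?_⟩
    have hb' : ∀ y ∈ M.D U a, (b : K) ∈ M.O y := (mem_sec' _ _).1 b.2
    obtain ⟨n, hn⟩ := den h hU ha hb'
    have h1 : b ∈ I ↔ (⟨a ^ n * b, hn⟩ : M.sec U) ∈ I.comap j := by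
      rw [Ideal.mem_comap]
      have h2 : j ⟨a ^ n * b, hn⟩ = (j ⟨a, ha⟩) ^ n * b := Subtype.ext rfl
      rw [h2]
      constructor
      · exact fun hh => I.mul_mem_left _ hh
      · intro hh
        rcases hI.mem_or_mem hh with h3 | h3
        · exact absurd (hI.mem_of_pow_mem n h3) ha'
        · exact h3
    rw [h1, hIx]
    refine not_congr ?_
    change Un (M.O x) (a ^ n * (b : K)) ↔ Un (M.O x) (b : K)
    rw [mul_comm]
    exact un_mul_un (un_pow hxa n)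
  cen z p := by
    obtain ⟨x, hx, hu⟩ := h.cen z p
    have h1 := (sp_iff h z x).2 hx.1
    refine ⟨x, ⟨h1, spec' h hx.1, hx.2⟩, fun y hy => ?_⟩
    exact hu y ⟨(sp_iff h z y).1 hy.1, hy.2.2⟩

theorem t0 (h : M.Ok) (h0 : ∀ x y, M.sp x y → M.sp y x → x = y) : T0Space M.mod.P := by
  refine ⟨fun {x y} hxy => ?_⟩
  exact h0 x y ((sp_iff h x y).1 hxy.specializes) ((sp_iff h y x).1 hxy.specializes')

end Pre

end Pool.Agent.H83.TK
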