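import Pool.Agent.H83.TK.Pre

/-!
# THEOREM K, chapter T1a: base change to a purely transcendental extension, definitions

`BC l`: `k' = k(l)`, `K' = K(l)`, the `l i` (`i : σ`) algebraically independent over `K`.
`BP X σ`: the points of the base change: pairs of a point `x` of `X` and a prime ideal `q` of `κ(x)[l]` which contains
no nonzero element of `k[l]`.  `bcO`: the local ring, the localisation of `O x [l]` at the preimage of `q`.
`bcP : Pre k' K'`: the charts are the preimages of the affine open sets.
-/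

set_option autoImplicit false

namespace Pool.Agent.H83.TK

open Pool.Agent.H54.RV MvPolynomial

section

variable {k K k' K' : Type} [Field k] [Field K] [Field k'] [Field K'] [Algebra k K] [Algebra k k'] [Algebra K K']
  [Algebra k' K'] [Algebra k K'] [IsScalarTower k K K'] [IsScalarTower k k' K'] {σ : Type}

/-- `k' = k(l)`, `K' = K(l)`, `l` algebraically independent over `K` -/
structure BC (k K k' K' : Type) [Field k] [Field K] [Field k'] [Field K'] [Algebra k K] [Algebra k k'] [Algebra K K']
    [Algebra k' K'] [Algebra k K'] [IsScalarTower k K K'] [IsScalarTower k k' K'] {σ : Type} (l : σ → k') : Prop where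
  ind : AlgebraicIndependent K (fun i => algebraMap k' K' (l i))
  genk : ∀ c : k', ∃ f g : MvPolynomial σ k, g ≠ 0 ∧ c * aeval l g = aeval l f
  genK : ∀ a : K', ∃ f g : MvPolynomial σ K, g ≠ 0 ∧
    a * aeval (fun i => algebraMap k' K' (l i)) g = aeval (fun i => algebraMap k' K' (l i)) f

/-- the value at `l` of a polynomial with coefficients in a subalgebra of `K` -/
noncomputable def ev (K' : Type) [Field K'] [Algebra K K'] [Algebra k' K'] (l : σ → k') (A : Subalgebra k K) :
    MvPolynomial σ A →+* K' :=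
  eval₂Hom ((algebraMap K K').comp (A.val : A →+* K)) (fun i => algebraMap k' K' (l i))

/-- the points of the base change -/
structure BP (X : Mod k K) (σ : Type) where
  /-- the image in `X` -/
  x : X.P
  /-- the prime ideal -/
  q : Ideal (MvPolynomial σ (X.kap x))
  prime : q.IsPrime
  tr : ∀ c : MvPolynomial σ k, c ≠ 0 → map (algebraMap k (X.kap x)) c ∉ q

/-- reduction of the coefficients -/
noncomputable def red (X : Mod k K) (σ : Type) (x : X.P) : MvPolynomial σ (X.O x) →+* MvPolynomial σ (X.kap x) :=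
  map (IsLocalRing.residue (X.O x))

variable {X : Mod k K} {l : σ → k'}

theorem ev_eq (A : Subalgebra k K) (f : MvPolynomial σ A) :
    ev K' l A f = aeval (fun i => algebraMap k' K' (l i)) (map (A.val : A →+* K) f) := by
  unfold ev
  rw [aeval_def, eval₂_map]
  rfl

theorem ev_inj (h : BC k K k' K' l) (A : Subalgebra k K) : Function.Injective (ev K' l A) := by
  intro f g hfg
  rw [ev_eq, ev_eq] at hfg
  exact map_injective _ Subtype.val_injective (h.ind hfg)

theorem ev_C (A : Subalgebra k K) (a : A) : ev K' l A (C a) = algebraMap K K' a := by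
  unfold ev
  rw [coe_eval₂Hom, eval₂_C]
  rfl

/-- the value at `l` of a polynomial with coefficients in `k` -/
theorem ev_k (A : Subalgebra k K) (c : MvPolynomial σ k) :
    ev K' l A (map (algebraMap k A) c) = algebraMap k' K' (aeval l c) := by
  unfold ev
  rw [coe_eval₂Hom, eval₂_map]
  have h1 : algebraMap k' K' (aeval l c) = ((algebraMap k' K').comp (aeval l : MvPolynomial σ k →ₐ[k] k').toRingHom) c := rfl
  rw [h1]
  have h2 : ((algebraMap k' K').comp (aeval l : MvPolynomial σ k →ₐ[k] k').toRingHom) =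
      eval₂Hom (((algebraMap K K').comp (A.val : A →+* K)).comp (algebraMap k A)) (fun i => algebraMap k' K' (l i)) := by
    apply MvPolynomial.ringHom_ext
    · intro a
      simp only [AlgHom.toRingHom_eq_coe, RingHom.coe_comp, RingHom.coe_coe, Function.comp_apply, algHom_C,
        eval₂Hom_C]
      have h3 : algebraMap k' K' (algebraMap k k' a) = algebraMap k K' a :=
        (IsScalarTower.algebraMap_apply k k' K' a).symm
      have h4 : algebraMap K K' (algebraMap k K a) = algebraMap k K' a :=
        (IsScalarTower.algebraMap_apply k K K' a).symm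
      exact h3.trans h4.symm
    · intro i
      simp
  rw [h2]
  rfl

theorem red_k (x : X.P) (c : MvPolynomial σ k) :
    red X σ x (map (algebraMap k (X.O x)) c) = map (algebraMap k (X.kap x)) c := by
  unfold red
  rw [map_map]
  rfl

/-- the denominators -/
theorem BP.one_notMem (z : BP X σ) : (1 : MvPolynomial σ (X.kap z.x)) ∉ z.q :=
  (Ideal.ne_top_iff_one z.q).1 z.prime.ne_top

theorem BP.mul_notMem (z : BP X σ) {f g : MvPolynomial σ (X.kap z.x)} (hf : f ∉ z.q) (hg : g ∉ z.q) :
    f * g ∉ z.q := fun h => (z.prime.mem_or_mem h).elim hf hg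

/-- the local ring of the base change -/
noncomputable def bcO (h : BC k K k' K' l) (z : BP X σ) : Subalgebra k' K' where
  carrier := {a | ∃ f g : MvPolynomial σ (X.O z.x), red X σ z.x g ∉ z.q ∧ a * ev K' l (X.O z.x) g = ev K' l (X.O z.x) f}
  mul_mem' := by
    rintro a b ⟨f, g, h1, h2⟩ ⟨f', g', h3, h4⟩
    refine ⟨f * f', g * g', ?_, ?_⟩
    · rw [map_mul]
      exact z.mul_notMem h1 h3
    · rw [map_mul, map_mul, ← h2, ← h4]
      ring
  add_mem' := by
    rintro a b ⟨f, g, h1, h2⟩ ⟨f', g', h3, h4⟩
    refine ⟨f * g' + f' * g, g * g', ?_, ?_⟩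
    · rw [map_mul]
      exact z.mul_notMem h1 h3
    · rw [map_mul, map_add, map_mul, map_mul, ← h2, ← h4]
      ring
  algebraMap_mem' := by
    intro c
    obtain ⟨f, g, h1, h2⟩ := h.genk c
    refine ⟨map (algebraMap k _) f, map (algebraMap k _) g, ?_, ?_⟩
    · rw [red_k]
      exact z.tr g h1
    · rw [ev_k, ev_k, ← h2, map_mul]

theorem mem_bcO (h : BC k K k' K' l) (z : BP X σ) (a : K') : a ∈ bcO h z ↔
    ∃ f g : MvPolynomial σ (X.O z.x), red X σ z.x g ∉ z.q ∧
      a * ev K' l (X.O z.x) g = ev K' l (X.O z.x) f := Iff.rfl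

theorem ev_ne (h : BC k K k' K' l) (z : BP X σ) {g : MvPolynomial σ (X.O z.x)} (hg : red X σ z.x g ∉ z.q) :
    ev K' l (X.O z.x) g ≠ 0 := by
  intro h1
  have h2 : g = 0 := ev_inj h _ (h1.trans (map_zero _).symm)
  rw [h2, map_zero] at hg
  exact hg z.q.zero_mem

theorem ev_mem (h : BC k K k' K' l) (z : BP X σ) (f : MvPolynomial σ (X.O z.x)) : ev K' l (X.O z.x) f ∈ bcO h z :=
  ⟨f, 1, by rw [map_one]; exact z.one_notMem, by rw [map_one, mul_one]⟩

theorem un_ev (h : BC k K k' K' l) (z : BP X σ) (f : MvPolynomial σ (X.O z.x)) :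
    Un (bcO h z) (ev K' l (X.O z.x) f) ↔ red X σ z.x f ∉ z.q := by
  constructor
  · rintro ⟨h1, -, f', g', h2, h3⟩ h4
    have h5 : g' = f' * f := by
      apply ev_inj h (X.O z.x)
      rw [map_mul, ← h3]
      field_simp
    rw [h5, map_mul] at h2
    exact h2 (Ideal.mul_mem_left _ _ h4)
  · intro h1
    have h2 := ev_ne h z h1
    exact ⟨h2, ev_mem h z f, 1, f, h1, by rw [map_one, inv_mul_cancel₀ h2]⟩

theorem bcO_loc (h : BC k K k' K' l) (z : BP X σ) : IsLocalRing (bcO h z) := by
  apply IsLocalRing.of_isUnit_or_isUnit_one_sub_self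
  rintro ⟨a, ha⟩
  obtain ⟨f, g, h1, h2⟩ := id ha
  have hg := ev_ne h z h1
  have ha' : a = ev K' l (X.O z.x) f / ev K' l (X.O z.x) g := by
    rw [← h2]
    field_simp
  by_cases hf : red X σ z.x f ∈ z.q
  · right
    refine (un_iff (A := bcO h z) (sub_mem (one_mem _) ha)).2 ?_
    have h3 : red X σ z.x (g - f) ∉ z.q := by
      intro h4
      rw [map_sub] at h4
      have h5 := z.q.add_mem h4 hf
      rw [sub_add_cancel] at h5
      exact h1 h5
    have h4 : 1 - a = ev K' l (X.O z.x) (g - f) / ev K' l (X.O z.x) g := by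
      rw [ha', map_sub]
      field_simp
    rw [h4]
    exact un_div ((un_ev h z _).2 h3) ((un_ev h z _).2 h1)
  · left
    rw [un_iff ha, ha']
    exact un_div ((un_ev h z _).2 hf) ((un_ev h z _).2 h1)

variable (X) in
/-- the charts of the base change -/
noncomputable def bcP (h : BC k K k' K' l) : Pre k' K' where
  P := BP X σ
  O := bcO h
  loc := bcO_loc h
  ch := {W | ∃ U, X.aff U ∧ W = {z | z.x ∈ U}}

end

end Pool.Agent.H83.TK
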