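import Pool.Agent.H83.TK.BcA

/-!
# [H83 TK BcB] THEOREM K, chapter T1a: the points of the base change over an affine open set

`secO`: the inclusion of the functions on `U` in the local ring at `x ∈ U`.

`bc_point`.  Let `R = sec U`, `Q` a prime ideal of `R[l]` without nonzero elements of `k[l]`.  `I = Q.comap C` is a prime
ideal of `R`.  `IsVar.prime`: `x ∈ U` with `a ∈ I ↔ ¬ Un (O x) a`.  Let `ρ : R →+* κ(x)` be the residue map
(`(IsLocalRing.residue _).comp (secO hx)`), `ρ a = 0 ↔ a ∈ I` (`IsLocalRing.residue_eq_zero_iff`, `un_iff`), and every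
element of `κ(x)` is `ρ a / ρ s` with `a, s ∈ R`, `ρ s ≠ 0` (`IsLocalRing.residue_surjective`, `IsVar.frac`).  Put
`q = {f | ∃ s h, ρ s ≠ 0 ∧ h ∈ Q ∧ C (ρ s) * f = map ρ h}` (an ideal).  Key: `map ρ h ∈ q ↔ h ∈ Q`: if
`C (ρ s) * map ρ h = map ρ h'`, `h' ∈ Q`, then all coefficients of `C s * h - h'` are in `I`, so this polynomial is in `Q`
(it is the sum of its monomials `C a * monomial`, `C a ∈ Q`), so `C s * h ∈ Q`, and `C s ∉ Q`.  `q` is prime: for
`f, g ∈ κ(x)[l]` there are `s, t` with `C (ρ s) * f = map ρ f'`, `C (ρ t) * g = map ρ g'` (clear the denominators of the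
finitely many coefficients; induction `MvPolynomial.induction_on` is convenient).  `tr`: `map (algebraMap k κ) c =
map ρ (map (algebraMap k R) c)`.

`bc_frac`: every element `a` of the local ring at `z`, `z.x ∈ U`, is a quotient of values of polynomials with
coefficients in `sec U`: for `f ∈ (O x)[l]` there is `s ∈ sec U`, `Un (O x) s`, such that `C s * f` has coefficients in
`sec U` (`IsVar.frac` for the coefficients; induction on `f`).
-/

set_option autoImplicit false

namespace Pool.Agent.H83.TK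

open Pool.Agent.H54.RV MvPolynomial

variable {k K k' K' : Type} [Field k] [Field K] [Field k'] [Field K'] [Algebra k K] [Algebra k k'] [Algebra K K']
  [Algebra k' K'] [Algebra k K'] [IsScalarTower k K K'] [IsScalarTower k k' K'] {σ : Type} {X : Mod k K} {l : σ → k'}

theorem sec_le (X : Mod k K) {U : Set X.P} {x : X.P} (hx : x ∈ U) : X.sec U ≤ X.O x :=
  fun a ha => (mem_sec U a).1 ha x hx

/-- the inclusion of the functions on `U` in the local ring at `x` -/
def secO (X : Mod k K) {U : Set X.P} {x : X.P} (hx : x ∈ U) : X.sec U →+* X.O x :=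
  (Subalgebra.inclusion (sec_le X hx) : X.sec U →+* X.O x)

theorem ev_sec {U : Set X.P} {x : X.P} (hx : x ∈ U) (f : MvPolynomial σ (X.sec U)) :
    ev K' l (X.O x) (map (secO X hx) f) = ev K' l (X.sec U) f := by
  unfold ev
  rw [coe_eval₂Hom, eval₂_map]
  rfl

/-- the residue map of the functions on `U` -/
private noncomputable def bcb_rho (X : Mod k K) {U : Set X.P} {x : X.P} (hx : x ∈ U) : X.sec U →+* X.kap x :=
  (IsLocalRing.residue (X.O x)).comp (secO X hx)

private theorem bcb_zero {U : Set X.P} {x : X.P} (hx : x ∈ U) (a : X.sec U) :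
    bcb_rho X hx a = 0 ↔ ¬ Un (X.O x) (a : K) := by
  have h1 : bcb_rho X hx a = IsLocalRing.residue (X.O x) (secO X hx a) := rfl
  rw [h1]
  have h2 : IsUnit (secO X hx a) ↔ Un (X.O x) (a : K) := un_iff (A := X.O x) (sec_le X hx a.2)
  have h4 : IsLocalRing.residue (X.O x) (secO X hx a) = 0 ↔ secO X hx a ∈
      IsLocalRing.maximalIdeal (X.O x) := IsLocalRing.residue_eq_zero_iff _
  rw [← h2]
  refine h4.trans ?_
  rw [IsLocalRing.mem_maximalIdeal, mem_nonunits_iff]

private theorem bcb_surj (hX : IsVar X) {U : Set X.P} (hU : X.aff U) {x : X.P} (hx : x ∈ U)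
    (a : X.kap x) : ∃ s : X.sec U, bcb_rho X hx s ≠ 0 ∧ ∃ b : X.sec U,
      bcb_rho X hx s * a = bcb_rho X hx b := by
  obtain ⟨a', ha'⟩ := IsLocalRing.residue_surjective (R := X.O x) a
  obtain ⟨s, hs, hu, hb⟩ := hX.frac U x hU hx (a' : K) a'.2
  refine ⟨⟨s, hs⟩, ?_, ⟨(a' : K) * s, hb⟩, ?_⟩
  · rw [Ne, bcb_zero]
    exact not_not.2 hu
  · have h1 : bcb_rho X hx ⟨(a' : K) * s, hb⟩ = IsLocalRing.residue (X.O x)
        (a' * secO X hx ⟨s, hs⟩) := rfl
    rw [h1, map_mul, ha', mul_comm]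
    rfl

private theorem bcb_cd (hX : IsVar X) {U : Set X.P} (hU : X.aff U) {x : X.P} (hx : x ∈ U)
    (f : MvPolynomial σ (X.kap x)) : ∃ s : X.sec U, bcb_rho X hx s ≠ 0 ∧
      ∃ f' : MvPolynomial σ (X.sec U), C (bcb_rho X hx s) * f = map (bcb_rho X hx) f' := by
  induction f using MvPolynomial.induction_on with
  | C a =>
    obtain ⟨s, hs, b, hb⟩ := bcb_surj hX hU hx a
    exact ⟨s, hs, C b, by rw [← C_mul, hb, map_C]⟩
  | add p q hp hq =>
    obtain ⟨s, hs, p', hp'⟩ := hp
    obtain ⟨t, ht, q', hq'⟩ := hq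
    refine ⟨s * t, ?_, C t * p' + C s * q', ?_⟩
    · rw [map_mul]
      exact mul_ne_zero hs ht
    · rw [map_add, map_mul (map (bcb_rho X hx)), map_mul (map (bcb_rho X hx)), map_C, map_C,
        ← hp', ← hq', map_mul (bcb_rho X hx), C_mul]
      ring
  | mul_X p i hp =>
    obtain ⟨s, hs, p', hp'⟩ := hp
    exact ⟨s, hs, p' * MvPolynomial.X i, by rw [map_mul, map_X, ← hp']; ring⟩

private theorem bcb_map {U : Set X.P} {x : X.P} (hx : x ∈ U) (f : MvPolynomial σ (X.sec U)) :
    red X σ x (map (secO X hx) f) = map (bcb_rho X hx) f := by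
  unfold red
  rw [map_map]
  rfl

private theorem bcb_redC {U : Set X.P} {x : X.P} (hx : x ∈ U) (a : X.sec U) :
    red X σ x (C (secO X hx a)) = C (bcb_rho X hx a) := by
  unfold red
  rw [map_C]
  rfl

theorem bc_point (hX : IsVar X) {U : Set X.P} (hU : X.aff U) (hne : U.Nonempty)
    (Q : Ideal (MvPolynomial σ (X.sec U))) (hQ : Q.IsPrime)
    (htr : ∀ c : MvPolynomial σ k, c ≠ 0 → map (algebraMap k (X.sec U)) c ∉ Q) :
    ∃ (z : BP X σ) (hz : z.x ∈ U), ∀ f : MvPolynomial σ (X.sec U),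
      f ∈ Q ↔ red X σ z.x (map (secO X hz) f) ∈ z.q := by
  have hIp : (Q.comap (C : X.sec U →+* MvPolynomial σ (X.sec U))).IsPrime := hQ.comap _
  obtain ⟨x, hx, hI⟩ := hX.prime U hU hne _ hIp
  have hρ : ∀ a : X.sec U, bcb_rho X hx a = 0 ↔ C a ∈ Q := by
    intro a
    rw [bcb_zero, ← hI]
    exact Ideal.mem_comap
  -- polynomials with coefficients in the kernel
  have hker : ∀ f : MvPolynomial σ (X.sec U), map (bcb_rho X hx) f = 0 → f ∈ Q := by
    intro f hf
    have h1 : f ∈ Ideal.map (C : X.sec U →+* MvPolynomial σ (X.sec U))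
        (Q.comap (C : X.sec U →+* MvPolynomial σ (X.sec U))) := by
      rw [MvPolynomial.mem_map_C_iff]
      intro m
      rw [Ideal.mem_comap, ← hρ, ← coeff_map, hf, coeff_zero]
    exact Ideal.map_comap_le h1
  obtain ⟨q, hq⟩ : ∃ q : Ideal (MvPolynomial σ (X.kap x)), ∀ f, f ∈ q ↔
      ∃ (s : X.sec U) (h : MvPolynomial σ (X.sec U)), bcb_rho X hx s ≠ 0 ∧ h ∈ Q ∧
        C (bcb_rho X hx s) * f = map (bcb_rho X hx) h := by
    refine ⟨{ carrier := {f | ∃ (s : X.sec U) (h : MvPolynomial σ (X.sec U)), bcb_rho X hx s ≠ 0 ∧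
        h ∈ Q ∧ C (bcb_rho X hx s) * f = map (bcb_rho X hx) h}
              add_mem' := ?_, zero_mem' := ?_, smul_mem' := ?_ }, fun f => Iff.rfl⟩
    · rintro f g ⟨s, h, h1, h2, h3⟩ ⟨s', h', h1', h2', h3'⟩
      refine ⟨s * s', C s' * h + C s * h', ?_, ?_, ?_⟩
      · rw [map_mul]
        exact mul_ne_zero h1 h1'
      · exact Q.add_mem (Q.mul_mem_left _ h2) (Q.mul_mem_left _ h2')
      · rw [map_add, map_mul (map (bcb_rho X hx)), map_mul (map (bcb_rho X hx)), map_C, map_C,
          ← h3, ← h3', map_mul (bcb_rho X hx), C_mul]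
        ring
    · exact ⟨1, 0, by rw [map_one]; exact one_ne_zero, Q.zero_mem, by rw [mul_zero, map_zero]⟩
    · rintro g f ⟨s, h, h1, h2, h3⟩
      obtain ⟨t, ht, g', hg'⟩ := bcb_cd hX hU hx g
      refine ⟨s * t, g' * h, ?_, Q.mul_mem_left _ h2, ?_⟩
      · rw [map_mul]
        exact mul_ne_zero h1 ht
      · rw [smul_eq_mul, map_mul (map (bcb_rho X hx)), ← hg', ← h3, map_mul (bcb_rho X hx), C_mul]
        ring
  have hkey : ∀ h : MvPolynomial σ (X.sec U), map (bcb_rho X hx) h ∈ q ↔ h ∈ Q := by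
    intro h
    rw [hq]
    constructor
    · rintro ⟨s, h', h1, h2, h3⟩
      have h4 : C s * h - h' ∈ Q := by
        apply hker
        rw [map_sub, map_mul, map_C, h3, sub_self]
      have h5 : C s * h ∈ Q := by
        have := Q.add_mem h4 h2
        rwa [sub_add_cancel] at this
      rcases hQ.mem_or_mem h5 with h6 | h6
      · exact absurd ((hρ s).2 h6) h1
      · exact h6
    · intro h1
      exact ⟨1, h, by rw [map_one]; exact one_ne_zero, h1, by rw [map_one, C_1, one_mul]⟩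
  have hqp : q.IsPrime := by
    refine ⟨?_, ?_⟩
    · rw [Ne, Ideal.eq_top_iff_one]
      intro h1
      have h2 : map (bcb_rho X hx) (1 : MvPolynomial σ (X.sec U)) ∈ q := by
        rw [map_one]
        exact h1
      rw [hkey] at h2
      exact hQ.ne_top ((Ideal.eq_top_iff_one Q).2 h2)
    · intro f g hfg
      obtain ⟨s, hs, f', hf'⟩ := bcb_cd hX hU hx f
      obtain ⟨t, ht, g', hg'⟩ := bcb_cd hX hU hx g
      have h1 : map (bcb_rho X hx) (f' * g') ∈ q := by
        rw [map_mul, ← hf', ← hg']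
        have h2 : C (bcb_rho X hx s) * f * (C (bcb_rho X hx t) * g) =
            (C (bcb_rho X hx s) * C (bcb_rho X hx t)) * (f * g) := by ring
        rw [h2]
        exact q.mul_mem_left _ hfg
      rw [hkey] at h1
      rcases hQ.mem_or_mem h1 with h2 | h2
      · left
        rw [hq]
        exact ⟨s, f', hs, h2, hf'⟩
      · right
        rw [hq]
        exact ⟨t, g', ht, h2, hg'⟩
  refine ⟨⟨x, q, hqp, fun c hc => ?_⟩, hx, fun f => ?_⟩
  · have h1 : map (algebraMap k (X.kap x)) c =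
        map (bcb_rho X hx) (map (algebraMap k (X.sec U)) c) := by
      rw [map_map]
      rfl
    rw [h1, hkey]
    exact htr c hc
  · change f ∈ Q ↔ red X σ x (map (secO X hx) f) ∈ q
    rw [bcb_map, hkey]

/-- clearing denominators -/
theorem clear_den (hX : IsVar X) {U : Set X.P} (hU : X.aff U) {x : X.P} (hx : x ∈ U) (f : MvPolynomial σ (X.O x)) :
    ∃ s : X.sec U, Un (X.O x) (s : K) ∧ ∃ f' : MvPolynomial σ (X.sec U), map (secO X hx) f' = C (secO X hx s) * f := by
  induction f using MvPolynomial.induction_on with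
  | C a =>
    obtain ⟨s, hs, hu, hb⟩ := hX.frac U x hU hx (a : K) a.2
    refine ⟨⟨s, hs⟩, hu, C ⟨(a : K) * s, hb⟩, ?_⟩
    rw [map_C, ← C_mul]
    congr 1
    apply Subtype.ext
    change (a : K) * s = s * (a : K)
    ring
  | add p q hp hq =>
    obtain ⟨s, hs, p', hp'⟩ := hp
    obtain ⟨t, ht, q', hq'⟩ := hq
    refine ⟨s * t, ?_, C t * p' + C s * q', ?_⟩
    · refine ⟨mul_ne_zero hs.1 ht.1, (X.O x).mul_mem hs.2.1 ht.2.1, ?_⟩
      have h1 : ((s * t : X.sec U) : K)⁻¹ = (s : K)⁻¹ * (t : K)⁻¹ := mul_inv _ _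
      rw [h1]
      exact (X.O x).mul_mem hs.2.2 ht.2.2
    · rw [map_add, map_mul (map (secO X hx)), map_mul (map (secO X hx)), map_C, map_C, hp', hq',
        map_mul (secO X hx), C_mul]
      ring
  | mul_X p i hp =>
    obtain ⟨s, hs, p', hp'⟩ := hp
    exact ⟨s, hs, p' * MvPolynomial.X i, by rw [map_mul, map_X, hp']; ring⟩

theorem bc_frac (hX : IsVar X) (h : BC k K k' K' l) {U : Set X.P} (hU : X.aff U) (z : BP X σ) (hz : z.x ∈ U) (a : K')
    (ha : a ∈ bcO h z) : ∃ f g : MvPolynomial σ (X.sec U), red X σ z.x (map (secO X hz) g) ∉ z.q ∧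
      a * ev K' l (X.sec U) g = ev K' l (X.sec U) f := by
  obtain ⟨f, g, h1, h2⟩ := (mem_bcO h z a).1 ha
  obtain ⟨s, hs, f', hf'⟩ := clear_den hX hU hz f
  obtain ⟨t, ht, g', hg'⟩ := clear_den hX hU hz g
  refine ⟨C t * f', C s * g', ?_, ?_⟩
  · rw [bcb_map, map_mul, map_C, ← bcb_map hz g', hg', map_mul, bcb_redC]
    intro h5
    apply h1
    have hs0 : bcb_rho X hz s ≠ 0 := by
      rw [Ne, bcb_zero]
      exact not_not.2 hs
    have ht0 : bcb_rho X hz t ≠ 0 := by
      rw [Ne, bcb_zero]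
      exact not_not.2 ht
    have h6 := z.q.mul_mem_left (C ((bcb_rho X hz s)⁻¹ * (bcb_rho X hz t)⁻¹)) h5
    have h7 : (C ((bcb_rho X hz s)⁻¹ * (bcb_rho X hz t)⁻¹) : MvPolynomial σ (X.kap z.x)) *
        (C (bcb_rho X hz s) * (C (bcb_rho X hz t) * red X σ z.x g)) = red X σ z.x g := by
      have h8 : (C ((bcb_rho X hz s)⁻¹ * (bcb_rho X hz t)⁻¹) : MvPolynomial σ (X.kap z.x)) *
          (C (bcb_rho X hz s) * (C (bcb_rho X hz t) * red X σ z.x g)) =
          C ((bcb_rho X hz s)⁻¹ * (bcb_rho X hz t)⁻¹ * (bcb_rho X hz s * bcb_rho X hz t)) *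
            red X σ z.x g := by
        simp only [C_mul]
        ring
      have h9 : (bcb_rho X hz s)⁻¹ * (bcb_rho X hz t)⁻¹ * (bcb_rho X hz s * bcb_rho X hz t) = 1 := by
        field_simp
      rw [h8, h9, C_1, one_mul]
    rwa [h7] at h6
  · rw [← ev_sec hz, ← ev_sec hz, map_mul (map (secO X hz)), map_mul (map (secO X hz)), map_C, map_C,
      hf', hg', map_mul, map_mul, map_mul, map_mul, ← h2]
    ring

end Pool.Agent.H83.TK
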