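import Pool.Agent.H83.TK.BcB

/-!
# [H83 TK BcC] THEOREM K, chapter T1a: the functions on the charts of the base change

`bc_sec`.  `←`: `ev (map c)` is a unit of `bcO h z` (`un_ev`, `red_k`, `z.tr`), `ev f` is in it (`ev_sec`, `ev_mem`).
`→`: let `a` be in all local rings at the points over `U`, `R = sec U`.  `J = {g ∈ R[l] | ∃ f, a * ev g = ev f}` is an
ideal.  If `J` contains some `map c`, `c ∈ k[l]`, `c ≠ 0`, we are done.  Otherwise `J` is disjoint from the
submonoid of these elements, so it is contained in a prime ideal `Q` disjoint from it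
(`Ideal.exists_le_prime_disjoint`).  `bc_point`: `z`, `z.x ∈ U`.  `bc_frac` for `a` at `z`: `g` with
`a * ev g = ev f`, so `g ∈ J ⊆ Q`, against `red (map g) ∉ z.q`.

`bc_fg`: the algebra of the functions is generated over `k'` by the generators of `sec U` (the `l i` are in `k'`): it is
the set of the `ev f / ev (map c)`; `ev f` is in the subalgebra generated by the images of the elements of `sec U`
(`MvPolynomial.induction_on`), `ev (map c) ∈ k'` (`ev_k`).

`bc_fr`, `bc_prime`: the axioms `frac` and `prime` of `Pre.Ok` for `bcP X h`.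
`frac`: `a ∈ bcO h z`: `bc_frac`: `s = ev g`, a unit (`ev_sec`, `un_ev`), in `sec` by `bc_sec` (`c = 1`).
`prime`: `I` a prime ideal of `(bcP X h).sec {z | z.x ∈ U}`; `Q` its preimage under the ring homomorphism
`ev : (sec U)[l] → (bcP X h).sec _`; it contains no `map c`, `c ≠ 0` (their images are units).  `bc_point`.  For
`a ∈ sec`, `a * ev (map c) = ev f` (`bc_sec`): `a ∈ I ↔ f ∈ Q ↔ red (map f) ∈ z.q ↔ ¬ Un (ev f) ↔ ¬ Un a`.
-/

set_option autoImplicit false

namespace Pool.Agent.H83.TK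

open Pool.Agent.H54.RV MvPolynomial

variable {k K k' K' : Type} [Field k] [Field K] [Field k'] [Field K'] [Algebra k K] [Algebra k k'] [Algebra K K']
  [Algebra k' K'] [Algebra k K'] [IsScalarTower k K K'] [IsScalarTower k k' K'] {σ : Type} {X : Mod k K} {l : σ → k'}

private theorem pmem (M : Pre k K) (U : Set M.P) (a : K) : a ∈ M.sec U ↔ ∀ x ∈ U, a ∈ M.O x := by
  unfold Pre.sec
  simp only [Algebra.mem_iInf]

private theorem map_ne {U : Set X.P} {c : MvPolynomial σ k} (hc : c ≠ 0) :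
    map (algebraMap k (X.sec U)) c ≠ 0 := by
  intro h0
  apply hc
  apply map_injective _ (algebraMap k (X.sec U)).injective
  rw [h0, map_zero]

private theorem un_alg {A : Subalgebra k K} {u : k} (hu : u ≠ 0) : Un A (algebraMap k K u) :=
  ⟨(map_ne_zero _).2 hu, A.algebraMap_mem u, by rw [← map_inv₀]; exact A.algebraMap_mem _⟩

private theorem ael_ne (h : BC k K k' K' l) (U : Set X.P) {c : MvPolynomial σ k} (hc : c ≠ 0) :
    aeval l c ≠ 0 := by
  intro h0
  have h1 := ev_k (K := K) (K' := K') (l := l) (X.sec U) c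
  rw [h0, map_zero] at h1
  exact map_ne (U := U) hc (ev_inj h _ (h1.trans (map_zero _).symm))

private theorem un_c (h : BC k K k' K' l) (U : Set X.P) {c : MvPolynomial σ k} (hc : c ≠ 0)
    (A : Subalgebra k' K') : Un A (ev K' l (X.sec U) (map (algebraMap k (X.sec U)) c)) := by
  rw [ev_k]
  exact un_alg (ael_ne h U hc)

private theorem ev_in (h : BC k K k' K' l) {U : Set X.P} (z : BP X σ) (hz : z.x ∈ U)
    (f : MvPolynomial σ (X.sec U)) : ev K' l (X.sec U) f ∈ bcO h z := by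
  rw [← ev_sec hz]
  exact ev_mem h z _

private theorem ev_un (h : BC k K k' K' l) {U : Set X.P} (z : BP X σ) (hz : z.x ∈ U)
    (f : MvPolynomial σ (X.sec U)) : Un (bcO h z) (ev K' l (X.sec U) f) ↔
      red X σ z.x (map (secO X hz) f) ∉ z.q := by
  rw [← ev_sec hz]
  exact un_ev h z _

theorem bc_sec (hX : IsVar X) (h : BC k K k' K' l) {U : Set X.P} (hU : X.aff U) (hne : U.Nonempty) (a : K') :
    a ∈ (bcP X h).sec {z | z.x ∈ U} ↔ ∃ (f : MvPolynomial σ (X.sec U)) (c : MvPolynomial σ k), c ≠ 0 ∧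
      a * ev K' l (X.sec U) (map (algebraMap k (X.sec U)) c) = ev K' l (X.sec U) f := by
  constructor
  · intro ha
    have ha' : ∀ z : BP X σ, z.x ∈ U → a ∈ bcO h z := (pmem (bcP X h) _ a).1 ha
    obtain ⟨J, hJ⟩ : ∃ J : Ideal (MvPolynomial σ (X.sec U)), ∀ g, g ∈ J ↔
        ∃ f, a * ev K' l (X.sec U) g = ev K' l (X.sec U) f :=
      ⟨{ carrier := {g | ∃ f, a * ev K' l (X.sec U) g = ev K' l (X.sec U) f}
         add_mem' := by
          rintro g g' ⟨f, hf⟩ ⟨f', hf'⟩
          exact ⟨f + f', by rw [map_add, map_add, mul_add, hf, hf']⟩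
         zero_mem' := ⟨0, by rw [map_zero, mul_zero]⟩
         smul_mem' := by
          rintro r g ⟨f, hf⟩
          exact ⟨r * f, by rw [smul_eq_mul, map_mul, map_mul, ← hf]; ring⟩ }, fun g => Iff.rfl⟩
    by_contra hcon
    push Not at hcon
    obtain ⟨S, hS⟩ : ∃ S : Submonoid (MvPolynomial σ (X.sec U)), ∀ g, g ∈ S ↔
        ∃ c : MvPolynomial σ k, c ≠ 0 ∧ g = map (algebraMap k (X.sec U)) c :=
      ⟨{ carrier := {g | ∃ c : MvPolynomial σ k, c ≠ 0 ∧ g = map (algebraMap k (X.sec U)) c}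
         one_mem' := ⟨1, one_ne_zero, by rw [map_one]⟩
         mul_mem' := by
          rintro g g' ⟨c, hc, rfl⟩ ⟨c', hc', rfl⟩
          exact ⟨c * c', mul_ne_zero hc hc', by rw [map_mul]⟩ }, fun g => Iff.rfl⟩
    have hd : Disjoint (J : Set (MvPolynomial σ (X.sec U))) S := by
      rw [Set.disjoint_left]
      intro g hg hgS
      obtain ⟨c, hc, rfl⟩ := (hS g).1 hgS
      obtain ⟨f, hf⟩ := (hJ _).1 hg
      exact hcon f c hc hf
    obtain ⟨Q, hQ, hJQ, hQS⟩ := Ideal.exists_le_prime_disjoint J S hd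
    obtain ⟨z, hz, hzQ⟩ := bc_point hX hU hne Q hQ (fun c hc hcQ =>
      Set.disjoint_left.1 hQS hcQ ((hS _).2 ⟨c, hc, rfl⟩))
    obtain ⟨f, g, h1, h2⟩ := bc_frac hX h hU z hz a (ha' z hz)
    exact h1 ((hzQ g).1 (hJQ ((hJ g).2 ⟨f, h2⟩)))
  · rintro ⟨f, c, hc, hfc⟩
    refine (pmem (bcP X h) _ a).2 (fun z hz => ?_)
    have h1 := un_c h U hc (bcO h z)
    have h2 : a ∈ bcO h z := by
      rw [← mem_mul_un h1, hfc]
      exact ev_in h z hz f
    exact h2

private theorem ev_s (hX : IsVar X) (h : BC k K k' K' l) {U : Set X.P} (hU : X.aff U)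
    (hne : U.Nonempty) (f : MvPolynomial σ (X.sec U)) :
    ev K' l (X.sec U) f ∈ (bcP X h).sec {z | z.x ∈ U} :=
  (bc_sec hX h hU hne _).2 ⟨f, 1, one_ne_zero, by rw [map_one, map_one, mul_one]⟩

theorem bc_fg (hX : IsVar X) (h : BC k K k' K' l) {U : Set X.P} (hU : X.aff U) (hne : U.Nonempty) :
    ((bcP X h).sec {z | z.x ∈ U}).FG := by
  obtain ⟨t, ht⟩ := hX.fg U hU hne
  classical
  refine ⟨t.image (algebraMap K K'), ?_⟩
  have htU : ∀ r : K, r ∈ X.sec U → algebraMap K K' r ∈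
      Algebra.adjoin k' ((t.image (algebraMap K K') : Finset K') : Set K') := by
    intro r hr
    rw [← ht] at hr
    refine Algebra.adjoin_induction (p := fun r _ => algebraMap K K' r ∈
      Algebra.adjoin k' ((t.image (algebraMap K K') : Finset K') : Set K')) ?_ ?_ ?_ ?_ hr
    · intro r hr
      exact Algebra.subset_adjoin (Finset.mem_coe.2 (Finset.mem_image_of_mem _ hr))
    · intro c
      have h3 : algebraMap K K' (algebraMap k K c) = algebraMap k' K' (algebraMap k k' c) :=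
        (IsScalarTower.algebraMap_apply k K K' c).symm.trans
          (IsScalarTower.algebraMap_apply k k' K' c)
      rw [h3]
      exact Subalgebra.algebraMap_mem _ _
    · intro x y _ _ hx hy
      rw [map_add]
      exact add_mem hx hy
    · intro x y _ _ hx hy
      rw [map_mul]
      exact mul_mem hx hy
  have hfall : ∀ f : MvPolynomial σ (X.sec U), ev K' l (X.sec U) f ∈
      Algebra.adjoin k' ((t.image (algebraMap K K') : Finset K') : Set K') := by
    intro f
    induction f using MvPolynomial.induction_on with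
    | C r =>
      rw [ev_C]
      exact htU r r.2
    | add p q hp hq =>
      rw [map_add]
      exact add_mem hp hq
    | mul_X p i hp =>
      rw [map_mul]
      refine mul_mem hp ?_
      have h4 : ev K' l (X.sec U) (MvPolynomial.X i) = algebraMap k' K' (l i) := by
        unfold ev
        rw [coe_eval₂Hom, eval₂_X]
      rw [h4]
      exact Subalgebra.algebraMap_mem _ _
  apply le_antisymm
  · rw [Algebra.adjoin_le_iff]
    intro y hy
    obtain ⟨r, hr, rfl⟩ := Finset.mem_image.1 (Finset.mem_coe.1 hy)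
    have hr' : r ∈ X.sec U := by
      rw [← ht]
      exact Algebra.subset_adjoin hr
    have h1 := ev_s hX h hU hne (C ⟨r, hr'⟩)
    rw [ev_C] at h1
    exact h1
  · intro a ha
    obtain ⟨f, c, hc, hfc⟩ := (bc_sec hX h hU hne a).1 ha
    have hf := hfall f
    rw [ev_k] at hfc
    have h5 := ael_ne h U hc
    have h6 : a = ev K' l (X.sec U) f * algebraMap k' K' (aeval l c)⁻¹ := by
      rw [← hfc, map_inv₀, mul_assoc, mul_inv_cancel₀ ((map_ne_zero _).2 h5), mul_one]
    rw [h6]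
    exact mul_mem hf (Subalgebra.algebraMap_mem _ _)

theorem bc_fr (hX : IsVar X) (h : BC k K k' K' l) {U : Set X.P} (hU : X.aff U) (z : BP X σ) (hz : z.x ∈ U) (b : K')
    (hb : b ∈ bcO h z) : ∃ s ∈ (bcP X h).sec {z | z.x ∈ U}, Un (bcO h z) s ∧ b * s ∈ (bcP X h).sec {z | z.x ∈ U} := by
  obtain ⟨f, g, h1, h2⟩ := bc_frac hX h hU z hz b hb
  exact ⟨ev K' l (X.sec U) g, ev_s hX h hU ⟨z.x, hz⟩ g, (ev_un h z hz g).2 h1, by
    rw [h2]
    exact ev_s hX h hU ⟨z.x, hz⟩ f⟩

theorem bc_prime (hX : IsVar X) (h : BC k K k' K' l) {U : Set X.P} (hU : X.aff U) (hne : U.Nonempty)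
    (I : Ideal ((bcP X h).sec {z | z.x ∈ U})) (hI : I.IsPrime) :
    ∃ z : BP X σ, z.x ∈ U ∧ ∀ a : (bcP X h).sec {z | z.x ∈ U}, a ∈ I ↔ ¬ Un (bcO h z) (a : K') := by
  obtain ⟨φ, hφ⟩ : ∃ φ : MvPolynomial σ (X.sec U) →+* (bcP X h).sec {z | z.x ∈ U},
      ∀ f, (φ f : K') = ev K' l (X.sec U) f :=
    ⟨(ev K' l (X.sec U)).codRestrict ((bcP X h).sec {z | z.x ∈ U})
      (fun f => ev_s hX h hU hne f), fun f => rfl⟩
  have hu : ∀ {c : MvPolynomial σ k}, c ≠ 0 →
      IsUnit (φ (map (algebraMap k (X.sec U)) c)) := by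
    intro c hc
    have h1 := (un_iff (A := (bcP X h).sec {z | z.x ∈ U})
      (φ (map (algebraMap k (X.sec U)) c)).2).2 (by
        rw [hφ]
        exact un_c h U hc _)
    exact h1
  obtain ⟨z, hz, hzQ⟩ := bc_point hX hU hne (I.comap φ) (hI.comap φ) (fun c hc hcQ =>
    hI.ne_top (Ideal.eq_top_of_isUnit_mem I (Ideal.mem_comap.1 hcQ) (hu hc)))
  refine ⟨z, hz, fun a => ?_⟩
  obtain ⟨f, c, hc, hfc⟩ := (bc_sec hX h hU hne (a : K')).1 a.2
  have h1 : a * φ (map (algebraMap k (X.sec U)) c) = φ f := by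
    apply Subtype.ext
    rw [hφ]
    show (a : K') * (φ (map (algebraMap k (X.sec U)) c) : K') = _
    rw [hφ]
    exact hfc
  have h2 : a ∈ I ↔ φ f ∈ I := by
    rw [← h1, Ideal.mul_unit_mem_iff_mem I (hu hc)]
  have h3 : Un (bcO h z) (ev K' l (X.sec U) f) ↔ Un (bcO h z) (a : K') := by
    rw [← hfc]
    exact un_mul_un (un_c h U hc _)
  rw [h2, ← h3, ev_un h z hz, not_not, ← hzQ]
  exact Iff.rfl

end Pool.Agent.H83.TK
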