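import Pool.Agent.H83.TK.BcC

/-!
# [H83 TK BcE] THEOREM K, chapter T1a: the residue fields of the base change

`κ' = (bcP X h).mod.kap z` is the residue field of `bcO h z`.  The ring homomorphism `ev` (`ev_mem`) from `(O x)[l]` to
`bcO h z`, followed by the residue map, factors through `red` (it kills the polynomials with coefficients in the maximal
ideal: `un_ev`, `red f = 0 ∈ z.q`): this gives `resH h z : κ(x)[l] →+* κ'` with
`resH (red f) = rs z (ev f)`.  (Surjectivity of `red`: `MvPolynomial.map_surjective`; `Ideal.Quotient.lift` or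
`RingHom.liftOfSurjective`.)  Its kernel is `z.q` (`un_ev`), every element of `κ'` is a quotient of two values.
-/

set_option autoImplicit false

namespace Pool.Agent.H83.TK

open Pool.Agent.H54.RV MvPolynomial

variable {k K k' K' : Type} [Field k] [Field K] [Field k'] [Field K'] [Algebra k K] [Algebra k k'] [Algebra K K']
  [Algebra k' K'] [Algebra k K'] [IsScalarTower k K K'] [IsScalarTower k k' K'] {σ : Type} {X : Mod k K} {l : σ → k'}

private theorem res_zero (M : Mod k K) (x : M.P) (a : M.O x) :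
    IsLocalRing.residue (M.O x) a = 0 ↔ ¬ Un (M.O x) (a : K) := by
  rw [IsLocalRing.residue_eq_zero_iff, IsLocalRing.mem_maximalIdeal, mem_nonunits_iff]
  exact not_congr (un_iff a.2)

/-- the value, in the local ring -/
private noncomputable def evO (h : BC k K k' K' l) (z : BP X σ) :
    MvPolynomial σ (X.O z.x) →+* (bcP X h).mod.O z :=
  (ev K' l (X.O z.x)).codRestrict ((bcP X h).mod.O z) (ev_mem h z)

/-- the value, in the residue field -/
private noncomputable def evR (h : BC k K k' K' l) (z : BP X σ) :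
    MvPolynomial σ (X.O z.x) →+* (bcP X h).mod.kap z :=
  (IsLocalRing.residue ((bcP X h).mod.O z)).comp (evO h z)

private theorem evR_eq (h : BC k K k' K' l) (z : BP X σ) (f : MvPolynomial σ (X.O z.x)) :
    evR h z f = (bcP X h).mod.rs z (ev K' l (X.O z.x) f) := by
  have h1 : ev K' l (X.O z.x) f ∈ (bcP X h).mod.O z := ev_mem h z f
  unfold Mod.rs
  rw [dif_pos h1]
  rfl

private theorem evR_zero (h : BC k K k' K' l) (z : BP X σ) (f : MvPolynomial σ (X.O z.x)) :
    evR h z f = 0 ↔ red X σ z.x f ∈ z.q := by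
  have h1 : evR h z f = 0 ↔ ¬ Un (bcO h z) (ev K' l (X.O z.x) f) := res_zero (bcP X h).mod z (evO h z f)
  rw [h1, un_ev, not_not]

private theorem red_surj (x : X.P) : Function.Surjective (red X σ x) := by
  unfold red
  exact map_surjective _ IsLocalRing.residue_surjective

private theorem ker_le (h : BC k K k' K' l) (z : BP X σ) :
    RingHom.ker (red X σ z.x) ≤ RingHom.ker (evR h z) := by
  intro f hf
  rw [RingHom.mem_ker] at hf ⊢
  rw [evR_zero, hf]
  exact z.q.zero_mem

/-- the lift -/
private noncomputable def resL (h : BC k K k' K' l) (z : BP X σ) :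
    MvPolynomial σ (X.kap z.x) →+* (bcP X h).mod.kap z :=
  (red X σ z.x).liftOfSurjective (red_surj z.x) ⟨evR h z, ker_le h z⟩

private theorem resL_red (h : BC k K k' K' l) (z : BP X σ) (f : MvPolynomial σ (X.O z.x)) :
    resL h z (red X σ z.x f) = evR h z f :=
  RingHom.liftOfRightInverse_comp_apply (red X σ z.x) _ _ ⟨evR h z, ker_le h z⟩ f

private theorem resL_k (h : BC k K k' K' l) (z : BP X σ) (c : MvPolynomial σ k) :
    resL h z (map (algebraMap k (X.kap z.x)) c) = algebraMap k' ((bcP X h).mod.kap z) (aeval l c) := by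
  rw [← red_k, resL_red]
  have h1 : evO h z (map (algebraMap k (X.O z.x)) c) = algebraMap k' ((bcP X h).mod.O z) (aeval l c) :=
    Subtype.ext (ev_k (X.O z.x) c)
  have h2 : evR h z (map (algebraMap k (X.O z.x)) c) =
      IsLocalRing.residue ((bcP X h).mod.O z) (evO h z (map (algebraMap k (X.O z.x)) c)) := rfl
  rw [h2, h1]
  rfl

theorem exists_resH (h : BC k K k' K' l) (z : BP X σ) :
    ∃ φ : MvPolynomial σ (X.kap z.x) →+* (bcP X h).mod.kap z,
      (∀ f : MvPolynomial σ (X.O z.x), φ (red X σ z.x f) = (bcP X h).mod.rs z (ev K' l (X.O z.x) f)) ∧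
      (∀ f, φ f = 0 ↔ f ∈ z.q) ∧ (∀ c, ∃ f g, φ g ≠ 0 ∧ c * φ g = φ f) ∧
      (∀ i, φ (MvPolynomial.X i) = algebraMap k' ((bcP X h).mod.kap z) (l i)) ∧
      ∀ c : MvPolynomial σ k, φ (map (algebraMap k (X.kap z.x)) c) =
        algebraMap k' ((bcP X h).mod.kap z) (aeval l c) := by
  refine ⟨resL h z, fun f => (resL_red h z f).trans (evR_eq h z f), ?_, ?_, ?_, resL_k h z⟩
  · intro f
    obtain ⟨f, rfl⟩ := red_surj z.x f
    rw [resL_red, evR_zero]
  · intro c
    obtain ⟨⟨a, ha⟩, rfl⟩ := IsLocalRing.residue_surjective (R := (bcP X h).mod.O z) c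
    obtain ⟨f, g, h1, h2⟩ := id ha
    refine ⟨red X σ z.x f, red X σ z.x g, ?_, ?_⟩
    · rw [resL_red]
      intro h3
      exact h1 ((evR_zero h z g).1 h3)
    · rw [resL_red, resL_red]
      have h3 : (⟨a, ha⟩ : (bcP X h).mod.O z) * evO h z g = evO h z f := Subtype.ext h2
      have h4 : evR h z f = IsLocalRing.residue ((bcP X h).mod.O z) (evO h z f) := rfl
      rw [h4, ← h3, map_mul]
      rfl
  · intro i
    have h1 := resL_k h z (MvPolynomial.X i)
    rw [map_X, aeval_X] at h1
    exact h1

/-- the homomorphism from `κ(x)[l]` to the residue field -/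
noncomputable def resH (h : BC k K k' K' l) (z : BP X σ) :
    MvPolynomial σ (X.kap z.x) →+* (bcP X h).mod.kap z := (exists_resH h z).choose

theorem resH_red (h : BC k K k' K' l) (z : BP X σ) (f : MvPolynomial σ (X.O z.x)) :
    resH h z (red X σ z.x f) = (bcP X h).mod.rs z (ev K' l (X.O z.x) f) := (exists_resH h z).choose_spec.1 f

theorem resH_zero (h : BC k K k' K' l) (z : BP X σ) (f : MvPolynomial σ (X.kap z.x)) :
    resH h z f = 0 ↔ f ∈ z.q := (exists_resH h z).choose_spec.2.1 f

theorem resH_frac (h : BC k K k' K' l) (z : BP X σ) (c : (bcP X h).mod.kap z) :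
    ∃ f g, resH h z g ≠ 0 ∧ c * resH h z g = resH h z f := (exists_resH h z).choose_spec.2.2.1 c

theorem resH_X (h : BC k K k' K' l) (z : BP X σ) (i : σ) :
    resH h z (MvPolynomial.X i) = algebraMap k' ((bcP X h).mod.kap z) (l i) := (exists_resH h z).choose_spec.2.2.2.1 i

theorem resH_k (h : BC k K k' K' l) (z : BP X σ) (c : MvPolynomial σ k) :
    resH h z (map (algebraMap k (X.kap z.x)) c) = algebraMap k' ((bcP X h).mod.kap z) (aeval l c) :=
  (exists_resH h z).choose_spec.2.2.2.2 c

end Pool.Agent.H83.TK
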