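import Pool.Agent.H83.TK.BcF
import Pool.Agent.H83.TK.PreV
import Pool.Agent.H83.TU.Base

/-!
# [H83 TK BcG] THEOREM K, chapter T1a: the base change is a variety

`bcM X h = (bcP X h).mod : Mod k' K'`.
`bc_ok`: the axioms `Ok` of `bcP X h`.  `fin`: `X.P` is compact and covered by the affine open sets (`IsVar.chart`):
finitely many of them cover it.  `com`: `U, V` affine in `X`, `x ∈ U ∩ V`: `IsVar.bas U V x`: `a ∈ sec U`, unit at `x`,
`{y ∈ U | Un (O y) a} ⊆ V`; take `algebraMap K K' a = ev (C a)` (`ev_C`; `Un (bcO h w) (algebraMap K K' a) ↔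
Un (O w.x) a` for `a ∈ O w.x`, `un_alg`).  `fg`, `frac`, `prime`, `cen`: `bc_fg`, `bc_fr`, `bc_prime`, `bc_cen`.
`ne`: `gen`: a generic point `g` of `X` gives the point `(g, ⊥)` (`tr`: `map (algebraMap k κ)` is injective), its local
ring is `K'` (`BC.genK`, the coefficients are in `O g = ⊤`), and `sp (g, ⊥) w` for all `w` (`bc_sp`: `ev f ≠ 0`).
`t0`: `sp z w` and `sp w z` give `z.x = w.x` (`T0Space`), then `z.q = w.q` (`bc_sp`, `un_ev`).
-/

set_option autoImplicit false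

namespace Pool.Agent.H83.TK

open Pool.Agent.H54.RV MvPolynomial Pool.Agent.H83.TU

variable {k K k' K' : Type} [Field k] [Field K] [Field k'] [Field K'] [Algebra k K] [Algebra k k'] [Algebra K K']
  [Algebra k' K'] [Algebra k K'] [IsScalarTower k K K'] [IsScalarTower k k' K'] {σ : Type} {X : Mod k K} {l : σ → k'}

variable (X) in
/-- the base change -/
noncomputable abbrev bcM (h : BC k K k' K' l) : Mod k' K' := (bcP X h).mod

theorem alg_mem (h : BC k K k' K' l) (z : BP X σ) {a : K} (ha : a ∈ X.O z.x) : algebraMap K K' a ∈ bcO h z := by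
  rw [← ev_C (k' := k') (l := l) (X.O z.x) ⟨a, ha⟩]
  exact ev_mem h z _

theorem un_alg (h : BC k K k' K' l) (z : BP X σ) {a : K} (ha : a ∈ X.O z.x) :
    Un (bcO h z) (algebraMap K K' a) ↔ Un (X.O z.x) a := by
  have e := ev_C (k' := k') (K' := K') (l := l) (X.O z.x) ⟨a, ha⟩
  have e' : algebraMap K K' a = ev K' l (X.O z.x) (C ⟨a, ha⟩) := e.symm
  rw [e', un_ev h z, ← un_iff ha]
  have h1 : red X σ z.x (C ⟨a, ha⟩) = C (IsLocalRing.residue (X.O z.x) ⟨a, ha⟩) :=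
    map_C _ _
  rw [h1]
  constructor
  · intro h2
    by_contra h3
    have h4 : IsLocalRing.residue (X.O z.x) ⟨a, ha⟩ = 0 := by
      rw [IsLocalRing.residue_eq_zero_iff, IsLocalRing.mem_maximalIdeal]
      exact h3
    rw [h4] at h2
    exact h2 (by
      have : (C (0 : X.kap z.x) : MvPolynomial σ (X.kap z.x)) = 0 := C_0
      rw [show (C (0 : IsLocalRing.ResidueField (X.O z.x)) : MvPolynomial σ _) = 0 from C_0]
      exact z.q.zero_mem)
  · intro h2 h3
    have h4 : IsUnit (IsLocalRing.residue (X.O z.x) ⟨a, ha⟩) := h2.map _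
    have h5 : IsUnit (C (IsLocalRing.residue (X.O z.x) ⟨a, ha⟩) :
        MvPolynomial σ (X.kap z.x)) := h4.map C
    exact z.prime.ne_top (Ideal.eq_top_of_isUnit_mem _ h3 h5)

private theorem bcg_com (hX : IsVar X) (h : BC k K k' K' l) {U V : Set X.P} (hU : X.aff U)
    (hV : IsOpen V) (z : BP X σ) (hzU : z.x ∈ U) (hzV : z.x ∈ V) :
    ∃ a ∈ (bcP X h).sec {z : BP X σ | z.x ∈ U}, Un (bcO h z) a ∧
      (bcP X h).D {z : BP X σ | z.x ∈ U} a ⊆ {z : BP X σ | z.x ∈ V} := by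
  obtain ⟨a, ha, hu, hs⟩ := hX.bas U V z.x hU hV hzU hzV
  refine ⟨algebraMap K K' a, ?_, (un_alg h z (ha z.x hzU)).2 hu, ?_⟩
  · rw [Pre.mem_sec']
    intro w hw
    exact alg_mem h w (ha w.x hw)
  · rintro w ⟨hw, hw'⟩
    exact hs w.x hw ((un_alg h w (ha w.x hw)).1 hw')

theorem bc_ok [Finite σ] (hX : IsVar X) [T0Space X.P] (hg : ∃ g, Gen X g) (h : BC k K k' K' l) : (bcP X h).Ok where
  ne := by
    obtain ⟨g, hg⟩ := hg
    exact ⟨(⟨g, ⊥, Ideal.isPrime_bot, fun c hc => by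
      rw [Ideal.mem_bot]
      intro h0
      exact hc (map_injective _ (algebraMap k (X.kap g)).injective (h0.trans (map_zero _).symm))⟩ : BP X σ)⟩
  fin := by
    haveI := hX.comp
    choose U hU hxU using hX.chart
    obtain ⟨t, ht⟩ := isCompact_univ.elim_nhds_subcover U
      (fun x _ => (hX.op (U x) (hU x)).mem_nhds (hxU x))
    refine ⟨(fun x => {z : BP X σ | z.x ∈ U x}) '' (t : Set X.P), (t.finite_toSet).image _, ?_, ?_⟩
    · rintro _ ⟨x, _, rfl⟩
      exact ⟨U x, hU x, rfl⟩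
    · intro z
      have h1 := ht.2 (Set.mem_univ z.x)
      rw [Set.mem_iUnion₂] at h1
      obtain ⟨x, hx, hzx⟩ := h1
      exact ⟨_, ⟨x, hx, rfl⟩, hzx⟩
  fg := by
    rintro _ ⟨U, hU, rfl⟩ ⟨z, hz⟩
    exact bc_fg hX h hU ⟨z.x, hz⟩
  frac := by
    rintro _ ⟨U, hU, rfl⟩ z hz b hb
    exact bc_fr hX h hU z hz b hb
  prime := by
    rintro _ ⟨U, hU, rfl⟩ ⟨z, hz⟩ I hI
    obtain ⟨w, hw, hw'⟩ := bc_prime hX h hU ⟨z.x, hz⟩ I hI
    exact ⟨w, hw, hw'⟩
  com := by
    rintro _ ⟨U, hU, rfl⟩ _ ⟨V, hV, rfl⟩ z hzU hzV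
    exact bcg_com hX h hU (hX.op V hV) z hzU hzV
  cen := fun z p => bc_cen hX h z p

theorem isVar_bc [Finite σ] (hX : IsVar X) [T0Space X.P] (hg : ∃ g, Gen X g) (h : BC k K k' K' l) : IsVar (bcM X h) :=
  Pre.isVar (bc_ok hX hg h)

theorem bc_gen [Finite σ] (hX : IsVar X) [T0Space X.P] (h : BC k K k' K' l) {g : X.P} (hg : Gen X g) (hq : (⊥ : Ideal (MvPolynomial σ (X.kap g))).IsPrime)
    (htr : ∀ c : MvPolynomial σ k, c ≠ 0 → map (algebraMap k (X.kap g)) c ∉ (⊥ : Ideal (MvPolynomial σ (X.kap g)))) :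
    Gen (bcM X h) (⟨g, ⊥, hq, htr⟩ : BP X σ) := by
  have htop : ∀ a : K', a ∈ bcO h (⟨g, ⊥, hq, htr⟩ : BP X σ) := by
    intro a
    obtain ⟨f, f', hf', hff⟩ := h.genK a
    have hsur : Function.Surjective (map ((X.O g).val : X.O g →+* K) :
        MvPolynomial σ (X.O g) → MvPolynomial σ K) := by
      refine map_surjective _ fun b => ?_
      have hb : b ∈ X.O g := by
        rw [hg.top]
        exact Algebra.mem_top
      exact ⟨⟨b, hb⟩, rfl⟩
    obtain ⟨u, rfl⟩ := hsur f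
    obtain ⟨v, rfl⟩ := hsur f'
    refine ⟨u, v, ?_, ?_⟩
    · show red X σ g v ∉ (⊥ : Ideal (MvPolynomial σ (X.kap g)))
      rw [Ideal.mem_bot]
      intro h0
      have hinj : Function.Injective (IsLocalRing.residue (X.O g)) := by
        rw [injective_iff_map_eq_zero]
        rintro ⟨b, hb⟩ hb0
        rw [IsLocalRing.residue_eq_zero_iff, IsLocalRing.mem_maximalIdeal, mem_nonunits_iff,
          un_iff hb] at hb0
        by_contra hne
        apply hb0
        refine ⟨fun h1 => hne (Subtype.ext h1), hb, ?_⟩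
        rw [hg.top]
        exact Algebra.mem_top
      have hv : v = 0 := map_injective _ hinj (h0.trans (map_zero _).symm)
      rw [hv, map_zero] at hf'
      exact hf' rfl
    · show a * ev K' l (X.O g) v = ev K' l (X.O g) u
      rw [ev_eq, ev_eq]
      exact hff
  refine ⟨?_, fun w => ?_⟩
  · exact eq_top_iff.2 fun a _ => htop a
  · refine (Pre.sp_iff (bc_ok hX ⟨g, hg⟩ h) _ _).2 ?_
    rw [bc_sp hX h]
    refine ⟨hg.spec _, fun f hf => ⟨ev_ne h w hf, htop _, htop _⟩⟩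

theorem bc_t0 [Finite σ] (hX : IsVar X) [T0Space X.P] (hg : ∃ g, Gen X g) (h : BC k K k' K' l) : T0Space (bcM X h).P := by
  refine Pre.t0 (bc_ok hX hg h) fun z w hzw hwz => ?_
  rw [bc_sp hX h] at hzw hwz
  obtain ⟨h1, h2⟩ := hzw
  obtain ⟨h3, h4⟩ := hwz
  have hx : z.x = w.x := (h1.antisymm h3).eq
  obtain ⟨x, q, hq, hq'⟩ := z
  obtain ⟨x', q', hq2, hq2'⟩ := w
  dsimp only at hx
  subst hx
  have hqq : q = q' := by
    ext f
    obtain ⟨f', rfl⟩ := map_surjective (σ := σ) _ (IsLocalRing.residue_surjective (R := X.O x)) f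
    constructor
    · intro hf
      by_contra hf'
      exact ((un_ev h (⟨x, q, hq, hq'⟩ : BP X σ) f').1 (h2 f' hf')) hf
    · intro hf
      by_contra hf'
      exact ((un_ev h (⟨x, q', hq2, hq2'⟩ : BP X σ) f').1 (h4 f' hf')) hf
  subst hqq
  rfl

/-- the map to `X` is continuous -/
theorem bc_cont [Finite σ] (hX : IsVar X) [T0Space X.P] (hg : ∃ g, Gen X g) (h : BC k K k' K' l) :
    Continuous (fun z : (bcM X h).P => BP.x (X := X) (σ := σ) z) := by
  rw [continuous_def]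
  intro V hV
  rw [isOpen_iff_forall_mem_open]
  intro z hz
  obtain ⟨U, hU, hzU⟩ := hX.chart (BP.x (X := X) (σ := σ) z)
  obtain ⟨a, ha, hu, hs⟩ := bcg_com hX h hU hV z hzU hz
  refine ⟨(bcP X h).D {z : BP X σ | z.x ∈ U} a, hs, ?_, ⟨hzU, hu⟩⟩
  exact TopologicalSpace.isOpen_generateFrom_of_mem ⟨_, ⟨U, hU, rfl⟩, a, ha, rfl⟩

end Pool.Agent.H83.TK
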