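import Pool.Agent.H83.TK.BcG
import Pool.Agent.H54.RV.Grp
import Pool.Agent.H54.RV.B3

/-!
# [H83 TK BcH] THEOREM K, chapter T1a: divisors and sections on the base change

`bcD D`: the local equation at `z` is `algebraMap K K' (D.eq z.x)`.
`bc_secL`: the sections of `bcD D` are the combinations with coefficients in `k'` of the sections of `D`.
Proof of `→`: let `s'` be a section of `n bcD D`.  `BC.genK`: `s' * ev c = ev f` with polynomials over `K`.  By `bc_sec`
and `bc_frac` one can choose `c` with coefficients in `k`: at the point `(g, ⊥)` over the generic point this is not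
clear, so argue as follows.  Take any chart `U` of `X` on which `D` is principal (`D.loc`: shrink, `triv` of
`H54/RV/B3.lean`), with equation `D.eq x`, `x ∈ U`: `s' * D.eq x ^ n ∈ (bcP X h).sec {z | z.x ∈ U}`, so `bc_sec` gives
`c ∈ k[l]`, `c ≠ 0` and `f ∈ (sec U)[l]` with `s' * D.eq x ^ n * ev c = ev f`.  Fix one such chart; put `F = f / D.eq x ^ n ∈
K[l]` (`ev F = s' * ev c`).  For every other chart `V`, `y ∈ V`: `c' ∈ k[l]`, `f'` with `s' * D.eq y ^ n * ev c' = ev f'`.  So
`c' * (D.eq y ^ n * F) = c * f'` in `K[l]` (`h.ind`), `f'` has coefficients in `sec V`.  LEMMA `tor_free`: if `W` is a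
`k`-subspace of `K`, `F ∈ K[l]`, `c' ∈ k[l]`, `c' ≠ 0` and `c' * F` has all coefficients in `W` then `F` has all coefficients
in `W` (otherwise a coefficient `v` of `F` is not in `W`; there is a `k`-linear `φ : K → k`, zero on `W`, `φ v ≠ 0`
(`Submodule.exists_le_ker_of_notMem` or similar); applied to the coefficients: `c' * φ(F) = φ(c' * F) = 0`, so `φ(F) = 0`).
So the coefficients of `D.eq y ^ n * F` are in `sec V`, in particular in `O y`: the coefficients of `F` are sections of `n D`,
and `s' = ev F / ev c` is a combination.  `←`: clear (`alg_mem`).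

`bc_h0`: `h0` is the same: a `k`-basis of `secL D n` is a `k'`-basis of `secL (bcD D) n` (independence: clear
denominators (`BC.genk`), `∑ c_i(l) e_i = 0` with `c_i ∈ k[l]`; the coefficients of the monomials (`h.ind`) give relations
over `k`).  If `secL D n` is not finite dimensional both dimensions are `0` as `finrank`; assume it is.
-/

set_option autoImplicit false

namespace Pool.Agent.H83.TK

open Pool.Agent.H54.RV MvPolynomial Pool.Agent.H83.TU

variable {k K k' K' : Type} [Field k] [Field K] [Field k'] [Field K'] [Algebra k K] [Algebra k k'] [Algebra K K']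
  [Algebra k' K'] [Algebra k K'] [IsScalarTower k K K'] [IsScalarTower k k' K'] {σ : Type} {X : Mod k K} {l : σ → k'}

theorem tor_free (W : Submodule k K) (c : MvPolynomial σ k) (hc : c ≠ 0) (F : MvPolynomial σ K)
    (hF : ∀ m, (map (algebraMap k K) c * F).coeff m ∈ W) : ∀ m, F.coeff m ∈ W := by
  classical
  intro m
  by_contra hm
  obtain ⟨φ, hφ, hW⟩ := Submodule.exists_le_ker_of_notMem hm
  let G : MvPolynomial σ k := ∑ d ∈ F.support, monomial d (φ (F.coeff d))
  have hG : ∀ d, G.coeff d = φ (F.coeff d) := by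
    intro d
    simp only [G, coeff_sum, coeff_monomial]
    rw [Finset.sum_ite_eq']
    by_cases hd : d ∈ F.support
    · rw [if_pos hd]
    · rw [if_neg hd, notMem_support_iff.1 hd, map_zero]
  have h0 : c * G = 0 := by
    ext d
    rw [coeff_mul, coeff_zero]
    have h1 : φ ((map (algebraMap k K) c * F).coeff d) = 0 := LinearMap.mem_ker.1 (hW (hF d))
    rw [coeff_mul, map_sum] at h1
    rw [← h1]
    refine Finset.sum_congr rfl fun x _ => ?_
    rw [hG, coeff_map, ← Algebra.smul_def, map_smul, smul_eq_mul]
  have h2 : G = 0 := (mul_eq_zero.1 h0).resolve_left hc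
  apply hφ
  rw [← hG, h2, coeff_zero]

omit [Algebra k k'] [Algebra k K'] [IsScalarTower k K K'] [IsScalarTower k k' K'] in
/-- values of polynomials with coefficients in a subspace -/
private theorem ev_span (l : σ → k') (V : Submodule k K) (F : MvPolynomial σ K) (hF : ∀ m, F.coeff m ∈ V) :
    aeval (fun i => algebraMap k' K' (l i)) F ∈ Submodule.span k' ((algebraMap K K') '' (V : Set K)) := by
  rw [F.as_sum, map_sum]
  refine Submodule.sum_mem _ fun m _ => ?_
  rw [aeval_monomial]
  have h1 : (m.prod fun i n => algebraMap k' K' (l i) ^ n) = algebraMap k' K' (m.prod fun i n => l i ^ n) := by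
    rw [map_finsuppProd]
    simp only [map_pow]
  rw [h1, mul_comm, ← Algebra.smul_def]
  exact Submodule.smul_mem _ _ (Submodule.subset_span ⟨_, hF m, rfl⟩)

private theorem evk (c : MvPolynomial σ k) :
    aeval (fun i => algebraMap k' K' (l i)) (map (algebraMap k K) c) = algebraMap k' K' (aeval l c) := by
  have h1 := ev_k (K' := K') (l := l) (⊤ : Subalgebra k K) c
  rw [ev_eq, map_map] at h1
  exact h1

private theorem aev_ne (h : BC k K k' K' l) {c : MvPolynomial σ k} (hc : c ≠ 0) : aeval l c ≠ 0 := by
  intro h1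
  have h2 := evk (K := K) (K' := K') (l := l) c
  rw [h1, map_zero] at h2
  have h3 : map (algebraMap k K) c = 0 := h.ind (h2.trans (map_zero _).symm)
  have h4 : c = 0 := by
    apply map_injective (algebraMap k K) (algebraMap k K).injective
    rw [h3, map_zero]
  exact hc h4

/-- the pull-back of divisors -/
noncomputable def bcD [Finite σ] (hX : IsVar X) [T0Space X.P] (hg : ∃ g, Gen X g) (h : BC k K k' K' l) :
    Cart X →* Cart (bcM X h) where
  toFun D :=
    { eq := fun z => algebraMap K K' (D.eq (BP.x (X := X) (σ := σ) z))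
      ne := fun z => by
        rw [Ne, map_eq_zero]
        exact D.ne _
      loc := fun z => by
        obtain ⟨U, hU, hx, h1⟩ := D.loc (BP.x (X := X) (σ := σ) z)
        refine ⟨_, hU.preimage (bc_cont hX hg h), hx, fun w hw => ?_⟩
        rw [← map_div₀]
        exact (un_alg h w (h1 _ hw).2.1).2 (h1 _ hw) }
  map_one' := Cart.ext' _ _ fun z => map_one _
  map_mul' D E := Cart.ext' _ _ fun z => map_mul _ _ _

theorem bc_secL [Finite σ] (hX : IsVar X) [T0Space X.P] (hg : ∃ g, Gen X g) (h : BC k K k' K' l) (D : Cart X) (n : ℕ)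
    (s : K') : s ∈ secL (bcD hX hg h D) n ↔ s ∈ Submodule.span k' ((algebraMap K K') '' (secL D n : Set K)) := by
  classical
  constructor
  · intro hs
    have hs' : ∀ z : BP X σ, s * algebraMap K K' (D.eq z.x) ^ n ∈ bcO h z := hs
    -- locally
    have hloc : ∀ y : X.P, ∃ (c : MvPolynomial σ k) (F : MvPolynomial σ K), c ≠ 0 ∧
        s * aeval (fun i => algebraMap k' K' (l i)) (map (algebraMap k K) c) =
          aeval (fun i => algebraMap k' K' (l i)) F ∧ ∀ m, F.coeff m * D.eq y ^ n ∈ X.O y := by
      intro y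
      obtain ⟨U₀, hU₀, hy₀⟩ := hX.chart y
      obtain ⟨a, h1, h2, h3⟩ := triv hX D U₀ Set.univ y hU₀ isOpen_univ hy₀ (Set.mem_univ y)
      have hU := hX.basic U₀ a hU₀ h1
      obtain ⟨U, hUd⟩ : ∃ U, U = {x | x ∈ U₀ ∧ Un (X.O x) a} := ⟨_, rfl⟩
      rw [← hUd] at hU
      have hyU : y ∈ U := by
        rw [hUd]
        exact ⟨hy₀, h2⟩
      have hun : ∀ w ∈ U, Un (X.O w) (D.eq w / D.eq y) := by
        intro w hw
        rw [hUd] at hw
        exact (h3 w hw.1 hw.2).2
      have h4 : s * algebraMap K K' (D.eq y) ^ n ∈ (bcP X h).sec {z | z.x ∈ U} := by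
        rw [Pre.mem_sec']
        intro z hz
        have h5 := hun z.x hz
        have h6 : Un (bcO h z) (algebraMap K K' (D.eq z.x / D.eq y)) := (un_alg h z h5.2.1).2 h5
        have h7 : s * algebraMap K K' (D.eq z.x) ^ n =
            s * algebraMap K K' (D.eq y) ^ n * algebraMap K K' (D.eq z.x / D.eq y) ^ n := by
          have h8 : algebraMap K K' (D.eq z.x) =
              algebraMap K K' (D.eq y) * algebraMap K K' (D.eq z.x / D.eq y) := by
            rw [← map_mul]
            congr 1
            have := D.ne y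
            field_simp
          rw [h8, mul_pow]
          ring
        have h9 := hs' z
        rw [h7] at h9
        exact (mem_mul_un (un_pow h6 n)).1 h9
      obtain ⟨f, c, hc, hf⟩ := (bc_sec hX h hU ⟨y, hyU⟩ _).1 h4
      refine ⟨c, C ((D.eq y)⁻¹ ^ n) * map ((X.sec U).val : X.sec U →+* K) f, hc, ?_, ?_⟩
      · rw [ev_k, ev_eq] at hf
        rw [map_mul, aeval_C, evk, ← hf]
        have h5 : algebraMap K K' (D.eq y) ≠ 0 := by
          rw [Ne, map_eq_zero]
          exact D.ne y
        rw [map_pow, map_inv₀, inv_pow]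
        field_simp
      · intro m
        rw [coeff_C_mul, coeff_map]
        have h5 : (D.eq y)⁻¹ ^ n * ((X.sec U).val : X.sec U →+* K) (f.coeff m) * D.eq y ^ n =
            ((f.coeff m : X.sec U) : K) := by
          have := D.ne y
          have h6 : ((X.sec U).val : X.sec U →+* K) (f.coeff m) = ((f.coeff m : X.sec U) : K) := rfl
          rw [h6, inv_pow]
          field_simp
        rw [h5]
        exact (mem_sec U _).1 (f.coeff m).2 y hyU
    obtain ⟨y₀⟩ := hX.ne
    obtain ⟨c₀, F₀, hc₀, hF₀, -⟩ := hloc y₀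
    have hco : ∀ m, F₀.coeff m ∈ secL D n := by
      intro m
      rw [mem_secL]
      intro y
      obtain ⟨c, F, hc, hF, hFy⟩ := hloc y
      -- the subspace
      let W : Submodule k K :=
        { carrier := {a | a * D.eq y ^ n ∈ X.O y}
          zero_mem' := by
            change 0 * D.eq y ^ n ∈ X.O y
            rw [zero_mul]
            exact (X.O y).zero_mem
          add_mem' := fun {a b} ha hb => by
            change (a + b) * D.eq y ^ n ∈ X.O y
            rw [add_mul]
            exact (X.O y).add_mem ha hb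
          smul_mem' := fun c a ha => by
            change (c • a) * D.eq y ^ n ∈ X.O y
            rw [Algebra.smul_mul_assoc]
            exact (X.O y).smul_mem ha c }
      have h1 : map (algebraMap k K) c * F₀ = map (algebraMap k K) c₀ * F := by
        apply h.ind
        rw [map_mul, map_mul, ← hF, ← hF₀]
        ring
      refine tor_free W c hc F₀ ?_ m
      intro d
      rw [h1, coeff_mul]
      refine Submodule.sum_mem _ fun x _ => ?_
      rw [coeff_map, ← Algebra.smul_def]
      exact Submodule.smul_mem _ _ (hFy _)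
    have h2 := ev_span (K' := K') l (secL D n) F₀ hco
    rw [← hF₀, evk, mul_comm, ← Algebra.smul_def] at h2
    exact (Submodule.smul_mem_iff _ (aev_ne h hc₀)).1 h2
  · intro hs
    refine (Submodule.span_le (p := secL (bcD hX hg h D) n)).2 ?_ hs
    rintro _ ⟨t, ht, rfl⟩
    intro z
    have h1 : algebraMap K K' t * algebraMap K K' (D.eq (BP.x (X := X) (σ := σ) z)) ^ n =
        algebraMap K K' (t * D.eq (BP.x (X := X) (σ := σ) z) ^ n) := by
      rw [map_mul, map_pow]
    change algebraMap K K' t * algebraMap K K' (D.eq (BP.x (X := X) (σ := σ) z)) ^ n ∈ bcO h z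
    rw [h1]
    exact alg_mem h z (ht _)

/-- a common denominator -/
private theorem com_den (h : BC k K k' K' l) {ι : Type} [Fintype ι] (c : ι → k') :
    ∃ (g : MvPolynomial σ k) (f : ι → MvPolynomial σ k), g ≠ 0 ∧ ∀ i, c i * aeval l g = aeval l (f i) := by
  classical
  choose f g hg hc using fun i => h.genk (c i)
  refine ⟨∏ i, g i, fun i => f i * ∏ j ∈ Finset.univ.erase i, g j,
    Finset.prod_ne_zero_iff.2 fun i _ => hg i, fun i => ?_⟩
  rw [← Finset.mul_prod_erase Finset.univ g (Finset.mem_univ i), map_mul, map_mul, ← mul_assoc, hc]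

/-- linear independence -/
private theorem lin_ind (h : BC k K k' K' l) {ι : Type} [Fintype ι] (b : ι → K) (hb : LinearIndependent k b) :
    LinearIndependent k' fun i => algebraMap K K' (b i) := by
  classical
  rw [Fintype.linearIndependent_iff]
  intro c hc i
  obtain ⟨g, f, hg, hf⟩ := com_den h c
  have h1 : ∑ i, map (algebraMap k K) (f i) * C (b i) = 0 := by
    apply h.ind
    rw [map_zero, map_sum]
    have h2 : ∀ i, aeval (fun i => algebraMap k' K' (l i)) (map (algebraMap k K) (f i) * C (b i)) =
        algebraMap k' K' (aeval l g) * (c i • algebraMap K K' (b i)) := by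
      intro i
      rw [map_mul, evk, aeval_C, ← hf, map_mul, Algebra.smul_def]
      ring
    simp only [h2]
    rw [← Finset.mul_sum, hc, mul_zero]
  have h3 : f i = 0 := by
    ext m
    rw [coeff_zero]
    have h4 := congrArg (coeff m) h1
    rw [coeff_sum, coeff_zero] at h4
    have h5 : ∀ i, coeff m (map (algebraMap k K) (f i) * C (b i)) = (f i).coeff m • b i := by
      intro i
      rw [mul_comm, coeff_C_mul, coeff_map, mul_comm, ← Algebra.smul_def]
    simp only [h5] at h4
    exact (Fintype.linearIndependent_iff.1 hb) _ h4 i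
  have h6 := hf i
  rw [h3, map_zero] at h6
  exact (mul_eq_zero.1 h6).resolve_right (aev_ne h hg)

theorem bc_h0 [Finite σ] (hX : IsVar X) [T0Space X.P] (hg : ∃ g, Gen X g) (h : BC k K k' K' l) (D : Cart X) (n : ℕ)
    [FiniteDimensional k (secL D n)] :
    FiniteDimensional k' (secL (bcD hX hg h D) n) ∧ h0 (bcD hX hg h D) n = h0 D n := by
  classical
  let b := Module.finBasis k (secL D n)
  let b' : Fin (Module.finrank k (secL D n)) → K := fun i => (b i : K)
  have hb' : LinearIndependent k b' :=
    b.linearIndependent.map' (secL D n).subtype (Submodule.ker_subtype _)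
  have hli := lin_ind h b' hb'
  have hsp : secL (bcD hX hg h D) n = Submodule.span k' (Set.range fun i => algebraMap K K' (b' i)) := by
    apply le_antisymm
    · intro s hs
      rw [bc_secL] at hs
      refine (Submodule.span_le.2 ?_) hs
      rintro _ ⟨t, ht, rfl⟩
      have h1 : (⟨t, ht⟩ : secL D n) = ∑ i, b.repr ⟨t, ht⟩ i • b i := (b.sum_repr _).symm
      have h2 : t = ∑ i, b.repr ⟨t, ht⟩ i • b' i := by
        have h3 := congrArg Subtype.val h1
        rw [Submodule.coe_sum] at h3
        exact h3
      have h4 : algebraMap K K' t = ∑ i, (algebraMap k k' (b.repr ⟨t, ht⟩ i)) • algebraMap K K' (b' i) := by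
        conv_lhs => rw [h2]
        rw [map_sum]
        refine Finset.sum_congr rfl fun i _ => ?_
        rw [Algebra.smul_def, map_mul, Algebra.smul_def, ← IsScalarTower.algebraMap_apply k K K',
          ← IsScalarTower.algebraMap_apply k k' K']
      rw [SetLike.mem_coe, h4]
      exact Submodule.sum_mem _ fun i _ => Submodule.smul_mem _ _ (Submodule.subset_span ⟨i, rfl⟩)
    · rw [Submodule.span_le]
      rintro _ ⟨i, rfl⟩
      rw [SetLike.mem_coe, bc_secL]
      exact Submodule.subset_span ⟨_, (b i).2, rfl⟩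
  constructor
  · rw [hsp]
    exact FiniteDimensional.span_of_finite k' (Set.finite_range _)
  · unfold h0
    rw [hsp, finrank_span_eq_card hli, Fintype.card_fin]

theorem bc_ample [Finite σ] (hX : IsVar X) [T0Space X.P] (hg : ∃ g, Gen X g) (h : BC k K k' K' l) (D : Cart X)
    (hD : Ample D) : Ample (bcD hX hg h D) := by
  intro z
  obtain ⟨n, hn, s, hs, hxs, haff⟩ := hD (BP.x (X := X) (σ := σ) z)
  have h1 : ∀ w : BP X σ, algebraMap K K' s * algebraMap K K' (D.eq w.x) ^ n =
      algebraMap K K' (s * D.eq w.x ^ n) := by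
    intro w
    rw [map_mul, map_pow]
  have h2 : nz (bcD hX hg h D) n (algebraMap K K' s) = {w : BP X σ | w.x ∈ nz D n s} := by
    ext w
    change Un (bcO h w) (algebraMap K K' s * algebraMap K K' (D.eq (BP.x (X := X) (σ := σ) w)) ^ n) ↔
      Un (X.O (BP.x (X := X) (σ := σ) w)) (s * D.eq (BP.x (X := X) (σ := σ) w) ^ n)
    rw [h1 w]
    exact un_alg h w (hs _)
  refine ⟨n, hn, algebraMap K K' s, ?_, ?_, ?_⟩
  · intro w
    change algebraMap K K' s * algebraMap K K' (D.eq (BP.x (X := X) (σ := σ) w)) ^ n ∈ bcO h w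
    rw [h1 w]
    exact alg_mem h w (hs _)
  · rw [h2]
    exact hxs
  · rw [h2]
    refine ⟨{w : BP X σ | w.x ∈ nz D n s}, ⟨nz D n s, haff, rfl⟩, 1, Subalgebra.one_mem _, ?_⟩
    ext w
    exact ⟨fun hw => ⟨hw, un_one _⟩, fun hw => hw.1⟩

end Pool.Agent.H83.TK
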