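import Mathlib

/-!
# [H83 TK BzA] THEOREM K: algebraically closed subfields (Bertini and Zariski), definitions

Subfields of a field `Ω`.
* `AC A B`: the elements of `B` which are algebraic over `A` are in `A`.
* `adj A u`: the subfield generated by `A` and `u`; its elements are the `p(u) / q(u)` (`mem_adj`).
* `constF D`: the field of the constants of a derivation `D` of `Ω`.
-/

set_option autoImplicit false

namespace Pool.Agent.H83.TK.BZ

open Polynomial

variable {Ω : Type} [Field Ω]

/-- `A` is algebraically closed in `B` -/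
def AC (A B : Subfield Ω) : Prop := ∀ b ∈ B, IsAlgebraic A b → b ∈ A

/-- the subfield generated by `A` and `u` -/
def adj (A : Subfield Ω) (u : Ω) : Subfield Ω := (IntermediateField.adjoin A {u}).toSubfield

theorem mem_adj (A : Subfield Ω) (u b : Ω) :
    b ∈ adj A u ↔ ∃ p q : Polynomial A, aeval u q ≠ 0 ∧ b * aeval u q = aeval u p := by
  have h : b ∈ adj A u ↔ b ∈ IntermediateField.adjoin A {u} := Iff.rfl
  rw [h, IntermediateField.mem_adjoin_simple_iff]
  constructor
  · rintro ⟨r, s, h⟩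
    by_cases hs : aeval u s = 0
    · refine ⟨0, 1, ?_, ?_⟩
      · rw [map_one]
        exact one_ne_zero
      · rw [h, hs, div_zero, zero_mul, map_zero]
    · exact ⟨r, s, hs, by rw [h]; field_simp⟩
  · rintro ⟨p, q, h1, h2⟩
    exact ⟨p, q, by rw [← h2]; field_simp⟩

theorem le_adj (A : Subfield Ω) (u : Ω) : A ≤ adj A u := fun a ha =>
  (IntermediateField.adjoin A {u}).algebraMap_mem ⟨a, ha⟩

theorem self_adj (A : Subfield Ω) (u : Ω) : u ∈ adj A u :=
  IntermediateField.mem_adjoin_simple_self A u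

theorem aeval_mem {A N : Subfield Ω} (h : A ≤ N) {u : Ω} (hu : u ∈ N) (p : Polynomial A) : aeval u p ∈ N := by
  rw [aeval_eq_sum_range]
  refine sum_mem fun i _ => ?_
  rw [Algebra.smul_def]
  exact mul_mem (h (p.coeff i).2) (pow_mem hu i)

theorem adj_le {A N : Subfield Ω} {u : Ω} (h : A ≤ N) (hu : u ∈ N) : adj A u ≤ N := by
  intro b hb
  obtain ⟨p, q, h1, h2⟩ := (mem_adj A u b).1 hb
  have h3 : b = aeval u p / aeval u q := by
    rw [← h2]
    field_simp
  rw [h3]
  exact div_mem (aeval_mem h hu p) (aeval_mem h hu q)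

theorem adj_mono {A B : Subfield Ω} (h : A ≤ B) (u : Ω) : adj A u ≤ adj B u :=
  adj_le (h.trans (le_adj B u)) (self_adj B u)

theorem adj_comm (A : Subfield Ω) (u v : Ω) : adj (adj A u) v = adj (adj A v) u := by
  apply le_antisymm
  · exact adj_le (adj_le ((le_adj A v).trans (le_adj _ u)) (self_adj _ u))
      (le_adj _ u (self_adj A v))
  · exact adj_le (adj_le ((le_adj A u).trans (le_adj _ v)) (self_adj _ v))
      (le_adj _ v (self_adj A u))

/-- algebraic elements, with polynomials over the big field -/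
theorem alg_iff (A : Subfield Ω) (b : Ω) :
    IsAlgebraic A b ↔ ∃ p : Polynomial Ω, p ≠ 0 ∧ (∀ i, p.coeff i ∈ A) ∧ p.eval b = 0 := by
  constructor
  · rintro ⟨p, hp, h⟩
    refine ⟨p.map (algebraMap A Ω), ?_, fun i => ?_, ?_⟩
    · rwa [Ne, Polynomial.map_eq_zero]
    · rw [coeff_map]
      exact (p.coeff i).2
    · rwa [eval_map_algebraMap]
  · rintro ⟨p, hp, h1, h2⟩
    have h3 : p ∈ Polynomial.lifts (algebraMap A Ω) := by
      rw [Polynomial.lifts_iff_coeff_lifts]
      exact fun i => ⟨⟨p.coeff i, h1 i⟩, rfl⟩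
    obtain ⟨q, hq⟩ := (Polynomial.mem_lifts _).1 h3
    refine ⟨q, ?_, ?_⟩
    · rintro rfl
      apply hp
      rw [← hq, Polynomial.map_zero]
    · rw [← eval_map_algebraMap, hq, h2]

theorem alg_mono {A B : Subfield Ω} (h : A ≤ B) {b : Ω} (hb : IsAlgebraic A b) : IsAlgebraic B b := by
  rw [alg_iff] at hb ⊢
  obtain ⟨p, h1, h2, h3⟩ := hb
  exact ⟨p, h1, fun i => h (h2 i), h3⟩

theorem alg_map {Ω' : Type} [Field Ω'] (φ : Ω →+* Ω') (A : Subfield Ω) (b : Ω) :
    IsAlgebraic (A.map φ) (φ b) ↔ IsAlgebraic A b := by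
  rw [alg_iff, alg_iff]
  constructor
  · rintro ⟨p, hp, h1, h2⟩
    have h3 : p ∈ Polynomial.lifts φ := by
      rw [Polynomial.lifts_iff_coeff_lifts]
      intro i
      obtain ⟨a, -, ha⟩ := Subfield.mem_map.1 (h1 i)
      exact ⟨a, ha⟩
    obtain ⟨q, hq⟩ := (Polynomial.mem_lifts _).1 h3
    refine ⟨q, ?_, fun i => ?_, ?_⟩
    · rintro rfl
      apply hp
      rw [← hq, Polynomial.map_zero]
    · have h4 := h1 i
      rw [← hq, coeff_map] at h4
      exact (Subfield.map_mem_map φ).1 h4
    · rw [← hq, eval_map, eval₂_at_apply] at h2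
      exact φ.injective (h2.trans (map_zero φ).symm)
  · rintro ⟨p, hp, h1, h2⟩
    refine ⟨p.map φ, ?_, fun i => ?_, ?_⟩
    · rwa [Ne, Polynomial.map_eq_zero]
    · rw [coeff_map]
      exact (Subfield.map_mem_map φ).2 (h1 i)
    · rw [eval_map, eval₂_at_apply, h2, map_zero]

theorem map_adj {Ω' : Type} [Field Ω'] (φ : Ω →+* Ω') (A : Subfield Ω) (u : Ω) :
    (adj A u).map φ = adj (A.map φ) (φ u) := by
  apply le_antisymm
  · rw [Subfield.map_le_iff_le_comap]
    apply adj_le
    · intro a ha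
      exact le_adj _ _ ((Subfield.map_mem_map φ).2 ha)
    · exact self_adj (A.map φ) (φ u)
  · apply adj_le
    · intro b hb
      obtain ⟨a, ha, rfl⟩ := Subfield.mem_map.1 hb
      exact (Subfield.map_mem_map φ).2 (le_adj A u ha)
    · exact (Subfield.map_mem_map φ).2 (self_adj A u)

theorem ac_map {Ω' : Type} [Field Ω'] (φ : Ω →+* Ω') {A B : Subfield Ω} :
    AC (A.map φ) (B.map φ) ↔ AC A B := by
  constructor
  · intro h b hb hA
    exact (Subfield.map_mem_map φ).1 (h (φ b) ((Subfield.map_mem_map φ).2 hb) ((alg_map φ A b).2 hA))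
  · intro h b hb hA
    obtain ⟨c, hc, rfl⟩ := Subfield.mem_map.1 hb
    exact (Subfield.map_mem_map φ).2 (h c hc ((alg_map φ A c).1 hA))

/-- the field of the constants of a derivation -/
def constF (D : Derivation ℤ Ω Ω) : Subfield Ω where
  carrier := {a | D a = 0}
  mul_mem' := fun {a b} ha hb => by
    change D (a * b) = 0
    have ha' : D a = 0 := ha
    have hb' : D b = 0 := hb
    rw [Derivation.leibniz, ha', hb', smul_zero, smul_zero, add_zero]
  one_mem' := D.map_one_eq_zero
  add_mem' := fun {a b} ha hb => by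
    change D (a + b) = 0
    have ha' : D a = 0 := ha
    have hb' : D b = 0 := hb
    rw [map_add, ha', hb', add_zero]
  zero_mem' := map_zero D
  neg_mem' := fun {a} ha => by
    change D (-a) = 0
    have ha' : D a = 0 := ha
    rw [map_neg, ha', neg_zero]
  inv_mem' := fun a ha => by
    change D a⁻¹ = 0
    have ha' : D a = 0 := ha
    rw [Derivation.leibniz_inv, ha', smul_zero]

theorem mem_constF (D : Derivation ℤ Ω Ω) (a : Ω) : a ∈ constF D ↔ D a = 0 := Iff.rfl

/-- a subfield which is stable under a derivation -/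
def Stb (D : Derivation ℤ Ω Ω) (N : Subfield Ω) : Prop := ∀ a ∈ N, D a ∈ N

end Pool.Agent.H83.TK.BZ
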