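import Pool.Agent.H83.TK.BzA

/-!
# [H83 TK BzB] THEOREM K: linear relations over the constants (Wronskian lemma)

`wron`: `N` a `D`-stable subfield, `m i ∈ N` (finitely many), linearly dependent over the constants of `Ω`.  Then they are
linearly dependent over the constants of `N`.
Proof.  (1) `∑ c i * D^r (m i) = 0` for all `r` (differentiate).  (2) `c i₀ ≠ 0`; there is an `N`-linear `λ : Ω → N` with
`λ (c i₀) ≠ 0` (`Module.forall_dual_apply_eq_zero_iff`); so `a i = λ (c i) ∈ N` satisfies `∑ a i * D^r (m i) = 0` for all `r`.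
(3) Among all such nonzero `a` (in `N`, all `r`) take one with the smallest number of nonzero entries, divide by `a i₀ ≠ 0`:
`D (a i)` also satisfies the relations (`∑ D (a i) * D^r (m i) = D (∑ a i * D^r (m i)) - ∑ a i * D^(r+1) (m i)`), and it is zero
at `i₀` and where `a i = 0`: so it is zero: the `a i` are constants.

`transc`: `D u = 1`, characteristic `0`: `u` is transcendental over the constants (minimal polynomial `p` of `u` over
`constF D`: `0 = D (p(u)) = p'(u)`, `p'` is nonzero of smaller degree; or by induction on the degree).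

`rat_const`: `D u = 1`, `u ∈ N`, `N` stable, `α ∈ N` and `α` is a rational function of `u` over the constants of `Ω`: then
over the constants of `N`.  (`α * q(u) = p(u)`, index set `Fin n ⊕ Fin n`, the elements `u ^ i`, `u ^ i * α`; `wron`; the
new `q` is not zero by `transc`.)
-/

set_option autoImplicit false

namespace Pool.Agent.H83.TK.BZ

open Polynomial

variable {Ω : Type} [Field Ω]

theorem wron (D : Derivation ℤ Ω Ω) (N : Subfield Ω) (hN : Stb D N) {ι : Type} [Fintype ι] (m : ι → Ω)
    (hm : ∀ i, m i ∈ N) (c : ι → Ω) (hc : ∀ i, D (c i) = 0) (hc0 : ∃ i, c i ≠ 0) (hrel : ∑ i, c i * m i = 0) :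
    ∃ a : ι → Ω, (∀ i, a i ∈ N ∧ D (a i) = 0) ∧ (∃ i, a i ≠ 0) ∧ ∑ i, a i * m i = 0 := by
  classical
  -- all derivatives
  have hmr : ∀ (r : ℕ) (i : ι), (D^[r]) (m i) ∈ N := by
    intro r
    induction r with
    | zero => exact hm
    | succ r ih =>
      intro i
      rw [Function.iterate_succ_apply']
      exact hN _ (ih i)
  have h1 : ∀ r : ℕ, ∑ i, c i * (D^[r]) (m i) = 0 := by
    intro r
    induction r with
    | zero => exact hrel
    | succ r ih =>
      have h2 := congrArg D ih
      rw [map_sum, map_zero] at h2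
      rw [← h2]
      refine Finset.sum_congr rfl fun i _ => ?_
      rw [Function.iterate_succ_apply', Derivation.leibniz, hc i, smul_zero, add_zero, smul_eq_mul]
  -- coefficients in `N`
  obtain ⟨i₀, hi₀⟩ := hc0
  obtain ⟨φ, hφ⟩ : ∃ φ : Module.Dual N Ω, φ (c i₀) ≠ 0 := by
    by_contra hcon
    push Not at hcon
    exact hi₀ ((Module.forall_dual_apply_eq_zero_iff N (c i₀)).1 hcon)
  have h2 : ∀ r : ℕ, ∑ i, (φ (c i) : Ω) * (D^[r]) (m i) = 0 := by
    intro r
    have h3 := congrArg φ (h1 r)
    rw [map_sum, map_zero] at h3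
    have h4 := congrArg (fun x : N => (x : Ω)) h3
    simp only [ZeroMemClass.coe_zero, AddSubmonoidClass.coe_finsetSum] at h4
    rw [← h4]
    refine Finset.sum_congr rfl fun i _ => ?_
    have h5 : c i * (D^[r]) (m i) = (⟨(D^[r]) (m i), hmr r i⟩ : N) • c i := by
      rw [Algebra.smul_def]
      exact mul_comm _ _
    rw [h5, map_smul, smul_eq_mul, mul_comm]
    rfl
  -- the shortest relation
  have key : ∀ (n : ℕ) (a : ι → Ω), (Finset.univ.filter fun i => a i ≠ 0).card ≤ n → (∀ i, a i ∈ N) →
      (∃ i, a i ≠ 0) → (∀ r : ℕ, ∑ i, a i * (D^[r]) (m i) = 0) →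
      ∃ a : ι → Ω, (∀ i, a i ∈ N ∧ D (a i) = 0) ∧ (∃ i, a i ≠ 0) ∧ ∑ i, a i * m i = 0 := by
    intro n
    induction n with
    | zero =>
      rintro a hcard - ⟨i, hi⟩ -
      have h3 : i ∈ Finset.univ.filter fun i => a i ≠ 0 := by
        rw [Finset.mem_filter]
        exact ⟨Finset.mem_univ i, hi⟩
      rw [Finset.card_eq_zero.1 (Nat.le_zero.1 hcard)] at h3
      exact absurd h3 (Finset.notMem_empty i)
    | succ n ih =>
      rintro a hcard haN ⟨j, hj⟩ har
      let b : ι → Ω := fun i => a i / a j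
      have hbN : ∀ i, b i ∈ N := fun i => div_mem (haN i) (haN j)
      have hbj : b j = 1 := div_self hj
      have hbr : ∀ r : ℕ, ∑ i, b i * (D^[r]) (m i) = 0 := by
        intro r
        have h3 : ∑ i, b i * (D^[r]) (m i) = (∑ i, a i * (D^[r]) (m i)) / a j := by
          rw [Finset.sum_div]
          refine Finset.sum_congr rfl fun i _ => ?_
          change a i / a j * _ = _
          ring
        rw [h3, har r, zero_div]
      by_cases hD : ∀ i, D (b i) = 0
      · refine ⟨b, fun i => ⟨hbN i, hD i⟩, ⟨j, ?_⟩, ?_⟩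
        · rw [hbj]
          exact one_ne_zero
        · exact hbr 0
      · push Not at hD
        refine ih (fun i => D (b i)) ?_ (fun i => hN _ (hbN i)) hD fun r => ?_
        · refine Nat.le_of_lt_succ (lt_of_lt_of_le (Finset.card_lt_card ?_) hcard)
          rw [Finset.ssubset_iff_of_subset]
          · refine ⟨j, ?_, ?_⟩
            · rw [Finset.mem_filter]
              exact ⟨Finset.mem_univ j, hj⟩
            · rw [Finset.mem_filter, hbj, D.map_one_eq_zero]
              exact fun hh => hh.2 rfl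
          · intro i hi
            rw [Finset.mem_filter] at hi ⊢
            refine ⟨hi.1, fun h3 => hi.2 ?_⟩
            change D (a i / a j) = 0
            rw [h3, zero_div, map_zero]
        · have h3 := congrArg D (hbr r)
          rw [map_sum, map_zero] at h3
          have h4 : ∀ i, D (b i * (D^[r]) (m i)) = b i * (D^[r + 1]) (m i) + D (b i) * (D^[r]) (m i) := by
            intro i
            rw [Function.iterate_succ_apply', Derivation.leibniz, smul_eq_mul, smul_eq_mul]
            ring
          rw [Finset.sum_congr rfl fun i _ => h4 i, Finset.sum_add_distrib, hbr (r + 1), zero_add] at h3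
          exact h3
  exact key _ (fun i => (φ (c i) : Ω)) le_rfl (fun i => (φ (c i)).2)
    ⟨i₀, fun hh => hφ (Subtype.ext hh)⟩ h2

theorem transc [CharZero Ω] (D : Derivation ℤ Ω Ω) {u : Ω} (hu : D u = 1) : Transcendental (constF D) u := by
  intro halg
  let D' : Derivation (constF D) Ω Ω :=
    { toLinearMap :=
        { toFun := D
          map_add' := map_add D
          map_smul' := fun z y => by
            rw [Algebra.smul_def, Derivation.leibniz, RingHom.id_apply]
            have h1 : D (algebraMap (constF D) Ω z) = 0 := z.2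
            rw [h1, smul_zero, add_zero, smul_eq_mul, Algebra.smul_def] }
      map_one_eq_zero' := D.map_one_eq_zero
      leibniz' := D.leibniz }
  have h0 := D'.map_aeval (minpoly (constF D) u) u
  rw [minpoly.aeval, map_zero] at h0
  have h1 : D' u = 1 := hu
  rw [h1, smul_eq_mul, mul_one] at h0
  have hC : CharZero (constF D) := (RingHom.charZero_iff (algebraMap (constF D) Ω).injective).2 inferInstance
  have hsep : (minpoly (constF D) u).Separable :=
    (minpoly.irreducible halg.isIntegral).separable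
  exact hsep.aeval_derivative_ne_zero (minpoly.aeval _ u) h0.symm

theorem rat_const [CharZero Ω] (D : Derivation ℤ Ω Ω) {N : Subfield Ω} (hN : Stb D N) {u α : Ω} (hu : D u = 1)
    (huN : u ∈ N) (hα : α ∈ N) (h : α ∈ adj (constF D) u) : α ∈ adj (N ⊓ constF D) u := by
  classical
  obtain ⟨p, q, hq0, hpq⟩ := (mem_adj _ _ _).1 h
  let n : ℕ := max p.natDegree q.natDegree + 1
  have hpn : p.natDegree < n := by omega
  have hqn : q.natDegree < n := by omega
  have hsum : ∀ f : Polynomial (constF D), f.natDegree < n →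
      aeval u f = ∑ i : Fin n, (f.coeff i : Ω) * u ^ (i : ℕ) := by
    intro f hf
    rw [aeval_eq_sum_range' hf, ← Fin.sum_univ_eq_sum_range (fun i => f.coeff i • u ^ i) n]
    refine Finset.sum_congr rfl fun i _ => ?_
    rw [Algebra.smul_def]
    rfl
  let m : Fin n ⊕ Fin n → Ω := Sum.elim (fun i => u ^ (i : ℕ)) (fun i => u ^ (i : ℕ) * α)
  let c : Fin n ⊕ Fin n → Ω := Sum.elim (fun i => -(p.coeff i : Ω)) (fun i => (q.coeff i : Ω))
  have hm : ∀ i, m i ∈ N := by
    rintro (i | i)
    · exact pow_mem huN _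
    · exact mul_mem (pow_mem huN _) hα
  have hc : ∀ i, D (c i) = 0 := by
    rintro (i | i)
    · change D (-(p.coeff i : Ω)) = 0
      rw [map_neg]
      have h1 : D (p.coeff i : Ω) = 0 := (p.coeff i).2
      rw [h1, neg_zero]
    · exact (q.coeff i).2
  have hq1 : q ≠ 0 := by
    rintro rfl
    exact hq0 (map_zero _)
  have hc0 : ∃ i, c i ≠ 0 := by
    refine ⟨Sum.inr ⟨q.natDegree, hqn⟩, ?_⟩
    change (q.coeff q.natDegree : Ω) ≠ 0
    intro hh
    exact hq1 (leadingCoeff_eq_zero.1 (Subtype.ext hh))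
  have hrel : ∑ i, c i * m i = 0 := by
    rw [Fintype.sum_sum_type]
    change ∑ i : Fin n, -(p.coeff i : Ω) * u ^ (i : ℕ) + ∑ i : Fin n, (q.coeff i : Ω) * (u ^ (i : ℕ) * α) = 0
    have h1 : ∑ i : Fin n, -(p.coeff i : Ω) * u ^ (i : ℕ) = -aeval u p := by
      rw [hsum p hpn, ← Finset.sum_neg_distrib]
      refine Finset.sum_congr rfl fun i _ => ?_
      ring
    have h2 : ∑ i : Fin n, (q.coeff i : Ω) * (u ^ (i : ℕ) * α) = α * aeval u q := by
      rw [hsum q hqn, Finset.mul_sum]
      refine Finset.sum_congr rfl fun i _ => ?_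
      ring
    rw [h1, h2, hpq]
    ring
  obtain ⟨a, ha, ha0, har⟩ := wron D N hN m hm c hc hc0 hrel
  let Z : Subfield Ω := N ⊓ constF D
  have haZ : ∀ i, a i ∈ Z := fun i => ⟨(ha i).1, (ha i).2⟩
  let p' : Polynomial Z := ∑ i : Fin n, C (-⟨a (Sum.inl i), haZ _⟩ : Z) * X ^ (i : ℕ)
  let q' : Polynomial Z := ∑ i : Fin n, C (⟨a (Sum.inr i), haZ _⟩ : Z) * X ^ (i : ℕ)
  have hp' : aeval u p' = -∑ i : Fin n, a (Sum.inl i) * u ^ (i : ℕ) := by
    rw [map_sum, ← Finset.sum_neg_distrib]
    refine Finset.sum_congr rfl fun i _ => ?_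
    rw [map_mul, aeval_C, map_pow, aeval_X, map_neg, neg_mul]
    rfl
  have hq' : aeval u q' = ∑ i : Fin n, a (Sum.inr i) * u ^ (i : ℕ) := by
    rw [map_sum]
    refine Finset.sum_congr rfl fun i _ => ?_
    rw [map_mul, aeval_C, map_pow, aeval_X]
    rfl
  have hpq' : α * aeval u q' = aeval u p' := by
    rw [Fintype.sum_sum_type] at har
    change ∑ i : Fin n, a (Sum.inl i) * u ^ (i : ℕ) + ∑ i : Fin n, a (Sum.inr i) * (u ^ (i : ℕ) * α) = 0 at har
    rw [hp', hq', Finset.mul_sum, eq_neg_iff_add_eq_zero, add_comm, ← har]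
    congr 1
    refine Finset.sum_congr rfl fun i _ => ?_
    ring
  have htr : ∀ (f : Fin n → Z), aeval u (∑ i : Fin n, C (f i) * X ^ (i : ℕ) : Polynomial Z) = 0 → ∀ i, f i = 0 := by
    intro f hf i
    have hZ : Transcendental Z u := by
      intro hh
      exact transc D hu (alg_mono inf_le_right hh)
    have h1 : (∑ i : Fin n, C (f i) * X ^ (i : ℕ) : Polynomial Z) = 0 := by
      by_contra hne
      exact hZ ⟨_, hne, hf⟩
    have h2 := congrArg (fun g : Polynomial Z => g.coeff (i : ℕ)) h1
    simp only [finsetSum_coeff, coeff_C_mul, coeff_X_pow, coeff_zero] at h2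
    rw [Finset.sum_eq_single i] at h2
    · simpa using h2
    · intro j _ hj
      rw [if_neg (fun hh => hj (Fin.ext hh.symm)), mul_zero]
    · exact fun hh => absurd (Finset.mem_univ i) hh
  refine (mem_adj _ _ _).2 ⟨p', q', fun hq0' => ?_, hpq'⟩
  have h1 := htr _ hq0'
  rw [hq0', mul_zero] at hpq'
  have h2 := htr _ hpq'.symm
  obtain ⟨i | i, hi⟩ := ha0
  · apply hi
    have h3 := congrArg (fun x : Z => (x : Ω)) (h2 i)
    simpa using h3
  · exact hi (congrArg (fun x : Z => (x : Ω)) (h1 i))

end Pool.Agent.H83.TK.BZ
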