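import Pool.Agent.H83.TK.BzB
import Pool.Agent.H24.TU.DerEx

/-!
# [H83 TK BzC] THEOREM K: derivations and algebraic elements

* `D_aeval`: the derivative of `p(a)`.
* `stb_alg`: a field of algebraic elements over a stable field is stable.
* `const_alg`: a constant which is algebraic over a stable field is algebraic over its constants.
* `adj_stb`: `A(u)` is stable if `A` consists of constants and `D u = 1`; `const_adj`: its constants are in `A`.
* `exists_der`: a derivation which kills `B` with `D u = 1`, `u` transcendental over `B`.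
* `ac_adj`: if `A` is algebraically closed in `B` then `A(u)` in `B(u)`.
-/

set_option autoImplicit false

namespace Pool.Agent.H83.TK.BZ

open Polynomial

variable {Ω : Type} [Field Ω]

theorem D_aeval (D : Derivation ℤ Ω Ω) (A : Subfield Ω) (p : Polynomial A) (a : Ω) :
    D (aeval a p) = ∑ i ∈ Finset.range (p.natDegree + 1), D (p.coeff i : Ω) * a ^ i +
      aeval a (derivative p) * D a := by
  have h1 : ∀ n : ℕ, D (a ^ n) = aeval a (derivative (X ^ n : Polynomial A)) * D a := by
    intro n
    rw [Derivation.leibniz_pow, derivative_X_pow, map_mul, aeval_C, map_pow, aeval_X, smul_eq_mul, nsmul_eq_mul,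
      map_natCast, mul_assoc]
  have h2 : aeval a (derivative p) =
      ∑ i ∈ Finset.range (p.natDegree + 1), (p.coeff i : Ω) * aeval a (derivative (X ^ i : Polynomial A)) := by
    conv_lhs => rw [p.as_sum_range_C_mul_X_pow]
    rw [derivative_sum, map_sum]
    refine Finset.sum_congr rfl fun i _ => ?_
    rw [derivative_C_mul, map_mul, aeval_C]
    rfl
  have h3 : aeval a p = ∑ i ∈ Finset.range (p.natDegree + 1), (p.coeff i : Ω) * a ^ i := by
    rw [aeval_eq_sum_range]
    refine Finset.sum_congr rfl fun i _ => ?_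
    rw [Algebra.smul_def]
    rfl
  rw [h3, map_sum, h2, Finset.sum_mul, ← Finset.sum_add_distrib]
  refine Finset.sum_congr rfl fun i _ => ?_
  rw [Derivation.leibniz, h1, smul_eq_mul, smul_eq_mul]
  ring

theorem charZero_sub [CharZero Ω] (A : Subfield Ω) : CharZero A :=
  (RingHom.charZero_iff (algebraMap A Ω).injective).2 inferInstance

theorem alg_pderiv [CharZero Ω] {A : Subfield Ω} {a : Ω} (ha : IsAlgebraic A a) :
    aeval a (derivative (minpoly A a)) ≠ 0 := by
  have hC : CharZero A := charZero_sub A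
  exact (minpoly.irreducible ha.isIntegral).separable.aeval_derivative_ne_zero (minpoly.aeval _ a)

theorem stb_alg [CharZero Ω] (D : Derivation ℤ Ω Ω) {F N : Subfield Ω} (hF : Stb D F) (hFN : F ≤ N)
    (halg : ∀ a ∈ N, IsAlgebraic F a) : Stb D N := by
  intro a ha
  have h1 := D_aeval D F (minpoly F a) a
  rw [minpoly.aeval, map_zero] at h1
  have h2 := alg_pderiv (halg a ha)
  have h3 : D a = -(∑ i ∈ Finset.range ((minpoly F a).natDegree + 1), D ((minpoly F a).coeff i : Ω) * a ^ i) /
      aeval a (derivative (minpoly F a)) := by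
    rw [eq_div_iff h2]
    linear_combination -h1
  rw [h3]
  refine div_mem (neg_mem (sum_mem fun i _ => ?_)) (aeval_mem hFN ha _)
  exact mul_mem (hFN (hF _ ((minpoly F a).coeff i).2)) (pow_mem ha i)

theorem const_alg (D : Derivation ℤ Ω Ω) {F : Subfield Ω} (hF : Stb D F) {a : Ω} (ha : IsAlgebraic F a)
    (hD : D a = 0) : IsAlgebraic (F ⊓ constF D : Subfield Ω) a := by
  set p := minpoly F a with hp
  have hmon : p.Monic := minpoly.monic ha.isIntegral
  have h1 := D_aeval D F p a
  rw [minpoly.aeval, map_zero, hD, mul_zero, add_zero, Finset.sum_range_succ] at h1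
  have h2 : D (p.coeff p.natDegree : Ω) = 0 := by
    have h3 : p.coeff p.natDegree = 1 := hmon
    rw [h3]
    exact D.map_one_eq_zero
  rw [h2, zero_mul, add_zero] at h1
  let g : Polynomial F := ∑ i ∈ Finset.range p.natDegree, C (⟨D (p.coeff i : Ω), hF _ (p.coeff i).2⟩ : F) * X ^ i
  have hg : aeval a g = 0 := by
    rw [h1, map_sum]
    refine Finset.sum_congr rfl fun i _ => ?_
    rw [map_mul, aeval_C, map_pow, aeval_X]
    rfl
  have hgd : g.degree < p.degree := by
    rw [degree_eq_natDegree hmon.ne_zero]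
    refine (degree_sum_le _ _).trans_lt ?_
    rw [Finset.sup_lt_iff (WithBot.bot_lt_coe _)]
    intro i hi
    refine (degree_C_mul_X_pow_le _ _).trans_lt ?_
    exact_mod_cast Finset.mem_range.1 hi
  have hg0 : g = 0 := by
    by_contra hne
    exact absurd (minpoly.degree_le_of_ne_zero F a hne hg) (not_le.2 hgd)
  have hco : ∀ i, D (p.coeff i : Ω) = 0 := by
    intro i
    rcases lt_trichotomy i p.natDegree with hi | hi | hi
    · have h3 := congrArg (fun f : Polynomial F => f.coeff i) hg0
      simp only [g, finsetSum_coeff, coeff_C_mul, coeff_X_pow, coeff_zero] at h3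
      rw [Finset.sum_eq_single i] at h3
      · rw [if_pos rfl, mul_one] at h3
        exact congrArg (fun x : F => (x : Ω)) h3
      · intro j _ hj
        rw [if_neg (fun hh => hj hh.symm), mul_zero]
      · exact fun hh => absurd (Finset.mem_range.2 hi) hh
    · rw [hi]
      exact h2
    · rw [coeff_eq_zero_of_natDegree_lt hi]
      exact map_zero D
  rw [alg_iff]
  refine ⟨p.map (algebraMap F Ω), ?_, fun i => ?_, ?_⟩
  · rw [Ne, Polynomial.map_eq_zero]
    exact hmon.ne_zero
  · rw [coeff_map]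
    exact ⟨(p.coeff i).2, hco i⟩
  · rw [eval_map_algebraMap, minpoly.aeval]

theorem adj_stb (D : Derivation ℤ Ω Ω) {A : Subfield Ω} (hA : A ≤ constF D) {u : Ω} (hu : D u = 1) :
    Stb D (adj A u) := by
  have h1 : ∀ p : Polynomial A, D (aeval u p) ∈ adj A u := by
    intro p
    rw [D_aeval, hu, mul_one]
    refine add_mem (sum_mem fun i _ => ?_) (aeval_mem (le_adj A u) (self_adj A u) _)
    have h2 : D (p.coeff i : Ω) = 0 := hA (p.coeff i).2
    rw [h2, zero_mul]
    exact zero_mem _
  intro b hb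
  obtain ⟨p, q, hq, hpq⟩ := (mem_adj A u b).1 hb
  have h2 := congrArg D hpq
  rw [Derivation.leibniz, smul_eq_mul, smul_eq_mul] at h2
  have h3 : D b = (D (aeval u p) - b * D (aeval u q)) / aeval u q := by
    rw [eq_div_iff hq]
    linear_combination h2
  rw [h3]
  exact div_mem (sub_mem (h1 p) (mul_mem hb (h1 q))) (aeval_mem (le_adj A u) (self_adj A u) _)

theorem const_adj [CharZero Ω] (D : Derivation ℤ Ω Ω) {A : Subfield Ω} (hA : A ≤ constF D) {u c : Ω}
    (hu : D u = 1) (hc : c ∈ adj A u) (hDc : D c = 0) : c ∈ A := by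
  obtain ⟨p, q, hq, hpq⟩ := (mem_adj A u c).1 hc
  let i : A →+* constF D := Subfield.inclusion hA
  have hi : ∀ f : Polynomial A, aeval u (f.map i) = aeval u f := by
    intro f
    rw [← eval_map_algebraMap, ← eval_map_algebraMap, Polynomial.map_map]
    rfl
  have h1 : C (⟨c, hDc⟩ : constF D) * q.map i = p.map i := by
    rw [← sub_eq_zero]
    by_contra hne
    refine transc D hu ⟨_, hne, ?_⟩
    rw [map_sub, map_mul, aeval_C, hi, hi, ← hpq, sub_eq_zero]
    rfl
  have hq0 : q ≠ 0 := by
    rintro rfl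
    exact hq (map_zero _)
  have h2 := congrArg (fun f : Polynomial (constF D) => (f.coeff q.natDegree : Ω)) h1
  simp only [coeff_C_mul, coeff_map] at h2
  have h3 : c * (q.coeff q.natDegree : Ω) = (p.coeff q.natDegree : Ω) := h2
  have h4 : (q.coeff q.natDegree : Ω) ≠ 0 := fun hh => hq0 (leadingCoeff_eq_zero.1 (Subtype.ext hh))
  have h5 : c = (p.coeff q.natDegree : Ω) / (q.coeff q.natDegree : Ω) := by
    rw [eq_div_iff h4, h3]
  rw [h5]
  exact div_mem (p.coeff q.natDegree).2 (q.coeff q.natDegree).2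

theorem exists_der [CharZero Ω] (B : Subfield Ω) {u : Ω} (hu : Transcendental B u) :
    ∃ D : Derivation ℤ Ω Ω, B ≤ constF D ∧ D u = 1 := by
  classical
  have hC : CharZero B := charZero_sub B
  have h1 : AlgebraicIndepOn B id ({u} : Set Ω) :=
    algebraicIndependent_unique_type_iff.2 hu
  obtain ⟨t, hst, ht⟩ := exists_isTranscendenceBasis_superset h1
  obtain ⟨D, hD⟩ := H24.TU.exists_derivation ht (fun _ => (1 : Ω))
  refine ⟨D.restrictScalars ℤ, fun b hb => ?_, ?_⟩
  · exact D.map_algebraMap (⟨b, hb⟩ : B)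
  · exact hD ⟨u, hst rfl⟩

/-- the algebraic closure of a subfield -/
def acl (A : Subfield Ω) : Subfield Ω := (algebraicClosure A Ω).toSubfield

theorem mem_acl (A : Subfield Ω) (b : Ω) : b ∈ acl A ↔ IsAlgebraic A b := by
  change b ∈ algebraicClosure A Ω ↔ _
  exact mem_algebraicClosure_iff

theorem le_acl (A : Subfield Ω) : A ≤ acl A := fun a ha => (mem_acl A a).2 (isAlgebraic_algebraMap (⟨a, ha⟩ : A))

theorem ac_adj [CharZero Ω] {A B : Subfield Ω} (hAB : A ≤ B) {u : Ω} (hu : Transcendental B u) (h : AC A B) :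
    AC (adj A u) (adj B u) := by
  obtain ⟨D, hB, hDu⟩ := exists_der B hu
  have hA := hAB.trans hB
  have hs1 : Stb D (adj A u) := adj_stb D hA hDu
  have hs2 : Stb D (acl (adj A u)) := stb_alg D hs1 (le_acl _) fun a ha => (mem_acl _ a).1 ha
  have hs3 : Stb D (adj B u) := adj_stb D hB hDu
  have hs4 : Stb D (acl (adj A u) ⊓ adj B u) := fun a ha => ⟨hs2 a ha.1, hs3 a ha.2⟩
  intro b hb halg
  have h1 : b ∈ adj ((acl (adj A u) ⊓ adj B u) ⊓ constF D) u :=
    rat_const D hs4 hDu ⟨le_acl _ (self_adj A u), self_adj B u⟩ ⟨(mem_acl _ b).2 halg, hb⟩ (adj_mono hB u hb)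
  have h2 : (acl (adj A u) ⊓ adj B u) ⊓ constF D ≤ A := by
    rintro c ⟨⟨hc1, hc2⟩, hc3⟩
    have h3 := const_alg D hs1 ((mem_acl _ c).1 hc1) hc3
    have h4 : adj A u ⊓ constF D ≤ A := fun x hx => const_adj D hA hDu hx.1 hx.2
    exact h c (const_adj D hB hDu hc2 hc3) (alg_mono h4 h3)
  exact adj_mono h2 u h1

end Pool.Agent.H83.TK.BZ
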