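import Mathlib

/-!
# [H83 TK BzD] THEOREM K: a valuation ring and its Gauss extension

`exists_val`: `w, z` algebraically independent over `A` (in `B`): there is a valuation ring of `B` which contains `A(w)` and
has `z` in its maximal ideal.
`exists_place`: `V` a valuation ring of `B`, `t ∈ Ω` transcendental over `B`, `M` a subfield of `Ω` whose elements are
`f(t) / g(t)` with `f, g ∈ V[X]`, `g` not zero in the residue field `κ`: a homomorphism `M → κ(T)`.
-/

set_option autoImplicit false

namespace Pool.Agent.H83.TK.BZ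

open Polynomial

section val

variable {A B : Type} [Field A] [Field B] [Algebra A B]

private theorem val_aux (w z : B)
    (hind : ∀ P : A[X][X], P.eval₂ ((aeval w : A[X] →ₐ[A] B) : A[X] →+* B) z = 0 → P = 0)
    (I : Ideal A[X][X]) (hI' : I = Ideal.span {X}) [hI : I.IsPrime] (L : Type) [CommRing L] [Algebra A[X][X] L]
    [IsLocalization.AtPrime L I] :
    ∃ V : ValuationSubring B, (∀ p : A[X], p ≠ 0 → aeval w p ∈ V ∧ (aeval w p)⁻¹ ∈ V) ∧ z ∈ V ∧ z⁻¹ ∉ V := by
  let ψ : A[X][X] →+* B := eval₂RingHom ((aeval w : A[X] →ₐ[A] B) : A[X] →+* B) z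
  have hψ : ∀ P, ψ P = 0 → P = 0 := hind
  have hL : IsLocalRing L := IsLocalization.AtPrime.isLocalRing L I
  have hu : ∀ y : I.primeCompl, IsUnit (ψ y) := by
    intro y
    rw [isUnit_iff_ne_zero]
    intro h0
    apply y.2
    rw [hψ _ h0]
    exact I.zero_mem
  let f : L →+* B := IsLocalization.lift (M := I.primeCompl) hu
  have hf : ∀ P : A[X][X], f (algebraMap _ _ P) = ψ P := fun P => IsLocalization.lift_eq hu P
  obtain ⟨V, hV, hloc⟩ := IsLocalRing.exists_factor_valuationRing f
  refine ⟨V, fun p hp => ?_, ?_, ?_⟩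
  · have h1 : (C p : A[X][X]) ∈ I.primeCompl := by
      intro h2
      rw [hI'] at h2
      have h3 : (X : A[X][X]) ∣ C p := Ideal.mem_span_singleton.1 h2
      rw [X_dvd_iff, coeff_C_zero] at h3
      exact hp h3
    have h2 : ψ (C p) = aeval w p := by
      change eval₂ _ _ (C p) = _
      rw [eval₂_C]
      rfl
    have h3 : IsUnit (algebraMap A[X][X] L (C p)) :=
      IsLocalization.map_units L (⟨C p, h1⟩ : I.primeCompl)
    have h4 := h3.map (f.codRestrict V.toSubring hV)
    obtain ⟨b, hb⟩ := h4.exists_right_inv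
    have h5 : (aeval w p) * (b : B) = 1 := by
      have h6 := congrArg (fun x : V.toSubring => (x : B)) hb
      rw [← h2, ← hf]
      exact h6
    constructor
    · rw [← h2, ← hf]
      exact hV _
    · rw [inv_eq_of_mul_eq_one_right h5]
      exact b.2
  · have h2 : ψ X = z := eval₂_X _ _
    rw [← h2, ← hf]
    exact hV _
  · intro hz
    have h2 : ψ X = z := eval₂_X _ _
    have hz0 : z ≠ 0 := by
      rintro rfl
      exact X_ne_zero (hψ _ h2)
    have h3 : IsUnit ((f.codRestrict V.toSubring hV) (algebraMap A[X][X] L X)) := by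
      refine IsUnit.of_mul_eq_one ⟨z⁻¹, hz⟩ (Subtype.ext ?_)
      change f (algebraMap _ _ X) * z⁻¹ = 1
      rw [hf, h2, mul_inv_cancel₀ hz0]
    have h4 := hloc.map_nonunit _ h3
    rw [IsLocalization.AtPrime.isUnit_to_map_iff L I] at h4
    apply h4
    rw [hI']
    exact Ideal.mem_span_singleton_self X

theorem exists_val (w z : B)
    (hind : ∀ P : A[X][X], P.eval₂ ((aeval w : A[X] →ₐ[A] B) : A[X] →+* B) z = 0 → P = 0) :
    ∃ V : ValuationSubring B, (∀ p : A[X], p ≠ 0 → aeval w p ∈ V ∧ (aeval w p)⁻¹ ∈ V) ∧ z ∈ V ∧ z⁻¹ ∉ V := by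
  have hI : (Ideal.span {X} : Ideal A[X][X]).IsPrime := (Ideal.span_singleton_prime X_ne_zero).2 prime_X
  exact val_aux w z hind (Ideal.span {X}) rfl (Localization.AtPrime (Ideal.span {X} : Ideal A[X][X]))

end val

section place

variable {B Ω : Type} [Field B] [Field Ω] [Algebra B Ω]

/-- evaluation at `t` of the polynomials with coefficients in a valuation ring -/
noncomputable def evV (V : ValuationSubring B) (t : Ω) : Polynomial V →+* Ω :=
  eval₂RingHom ((algebraMap B Ω).comp V.subtype) t

theorem evV_X (V : ValuationSubring B) (t : Ω) : evV V t X = t := eval₂_X _ _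

theorem evV_C (V : ValuationSubring B) (t : Ω) (v : V) : evV V t (C v) = algebraMap B Ω v := eval₂_C _ _

theorem evV_inj (V : ValuationSubring B) {t : Ω} (ht : Transcendental B t) : Function.Injective (evV V t) := by
  rw [injective_iff_map_eq_zero]
  intro f hf
  have h1 : aeval t (f.map V.subtype) = 0 := by
    rw [← hf]
    change _ = eval₂ _ _ f
    rw [aeval_def, eval₂_map]
  have h2 : f.map V.subtype = 0 := by
    by_contra hne
    exact ht ⟨_, hne, h1⟩
  exact (Polynomial.map_eq_zero_iff (f := V.subtype) Subtype.val_injective).1 h2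

/-- reduction of polynomials -/
noncomputable def redV (V : ValuationSubring B) : Polynomial V →+* Polynomial (IsLocalRing.ResidueField V) :=
  mapRingHom (IsLocalRing.residue V)

/-- the elements which are regular for the Gauss extension -/
def Reg (V : ValuationSubring B) (t m : Ω) : Prop :=
  ∃ f g : Polynomial V, redV V g ≠ 0 ∧ m * evV V t g = evV V t f

theorem exists_place (V : ValuationSubring B) {t : Ω} (ht : Transcendental B t) (M : Subfield Ω)
    (hM : ∀ m ∈ M, Reg V t m) :
    ∃ φ : M →+* FractionRing (Polynomial (IsLocalRing.ResidueField V)),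
      ∀ (m : M) (f g : Polynomial V), redV V g ≠ 0 → (m : Ω) * evV V t g = evV V t f →
        φ m * algebraMap _ _ (redV V g) = algebraMap _ _ (redV V f) := by
  classical
  have hM' : ∀ m : M, ∃ f g : Polynomial V, redV V g ≠ 0 ∧ (m : Ω) * evV V t g = evV V t f := fun m => hM m m.2
  choose f g hg hfg using hM'
  let κX := Polynomial (IsLocalRing.ResidueField V)
  let a : κX →+* FractionRing κX := algebraMap κX (FractionRing κX)
  have ha : ∀ p, p ≠ 0 → a p ≠ 0 := fun p hp hh =>
    hp ((injective_iff_map_eq_zero a).1 (IsFractionRing.injective κX (FractionRing κX)) p hh)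
  have huniq : ∀ (m : M) (f' g' : Polynomial V), redV V g' ≠ 0 → (m : Ω) * evV V t g' = evV V t f' →
      a (redV V (f m)) / a (redV V (g m)) * a (redV V g') = a (redV V f') := by
    intro m f' g' hg' hfg'
    have h1 : f m * g' = f' * g m := by
      apply evV_inj V ht
      rw [map_mul, map_mul, ← hfg, ← hfg']
      ring
    have h2 : a (redV V (f m)) * a (redV V g') = a (redV V f') * a (redV V (g m)) := by
      rw [← map_mul, ← map_mul, h1, map_mul, map_mul]
    have h3 := ha _ (hg m)
    field_simp
    rw [h2]
    ring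
  have hval : ∀ (m : M) (x : FractionRing κX) (f' g' : Polynomial V), redV V g' ≠ 0 →
      (m : Ω) * evV V t g' = evV V t f' → x * a (redV V g') = a (redV V f') →
      a (redV V (f m)) / a (redV V (g m)) = x := by
    intro m x f' g' h1 h2 h3
    have h4 := huniq m f' g' h1 h2
    rw [← h3] at h4
    exact mul_right_cancel₀ (ha _ h1) h4
  refine ⟨{ toFun := fun m => a (redV V (f m)) / a (redV V (g m))
            map_one' := ?_
            map_mul' := ?_
            map_zero' := ?_
            map_add' := ?_ }, ?_⟩
  · refine hval 1 1 1 1 ?_ ?_ ?_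
    · rw [map_one]
      exact one_ne_zero
    · rw [map_one]
      simp
    · rw [map_one, map_one, one_mul]
  · intro m m'
    refine hval (m * m') _ (f m * f m') (g m * g m') ?_ ?_ ?_
    · rw [map_mul]
      exact mul_ne_zero (hg m) (hg m')
    · rw [map_mul, map_mul, ← hfg m, ← hfg m']
      push_cast
      ring
    · have h1 := ha _ (hg m)
      have h2 := ha _ (hg m')
      rw [map_mul, map_mul, map_mul, map_mul]
      field_simp
  · refine hval 0 0 0 1 ?_ ?_ ?_
    · rw [map_one]
      exact one_ne_zero
    · rw [map_zero]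
      simp
    · rw [map_zero, map_zero, zero_mul]
  · intro m m'
    refine hval (m + m') _ (f m * g m' + f m' * g m) (g m * g m') ?_ ?_ ?_
    · rw [map_mul]
      exact mul_ne_zero (hg m) (hg m')
    · rw [map_add, map_mul, map_mul, map_mul, ← hfg m, ← hfg m']
      push_cast
      ring
    · have h1 := ha _ (hg m)
      have h2 := ha _ (hg m')
      rw [map_mul, map_add, map_mul, map_mul, map_mul, map_add, map_mul, map_mul]
      field_simp
  · exact huniq

end place

end Pool.Agent.H83.TK.BZ
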