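import Pool.Agent.H83.TK.BzC
import Pool.Agent.H83.TK.BzD

/-!
# [H83 TK BzE] THEOREM K: algebraic elements are regular for the Gauss extension

`A ≤ B` subfields of `Ω`, `w, z ∈ B` algebraically independent over `A`, `t` transcendental over `B`, `u = w + t * z`.
`V` a valuation ring of `B` from `exists_val`.  The elements of `B(t)` which are algebraic over `A(t, u)` are regular.
-/

set_option autoImplicit false

namespace Pool.Agent.H83.TK.BZ

open Polynomial

section frac

variable {R Ω : Type} [CommRing R] [IsDomain R] [Field Ω]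

/-- the subfield of the fractions of the image of a domain -/
noncomputable def frF (γ : R →+* Ω) (hγ : Function.Injective γ) : Subfield Ω :=
  (IsFractionRing.lift (K := FractionRing R) hγ).fieldRange

theorem mem_frF (γ : R →+* Ω) (hγ : Function.Injective γ) (r : R) : γ r ∈ frF γ hγ := by
  refine ⟨algebraMap R (FractionRing R) r, ?_⟩
  exact IsFractionRing.lift_algebraMap hγ r

theorem alg_down (γ : R →+* Ω) (hγ : Function.Injective γ) {F : Subfield Ω} (hF : F ≤ frF γ hγ) {m : Ω}
    (hm : IsAlgebraic F m) : ∃ y : R, y ≠ 0 ∧ γ.IsIntegralElem (γ y * m) := by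
  let θ : FractionRing R →+* Ω := IsFractionRing.lift (K := FractionRing R) hγ
  have hθ : ∀ r, θ (algebraMap R _ r) = γ r := fun r => IsFractionRing.lift_algebraMap hγ r
  let _ : Algebra R Ω := γ.toAlgebra
  let _ : Algebra (FractionRing R) Ω := θ.toAlgebra
  have hst : IsScalarTower R (FractionRing R) Ω := IsScalarTower.of_algebraMap_eq fun r => (hθ r).symm
  have h1 : IsAlgebraic (FractionRing R) m := by
    obtain ⟨p, hp, h1, h2⟩ := (alg_iff F m).1 hm
    have h3 : p ∈ Polynomial.lifts θ := by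
      rw [Polynomial.lifts_iff_coeff_lifts]
      intro i
      exact hF (h1 i)
    obtain ⟨q, hq⟩ := (Polynomial.mem_lifts _).1 h3
    refine ⟨q, ?_, ?_⟩
    · rintro rfl
      apply hp
      rw [← hq, Polynomial.map_zero]
    · rw [← hq, eval_map] at h2
      exact h2
  have h2 : IsAlgebraic R m := (IsFractionRing.isAlgebraic_iff R (FractionRing R) Ω).2 h1
  obtain ⟨y, hy, h3⟩ := h2.exists_integral_multiple
  refine ⟨y, hy, ?_⟩
  have h4 : y • m = γ y * m := Algebra.smul_def y m
  rw [h4] at h3
  exact h3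

theorem int_range [IsIntegrallyClosed R] (γ : R →+* Ω) (hγ : Function.Injective γ) {x : Ω} (hx : x ∈ frF γ hγ)
    (hint : γ.IsIntegralElem x) : ∃ r, γ r = x := by
  let θ : FractionRing R →+* Ω := IsFractionRing.lift (K := FractionRing R) hγ
  have hθ : ∀ r, θ (algebraMap R _ r) = γ r := fun r => IsFractionRing.lift_algebraMap hγ r
  obtain ⟨c, hc⟩ : ∃ c, θ c = x := hx
  let _ : Algebra R Ω := γ.toAlgebra
  let θ' : FractionRing R →ₐ[R] Ω := { θ with commutes' := hθ }
  have h1 : IsIntegral R (θ' c) := by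
    change IsIntegral R (θ c)
    rw [hc]
    exact hint
  have h2 : IsIntegral R c := (isIntegral_algHom_iff θ' θ.injective).1 h1
  obtain ⟨r, hr⟩ := IsIntegrallyClosed.isIntegral_iff.1 h2
  exact ⟨r, by rw [← hθ, hr, hc]⟩

end frac

section reg

variable {Ω : Type} [Field Ω]

/-- algebraic independence of `w, z` over `A` -/
def Ind (A : Subfield Ω) (w z : Ω) : Prop :=
  ∀ P : (Polynomial A)[X], P.eval₂ ((aeval w : Polynomial A →ₐ[A] Ω) : Polynomial A →+* Ω) z = 0 → P = 0

/-- a valuation ring of `B` -/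
structure Val (A B : Subfield Ω) (hAB : A ≤ B) (w z : Ω) (hw : w ∈ B) (hz : z ∈ B) (V : ValuationSubring B) : Prop where
  tr : ∀ p : Polynomial A, p ≠ 0 → aeval w p ≠ 0
  un : ∀ (p : Polynomial A) (x : B), (x : Ω) = aeval w p → p ≠ 0 → x ∈ V ∧ x⁻¹ ∈ V
  mem : (⟨z, hz⟩ : B) ∈ V
  nun : (⟨z, hz⟩ : B)⁻¹ ∉ V

theorem exists_valS {A B : Subfield Ω} (hAB : A ≤ B) {w z : Ω} (hw : w ∈ B) (hz : z ∈ B) (h : Ind A w z) :
    ∃ V : ValuationSubring B, Val A B hAB w z hw hz V := by
  let i : A →+* B := Subfield.inclusion hAB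
  let _ : Algebra A B := i.toAlgebra
  have h1 : ∀ p : Polynomial A, ((aeval (⟨w, hw⟩ : B) p : B) : Ω) = aeval w p := by
    intro p
    have h2 := Polynomial.hom_eval₂ p i B.subtype (⟨w, hw⟩ : B)
    exact h2
  obtain ⟨V, hV1, hV2, hV3⟩ := exists_val (A := A) (B := B) ⟨w, hw⟩ ⟨z, hz⟩ (by
    intro P hP
    apply h
    have h2 := congrArg B.subtype hP
    rw [Polynomial.hom_eval₂, map_zero] at h2
    rw [← h2]
    congr 1
    exact RingHom.ext fun p => (h1 p).symm)
  refine ⟨V, ⟨fun p hp hp0 => hp (by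
    have h4 := h (C p) (by rw [eval₂_C]; exact hp0)
    rwa [C_eq_zero] at h4), fun p x hx hp => ?_, hV2, hV3⟩⟩
  have h3 : x = aeval (⟨w, hw⟩ : B) p := Subtype.ext (by rw [hx, h1])
  rw [h3]
  exact hV1 p hp

theorem t_reg [CharZero Ω] {A B : Subfield Ω} (hAB : A ≤ B) {w z t : Ω} (hw : w ∈ B) (hz : z ∈ B)
    (ht : Transcendental B t) {V : ValuationSubring B} (hV : Val A B hAB w z hw hz V) {m : Ω} (hm : m ∈ adj B t)
    (halg : IsAlgebraic (adj (adj A t) (w + t * z)) m) : Reg V t m := by
  have hwV : (⟨w, hw⟩ : B) ∈ V := (hV.un X ⟨w, hw⟩ (by rw [aeval_X]) X_ne_zero).1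
  have hAV : ∀ a : A, (⟨a, hAB a.2⟩ : B) ∈ V := by
    intro a
    by_cases ha : a = 0
    · have h1 : (⟨a, hAB a.2⟩ : B) = 0 := Subtype.ext (by rw [ha]; rfl)
      rw [h1]
      exact zero_mem V
    · exact (hV.un (C a) ⟨a, hAB a.2⟩ (by rw [aeval_C]; rfl) (by rwa [Ne, C_eq_zero])).1
  let w' : V := ⟨⟨w, hw⟩, hwV⟩
  let z' : V := ⟨⟨z, hz⟩, hV.mem⟩
  let σ₁ : A →+* V :=
    { toFun := fun a => ⟨⟨a, hAB a.2⟩, hAV a⟩
      map_one' := rfl
      map_mul' := fun _ _ => rfl
      map_zero' := rfl
      map_add' := fun _ _ => rfl }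
  let η₀ : Polynomial A →+* Polynomial V := eval₂RingHom (C.comp σ₁) (C w' + X * C z')
  let η : (Polynomial A)[X] →+* Polynomial V := eval₂RingHom η₀ X
  have hη : ∀ P, P ≠ 0 → redV V (η P) ≠ 0 := by
    intro P hP
    let σ : Polynomial A →+* IsLocalRing.ResidueField V :=
      eval₂RingHom ((IsLocalRing.residue V).comp σ₁) (IsLocalRing.residue V w')
    have hσ : Function.Injective σ := by
      rw [injective_iff_map_eq_zero]
      intro p hp
      by_contra hp0
      have h1 : σ p = IsLocalRing.residue V (p.eval₂ σ₁ w') := (Polynomial.hom_eval₂ p σ₁ (IsLocalRing.residue V) w').symm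
      have h2 : ((p.eval₂ σ₁ w' : V) : Ω) = aeval w p := by
        have h3 := Polynomial.hom_eval₂ p σ₁ (B.subtype.comp V.subtype) w'
        exact h3
      obtain ⟨h3, h4⟩ := hV.un p (p.eval₂ σ₁ w' : V) h2 hp0
      have h5 : ((p.eval₂ σ₁ w' : V) : B) ≠ 0 := by
        intro h6
        apply hV.tr p hp0
        rw [← h2, h6]
        rfl
      have h6 : IsUnit (p.eval₂ σ₁ w') := by
        refine IsUnit.of_mul_eq_one ⟨_, h4⟩ (Subtype.ext ?_)
        exact mul_inv_cancel₀ h5
      rw [h1, IsLocalRing.residue_eq_zero_iff] at hp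
      exact hp h6
    have h1 : (redV V).comp η = mapRingHom σ := by
      have hz0 : IsLocalRing.residue V z' = 0 := by
        rw [IsLocalRing.residue_eq_zero_iff, IsLocalRing.mem_maximalIdeal, mem_nonunits_iff]
        intro hu
        obtain ⟨y, hy⟩ := hu.exists_right_inv
        apply hV.nun
        have h2 : (⟨z, hz⟩ : B) * (y : B) = 1 := congrArg (fun v : V => (v : B)) hy
        rw [inv_eq_of_mul_eq_one_right h2]
        exact y.2
      apply Polynomial.ringHom_ext
      · intro p
        have h3 : ((redV V).comp η) (C p) = redV V (η₀ p) := by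
          change redV V (eval₂ η₀ X (C p)) = _
          rw [eval₂_C]
        rw [h3]
        have h4 : (redV V).comp η₀ = C.comp σ := by
          apply Polynomial.ringHom_ext
          · intro a
            change redV V (eval₂ (C.comp σ₁) (C w' + X * C z') (C a)) = C (eval₂ _ _ (C a))
            rw [eval₂_C, eval₂_C]
            change Polynomial.map _ (C _) = _
            rw [Polynomial.map_C]
            rfl
          · change redV V (eval₂ (C.comp σ₁) (C w' + X * C z') X) = C (eval₂ _ _ X)
            rw [eval₂_X, eval₂_X]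
            change Polynomial.map _ (C w' + X * C z') = _
            rw [Polynomial.map_add, Polynomial.map_mul, Polynomial.map_C, Polynomial.map_C, hz0, C_0, mul_zero,
              add_zero]
        have h5 := RingHom.congr_fun h4 p
        change redV V (η₀ p) = C (σ p) at h5
        rw [h5]
        change _ = Polynomial.map σ (C p)
        rw [Polynomial.map_C]
      · change redV V (eval₂ η₀ X X) = Polynomial.map σ X
        rw [eval₂_X, Polynomial.map_X]
        exact Polynomial.map_X _
    have h2 : redV V (η P) = Polynomial.map σ P := RingHom.congr_fun h1 P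
    rw [h2]
    exact (Polynomial.map_ne_zero_iff hσ).2 hP
  have hev : Function.Injective (evV V t) := evV_inj V ht
  have hη1 : Function.Injective η := by
    rw [injective_iff_map_eq_zero]
    intro P hP
    by_contra hne
    apply hη P hne
    rw [hP, map_zero]
  let γ : (Polynomial A)[X] →+* Ω := (evV V t).comp η
  have hγ : Function.Injective γ := hev.comp hη1
  have hγC : ∀ p : Polynomial A, γ (C p) = evV V t (η₀ p) := by
    intro p
    change evV V t (eval₂ η₀ X (C p)) = _
    rw [eval₂_C]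
  have hF : adj (adj A t) (w + t * z) ≤ frF γ hγ := by
    refine adj_le (adj_le (fun a ha => ?_) ?_) ?_
    · have h1 : γ (C (C ⟨a, ha⟩)) = a := by
        rw [hγC]
        change evV V t (eval₂ (C.comp σ₁) (C w' + X * C z') (C _)) = _
        rw [eval₂_C]
        change evV V t (C _) = _
        rw [evV_C]
        rfl
      rw [← h1]
      exact mem_frF γ hγ _
    · have h1 : γ X = t := by
        change evV V t (eval₂ η₀ X X) = _
        rw [eval₂_X, evV_X]
      rw [← h1]
      exact mem_frF γ hγ _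
    · have h1 : γ (C X) = w + t * z := by
        rw [hγC]
        change evV V t (eval₂ (C.comp σ₁) (C w' + X * C z') X) = _
        rw [eval₂_X, map_add, map_mul, evV_C, evV_C, evV_X]
        rfl
      rw [← h1]
      exact mem_frF γ hγ _
  obtain ⟨y, hy, hint⟩ := alg_down γ hγ hF halg
  have hint2 : (evV V t).IsIntegralElem (γ y * m) := hint.of_comp
  have hB : adj B t ≤ frF (evV V t) hev := by
    refine adj_le (fun b hb => ?_) ?_
    · by_cases hbV : (⟨b, hb⟩ : B) ∈ V
      · have h1 := mem_frF (evV V t) hev (C ⟨⟨b, hb⟩, hbV⟩)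
        rw [evV_C] at h1
        exact h1
      · have hbV' := (V.mem_or_inv_mem ⟨b, hb⟩).resolve_left hbV
        have h1 := mem_frF (evV V t) hev (C ⟨(⟨b, hb⟩ : B)⁻¹, hbV'⟩)
        rw [evV_C] at h1
        have h2 := inv_mem h1
        have h3 : (algebraMap B Ω (⟨b, hb⟩ : B)⁻¹)⁻¹ = b := by
          rw [map_inv₀, inv_inv]
          rfl
        change (algebraMap B Ω (⟨b, hb⟩ : B)⁻¹)⁻¹ ∈ _ at h2
        rwa [h3] at h2
    · have h1 := mem_frF (evV V t) hev X
      rwa [evV_X] at h1
  have hmem : γ y * m ∈ frF (evV V t) hev := mul_mem (mem_frF (evV V t) hev (η y)) (hB hm)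
  obtain ⟨f, hf⟩ := int_range (evV V t) hev hmem hint2
  exact ⟨f, η y, hη y hy, by rw [hf]; exact mul_comm _ _⟩

end reg

end Pool.Agent.H83.TK.BZ
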