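import Pool.Agent.H83.TK.BzE

/-!
# [H83 TK BzF] THEOREM K: the lemma of Bertini and Zariski

`zar`: `A` algebraically closed in `B`, `w, z ∈ B` algebraically independent over `A`, `t` transcendental over `B`,
characteristic `0`: `A(t, w + t z)` is algebraically closed in `B(t)`.
-/

set_option autoImplicit false

namespace Pool.Agent.H83.TK.BZ

open Polynomial

variable {Ω : Type} [Field Ω]

theorem Ind.ne {A : Subfield Ω} {w z : Ω} (h : Ind A w z) : z ≠ 0 := by
  intro hz
  have h1 := h X (by rw [eval₂_X, hz])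
  exact X_ne_zero h1

theorem alg_sub {B : Subfield Ω} {w z t : Ω} (hw : w ∈ B) (hz : z ∈ B) (hz0 : z ≠ 0)
    (ht : Transcendental B t) : Transcendental B (w + t * z) := by
  intro h
  apply ht
  have h1 : IsAlgebraic B w := isAlgebraic_algebraMap (⟨w, hw⟩ : B)
  have h2 : IsAlgebraic B z := isAlgebraic_algebraMap (⟨z, hz⟩ : B)
  have h3 := (h.sub h1).mul h2.inv
  have h4 : (w + t * z - w) * z⁻¹ = t := by
    field_simp
    ring
  rwa [h4] at h3

theorem adj_lin {B : Subfield Ω} {w z t : Ω} (hw : w ∈ B) (hz : z ∈ B) (hz0 : z ≠ 0) :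
    adj B (w + t * z) = adj B t := by
  apply le_antisymm
  · exact adj_le (le_adj B t) (add_mem (le_adj B t hw) (mul_mem (self_adj B t) (le_adj B t hz)))
  · refine adj_le (le_adj B _) ?_
    have h4 : t = (w + t * z - w) / z := by
      field_simp
      ring
    have h5 := div_mem (sub_mem (self_adj B (w + t * z)) (le_adj B (w + t * z) hw)) (le_adj B (w + t * z) hz)
    rwa [← h4] at h5

theorem comap_map {M A : Subfield Ω} (h : A ≤ M) : (A.comap M.subtype).map M.subtype = A := by
  apply Subfield.map_comap_eq_self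
  rwa [Subfield.fieldRange_subtype]

theorem zar [CharZero Ω] {A B : Subfield Ω} (hAB : A ≤ B) {w z t : Ω} (hw : w ∈ B) (hz : z ∈ B)
    (hind : Ind A w z) (ht : Transcendental B t) (hAC : AC A B) :
    AC (adj (adj A t) (w + t * z)) (adj B t) := by
  obtain ⟨V, hV⟩ := exists_valS hAB hw hz hind
  have hz0 := hind.ne
  set u := w + t * z with hu
  have hut : Transcendental B u := alg_sub hw hz hz0 ht
  have hBu : adj B u = adj B t := adj_lin hw hz hz0
  let M : Subfield Ω := acl (adj (adj A t) u) ⊓ adj B t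
  have hAt : adj (adj A t) u ≤ adj B t := by
    refine adj_le (adj_mono hAB t) ?_
    rw [← hBu]
    exact self_adj B u
  have hFM : adj (adj A t) u ≤ M := le_inf (le_acl _) hAt
  obtain ⟨φ, hφ⟩ := exists_place V ht M fun m hm => t_reg hAB hw hz ht hV hm.2 ((mem_acl _ m).1 hm.1)
  let κX := Polynomial (IsLocalRing.ResidueField V)
  let Λ := FractionRing κX
  let a : κX →+* Λ := algebraMap κX Λ
  have hainj : Function.Injective a := IsFractionRing.injective κX Λ
  have hM0 : CharZero M := charZero_sub M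
  have hΛ : CharZero Λ := charZero_of_injective_ringHom φ.injective
  let T : Λ := a X
  let C₀ : Subfield Λ := (a.comp C).fieldRange
  have hT : Transcendental C₀ T := by
    intro hh
    obtain ⟨p, hp, h1, h2⟩ := (alg_iff C₀ T).1 hh
    have h3 : p ∈ Polynomial.lifts (a.comp C) := by
      rw [Polynomial.lifts_iff_coeff_lifts]
      intro i
      exact h1 i
    obtain ⟨q, hq⟩ := (Polynomial.mem_lifts _).1 h3
    rw [← hq, eval_map] at h2
    have h4 : a (eval₂ C X q) = 0 := by
      rw [Polynomial.hom_eval₂]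
      exact h2
    rw [eval₂_C_X] at h4
    have h5 : q = 0 := hainj (h4.trans (map_zero a).symm)
    apply hp
    rw [← hq, h5, Polynomial.map_zero]
  obtain ⟨D, hD, hDT⟩ := exists_der C₀ hT
  have hAM : A ≤ M := (le_adj A t).trans ((le_adj _ u).trans hFM)
  have htM : t ∈ M := hFM (le_adj _ u (self_adj A t))
  have huM : u ∈ M := hFM (self_adj _ u)
  have hone : redV V 1 ≠ 0 := by
    rw [map_one]
    exact one_ne_zero
  have hval : ∀ (m : M) (f : Polynomial V), (m : Ω) = evV V t f → φ m = a (redV V f) := by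
    intro m f hf
    have h1 := hφ m f 1 hone (by rw [map_one, mul_one, hf])
    rw [map_one, map_one, mul_one] at h1
    exact h1
  have hwV : (⟨w, hw⟩ : B) ∈ V := (hV.un X ⟨w, hw⟩ (by rw [aeval_X]) X_ne_zero).1
  have hAV : ∀ x (hx : x ∈ A), (⟨x, hAB hx⟩ : B) ∈ V := by
    intro x hx
    by_cases ha : x = 0
    · have h1 : (⟨x, hAB hx⟩ : B) = 0 := Subtype.ext ha
      rw [h1]
      exact zero_mem V
    · refine (hV.un (C ⟨x, hx⟩) ⟨x, hAB hx⟩ (by rw [aeval_C]; rfl) ?_).1
      rw [Ne, C_eq_zero]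
      exact fun hh => ha (congrArg Subtype.val hh)
  let tM : M := ⟨t, htM⟩
  let uM : M := ⟨u, huM⟩
  have hφt : φ tM = T := by
    rw [hval tM X (by rw [evV_X])]
    change a (Polynomial.map _ X) = _
    rw [Polynomial.map_X]
  have hφu : φ uM ∈ C₀ := by
    let w' : V := ⟨⟨w, hw⟩, hwV⟩
    let z' : V := ⟨⟨z, hz⟩, hV.mem⟩
    have hz1 : IsLocalRing.residue V z' = 0 := by
      rw [IsLocalRing.residue_eq_zero_iff, IsLocalRing.mem_maximalIdeal, mem_nonunits_iff]
      intro hu
      obtain ⟨y, hy⟩ := hu.exists_right_inv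
      apply hV.nun
      have h2 : (⟨z, hz⟩ : B) * (y : B) = 1 := congrArg (fun v : V => (v : B)) hy
      rw [inv_eq_of_mul_eq_one_right h2]
      exact y.2
    rw [hval uM (C w' + X * C z') (by
      rw [map_add, map_mul, evV_C, evV_C, evV_X]
      rfl)]
    change a (Polynomial.map _ (C w' + X * C z')) ∈ _
    rw [Polynomial.map_add, Polynomial.map_mul, Polynomial.map_C, Polynomial.map_C, hz1, C_0, mul_zero, add_zero]
    exact ⟨_, rfl⟩
  have hφA : ∀ x (hx : x ∈ A), φ ⟨x, hAM hx⟩ ∈ C₀ := by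
    intro x hx
    rw [hval ⟨x, hAM hx⟩ (C ⟨⟨x, hAB hx⟩, hAV x hx⟩) (by rw [evV_C]; rfl)]
    change a (Polynomial.map _ (C _)) ∈ _
    rw [Polynomial.map_C]
    exact ⟨_, rfl⟩
  have haT : ∀ p : κX, a p ∈ adj C₀ T := by
    intro p
    have h1 : a p = eval₂ (a.comp C) T p := by
      have h2 := Polynomial.hom_eval₂ p C a X
      rw [eval₂_C_X] at h2
      exact h2
    rw [h1, eval₂_eq_sum_range]
    refine sum_mem fun i _ => mul_mem (le_adj C₀ T ⟨_, rfl⟩) (pow_mem (self_adj C₀ T) i)
  have hφM : ∀ m : M, φ m ∈ adj C₀ T := by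
    intro m
    obtain ⟨f, g, hg, hfg⟩ := t_reg hAB hw hz ht hV m.2.2 ((mem_acl _ _).1 m.2.1)
    have h1 := hφ m f g hg hfg
    have h2 : a (redV V g) ≠ 0 := fun hh => hg (hainj (hh.trans (map_zero a).symm))
    have h3 : φ m = a (redV V f) / a (redV V g) := by
      rw [eq_div_iff h2]
      exact h1
    rw [h3]
    exact div_mem (haT _) (haT _)
  -- the subfields of `M`
  let j : M →+* Ω := M.subtype
  let AM : Subfield M := A.comap j
  have hjA : AM.map j = A := comap_map hAM
  have hjF : (adj (adj AM tM) uM).map j = adj (adj A t) u := by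
    rw [map_adj, map_adj, hjA]
    rfl
  have hju : (adj AM uM).map j = adj A u := by
    rw [map_adj, hjA]
    rfl
  let A' : Subfield Λ := AM.map φ
  have hA' : A' ≤ C₀ := by
    intro x hx
    obtain ⟨y, hy, rfl⟩ := Subfield.mem_map.1 hx
    exact hφA (y : Ω) hy
  have hA'u : adj A' (φ uM) ≤ C₀ := adj_le hA' hφu
  have hF' : (adj (adj AM tM) uM).map φ = adj (adj A' (φ uM)) T := by
    rw [map_adj, map_adj, hφt, adj_comm]
  have hS1 : Stb D (adj (adj A' (φ uM)) T) := adj_stb D (hA'u.trans hD) hDT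
  have hS2 : Stb D φ.fieldRange := by
    refine stb_alg D hS1 ?_ ?_
    · rw [← hF']
      intro x hx
      obtain ⟨y, -, rfl⟩ := Subfield.mem_map.1 hx
      exact ⟨y, rfl⟩
    · rintro _ ⟨m, rfl⟩
      rw [← hF', alg_map, ← alg_map j, hjF]
      exact (mem_acl _ _).1 m.2.1
  intro α hα halg
  let αM : M := ⟨α, (mem_acl _ _).2 halg, hα⟩
  have h1 : φ αM ∈ adj (φ.fieldRange ⊓ constF D) T :=
    rat_const D hS2 hDT ⟨tM, hφt⟩ ⟨αM, rfl⟩ (adj_mono hD T (hφM αM))
  have h2 : φ.fieldRange ⊓ constF D ≤ adj A' (φ uM) := by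
    rintro c ⟨⟨c₀, rfl⟩, hc⟩
    have h3 : IsAlgebraic (adj (adj A' (φ uM)) T) (φ c₀) := by
      rw [← hF', alg_map, ← alg_map j, hjF]
      exact (mem_acl _ _).1 c₀.2.1
    have h4 := const_alg D hS1 h3 hc
    have h5 : adj (adj A' (φ uM)) T ⊓ constF D ≤ adj A' (φ uM) := fun x hx =>
      const_adj D (hA'u.trans hD) hDT hx.1 hx.2
    have h6 := alg_mono h5 h4
    have h7 : adj A' (φ uM) = (adj AM uM).map φ := by
      rw [map_adj]
    rw [h7, alg_map, ← alg_map j, hju] at h6
    have h8 : j c₀ ∈ adj A u := by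
      refine ac_adj hAB hut hAC _ ?_ h6
      rw [hBu]
      exact c₀.2.2
    rw [← hju, Subfield.map_mem_map] at h8
    rw [h7, Subfield.map_mem_map]
    exact h8
  have h3 : φ αM ∈ (adj (adj AM uM) tM).map φ := by
    rw [map_adj, map_adj, hφt]
    exact adj_mono h2 T h1
  rw [Subfield.map_mem_map, ← Subfield.map_mem_map j, map_adj, map_adj, hjA, adj_comm] at h3
  exact h3

end Pool.Agent.H83.TK.BZ
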