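import Pool.Agent.H83.TK.BzF

/-!
# [H83 TK BzG] THEOREM K: the lemma of Bertini and Zariski, several variables

* `ind_iff`: algebraic independence of `w, z` over `A` by coefficients.
* `ind_adj`: `w, z` algebraically independent over `A`, `w, z, y ∈ B`, `l` transcendental over `B`: `w + l y, z` are
  algebraically independent over `A(l)`.
* `zar_list`: the lemma of Bertini and Zariski for a list of variables.
-/

set_option autoImplicit false

namespace Pool.Agent.H83.TK.BZ

open Polynomial

variable {Ω : Type} [Field Ω]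

theorem ind_coeff {A : Subfield Ω} {w z : Ω} (h : Ind A w z) (N : ℕ) (c : ℕ → ℕ → A)
    (hc : ∑ j ∈ Finset.range N, (∑ i ∈ Finset.range N, (c i j : Ω) * w ^ i) * z ^ j = 0) :
    ∀ i < N, ∀ j < N, c i j = 0 := by
  let P : (Polynomial A)[X] := ∑ j ∈ Finset.range N, C (∑ i ∈ Finset.range N, C (c i j) * X ^ i) * X ^ j
  have h1 : P = 0 := by
    apply h
    rw [eval₂_finsetSum, ← hc]
    refine Finset.sum_congr rfl fun j _ => ?_
    rw [eval₂_mul, eval₂_C, eval₂_pow, eval₂_X]
    congr 1
    change aeval w _ = _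
    rw [map_sum]
    refine Finset.sum_congr rfl fun i _ => ?_
    rw [map_mul, aeval_C, map_pow, aeval_X]
    rfl
  intro i hi j hj
  have h2 := congrArg (fun f : (Polynomial A)[X] => (f.coeff j).coeff i) h1
  simp only [P, finsetSum_coeff, coeff_C_mul, coeff_X_pow, coeff_zero] at h2
  rw [Finset.sum_eq_single j] at h2
  · rw [if_pos rfl, mul_one, finsetSum_coeff, Finset.sum_eq_single i] at h2
    · rw [coeff_C_mul, coeff_X_pow, if_pos rfl, mul_one] at h2
      exact h2
    · intro k _ hk
      rw [coeff_C_mul, coeff_X_pow, if_neg (fun hh => hk hh.symm), mul_zero]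
    · exact fun hh => absurd (Finset.mem_range.2 hi) hh
  · intro k _ hk
    rw [if_neg (fun hh => hk hh.symm), mul_zero, coeff_zero]
  · exact fun hh => absurd (Finset.mem_range.2 hj) hh

theorem ind_of {A : Subfield Ω} {w z : Ω}
    (h : ∀ (N : ℕ) (c : ℕ → ℕ → A),
      ∑ j ∈ Finset.range N, (∑ i ∈ Finset.range N, (c i j : Ω) * w ^ i) * z ^ j = 0 →
        ∀ i < N, ∀ j < N, c i j = 0) : Ind A w z := by
  intro P hP
  let N : ℕ := max (P.natDegree + 1) ((Finset.range (P.natDegree + 1)).sup (fun j => (P.coeff j).natDegree) + 1)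
  have hN1 : P.natDegree < N := lt_of_lt_of_le (Nat.lt_succ_self _) (le_max_left _ _)
  have hN2 : ∀ j, (P.coeff j).natDegree < N := by
    intro j
    by_cases hj : j ≤ P.natDegree
    · have h1 : (P.coeff j).natDegree ≤ (Finset.range (P.natDegree + 1)).sup (fun j => (P.coeff j).natDegree) :=
        Finset.le_sup (f := fun j => (P.coeff j).natDegree) (Finset.mem_range.2 (Nat.lt_succ_of_le hj))
      exact lt_of_lt_of_le (Nat.lt_succ_of_le h1) (le_max_right _ _)
    · rw [coeff_eq_zero_of_natDegree_lt (not_le.1 hj), natDegree_zero]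
      exact lt_of_le_of_lt (Nat.zero_le _) hN1
  have h1 := h N (fun i j => (P.coeff j).coeff i) (by
    rw [← hP, eval₂_eq_sum_range' _ hN1]
    refine Finset.sum_congr rfl fun j _ => ?_
    congr 1
    change _ = aeval w (P.coeff j)
    rw [aeval_eq_sum_range' (hN2 j)]
    refine Finset.sum_congr rfl fun i _ => ?_
    rw [Algebra.smul_def]
    rfl)
  ext j i
  rw [coeff_zero, coeff_zero]
  by_cases hj : j < N
  · by_cases hi : i < N
    · rw [h1 i hi j hj]
    · rw [coeff_eq_zero_of_natDegree_lt (lt_of_lt_of_le (hN2 j) (not_lt.1 hi))]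
  · rw [coeff_eq_zero_of_natDegree_lt (lt_of_lt_of_le hN1 (not_lt.1 hj)), coeff_zero]

/-- a common denominator -/
theorem common_den {A : Subfield Ω} {l : Ω} {ι : Type} (s : Finset ι) (c : ι → Ω) (hc : ∀ i, c i ∈ adj A l) :
    ∃ d : Polynomial A, aeval l d ≠ 0 ∧ ∃ p : ι → Polynomial A, ∀ i ∈ s, c i * aeval l d = aeval l (p i) := by
  classical
  induction s using Finset.induction_on with
  | empty => exact ⟨1, by rw [map_one]; exact one_ne_zero, fun _ => 0, fun i hi => absurd hi (Finset.notMem_empty i)⟩
  | insert a s ha ih =>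
    obtain ⟨d, hd, p, hp⟩ := ih
    obtain ⟨r, q, hq, hr⟩ := (mem_adj _ _ _).1 (hc a)
    refine ⟨d * q, ?_, fun i => if i = a then r * d else p i * q, fun i hi => ?_⟩
    · rw [map_mul]
      exact mul_ne_zero hd hq
    · beta_reduce
      by_cases hia : i = a
      · rw [if_pos hia, hia, map_mul, map_mul, ← hr]
        ring
      · have his : i ∈ s := (Finset.mem_insert.1 hi).resolve_left hia
        rw [if_neg hia, map_mul, map_mul, ← hp i his]
        ring

theorem ind_adj {A B : Subfield Ω} (hAB : A ≤ B) {w z y l : Ω} (hw : w ∈ B) (hz : z ∈ B) (hy : y ∈ B)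
    (hl : Transcendental B l) (h : Ind A w z) : Ind (adj A l) (w + l * y) z := by
  have hl0 : l ≠ 0 := by
    rintro rfl
    exact hl isAlgebraic_zero
  apply ind_of
  intro N c hc
  -- the claim for polynomials
  have key : ∀ (n : ℕ) (p : ℕ → ℕ → Polynomial A), (∀ i j k, n ≤ k → (p i j).coeff k = 0) →
      ∑ j ∈ Finset.range N, (∑ i ∈ Finset.range N, aeval l (p i j) * (w + l * y) ^ i) * z ^ j = 0 →
      ∀ i < N, ∀ j < N, p i j = 0 := by
    intro n
    induction n with
    | zero =>
      intro p hp _ i _ j _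
      ext k
      rw [hp i j k (Nat.zero_le k), coeff_zero]
    | succ n ih =>
      intro p hp hrel
      let ι : A →+* B := Subfield.inclusion hAB
      let Q : Polynomial B := ∑ j ∈ Finset.range N, (∑ i ∈ Finset.range N,
        (p i j).map ι * (C ⟨w, hw⟩ + X * C ⟨y, hy⟩) ^ i) * C (⟨z, hz⟩ : B) ^ j
      have hmap : ∀ f : Polynomial A, aeval l (f.map ι) = aeval l f := by
        intro f
        rw [← eval_map_algebraMap, ← eval_map_algebraMap, Polynomial.map_map]
        rfl
      have hQ : Q = 0 := by
        by_contra hne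
        refine hl ⟨Q, hne, ?_⟩
        rw [map_sum, ← hrel]
        refine Finset.sum_congr rfl fun j _ => ?_
        rw [map_mul, map_pow, aeval_C, map_sum]
        congr 1
        refine Finset.sum_congr rfl fun i _ => ?_
        rw [map_mul, hmap, map_pow, map_add, map_mul, aeval_C, aeval_C, aeval_X]
        rfl
      have hQ0 := congrArg (fun f : Polynomial B => ((f.eval 0 : B) : Ω)) hQ
      have h0 : ∀ i < N, ∀ j < N, (p i j).coeff 0 = 0 := by
        apply ind_coeff h N (fun i j => (p i j).coeff 0)
        have h1 : ((Q.eval 0 : B) : Ω) = 0 := by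
          rw [hQ, eval_zero]
          rfl
        rw [← h1]
        change _ = B.subtype (Q.eval 0)
        rw [eval_finsetSum, map_sum]
        refine Finset.sum_congr rfl fun j _ => ?_
        rw [eval_mul, eval_pow, eval_C, map_mul, map_pow, eval_finsetSum, map_sum]
        congr 1
        refine Finset.sum_congr rfl fun i _ => ?_
        rw [eval_mul, eval_pow, eval_add, eval_mul, eval_C, eval_C, eval_X, zero_mul, add_zero, map_mul, map_pow,
          ← coeff_zero_eq_eval_zero, coeff_map]
        rfl
      have h2 : ∀ i < N, ∀ j < N, p i j = divX (p i j) * X := by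
        intro i hi j hj
        have h3 := divX_mul_X_add (p i j)
        rw [h0 i hi j hj, C_0, add_zero] at h3
        exact h3.symm
      have h3 := ih (fun i j => divX (p i j)) (fun i j k hk => by
        rw [coeff_divX]
        exact hp i j (k + 1) (Nat.succ_le_succ hk)) (by
        have h4 : l * ∑ j ∈ Finset.range N, (∑ i ∈ Finset.range N, aeval l (divX (p i j)) * (w + l * y) ^ i) * z ^ j = 0 := by
          rw [← hrel, Finset.mul_sum]
          refine Finset.sum_congr rfl fun j hj => ?_
          rw [← mul_assoc, Finset.mul_sum]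
          congr 1
          refine Finset.sum_congr rfl fun i hi => ?_
          have h5 := congrArg (aeval l) (h2 i (Finset.mem_range.1 hi) j (Finset.mem_range.1 hj))
          rw [map_mul, aeval_X] at h5
          rw [h5]
          ring
        exact (mul_eq_zero.1 h4).resolve_left hl0)
      intro i hi j hj
      rw [h2 i hi j hj, h3 i hi j hj, zero_mul]
  -- clear the denominators
  obtain ⟨d, hd, p, hp⟩ := common_den (A := A) (l := l) (Finset.range N ×ˢ Finset.range N)
    (fun q : ℕ × ℕ => (c q.1 q.2 : Ω)) (fun q => (c q.1 q.2).2)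
  let p' : ℕ → ℕ → Polynomial A := fun i j => if i < N ∧ j < N then p (i, j) else 0
  have hp' : ∀ i < N, ∀ j < N, (c i j : Ω) * aeval l d = aeval l (p' i j) := by
    intro i hi j hj
    change _ = aeval l (if i < N ∧ j < N then p (i, j) else 0)
    rw [if_pos ⟨hi, hj⟩]
    exact hp (i, j) (Finset.mem_product.2 ⟨Finset.mem_range.2 hi, Finset.mem_range.2 hj⟩)
  let n : ℕ := (Finset.range N ×ˢ Finset.range N).sup (fun q => (p q).natDegree) + 1
  have hn : ∀ i j k, n ≤ k → (p' i j).coeff k = 0 := by
    intro i j k hk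
    change (if i < N ∧ j < N then p (i, j) else 0).coeff k = 0
    by_cases hij : i < N ∧ j < N
    · rw [if_pos hij]
      apply coeff_eq_zero_of_natDegree_lt
      have h1 : (p (i, j)).natDegree ≤ (Finset.range N ×ˢ Finset.range N).sup (fun q => (p q).natDegree) :=
        Finset.le_sup (f := fun q => (p q).natDegree)
          (Finset.mem_product.2 ⟨Finset.mem_range.2 hij.1, Finset.mem_range.2 hij.2⟩)
      omega
    · rw [if_neg hij, coeff_zero]
  have h1 := key n p' hn (by
    have h2 : (∑ j ∈ Finset.range N, (∑ i ∈ Finset.range N, (c i j : Ω) * (w + l * y) ^ i) * z ^ j) *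
        aeval l d = 0 := by
      rw [hc, zero_mul]
    rw [← h2, Finset.sum_mul]
    refine Finset.sum_congr rfl fun j hj => ?_
    have h5 : ∑ i ∈ Finset.range N, aeval l (p' i j) * (w + l * y) ^ i =
        (∑ i ∈ Finset.range N, (c i j : Ω) * (w + l * y) ^ i) * aeval l d := by
      rw [Finset.sum_mul]
      refine Finset.sum_congr rfl fun i hi => ?_
      rw [← hp' i (Finset.mem_range.1 hi) j (Finset.mem_range.1 hj)]
      ring
    rw [h5]
    ring)
  intro i hi j hj
  have h3 := hp' i hi j hj
  rw [h1 i hi j hj, map_zero] at h3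
  exact Subtype.ext ((mul_eq_zero.1 h3).resolve_right hd)

/-- adjunction of a list of elements -/
def adL : Subfield Ω → List Ω → Subfield Ω
  | A, [] => A
  | A, l :: L => adL (adj A l) L

/-- a list of algebraically independent elements -/
def TrL : Subfield Ω → List Ω → Prop
  | _, [] => True
  | B, l :: L => Transcendental B l ∧ TrL (adj B l) L

theorem zar_list [CharZero Ω] (L : List (Ω × Ω)) : ∀ {A B : Subfield Ω}, A ≤ B → AC A B → ∀ {w z t : Ω}, w ∈ B →
    z ∈ B → Ind A w z → (∀ p ∈ L, p.2 ∈ B) → TrL B (L.map Prod.fst) →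
    Transcendental (adL B (L.map Prod.fst)) t →
    AC (adj (adj (adL A (L.map Prod.fst)) t) (w + (L.map fun p : Ω × Ω => p.1 * p.2).sum + t * z))
      (adj (adL B (L.map Prod.fst)) t) := by
  induction L with
  | nil =>
    intro A B hAB hAC w z t hw hz hind _ _ ht
    simp only [List.map_nil, List.sum_nil, add_zero, adL] at ht ⊢
    exact zar hAB hw hz hind ht hAC
  | cons p L ih =>
    intro A B hAB hAC w z t hw hz hind hy hTr ht
    obtain ⟨h1, h2⟩ := hTr
    have h3 := ih (adj_mono hAB p.1) (ac_adj hAB h1 hAC) (w := w + p.1 * p.2) (z := z) (t := t)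
      (add_mem (le_adj B _ hw) (mul_mem (self_adj B _) (le_adj B _ (hy p List.mem_cons_self))))
      (le_adj B _ hz) (ind_adj hAB hw hz (hy p List.mem_cons_self) h1 hind)
      (fun q hq => le_adj B _ (hy q (List.mem_cons_of_mem p hq))) h2 ht
    have h4 : w + ((p :: L).map fun p : Ω × Ω => p.1 * p.2).sum + t * z =
        w + p.1 * p.2 + (L.map fun p : Ω × Ω => p.1 * p.2).sum + t * z := by
      rw [List.map_cons, List.sum_cons]
      ring
    rw [h4]
    exact h3

end Pool.Agent.H83.TK.BZ
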