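import Pool.Agent.H83.TK.GsC
import Pool.Agent.H83.TK.BzG

/-!
# [H83 TK GsD] THEOREM K, chapter T1d: `k' = k(l)` is algebraically closed in the function field of the generic member

`gs_alg`: if `k` is algebraically closed of characteristic `0` and two quotients `s none / s (some j)`,
`s (some i₀) / s (some j)` are algebraically independent over `k` then `k'` is algebraically closed in `κ(z)`.
`gs_main_one`: the generic member `C` of the linear system, with `h0 (1 : Cart C) 1 = 1`.
-/

set_option autoImplicit false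

namespace Pool.Agent.H83.TK.BZ

section lists

variable {Ω : Type} [Field Ω]

theorem le_adL (L : List Ω) : ∀ A : Subfield Ω, A ≤ adL A L := by
  induction L with
  | nil => exact fun A => le_rfl
  | cons a L ih => exact fun A => (le_adj A a).trans (ih _)

theorem mem_adL (L : List Ω) : ∀ (A : Subfield Ω), ∀ a ∈ L, a ∈ adL A L := by
  induction L with
  | nil => exact fun A a ha => absurd ha List.not_mem_nil
  | cons b L ih =>
    intro A a ha
    rcases List.mem_cons.1 ha with rfl | ha
    · exact le_adL L _ (self_adj A a)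
    · exact ih _ a ha

theorem adL_le (L : List Ω) : ∀ {A N : Subfield Ω}, A ≤ N → (∀ a ∈ L, a ∈ N) → adL A L ≤ N := by
  induction L with
  | nil => exact fun h _ => h
  | cons b L ih =>
    intro A N h hL
    exact ih (adj_le h (hL b List.mem_cons_self)) fun a ha => hL a (List.mem_cons_of_mem b ha)

theorem alg_frac {R : Type} [CommRing R] [IsDomain R] (γ : R →+* Ω) (hγ : Function.Injective γ) {F : Subfield Ω}
    (hF : F ≤ frF γ hγ) {m : Ω} (hm : IsAlgebraic F m) : ∃ P : Polynomial R, P ≠ 0 ∧ P.eval₂ γ m = 0 := by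
  obtain ⟨y, hy, p, hp1, hp2⟩ := alg_down γ hγ hF hm
  have hcomp : p.comp (Polynomial.C y * Polynomial.X) ≠ 0 := by
    intro h1
    rw [Polynomial.comp_eq_zero_iff] at h1
    rcases h1 with h1 | h1
    · exact hp1.ne_zero h1
    · have h2 := congrArg (fun f : Polynomial R => f.coeff 1) h1.2
      simp only [Polynomial.coeff_C_mul, Polynomial.coeff_X_one, mul_one, Polynomial.coeff_C_succ] at h2
      exact hy h2
  refine ⟨p.comp (Polynomial.C y * Polynomial.X), hcomp, ?_⟩
  rw [Polynomial.eval₂_comp, Polynomial.eval₂_mul, Polynomial.eval₂_C, Polynomial.eval₂_X]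
  exact hp2

theorem closure_le_frF {R : Type} [CommRing R] [IsDomain R] (γ : R →+* Ω) (hγ : Function.Injective γ) :
    Subfield.closure (Set.range γ) ≤ frF γ hγ := by
  rw [Subfield.closure_le]
  rintro _ ⟨r, rfl⟩
  exact mem_frF γ hγ r

/-- algebraic independence gives lists of transcendental elements -/
theorem trL_of {K ι : Type} [Field K] [Algebra K Ω] {x : ι → Ω} (hx : AlgebraicIndependent K x) (L : List ι) :
    ∀ (s : Set ι) (F : Subfield Ω), F ≤ Subfield.closure (Algebra.adjoin K (x '' s) : Set Ω) → L.Nodup →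
      (∀ i ∈ L, i ∉ s) → TrL F (L.map x) ∧
      ∀ i, i ∉ s → i ∉ L → Transcendental (adL F (L.map x)) (x i) := by
  have key : ∀ (s : Set ι) (F : Subfield Ω), F ≤ Subfield.closure (Algebra.adjoin K (x '' s) : Set Ω) →
      ∀ i, i ∉ s → Transcendental F (x i) := by
    intro s F hF i hi halg
    let S := Algebra.adjoin K (x '' s)
    let γ : S →+* Ω := S.val
    have hγ : Function.Injective γ := Subtype.val_injective
    have h1 : F ≤ frF γ hγ := by
      refine hF.trans ?_
      have h2 : (Algebra.adjoin K (x '' s) : Set Ω) = Set.range γ := by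
        ext a
        exact ⟨fun ha => ⟨⟨a, ha⟩, rfl⟩, fun ⟨b, hb⟩ => hb ▸ b.2⟩
      rw [h2]
      exact closure_le_frF γ hγ
    obtain ⟨P, hP, h2⟩ := alg_frac γ hγ h1 halg
    exact hx.transcendental_adjoin hi ⟨P, hP, h2⟩
  induction L with
  | nil =>
    intro s F hF _ _
    exact ⟨trivial, fun i hi _ => key s F hF i hi⟩
  | cons a L ih =>
    intro s F hF hnd hs
    have ha := hs a List.mem_cons_self
    have h1 : adj F (x a) ≤ Subfield.closure (Algebra.adjoin K (x '' (insert a s)) : Set Ω) := by
      refine adj_le (hF.trans ?_) ?_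
      · apply Subfield.closure_mono
        exact Algebra.adjoin_mono (Set.image_mono (Set.subset_insert a s))
      · apply Subfield.subset_closure
        exact Algebra.subset_adjoin ⟨a, Set.mem_insert a s, rfl⟩
    obtain ⟨hnd1, hnd2⟩ := List.nodup_cons.1 hnd
    obtain ⟨h2, h3⟩ := ih (insert a s) (adj F (x a)) h1 hnd2 (fun i hi hh => by
      rcases hh with rfl | hh
      · exact hnd1 hi
      · exact hs i (List.mem_cons_of_mem a hi) hh)
    refine ⟨⟨key s F hF a ha, h2⟩, fun i hi hL => ?_⟩
    refine h3 i ?_ fun hh => hL (List.mem_cons_of_mem a hh)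
    rintro (rfl | hh)
    · exact hL List.mem_cons_self
    · exact hi hh

end lists

section fields

open MvPolynomial

variable {k K k' Ω : Type} [Field k] [Field K] [Field k'] [Field Ω] [Algebra k K] [Algebra k k'] [Algebra k' Ω]
  {σ : Type} [Fintype σ]

/-- independence by polynomials in two variables -/
theorem ind_of_alg (φ : K →+* Ω) {w z : K} (h : AlgebraicIndependent k ![w, z]) :
    Ind ((algebraMap k K).fieldRange.map φ) (φ w) (φ z) := by
  classical
  apply ind_of
  intro N c hc
  have h1 : ∀ i j, ∃ a : k, φ (algebraMap k K a) = c i j := by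
    intro i j
    obtain ⟨_, ⟨a, rfl⟩, hb⟩ := Subfield.mem_map.1 (c i j).2
    exact ⟨a, hb⟩
  choose a ha using h1
  let P : MvPolynomial (Fin 2) k := ∑ j ∈ Finset.range N, ∑ i ∈ Finset.range N,
    monomial (Finsupp.single 0 i + Finsupp.single 1 j) (a i j)
  have h2 : aeval ![w, z] P = 0 := by
    apply φ.injective
    rw [map_zero, ← hc, map_sum, map_sum]
    refine Finset.sum_congr rfl fun j _ => ?_
    rw [map_sum, map_sum, Finset.sum_mul]
    refine Finset.sum_congr rfl fun i _ => ?_
    have e1 : ((Finsupp.single 0 i + Finsupp.single 1 j : Fin 2 →₀ ℕ).prod fun m n => ![w, z] m ^ n) = w ^ i * z ^ j := by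
      rw [Finsupp.prod_add_index' (fun _ => pow_zero _) (fun _ _ _ => pow_add _ _ _)]
      simp
    rw [aeval_monomial, e1, map_mul, ha, map_mul, map_pow, map_pow, ← mul_assoc]
  have h3 : P = 0 := by
    have h4 := (injective_iff_map_eq_zero (aeval ![w, z] : MvPolynomial (Fin 2) k →ₐ[k] K)).1 h P
    exact h4 h2
  intro i hi j hj
  have h4 := congrArg (coeff (Finsupp.single 0 i + Finsupp.single 1 j)) h3
  have hinj : ∀ i' j', (Finsupp.single 0 i' + Finsupp.single 1 j' : Fin 2 →₀ ℕ) =
      Finsupp.single 0 i + Finsupp.single 1 j ↔ i' = i ∧ j' = j := by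
    intro i' j'
    constructor
    · intro hh
      have h5 := DFunLike.congr_fun hh 0
      have h6 := DFunLike.congr_fun hh 1
      simpa using And.intro h5 h6
    · rintro ⟨rfl, rfl⟩
      rfl
  rw [coeff_zero, coeff_sum, Finset.sum_eq_single j] at h4
  · rw [coeff_sum, Finset.sum_eq_single i] at h4
    · rw [coeff_monomial, if_pos rfl] at h4
      have h5 := ha i j
      rw [h4, map_zero, map_zero] at h5
      exact Subtype.ext h5.symm
    · intro i' _ hi'
      rw [coeff_monomial, if_neg (fun hh => hi' ((hinj _ _).1 hh).1)]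
    · exact fun hh => absurd (Finset.mem_range.2 hi) hh
  · intro j' _ hj'
    rw [coeff_sum]
    refine Finset.sum_eq_zero fun i' _ => ?_
    rw [coeff_monomial, if_neg (fun hh => hj' ((hinj _ _).1 hh).2)]
  · exact fun hh => absurd (Finset.mem_range.2 hj) hh

theorem ac_closed [IsAlgClosed k] (φ : K →+* Ω) : AC ((algebraMap k K).fieldRange.map φ) φ.fieldRange := by
  have h1 : φ.fieldRange = (⊤ : Subfield K).map φ := RingHom.fieldRange_eq_map φ
  rw [h1, ac_map]
  intro b _ hb
  obtain ⟨p, hp, h2, h3⟩ := (alg_iff _ b).1 hb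
  have h4 : p ∈ Polynomial.lifts (algebraMap k K) := by
    rw [Polynomial.lifts_iff_coeff_lifts]
    exact fun i => h2 i
  obtain ⟨q, hq⟩ := (Polynomial.mem_lifts _).1 h4
  have h5 : IsAlgebraic k b := by
    refine ⟨q, ?_, ?_⟩
    · rintro rfl
      apply hp
      rw [← hq, Polynomial.map_zero]
    · rw [← hq, Polynomial.eval_map] at h3
      exact h3
  have h6 := IsAlgClosed.degree_eq_one_of_irreducible k (minpoly.irreducible h5.isIntegral)
  exact minpoly.mem_range_of_degree_eq_one k b h6

/-- the field theoretic form -/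
theorem gen_alg [IsAlgClosed k] [CharZero Ω] {l : σ → k'} (φ : K →+* Ω)
    (hφ : ∀ a : k, φ (algebraMap k K a) = algebraMap k' Ω (algebraMap k k' a))
    (hgen : ∀ c : k', ∃ f q : MvPolynomial σ k, aeval l q ≠ 0 ∧ c * aeval l q = aeval l f)
    (u : Option σ → K) (j i₀ : σ) (hj : u (some j) ≠ 0)
    (hrel : φ (u none) + ∑ i, algebraMap k' Ω (l i) * φ (u (some i)) = 0)
    (hind : ∀ P : MvPolynomial {i : σ // i ≠ j} K, eval₂ φ (fun i => algebraMap k' Ω (l i.1)) P = 0 → P = 0)
    (htop : ∀ c : Ω, ∃ P Q : MvPolynomial {i : σ // i ≠ j} K, eval₂ φ (fun i => algebraMap k' Ω (l i.1)) Q ≠ 0 ∧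
      c * eval₂ φ (fun i => algebraMap k' Ω (l i.1)) Q = eval₂ φ (fun i => algebraMap k' Ω (l i.1)) P)
    (h2 : AlgebraicIndependent k ![u none / u (some j), u (some i₀) / u (some j)]) (c : Ω)
    (hc : IsAlgebraic k' c) : ∃ b, algebraMap k' Ω b = c := by
  classical
  letI : Algebra K Ω := φ.toAlgebra
  let x : {i : σ // i ≠ j} → Ω := fun i => algebraMap k' Ω (l i.1)
  have hx : AlgebraicIndependent K x := by
    rw [algebraicIndependent_iff]
    exact fun P hP => hind P hP
  let A₀ : Subfield Ω := (algebraMap k K).fieldRange.map φ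
  let B₀ : Subfield Ω := φ.fieldRange
  have hAB : A₀ ≤ B₀ := by
    intro a ha
    obtain ⟨b, -, hb⟩ := Subfield.mem_map.1 ha
    exact ⟨b, hb⟩
  have hi₀ : i₀ ≠ j := by
    rintro rfl
    have h3 := h2.transcendental 1
    apply h3
    have h4 : ![u none / u (some i₀), u (some i₀) / u (some i₀)] 1 = 1 := div_self hj
    rw [h4]
    exact isAlgebraic_one
  let e : {i : σ // i ≠ j} := ⟨i₀, hi₀⟩
  let L' : List {i : σ // i ≠ j} := (Finset.univ.erase e).toList
  have hL' : ∀ i, i ∈ L' ↔ i ≠ e := by
    intro i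
    rw [Finset.mem_toList, Finset.mem_erase]
    exact ⟨fun h => h.1, fun h => ⟨h, Finset.mem_univ i⟩⟩
  let y : σ → K := fun i => u (some i) / u (some j)
  let L : List (Ω × Ω) := L'.map fun i => (x i, φ (y i.1))
  have hL : L.map Prod.fst = L'.map x := by
    rw [List.map_map]
    rfl
  obtain ⟨ht1, ht2⟩ := trL_of hx L' ∅ B₀ (by
    intro b hb
    obtain ⟨a, rfl⟩ := hb
    apply Subfield.subset_closure
    exact (Algebra.adjoin K (x '' ∅)).algebraMap_mem a) (Finset.nodup_toList _) (fun i _ => Set.notMem_empty i)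
  have ht3 := ht2 e (Set.notMem_empty e) (fun hh => (hL' e).1 hh rfl)
  have hz := zar_list L hAB (ac_closed φ) (w := φ (u none / u (some j))) (z := φ (y i₀)) (t := x e) ⟨_, rfl⟩ ⟨_, rfl⟩
    (ind_of_alg φ h2) (by
      intro p hp
      obtain ⟨i, -, rfl⟩ := List.mem_map.1 hp
      exact ⟨_, rfl⟩) (by rw [hL]; exact ht1) (by rw [hL]; exact ht3)
  rw [hL] at hz
  -- the last coordinate
  have huj : φ (u (some j)) ≠ 0 := fun hh => hj (φ.injective (hh.trans (map_zero φ).symm))
  have hlast : φ (u none / u (some j)) + (L.map fun p : Ω × Ω => p.1 * p.2).sum + x e * φ (y i₀) =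
      -algebraMap k' Ω (l j) := by
    have h3 : (L.map fun p : Ω × Ω => p.1 * p.2).sum = ∑ i ∈ Finset.univ.erase e, x i * φ (y i.1) := by
      rw [List.map_map]
      exact Finset.sum_map_toList _ _
    have h4 : ∑ i ∈ Finset.univ.erase e, x i * φ (y i.1) + x e * φ (y i₀) = ∑ i : {i : σ // i ≠ j}, x i * φ (y i.1) := by
      rw [add_comm]
      exact Finset.add_sum_erase Finset.univ (fun i => x i * φ (y i.1)) (Finset.mem_univ e)
    have h5 : ∑ i, algebraMap k' Ω (l i) * φ (y i) =
        algebraMap k' Ω (l j) * φ (y j) + ∑ i : {i : σ // i ≠ j}, x i * φ (y i.1) := by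
      rw [Fintype.sum_eq_add_sum_subtype_ne (fun i => algebraMap k' Ω (l i) * φ (y i)) j]
    have h6 : φ (y j) = 1 := by
      change φ (u (some j) / u (some j)) = 1
      rw [div_self hj, map_one]
    have h7 : φ (u none / u (some j)) + ∑ i, algebraMap k' Ω (l i) * φ (y i) = 0 := by
      have h8 : φ (u none / u (some j)) + ∑ i, algebraMap k' Ω (l i) * φ (y i) =
          (φ (u none) + ∑ i, algebraMap k' Ω (l i) * φ (u (some i))) / φ (u (some j)) := by
        rw [add_div, Finset.sum_div, map_div₀]
        congr 1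
        refine Finset.sum_congr rfl fun i _ => ?_
        change _ * φ (u (some i) / u (some j)) = _
        rw [map_div₀, mul_div_assoc]
      rw [h8, hrel, zero_div]
    rw [add_assoc, h3, h4, eq_neg_iff_add_eq_zero, ← h7, h5, h6, mul_one]
    ring
  rw [hlast] at hz
  set G : Subfield Ω := adj (adj (adL A₀ (L'.map x)) (x e)) (-algebraMap k' Ω (l j)) with hG
  have hxG : ∀ i, x i ∈ adj (adL A₀ (L'.map x)) (x e) := by
    intro i
    by_cases hi : i = e
    · rw [hi]
      exact self_adj _ _
    · exact le_adj _ _ (mem_adL _ _ _ (List.mem_map.2 ⟨i, (hL' i).2 hi, rfl⟩))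
  have hlG : ∀ i, algebraMap k' Ω (l i) ∈ G := by
    intro i
    by_cases hi : i = j
    · rw [hi]
      have h3 := neg_mem (self_adj (adj (adL A₀ (L'.map x)) (x e)) (-algebraMap k' Ω (l j)))
      rwa [neg_neg] at h3
    · exact le_adj _ _ (hxG ⟨i, hi⟩)
  have hAG : A₀ ≤ G := (le_adL _ A₀).trans ((le_adj _ _).trans (le_adj _ _))
  have hkG : (algebraMap k' Ω).fieldRange ≤ G := by
    rintro _ ⟨b, rfl⟩
    obtain ⟨f, q, hq, hfq⟩ := hgen b
    have h3 : ∀ f : MvPolynomial σ k, algebraMap k' Ω (aeval l f) ∈ G := by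
      intro f
      induction f using MvPolynomial.induction_on with
      | C a =>
        rw [algHom_C, ← hφ]
        exact hAG (Subfield.mem_map.2 ⟨algebraMap k K a, ⟨a, rfl⟩, rfl⟩)
      | add f g hf hg =>
        rw [map_add, map_add]
        exact add_mem hf hg
      | mul_X f i hf =>
        rw [map_mul, map_mul, aeval_X]
        exact mul_mem hf (hlG i)
    have h4 : algebraMap k' Ω b = algebraMap k' Ω (aeval l f) / algebraMap k' Ω (aeval l q) := by
      rw [← map_div₀, ← hfq]
      congr 1
      field_simp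
    rw [h4]
    exact div_mem (h3 f) (h3 q)
  have hGk : G ≤ (algebraMap k' Ω).fieldRange := by
    refine adj_le (adj_le (adL_le _ ?_ ?_) ⟨_, rfl⟩) (neg_mem ⟨_, rfl⟩)
    · intro a ha
      obtain ⟨_, ⟨b, rfl⟩, rfl⟩ := Subfield.mem_map.1 ha
      rw [hφ]
      exact ⟨_, rfl⟩
    · intro a ha
      obtain ⟨i, -, rfl⟩ := List.mem_map.1 ha
      exact ⟨_, rfl⟩
  have hcG : c ∈ G := by
    apply hz c
    · -- everything is in `B₀(l)`
      obtain ⟨P, Q, hQ, hPQ⟩ := htop c
      have h3 : ∀ f : MvPolynomial {i : σ // i ≠ j} K,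
          eval₂ φ (fun i => algebraMap k' Ω (l i.1)) f ∈ adj (adL B₀ (L'.map x)) (x e) := by
        have hxB : ∀ i, x i ∈ adj (adL B₀ (L'.map x)) (x e) := by
          intro i
          by_cases hi : i = e
          · rw [hi]
            exact self_adj _ _
          · exact le_adj _ _ (mem_adL _ _ _ (List.mem_map.2 ⟨i, (hL' i).2 hi, rfl⟩))
        intro f
        induction f using MvPolynomial.induction_on with
        | C a =>
          rw [eval₂_C]
          exact le_adj _ _ (le_adL _ _ ⟨a, rfl⟩)
        | add f g hf hg =>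
          rw [eval₂_add]
          exact add_mem hf hg
        | mul_X f i hf =>
          rw [eval₂_mul, eval₂_X]
          exact mul_mem hf (hxB i)
      have h4 : c = eval₂ φ (fun i => algebraMap k' Ω (l i.1)) P / eval₂ φ (fun i => algebraMap k' Ω (l i.1)) Q := by
        rw [← hPQ]
        field_simp
      rw [h4]
      exact div_mem (h3 P) (h3 Q)
    · refine alg_mono hkG ?_
      obtain ⟨p, hp, hpc⟩ := hc
      rw [alg_iff]
      refine ⟨p.map (algebraMap k' Ω), ?_, fun i => ?_, ?_⟩
      · rwa [Ne, Polynomial.map_eq_zero]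
      · rw [Polynomial.coeff_map]
        exact ⟨_, rfl⟩
      · rwa [Polynomial.eval_map_algebraMap]
  exact hGk hcG

end fields

end Pool.Agent.H83.TK.BZ
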