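import Pool.Agent.H54.RV.B1

/-!
# [H83 TK PicA] THEOREM V+, chapter PIC: algebra

`pic_prime`: `B` factorial, `φ : B →+* L` injective, `A ⊆ L` a ring of quotients `φ p / φ q`, `φ q` a unit of `A`; if the
nonunits of `A` are the multiples of `c` then there is a prime `G` of `B`, a nonunit of `A`, which divides all nonunits.
Proof.  `c * φ q = φ p`, `p ≠ 0`; the prime factors of `p` are not all units of `A`; let `G ∣ p` be a prime factor which is
not.  `φ G / c ∈ A`, `c = φ G * b`, `b ∈ A`.  If `φ F` is a nonunit then `φ F = φ G * b'`, `b' * φ q' = φ p'`, so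
`F * q' = G * p'`, and `G ∣ q'` is impossible (`φ q'` is a unit).
-/

set_option autoImplicit false

namespace Pool.Agent.H83.TK

open Pool.Agent.H54.RV MvPolynomial

theorem pic_prime {k L : Type} [Field k] [Field L] [Algebra k L] {B : Type} [CommRing B] [IsDomain B]
    [UniqueFactorizationMonoid B] (φ : B →+* L) (hφ : Function.Injective φ) (A : Subalgebra k L)
    (hA : ∀ b, φ b ∈ A) (hfr : ∀ a ∈ A, ∃ p q : B, Un A (φ q) ∧ a * φ q = φ p)
    (c : L) (hcA : c ∈ A) (hc0 : c ≠ 0) (hcn : ¬ Un A c) (hc : ∀ a ∈ A, ¬ Un A a → a / c ∈ A) :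
    ∃ G : B, Prime G ∧ ¬ Un A (φ G) ∧ ∀ F : B, ¬ Un A (φ F) → G ∣ F := by
  obtain ⟨p, q, hq, hpq⟩ := hfr c hcA
  have hp : ¬ Un A (φ p) := by
    rw [← hpq, un_mul_un hq]
    exact hcn
  have hp0 : p ≠ 0 := by
    rintro rfl
    rw [map_zero] at hpq
    exact mul_ne_zero hc0 hq.1 hpq
  obtain ⟨G, hGp, hGd, hGn⟩ : ∃ G : B, Prime G ∧ G ∣ p ∧ ¬ Un A (φ G) := by
    obtain ⟨m, hm1, hm2⟩ := UniqueFactorizationMonoid.exists_prime_factors p hp0
    by_contra hcon
    push Not at hcon
    apply hp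
    obtain ⟨u, hu⟩ := hm2
    rw [← hu, map_mul]
    refine un_mul ?_ ?_
    · have h1 : ∀ m' : Multiset B, (∀ b ∈ m', Un A (φ b)) → Un A (φ m'.prod) := by
        intro m'
        induction m' using Multiset.induction_on with
        | empty =>
          intro _
          rw [Multiset.prod_zero, map_one]
          exact un_one A
        | cons a m' ih =>
          intro h2
          rw [Multiset.prod_cons, map_mul]
          exact un_mul (h2 a (Multiset.mem_cons_self a m')) (ih fun b hb => h2 b (Multiset.mem_cons_of_mem hb))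
      refine h1 m fun b hb => hcon b (hm1 b hb) ?_
      exact (Multiset.dvd_prod hb).trans ⟨u, hu.symm⟩
    · have h1 : φ (u : B) * φ ((u⁻¹ : Bˣ) : B) = 1 := by
        rw [← map_mul, Units.mul_inv, map_one]
      refine ⟨left_ne_zero_of_mul_eq_one h1, hA _, ?_⟩
      rw [inv_eq_of_mul_eq_one_right h1]
      exact hA _
  have hG0 : φ G ≠ 0 := by
    rw [Ne, map_eq_zero_iff φ hφ]
    exact hGp.ne_zero
  have hcG : c / φ G ∈ A := by
    obtain ⟨r, rfl⟩ := hGd
    have h1 : c / φ G = φ r * (φ q)⁻¹ := by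
      rw [map_mul] at hpq
      have := hq.1
      field_simp
      exact hpq
    rw [h1]
    exact mul_mem (hA r) hq.2.2
  refine ⟨G, hGp, hGn, fun F hF => ?_⟩
  have h1 : φ F / φ G ∈ A := by
    have h2 : φ F / φ G = φ F / c * (c / φ G) := by
      field_simp
    rw [h2]
    exact mul_mem (hc _ (hA F) hF) hcG
  obtain ⟨p', q', hq', h2⟩ := hfr _ h1
  have h3 : F * q' = G * p' := by
    apply hφ
    rw [map_mul, map_mul, ← h2]
    field_simp
  rcases hGp.dvd_or_dvd (Dvd.intro p' h3.symm) with h4 | h4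
  · exact h4
  · exfalso
    obtain ⟨r, rfl⟩ := h4
    rw [map_mul, un_mul_iff (hA G) (hA r)] at hq'
    exact hGn hq'.1

end Pool.Agent.H83.TK
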