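import Pool.Agent.H54.RV.B1

/-!
# [H83 TK PicB] THEOREM V+, chapter PIC: common denominators in a factorial ring

`R` factorial with quotient field `K`, `b i ∈ K` finitely many elements, not all zero: the `c ∈ K` with all `c * b i ∈ R`
are the multiples of one element `e`.
Proof.  `b i = b' i / d` with `b' i, d ∈ R`, `d ≠ 0`; `g` a greatest common divisor of the `b' i` (`g ≠ 0`), `e = d / g`.  `←` is
clear.  `→`: `c / d = p / q` with `p, q ∈ R` without a common prime factor (`IsRelPrime`); `q ∣ p * b' i`, so `q ∣ b' i` for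
all `i`, so `q ∣ g` and `c / e = p * g / q ∈ R`.
-/

set_option autoImplicit false

namespace Pool.Agent.H83.TK

open Pool.Agent.H54.RV

variable {k K : Type} [Field k] [Field K] [Algebra k K]

theorem pic_den (R : Subalgebra k K) [UniqueFactorizationMonoid R] (hR : ∀ c : K, ∃ a b : R, b ≠ 0 ∧ c * b = a)
    {ι : Type} [Finite ι] (b : ι → K) (hb : ∃ i, b i ≠ 0) :
    ∃ e : K, e ≠ 0 ∧ ∀ c : K, (∀ i, c * b i ∈ R) ↔ c / e ∈ R := by
  classical
  cases nonempty_fintype ι
  choose a dn hdn had using fun i => hR (b i)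
  obtain ⟨d, hd⟩ : ∃ d : R, d = ∏ i, dn i := ⟨_, rfl⟩
  have hd0 : d ≠ 0 := by
    rw [hd]
    exact Finset.prod_ne_zero_iff.2 fun i _ => hdn i
  have hdK : (d : K) ≠ 0 := by
    intro h
    exact hd0 (Subtype.ext h)
  have hex : ∀ i, ∃ t : R, b i * d = t := by
    intro i
    refine ⟨a i * ∏ j ∈ Finset.univ.erase i, dn j, ?_⟩
    rw [hd, ← Finset.mul_prod_erase Finset.univ dn (Finset.mem_univ i)]
    rw [MulMemClass.coe_mul, MulMemClass.coe_mul, ← mul_assoc, had]
  choose b' hb' using hex
  let _ := UniqueFactorizationMonoid.toGCDMonoid R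
  have hg : ∀ s : Finset ι, ∃ g : R, (∀ i ∈ s, g ∣ b' i) ∧ ∀ q : R, (∀ i ∈ s, q ∣ b' i) → q ∣ g := by
    intro s
    induction s using Finset.induction_on with
    | empty => exact ⟨0, fun i hi => absurd hi (Finset.notMem_empty i), fun q _ => dvd_zero q⟩
    | insert i s hi ih =>
      obtain ⟨g, h1, h2⟩ := ih
      refine ⟨gcd (b' i) g, ?_, ?_⟩
      · intro j hj
        rw [Finset.mem_insert] at hj
        rcases hj with rfl | hj
        · exact gcd_dvd_left _ _
        · exact (gcd_dvd_right _ _).trans (h1 j hj)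
      · intro q hq
        exact dvd_gcd (hq i (Finset.mem_insert_self i s)) (h2 q fun j hj => hq j (Finset.mem_insert_of_mem hj))
  obtain ⟨g, hg1, hg2⟩ := hg Finset.univ
  have hg0 : g ≠ 0 := by
    rintro rfl
    obtain ⟨i, hi⟩ := hb
    have h1 : b' i = 0 := zero_dvd_iff.1 (hg1 i (Finset.mem_univ i))
    have h2 := hb' i
    rw [h1, ZeroMemClass.coe_zero] at h2
    exact mul_ne_zero hi hdK h2
  have hgK : (g : K) ≠ 0 := by
    intro h
    exact hg0 (Subtype.ext h)
  refine ⟨(d : K) / g, div_ne_zero hdK hgK, fun c => ⟨fun hc => ?_, fun hc i => ?_⟩⟩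
  · obtain ⟨p, q, hq0, hpq⟩ := hR (c / d)
    obtain ⟨p', q', c', hrel, hp', hq'⟩ := UniqueFactorizationMonoid.exists_reduced_factors' p q hq0
    have hc' : c' ≠ 0 := by
      rintro rfl
      rw [zero_mul] at hq'
      exact hq0 hq'.symm
    have hcK : (c' : K) ≠ 0 := by
      intro h
      exact hc' (Subtype.ext h)
    have h1 : c / d * q' = p' := by
      rw [← hp', ← hq', MulMemClass.coe_mul, MulMemClass.coe_mul] at hpq
      refine mul_left_cancel₀ hcK ?_
      rw [← hpq]
      ring
    have h2 : ∀ i, q' ∣ b' i := by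
      intro i
      have h3 : p' * b' i = q' * ⟨c * b i, hc i⟩ := by
        apply Subtype.ext
        rw [MulMemClass.coe_mul, MulMemClass.coe_mul, ← h1, ← hb' i]
        change c / (d : K) * q' * (b i * d) = q' * (c * b i)
        field_simp
      have h4 : q' ∣ p' * b' i := ⟨_, h3⟩
      exact hrel.symm.dvd_of_dvd_mul_left h4
    obtain ⟨u, hu⟩ := hg2 q' fun i _ => h2 i
    have h5 : c / ((d : K) / g) = (p' * u : R) := by
      rw [MulMemClass.coe_mul, ← h1, hu, MulMemClass.coe_mul]
      field_simp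
    rw [h5]
    exact (p' * u).2
  · obtain ⟨r, hr⟩ := hg1 i (Finset.mem_univ i)
    have h1 : c * b i = c / ((d : K) / g) * r := by
      have h2 := hb' i
      rw [hr, MulMemClass.coe_mul] at h2
      have h3 : b i = g * r / d := by
        rw [← h2]
        field_simp
      rw [h3]
      field_simp
    rw [h1]
    exact R.mul_mem hc r.2

end Pool.Agent.H83.TK
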