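import Pool.Agent.H54.RV.B1

/-!
# [H83 TK PicC] THEOREM V+, chapter PIC: the lemma of Gauss

`R` factorial with quotient field `K`, `G ∈ K[τ]` (`τ` arbitrary), `e ≠ 0` such that the `c ∈ K` for which `c * G` has
coefficients in `R` are the multiples of `e` (in `R * e`).  If `F = G * F'` has coefficients in `R` then
`F = (e * G) * F''` with `F''` with coefficients in `R`.
Proof.  `e * G` has coefficients in `R` (`c = e`).  `F'' = e⁻¹ * F'`; `d * F''` has coefficients in `R` for some
`d ∈ R`, `d ≠ 0` (finitely many coefficients).  `UniqueFactorizationMonoid.induction_on_prime` for `d` (claim: for all `F''` with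
`(e G) F''` and `d F''` with coefficients in `R`, `F''` has coefficients in `R`): `d` a unit: clear.  `d = p * d₁`, `p` prime: `p` divides
`d * F = (e G) (d F'')` in `R[τ]`, `p` is prime in `R[τ]` (`MvPolynomial.prime_C_iff`); if `p` divides `e G` then `(e / p) * G` has
coefficients in `R`, so `1 / p ∈ R`, contradiction; so `p` divides `d F''` in `R[τ]`, that is `d₁ F''` has coefficients in
`R`.
(Polynomials with coefficients in `R`: `map (R.val : R →+* K) f`.)
-/

set_option autoImplicit false

namespace Pool.Agent.H83.TK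

open Pool.Agent.H54.RV MvPolynomial

variable {k K : Type} [Field k] [Field K] [Algebra k K]

private theorem picc_lift (R : Subalgebra k K) {τ : Type} (X : MvPolynomial τ K) (hX : ∀ m, X.coeff m ∈ R) :
    ∃ X0 : MvPolynomial τ R, map (algebraMap R K) X0 = X := by
  refine ⟨∑ m ∈ X.support, monomial m (⟨X.coeff m, hX m⟩ : R), ?_⟩
  rw [map_sum]
  conv_rhs => rw [X.as_sum]
  refine Finset.sum_congr rfl fun m _ => ?_
  rw [map_monomial]
  rfl

private theorem picc_den (R : Subalgebra k K) (hR : ∀ c : K, ∃ a b : R, b ≠ 0 ∧ c * b = a) {τ : Type}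
    (X : MvPolynomial τ K) : ∃ d : R, d ≠ 0 ∧ ∀ m, (d : K) * X.coeff m ∈ R := by
  classical
  choose a b hb hab using hR
  refine ⟨∏ m ∈ X.support, b (X.coeff m), ?_, fun m => ?_⟩
  · rw [Finset.prod_ne_zero_iff]
    exact fun m _ => hb _
  · by_cases hm : m ∈ X.support
    · rw [← Finset.mul_prod_erase _ _ hm]
      push_cast
      have h1 : (b (X.coeff m) : K) * ((∏ x ∈ X.support.erase m, b (X.coeff x) : R) : K) * X.coeff m =
          (a (X.coeff m) : K) * ((∏ x ∈ X.support.erase m, b (X.coeff x) : R) : K) := by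
        rw [← hab (X.coeff m)]
        ring
      push_cast at h1
      rw [h1]
      have h2 := (a (X.coeff m) * (∏ x ∈ X.support.erase m, b (X.coeff x))).2
      push_cast at h2
      exact h2
    · rw [notMem_support_iff.1 hm, mul_zero]
      exact R.zero_mem

theorem pic_gauss (R : Subalgebra k K) [UniqueFactorizationMonoid R] (hR : ∀ c : K, ∃ a b : R, b ≠ 0 ∧ c * b = a)
    {τ : Type} (G : MvPolynomial τ K) (e : K) (he : e ≠ 0) (hG : ∀ c : K, (∀ m, c * G.coeff m ∈ R) ↔ c / e ∈ R)
    (F F' : MvPolynomial τ K) (hF : ∀ m, F.coeff m ∈ R) (h : F = G * F') :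
    ∃ F'' : MvPolynomial τ K, (∀ m, F''.coeff m ∈ R) ∧ F = C e * G * F'' := by
  classical
  have hinj : Function.Injective (map (algebraMap R K) : MvPolynomial τ R → MvPolynomial τ K) :=
    map_injective _ Subtype.val_injective
  obtain ⟨F'', hF''⟩ : ∃ F'' : MvPolynomial τ K, F'' = C e⁻¹ * F' := ⟨_, rfl⟩
  have hFe : F = C e * G * F'' := by
    have h1 : (C e : MvPolynomial τ K) * C e⁻¹ = 1 := by
      rw [← C_mul, mul_inv_cancel₀ he, C_1]
    rw [hF'', h]
    calc G * F' = (C e * C e⁻¹) * (G * F') := by rw [h1, one_mul]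
      _ = _ := by ring
  have hA : ∀ m, (C e * G).coeff m ∈ R := by
    intro m
    rw [coeff_C_mul]
    refine (hG e).2 ?_ m
    rw [div_self he]
    exact R.one_mem
  obtain ⟨A0, hA0⟩ := picc_lift R (C e * G) hA
  obtain ⟨F0, hF0⟩ := picc_lift R F hF
  have key : ∀ d : R, d ≠ 0 → (∀ m, (d : K) * F''.coeff m ∈ R) → ∀ m, F''.coeff m ∈ R := by
    intro d
    refine UniqueFactorizationMonoid.induction_on_prime (P := fun d : R => d ≠ 0 → (∀ m, (d : K) * F''.coeff m ∈ R) →
      ∀ m, F''.coeff m ∈ R) d ?_ ?_ ?_
    · exact fun h0 => absurd rfl h0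
    · intro x hx _ h1 m
      obtain ⟨y, hy⟩ := hx.exists_left_inv
      have hy' : (y : K) * (x : K) = 1 := by
        have h2 := congrArg (fun z : R => (z : K)) hy
        simpa using h2
      have h3 : F''.coeff m = (y : K) * ((x : K) * F''.coeff m) := by
        rw [← mul_assoc, hy', one_mul]
      rw [h3]
      exact R.mul_mem y.2 (h1 m)
    · intro a p ha hp ih _ h1
      refine ih ha ?_
      have hpK : (p : K) ≠ 0 := by
        intro h2
        exact hp.ne_zero (Subtype.ext h2)
      obtain ⟨B0, hB0⟩ := picc_lift R (C ((p * a : R) : K) * F'') (by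
        intro m
        rw [coeff_C_mul]
        exact h1 m)
      have h2 : A0 * B0 = C p * (C a * F0) := by
        apply hinj
        rw [map_mul, map_mul, map_mul, hA0, hB0, hF0, map_C, map_C, hFe]
        have h3 : (C ((p * a : R) : K) : MvPolynomial τ K) = C (algebraMap R K p) * C (algebraMap R K a) := by
          rw [← C_mul]
          rfl
        rw [h3]
        ring
      have hpr : Prime (C p : MvPolynomial τ R) := (prime_C_iff _).2 hp
      rcases hpr.dvd_or_dvd (Dvd.intro _ h2.symm) with ⟨A1, hA1⟩ | ⟨B1, hB1⟩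
      · exfalso
        have h3 : ∀ m, (e / (p : K)) * G.coeff m ∈ R := by
          intro m
          have h4 := congrArg (fun X => coeff m (map (algebraMap R K) X)) hA1
          simp only [hA0, map_mul, map_C, coeff_C_mul, coeff_map] at h4
          have h5 : (e / (p : K)) * G.coeff m = ((A1.coeff m : R) : K) := by
            have h6 : e * G.coeff m = (p : K) * ((A1.coeff m : R) : K) := h4
            rw [div_mul_eq_mul_div, h6, mul_div_assoc, mul_comm, div_mul_cancel₀ _ hpK]
          rw [h5]
          exact (A1.coeff m).2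
        have h4 := (hG _).1 h3
        have h5 : e / (p : K) / e = (p : K)⁻¹ := by
          field_simp
        rw [h5] at h4
        refine hp.not_isUnit ?_
        refine IsUnit.of_mul_eq_one (⟨(p : K)⁻¹, h4⟩ : R) ?_
        exact Subtype.ext (mul_inv_cancel₀ hpK)
      · intro m
        have h4 := congrArg (fun X => coeff m (map (algebraMap R K) X)) hB1
        simp only [hB0, map_mul, map_C, coeff_C_mul, coeff_map] at h4
        have h5 : (a : K) * F''.coeff m = ((B1.coeff m : R) : K) := by
          have h6 : (p : K) * (a : K) * F''.coeff m = (p : K) * ((B1.coeff m : R) : K) := h4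
          rw [mul_assoc] at h6
          exact mul_left_cancel₀ hpK h6
        rw [h5]
        exact (B1.coeff m).2
  obtain ⟨d, hd, hd1⟩ := picc_den R hR F''
  exact ⟨F'', key d hd hd1, hFe⟩

end Pool.Agent.H83.TK
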