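import Pool.Agent.H83.TK.PicA
import Pool.Agent.H83.TK.SubE

/-!
# [H83 TK PicE] THEOREM V+, chapter PIC: points of codimension one are Cartier divisors

`X` factorial, `z` a point such that the nonunits of `O z` are the multiples of `t ∈ O z`, `t ≠ 0`: the closure of `z` is
a Cartier divisor (`SPr`, file `SubE`).
Proof.  For `z ⤳ x` `pic_prime` with `B = O x`, `φ : O x → K` the inclusion, `A = O z` (`IsVar.spec`; `hfr`: `a ∈ O z`; a chart `U`
with `x ∈ U`, so `z ∈ U`; `IsVar.frac` for `a`, at `z`: `s ∈ sec U` a unit at `z` with `a * s ∈ sec U`, and `sec U ⊆ O x`) gives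
`m x ∈ O x`, `m x ≠ 0`, a nonunit at `z`, which divides (in `O x`) all the elements of `O x` which are nonunits at `z`.  For the
other `x` let `m x = 1`.  `cart_of` (`H83/TU/CI.lean`) with `J x = {a | a ∈ O x ∧ (z ⤳ x → ¬ Un (O z) a)}`, exactly as in the proof
of `pdiv_eq` (file `SubE`), with `¬ Un (O z) a` for `a = 0 ∨ 0 < ord a`: `hadd` from the local ring `O z` (`un_add`), `hmul`
from `un_mul_iff`; then `SPr` as in `pdiv_spr`.
-/

set_option autoImplicit false

namespace Pool.Agent.H83.TK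

open Pool.Agent.H54.RV Pool.Agent.H83.TU

variable {k K : Type} [Field k] [Field K] [Algebra k K] {X : Mod k K}

theorem spr_of_max (hX : IsVar X) (hu : ∀ x, UniqueFactorizationMonoid (X.O x)) {z : X.P} (t : K) (ht : t ∈ X.O z)
    (ht0 : t ≠ 0) (htn : ¬ Un (X.O z) t) (hm : ∀ a ∈ X.O z, ¬ Un (X.O z) a → a / t ∈ X.O z) :
    ∃ T : Cart X, SPr X z T := by
  classical
  have hex : ∀ x, ∃ m : K, m ≠ 0 ∧ m ∈ X.O x ∧ (z ⤳ x → ¬ Un (X.O z) m ∧
      ∀ a ∈ X.O x, ¬ Un (X.O z) a → a / m ∈ X.O x) ∧ (¬ z ⤳ x → m = 1) := by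
    intro x
    by_cases hx : z ⤳ x
    · have hle : X.O x ≤ X.O z := hX.spec _ _ hx
      have := hu x
      obtain ⟨G, hG1, hG2, hG3⟩ := pic_prime (algebraMap (X.O x) K) (FaithfulSMul.algebraMap_injective _ _)
        (X.O z) (fun b => hle b.2) (fun a ha => by
          obtain ⟨U, hU, hxU⟩ := hX.chart x
          have hzU : z ∈ U := hx.mem_open (hX.op U hU) hxU
          obtain ⟨s, hs, hsu, has⟩ := hX.frac U z hU hzU a ha
          exact ⟨⟨a * s, (mem_sec U _).1 has x hxU⟩, ⟨s, (mem_sec U _).1 hs x hxU⟩, hsu, rfl⟩)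
        t ht ht0 htn hm
      have hG0 : (G : K) ≠ 0 := fun h => hG1.ne_zero (Subtype.ext h)
      refine ⟨(G : K), hG0, G.2, fun _ => ⟨hG2, fun a ha hau => ?_⟩, fun hh => absurd hx hh⟩
      obtain ⟨r, hr⟩ := hG3 ⟨a, ha⟩ hau
      have h1 : a = (G : K) * r := congrArg (fun b : X.O x => (b : K)) hr
      rw [h1, mul_div_cancel_left₀ _ hG0]
      exact r.2
    · exact ⟨1, one_ne_zero, (X.O x).one_mem, fun hh => absurd hh hx, fun _ => rfl⟩
  choose m hm0 hmO hm1 hm2 using hex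
  have hgen : ∀ x a, a ∈ {a : K | a ∈ X.O x ∧ (z ⤳ x → ¬ Un (X.O z) a)} ↔ a / m x ∈ X.O x := by
    intro x a
    rw [Set.mem_ofPred_eq]
    by_cases hx : z ⤳ x
    · obtain ⟨h1, h2⟩ := hm1 x hx
      have hle : X.O x ≤ X.O z := hX.spec _ _ hx
      constructor
      · rintro ⟨h3, h4⟩
        exact h2 a h3 (h4 hx)
      · intro h3
        have h4 : a = a / m x * m x := by
          have := hm0 x
          field_simp
        refine ⟨?_, fun _ h5 => ?_⟩
        · rw [h4]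
          exact (X.O x).mul_mem h3 (hmO x)
        · rw [h4, un_mul_iff (hle h3) (hle (hmO x))] at h5
          exact h1 h5.2
    · rw [hm2 x hx, div_one]
      exact ⟨fun h3 => h3.1, fun h3 => ⟨h3, fun h4 => absurd h4 hx⟩⟩
  obtain ⟨S, hS⟩ := cart_of hX (fun x => {a : K | a ∈ X.O x ∧ (z ⤳ x → ¬ Un (X.O z) a)}) m
    (fun x => ⟨(X.O x).zero_mem, fun _ h => h.1 rfl⟩)
    (fun x a ha b hb => by
      rw [hgen] at ha hb ⊢
      rw [add_div]
      exact (X.O x).add_mem ha hb)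
    (fun x a ha c hc => by
      rw [hgen] at ha ⊢
      rw [mul_div_assoc]
      exact (X.O x).mul_mem hc ha)
    (fun x a ha => ha.1) hm0 hgen
    (fun x U hU hxU a ha => by
      obtain ⟨s₁, hs₁, hs₁u, has⟩ := hX.frac U x hU hxU a ha.1
      by_cases hx : z ⤳ x
      · refine ⟨s₁, hs₁, hs₁u, fun y hy => ⟨(mem_sec U _).1 has y hy, fun hzy h1 => ?_⟩⟩
        have h2 : a ∈ X.O z := hX.spec _ _ hx ha.1
        have h3 : s₁ ∈ X.O z := hX.spec _ _ hzy ((mem_sec U _).1 hs₁ y hy)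
        rw [un_mul_iff h2 h3] at h1
        exact ha.2 hx h1.1
      · obtain ⟨V, hV, hxV, hzV⟩ := not_specializes_iff_exists_open.1 hx
        obtain ⟨c, hc, hcx, hcy⟩ := hX.bas U V x hU hV hxU hxV
        have hcs : c ∈ X.sec U := (mem_sec U c).2 hc
        refine ⟨s₁ * c, (X.sec U).mul_mem hs₁ hcs, un_mul hs₁u hcx, fun y hy => ⟨?_, fun hzy h1 => ?_⟩⟩
        · rw [← mul_assoc]
          exact (X.O y).mul_mem ((mem_sec U _).1 has y hy) (hc y hy)
        · have hzU : z ∈ U := hzy.mem_open (hX.op U hU) hy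
          have h2 : a * s₁ ∈ X.O z := hX.spec _ _ hzy ((mem_sec U _).1 has y hy)
          have h3 : c ∈ X.O z := hc z hzU
          rw [← mul_assoc, un_mul_iff h2 h3] at h1
          exact hzV (hcy z hzU h1.2))
  refine ⟨S, ⟨fun x => ?_, fun x hx => ?_, fun x hx => ?_, fun x hx a ha hau => ?_⟩⟩
  · rw [hS]
    exact hmO x
  · rw [hS, hm2 x hx]
    exact un_one _
  · rw [hS]
    exact (hm1 x hx).1
  · rw [hS]
    exact (hm1 x hx).2 a ha hau

end Pool.Agent.H83.TK
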