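import Pool.Agent.H83.TK.PicE
import Pool.Agent.H83.TK.PicG

/-!
# [H83 TK PicI] THEOREM V+, chapter PIC: the prime divisors which are not in the generic fibre

`y` a prime divisor of `S` whose image `px y` in `X` is not the generic point.  Then the nonunits of `O (px y)` are the
multiples of one element `t` (the prime polynomial `G` of `pic_gen` divides a nonzero constant), so the closure of `px y`
is a Cartier divisor `T` (`spr_of_max`), and `D` is the restriction of `T`.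
-/

set_option autoImplicit false

namespace Pool.Agent.H83.TK

open Pool.Agent.H54.RV MvPolynomial Pool.Agent.H83.TU

variable {k K k' L : Type} [Field k] [Field K] [Algebra k K] [Field k'] [Field L] [Algebra k' L] {σ : Type}
    [Fintype σ] {X : Mod k K} {H : Cart X} {s : Option σ → K} {S : Mod k' L} {px : S.P → X.P}
    {ψ : MvPolynomial σ K →+* L}

private theorem pici_t (P : Pic0 X H s S px ψ) (hs : ∀ x i, s i * H.eq x ∈ X.O x)
    (hu : ∀ x, UniqueFactorizationMonoid (X.O x)) {y : S.P} {D : Cart S} (hD : SPr S y D)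
    (hn : ∃ a ∈ X.O (px y), a ≠ 0 ∧ ¬ Un (X.O (px y)) a) (j : σ)
    (hj : Un (X.O (px y)) (s (some j) * H.eq (px y))) :
    ∃ t : X.O (px y), t ≠ 0 ∧ ¬ Un (X.O (px y)) (t : K) ∧
      ∀ F : MvPolynomial {i : σ // i ≠ j} (X.O (px y)),
        ¬ Un (S.O y) (phi ψ j (map ((X.O (px y)).val : X.O (px y) →+* K) F)) → C t ∣ F := by
  obtain ⟨G, hG1, hG2, hG3⟩ := pic_gen P hs hu hD j hj
  obtain ⟨a, ha, ha0, han⟩ := hn
  have h1 : G ∣ C (⟨a, ha⟩ : X.O (px y)) := by
    apply hG3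
    rw [map_C, phi_C]
    intro h2
    exact han ((P.un y a ha).1 h2)
  have ha' : (⟨a, ha⟩ : X.O (px y)) ≠ 0 := fun h2 => ha0 (congrArg Subtype.val h2)
  obtain ⟨t, -, rfl⟩ := (dvd_C_iff_exists ha').1 h1
  refine ⟨t, ?_, ?_, hG3⟩
  · rintro rfl
    exact hG1.ne_zero C_0
  · rw [map_C, phi_C] at hG2
    intro h2
    exact hG2 ((P.un y t t.2).2 h2)

theorem pic_caseA (hX : IsVar X) (P : Pic0 X H s S px ψ) (hs : ∀ x i, s i * H.eq x ∈ X.O x)
    (hu : ∀ x, UniqueFactorizationMonoid (X.O x)) {y : S.P} {D : Cart S} (hD : SPr S y D)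
    (hn : ∃ a ∈ X.O (px y), a ≠ 0 ∧ ¬ Un (X.O (px y)) a) :
    ∃ E : Cart X, (∀ w, ¬ px y ⤳ px w → Un (S.O w) (ψ (C (E.eq (px w))))) ∧
      ∀ w, px y ⤳ px w → ∃ G : MvPolynomial σ K, CoR (X.O (px w)) G ∧ ψ G = ψ (C (E.eq (px w))) ∧
        ¬ Un (S.O y) (ψ G) ∧ ∀ F, CoR (X.O (px w)) F → ¬ Un (S.O y) (ψ F) →
          ∃ F', CoR (X.O (px w)) F' ∧ ψ F = ψ G * ψ F' := by
  obtain ⟨j, hj⟩ := P.unit y
  obtain ⟨t, ht0, htn, ht⟩ := pici_t P hs hu hD hn j hj
  obtain ⟨T, hT⟩ : ∃ T : Cart X, SPr X (px y) T := by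
    refine spr_of_max hX hu (t : K) t.2 (fun h1 => ht0 (Subtype.ext h1)) htn fun a ha han => ?_
    have h1 := ht (C ⟨a, ha⟩) (by
      rw [map_C, phi_C]
      intro h2
      exact han ((P.un y a ha).1 h2))
    rw [C_dvd_iff_dvd_coeff] at h1
    have h2 := h1 0
    rw [coeff_zero_C] at h2
    obtain ⟨b, hb⟩ := h2
    have h3 : a = (t : K) * b := congrArg Subtype.val hb
    have h4 : (t : K) ≠ 0 := fun h1 => ht0 (Subtype.ext h1)
    rw [h3, mul_div_cancel_left₀ _ h4]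
    exact b.2
  refine ⟨T, fun w hw => (P.un w _ (hT.eff _)).2 (hT.un _ hw), fun w hw => ?_⟩
  have hle := hX.spec _ _ hw
  refine ⟨C (T.eq (px w)), ?_, rfl, ?_, fun F hF hFn => ?_⟩
  · have h1 := coR_map (X.O (px w)) (C (⟨T.eq (px w), hT.eff _⟩ : X.O (px w)) : MvPolynomial σ (X.O (px w)))
    rw [map_C] at h1
    exact h1
  · intro h1
    exact hT.nun _ hw ((P.un y _ (hle (hT.eff _))).1 h1)
  · obtain ⟨j', hj'⟩ := P.unit w
    have hj'' : Un (X.O (px y)) (s (some j') * H.eq (px y)) := by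
      have h1 := un_div (un_mono hle hj') (quo_un H (px y) (px w) hw)
      have h2 : s (some j') * H.eq (px w) / (H.eq (px w) / H.eq (px y)) = s (some j') * H.eq (px y) := by
        have := H.ne (px w)
        have := H.ne (px y)
        field_simp
      rwa [h2] at h1
    obtain ⟨t', ht0', htn', ht'⟩ := pici_t P hs hu hD hn j' hj''
    obtain ⟨F₁, hF₁, h1⟩ := phi_elim P hs (px w) j' hj' hF
    have h2 : ∀ m, F₁.coeff m / T.eq (px w) ∈ X.O (px w) := by
      intro m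
      refine hT.ker _ hw _ (hF₁ m) ?_
      obtain ⟨F₂, rfl⟩ := (coR_iff (X.O (px y)) F₁).1 (fun m => hle (hF₁ m))
      have h3 := ht' F₂ (by rw [h1]; exact hFn)
      rw [C_dvd_iff_dvd_coeff] at h3
      obtain ⟨b, hb⟩ := h3 m
      rw [coeff_map, hb]
      change ¬ Un (X.O (px y)) ((t' * b : X.O (px y)) : K)
      rw [Subalgebra.coe_mul, un_mul_iff t'.2 b.2]
      exact fun h4 => htn' h4.1
    refine ⟨rename Subtype.val (C (T.eq (px w))⁻¹ * F₁), coR_rename _ ?_, ?_⟩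
    · intro m
      rw [coeff_C_mul, mul_comm, ← div_eq_mul_inv]
      exact h2 m
    · rw [← phi_eq, ← phi_C (ψ := ψ) j' (T.eq (px w)), ← map_mul, ← mul_assoc, ← C_mul,
        mul_inv_cancel₀ (T.ne _), C_1, one_mul, h1]

end Pool.Agent.H83.TK
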