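import Pool.Agent.H54.RV.B1

/-!
# THEOREM K, chapter T1: a constructor for models

`Pre k K`: points, local rings in the field `K`, a set `ch` of charts (subsets of the set of the points).
`sec U` = the intersection of the local rings of the points of `U`, `D U a` = the points of `U` where `a` is a unit.
`Ok`: the axioms of the charts. `mod`: the topology is generated by the sets `D U a`, `U` a chart, `a ∈ sec U`; these
are the affine open sets. The theorem `isVar` (file `PreV.lean`): `Ok` implies `IsVar` of `H54/RV`.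
-/

set_option autoImplicit false

namespace Pool.Agent.H83.TK

open Pool.Agent.H54.RV

/-- points, local rings, charts -/
structure Pre (k K : Type) [Field k] [Field K] [Algebra k K] where
  /-- the points -/
  P : Type
  /-- the local rings -/
  O : P → Subalgebra k K
  loc : ∀ x, IsLocalRing (O x)
  /-- the charts -/
  ch : Set (Set P)

attribute [instance] Pre.loc

variable {k K : Type} [Field k] [Field K] [Algebra k K]

namespace Pre

variable (M : Pre k K)

/-- the functions on `U` -/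
def sec (U : Set M.P) : Subalgebra k K := ⨅ x ∈ U, M.O x

/-- the points of `U` where `a` is a unit -/
def D (U : Set M.P) (a : K) : Set M.P := {x | x ∈ U ∧ Un (M.O x) a}

/-- the open sets of the basis -/
def bas (W : Set M.P) : Prop := ∃ U ∈ M.ch, ∃ a ∈ M.sec U, W = M.D U a

/-- the topology is generated by the sets `D U a` -/
def top : TopologicalSpace M.P := TopologicalSpace.generateFrom {W | M.bas W}

/-- the space of local rings -/
def mod : Mod k K :=
  { P := M.P
    top := M.top
    O := M.O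
    loc := M.loc
    aff := M.bas }

/-- `x` is in the closure of `z` (in the language of the charts) -/
def sp (z x : M.P) : Prop := ∀ U ∈ M.ch, ∀ a ∈ M.sec U, x ∈ M.D U a → z ∈ M.D U a

/-- the axioms -/
structure Ok : Prop where
  ne : Nonempty M.P
  fin : ∃ F : Set (Set M.P), F.Finite ∧ F ⊆ M.ch ∧ ∀ x, ∃ U ∈ F, x ∈ U
  fg : ∀ U ∈ M.ch, U.Nonempty → (M.sec U).FG
  frac : ∀ U ∈ M.ch, ∀ x ∈ U, ∀ b ∈ M.O x, ∃ s ∈ M.sec U, Un (M.O x) s ∧ b * s ∈ M.sec U
  prime : ∀ U ∈ M.ch, U.Nonempty → ∀ I : Ideal (M.sec U), I.IsPrime →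
    ∃ x ∈ U, ∀ a : M.sec U, a ∈ I ↔ ¬ Un (M.O x) a
  com : ∀ U ∈ M.ch, ∀ V ∈ M.ch, ∀ x, x ∈ U → x ∈ V → ∃ a ∈ M.sec U, Un (M.O x) a ∧ M.D U a ⊆ V
  cen : ∀ (z : M.P) (p : Place k (M.mod.kap z)), ∃! x, M.sp z x ∧
    ∀ a ∈ M.O x, M.mod.rs z a ∈ p.R ∧ (M.mod.rs z a ≠ 0 → (M.mod.rs z a)⁻¹ ∈ p.R → a⁻¹ ∈ M.O x)

end Pre

end Pool.Agent.H83.TK
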