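import Pool.Agent.H83.TU.Base
import Pool.Agent.H54.RV.B4
import Pool.Agent.H54.RV.Crd

/-!
# THEOREM K, chapter T1: closed subvarieties, definitions

`X : Mod k K` with `IsVar X`, `z : X.P`.  `subM hX z : Mod k (X.kap z)`: the closure of the point `z` with the reduced
structure: points `{x // z ⤳ x}`, local rings the images of `O x` in the residue field `κ(z)`, affine open sets the
traces of the affine open sets.
-/

set_option autoImplicit false

namespace Pool.Agent.H83.TK

open Pool.Agent.H54.RV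

variable {k K : Type} [Field k] [Field K] [Algebra k K]

/-- the image of the local ring at `x` in the residue field at `z` -/
noncomputable def subO (X : Mod k K) (z x : X.P) : Subalgebra k (X.kap z) where
  carrier := {c | ∃ a ∈ X.O x, a ∈ X.O z ∧ X.rs z a = c}
  mul_mem' := by
    rintro _ _ ⟨a, ha, ha', rfl⟩ ⟨b, hb, hb', rfl⟩
    exact ⟨a * b, mul_mem ha hb, mul_mem ha' hb', rs_mul z ha' hb'⟩
  add_mem' := by
    rintro _ _ ⟨a, ha, ha', rfl⟩ ⟨b, hb, hb', rfl⟩
    exact ⟨a + b, add_mem ha hb, add_mem ha' hb', rs_add z ha' hb'⟩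
  algebraMap_mem' c := ⟨algebraMap k K c, (X.O x).algebraMap_mem c, (X.O z).algebraMap_mem c, rs_alg z c⟩

variable {X : Mod k K}

theorem mem_subO (z x : X.P) (c : X.kap z) : c ∈ subO X z x ↔ ∃ a ∈ X.O x, a ∈ X.O z ∧ X.rs z a = c := Iff.rfl

theorem subO_iff (hX : IsVar X) {z x : X.P} (h : z ⤳ x) (c : X.kap z) :
    c ∈ subO X z x ↔ ∃ a ∈ X.O x, X.rs z a = c := by
  rw [mem_subO]
  exact ⟨fun ⟨a, ha, _, h1⟩ => ⟨a, ha, h1⟩, fun ⟨a, ha, h1⟩ => ⟨a, ha, hX.spec z x h ha, h1⟩⟩

theorem rs_mem_subO (hX : IsVar X) {z x : X.P} (h : z ⤳ x) {a : K} (ha : a ∈ X.O x) : X.rs z a ∈ subO X z x :=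
  ⟨a, ha, hX.spec z x h ha, rfl⟩

private theorem rs_one_sub (z : X.P) {a : K} (ha : a ∈ X.O z) : X.rs z (1 - a) = 1 - X.rs z a := by
  have h1 : X.rs z (1 - a) + X.rs z a = 1 := by
    rw [← rs_add z (sub_mem (one_mem _) ha) ha, sub_add_cancel, rs_one]
  exact eq_sub_of_add_eq h1

/-- units of the image -/
theorem un_subO (hX : IsVar X) {z x : X.P} (h : z ⤳ x) {a : K} (ha : a ∈ X.O x) :
    Un (subO X z x) (X.rs z a) ↔ Un (X.O x) a := by
  constructor
  · rintro ⟨h1, -, h2⟩
    obtain ⟨b, hb, h3⟩ := (subO_iff hX h _).1 h2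
    by_contra h4
    -- a b is in the maximal ideal, 1 - a b is a unit with residue zero at z
    have hle := hX.spec z x h
    have h5 : ¬ Un (X.O x) (a * b) := by
      rw [un_mul_iff ha hb]
      exact fun h6 => h4 h6.1
    have h6 : Un (X.O x) (1 - a * b) := by
      rcases IsLocalRing.isUnit_or_isUnit_one_sub_self (⟨a * b, mul_mem ha hb⟩ : X.O x) with h7 | h7
      · exact absurd ((un_iff (mul_mem ha hb)).1 h7) h5
      · exact (un_iff (sub_mem (one_mem _) (mul_mem ha hb))).1 h7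
    have h7 : X.rs z (1 - a * b) = 0 := by
      rw [rs_one_sub z (mul_mem (hle ha) (hle hb)), rs_mul z (hle ha) (hle hb), h3, mul_inv_cancel₀ h1, sub_self]
    exact (rs_ne z (hle h6.2.1)).2 (un_mono hle h6) h7
  · intro h1
    have hle := hX.spec z x h
    exact ⟨(rs_ne z (hle ha)).2 (un_mono hle h1), rs_mem_subO hX h ha,
      by rw [← rs_inv z (un_mono hle h1)]; exact rs_mem_subO hX h h1.2.2⟩

theorem subO_loc (hX : IsVar X) {z x : X.P} (h : z ⤳ x) : IsLocalRing (subO X z x) := by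
  apply IsLocalRing.of_isUnit_or_isUnit_one_sub_self
  rintro ⟨c, hc⟩
  obtain ⟨a, ha, rfl⟩ := (subO_iff hX h c).1 hc
  have hle := hX.spec z x h
  rcases IsLocalRing.isUnit_or_isUnit_one_sub_self (⟨a, ha⟩ : X.O x) with h1 | h1
  · left
    rw [un_iff hc, un_subO hX h ha]
    exact (un_iff ha).1 h1
  · right
    have h2 := (un_iff (sub_mem (one_mem _) ha)).1 h1
    have h3 : (1 - ⟨X.rs z a, hc⟩ : subO X z x) = ⟨X.rs z (1 - a), rs_mem_subO hX h (sub_mem (one_mem _) ha)⟩ := by
      apply Subtype.ext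
      exact (rs_one_sub z (hle ha)).symm
    rw [h3, un_iff, un_subO hX h (sub_mem (one_mem _) ha)]
    exact h2

/-- the closure of the point `z` with the reduced structure -/
noncomputable def subM (hX : IsVar X) (z : X.P) : Mod k (X.kap z) where
  P := {x : X.P // z ⤳ x}
  O x := subO X z x.1
  loc x := subO_loc hX x.2
  aff U := ∃ V : Set X.P, X.aff V ∧ U = {x | x.1 ∈ V}

theorem subM_spec (hX : IsVar X) (z : X.P) (x y : (subM hX z).P) : x ⤳ y ↔ x.1 ⤳ y.1 :=
  Topology.IsInducing.subtypeVal.specializes_iff.symm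

end Pool.Agent.H83.TK
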