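import Pool.Agent.H83.TK.SubA

/-!
# THEOREM K, chapter T1: the functions on the affine open sets of a closed subvariety

`sec_lift`: if `V` is affine in `X` and meets the closure of `z`, then every `c ∈ κ(z)` which is in the local rings
of the closed subvariety at all points of `V` is the residue class of some `a ∈ sec V`.
Proof: the set `J` of the `s ∈ sec V` with `rs z s * c ∈ rs z (sec V)` is an ideal (it contains the elements with
residue class `0`).  If `1 ∉ J` it is contained in a prime ideal, which is the ideal of the nonunits at some `x ∈ V`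
(`IsVar.prime`).  `z ⤳ x`: otherwise (`IsVar.bas`) there is `a ∈ sec V`, unit at `x`, not unit at `z` (the open set
`{y | ¬ z ⤳ y}ᶜ`.. take an open `W ∋ x` with `z ∉ W`), `rs z a = 0`, `a ∈ J`, contradiction.  So `c = rs z b` with
`b ∈ O x`, `IsVar.frac`: `s ∈ sec V` a unit at `x` with `b * s ∈ sec V`, `s ∈ J`: contradiction.
-/

set_option autoImplicit false

namespace Pool.Agent.H83.TK

open Pool.Agent.H54.RV

variable {k K : Type} [Field k] [Field K] [Algebra k K] {X : Mod k K}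

/-- the open sets which meet the closure of `z` contain `z` -/
theorem mem_of_sp {z x : X.P} (h : z ⤳ x) {U : Set X.P} (hU : IsOpen U) (hx : x ∈ U) : z ∈ U :=
  h.mem_open hU hx

/-- a point of an affine open set is in the closure of `z` if all functions which vanish at `z` are nonunits there -/
theorem sp_of (hX : IsVar X) {V : Set X.P} (hV : X.aff V) {z x : X.P} (hz : z ∈ V) (hx : x ∈ V)
    (h : ∀ a ∈ X.sec V, X.rs z a = 0 → ¬ Un (X.O x) a) : z ⤳ x := by
  rw [specializes_iff_forall_open]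
  intro W hW hxW
  obtain ⟨a, ha, h1, h2⟩ := hX.bas V W x hV hW hx hxW
  by_contra h3
  have h4 : ¬ Un (X.O z) a := fun h5 => h3 (h2 z hz h5)
  have h5 : X.rs z a = 0 := by
    by_contra h6
    exact h4 ((rs_ne z (ha z hz)).1 h6)
  exact h a ((mem_sec V a).2 ha) h5 h1

theorem sec_lift (hX : IsVar X) {V : Set X.P} (hV : X.aff V) {z : X.P} (hz : z ∈ V) (c : X.kap z)
    (hc : ∀ x ∈ V, z ⤳ x → c ∈ subO X z x) : ∃ a ∈ X.sec V, X.rs z a = c := by
  have hs : ∀ a ∈ X.sec V, ∀ x ∈ V, a ∈ X.O x := fun a ha => (mem_sec V a).1 ha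
  let J : Ideal (X.sec V) :=
    { carrier := {s | ∃ a ∈ X.sec V, X.rs z s.1 * c = X.rs z a}
      add_mem' := by
        rintro ⟨s, hs1⟩ ⟨t, ht1⟩ ⟨a, ha, h1⟩ ⟨b, hb, h2⟩
        refine ⟨a + b, add_mem ha hb, ?_⟩
        change X.rs z (s + t) * c = _
        rw [rs_add z (hs s hs1 z hz) (hs t ht1 z hz), rs_add z (hs a ha z hz) (hs b hb z hz), add_mul]
        exact congrArg₂ (· + ·) h1 h2
      zero_mem' := ⟨0, zero_mem _, by
        have h0 : X.rs z 0 = 0 := by
          by_contra h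
          exact ((rs_ne z (zero_mem (X.O z))).1 h).1 rfl
        change X.rs z 0 * c = _
        rw [h0, zero_mul]⟩
      smul_mem' := by
        rintro ⟨r, hr⟩ ⟨s, hs1⟩ ⟨a, ha, h1⟩
        refine ⟨r * a, mul_mem hr ha, ?_⟩
        change X.rs z (r * s) * c = _
        rw [rs_mul z (hs r hr z hz) (hs s hs1 z hz), rs_mul z (hs r hr z hz) (hs a ha z hz), mul_assoc]
        exact congrArg (X.rs z r * ·) h1 }
  by_cases hJ : J = ⊤
  · have h1 : (1 : X.sec V) ∈ J := by rw [hJ]; exact Submodule.mem_top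
    obtain ⟨a, ha, h2⟩ := h1
    refine ⟨a, ha, ?_⟩
    rw [← h2]
    change X.rs z 1 * c = c
    rw [rs_one, one_mul]
  · exfalso
    obtain ⟨I, hI, hJI⟩ := Ideal.exists_le_maximal J hJ
    obtain ⟨x, hx, h1⟩ := hX.prime V hV ⟨z, hz⟩ I hI.isPrime
    have hzx : z ⤳ x := by
      refine sp_of hX hV hz hx fun a ha h2 => ?_
      refine (h1 ⟨a, ha⟩).1 (hJI ⟨0, zero_mem _, ?_⟩)
      change X.rs z a * c = _
      rw [h2, zero_mul]
      by_contra h
      exact ((rs_ne z (zero_mem (X.O z))).1 (Ne.symm h)).1 rfl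
    obtain ⟨b, hb, h2⟩ := (subO_iff hX hzx c).1 (hc x hx hzx)
    obtain ⟨s, hs1, hs2, hs3⟩ := hX.frac V x hV hx b hb
    refine (h1 ⟨s, hs1⟩).1 (hJI ⟨b * s, hs3, ?_⟩) hs2
    change X.rs z s * c = _
    rw [← h2, mul_comm b s, rs_mul z (hs s hs1 z hz) (hX.spec z x hzx hb)]

/-- the functions on the trace of an affine open set -/
theorem sec_sub (hX : IsVar X) {V : Set X.P} (hV : X.aff V) {z : X.P} (hz : z ∈ V) (c : X.kap z) :
    c ∈ (subM hX z).sec {x | x.1 ∈ V} ↔ ∃ a ∈ X.sec V, X.rs z a = c := by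
  rw [mem_sec]
  constructor
  · intro h
    exact sec_lift hX hV hz c fun x hx hzx => h ⟨x, hzx⟩ hx
  · rintro ⟨a, ha, rfl⟩ x hx
    exact rs_mem_subO hX x.2 ((mem_sec V a).1 ha x.1 hx)

end Pool.Agent.H83.TK
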