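import Pool.Agent.H83.TK.SubB

/-!
# THEOREM K, chapter T1: the residue fields of a closed subvariety

For `x` in the closure of `z` the residue field of `subM hX z` at `x` is the residue field of `X` at `x`:
`kapE hX z x : (subM hX z).kap x ≃ₐ[k] X.kap x.1` with `kapE (rs x (rs z a)) = rs x.1 a` for `a ∈ O x.1`
(and both sides are `0` for the other `a` with `rs z a` not in the local ring).
Proof: the surjection `O x.1 → subO X z x.1 → κ`, kernel the maximal ideal (`un_subO`).
-/

set_option autoImplicit false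

namespace Pool.Agent.H83.TK

open Pool.Agent.H54.RV

variable {k K : Type} [Field k] [Field K] [Algebra k K] {X : Mod k K}

/-- the surjection of the local rings -/
noncomputable def subP (hX : IsVar X) (z : X.P) (x : (subM hX z).P) : X.O x.1 →ₐ[k] (subM hX z).O x where
  toFun a := ⟨X.rs z a.1, rs_mem_subO hX x.2 a.2⟩
  map_one' := Subtype.ext (rs_one z)
  map_mul' a b := Subtype.ext (rs_mul z (hX.spec z x.1 x.2 a.2) (hX.spec z x.1 x.2 b.2))
  map_zero' := Subtype.ext (by
    by_contra h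
    exact ((rs_ne z (zero_mem (X.O z))).1 h).1 rfl)
  map_add' a b := Subtype.ext (rs_add z (hX.spec z x.1 x.2 a.2) (hX.spec z x.1 x.2 b.2))
  commutes' c := Subtype.ext (rs_alg z c)

theorem subP_surj (hX : IsVar X) (z : X.P) (x : (subM hX z).P) : Function.Surjective (subP hX z x) := by
  rintro ⟨c, hc⟩
  obtain ⟨a, ha, h1⟩ := (subO_iff hX x.2 c).1 hc
  exact ⟨⟨a, ha⟩, Subtype.ext h1⟩

instance subP_local (hX : IsVar X) (z : X.P) (x : (subM hX z).P) :
    IsLocalHom (subP hX z x : X.O x.1 →+* (subM hX z).O x) where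
  map_nonunit a h := by
    have h1 : IsUnit (⟨X.rs z a.1, rs_mem_subO hX x.2 a.2⟩ : subO X z x.1) := h
    rw [un_iff, un_subO hX x.2 a.2] at h1
    exact (un_iff a.2).2 h1

/-- the map of the residue fields -/
noncomputable def kapM (hX : IsVar X) (z : X.P) (x : (subM hX z).P) : X.kap x.1 →+* (subM hX z).kap x :=
  IsLocalRing.ResidueField.map (subP hX z x : X.O x.1 →+* (subM hX z).O x)

theorem rs_pos' {k K : Type} [Field k] [Field K] [Algebra k K] {X : Mod k K} (z : X.P) {a : K} (ha : a ∈ X.O z) :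
    X.rs z a = IsLocalRing.residue (X.O z) ⟨a, ha⟩ := by
  unfold Mod.rs
  rw [dif_pos ha]

theorem kapM_rs (hX : IsVar X) (z : X.P) (x : (subM hX z).P) {a : K} (ha : a ∈ X.O x.1) :
    kapM hX z x (X.rs x.1 a) = (subM hX z).rs x (X.rs z a) := by
  rw [rs_pos' x.1 ha, rs_pos' (X := subM hX z) x (rs_mem_subO hX x.2 ha)]
  rfl

theorem kapM_bij (hX : IsVar X) (z : X.P) (x : (subM hX z).P) : Function.Bijective (kapM hX z x) := by
  refine ⟨(kapM hX z x).injective, fun c => ?_⟩
  obtain ⟨b, hb, rfl⟩ := rs_surj (X := subM hX z) x c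
  obtain ⟨a, ha, rfl⟩ := (subO_iff hX x.2 b).1 hb
  exact ⟨X.rs x.1 a, kapM_rs hX z x ha⟩

/-- the residue fields are the same -/
noncomputable def kapE (hX : IsVar X) (z : X.P) (x : (subM hX z).P) : (subM hX z).kap x ≃ₐ[k] X.kap x.1 :=
  (AlgEquiv.ofBijective
    ({ kapM hX z x with
        commutes' := fun c => by
          change kapM hX z x (algebraMap k (X.kap x.1) c) = _
          rw [← rs_alg, kapM_rs hX z x ((X.O x.1).algebraMap_mem c), rs_alg, rs_alg] } :
      X.kap x.1 →ₐ[k] (subM hX z).kap x) (kapM_bij hX z x)).symm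

theorem kapE_rs (hX : IsVar X) (z : X.P) (x : (subM hX z).P) {a : K} (ha : a ∈ X.O x.1) :
    kapE hX z x ((subM hX z).rs x (X.rs z a)) = X.rs x.1 a := by
  rw [← kapM_rs hX z x ha]
  unfold kapE
  rw [AlgEquiv.symm_apply_eq]
  rfl

end Pool.Agent.H83.TK
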